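import Pool.Agent.Work.MP_680515_sq.Interface

/-!
# MP_680515_an, THEOREM SQ, block T1B: the upper bound for the first integral
-/

set_option autoImplicit false

open MeasureTheory Set Filter Topology

namespace Pool.SQ

open Pool.Mart Pool.Flat

/-- the cut-off function -/
noncomputable def T1B_t (a ρ1 ρ2 b r : ℝ) : ℝ :=
  max 0 (min 1 (min ((r - a) / (ρ1 - a)) ((b - r) / (b - ρ2))))

noncomputable def T1B_h (a ρ1 ρ2 b r : ℝ) : ℝ := T1B_t a ρ1 ρ2 b r * ((max r a) ^ 3)⁻¹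

section cut

variable {a ρ1 ρ2 b : ℝ}

theorem T1B_t01 (r : ℝ) : 0 ≤ T1B_t a ρ1 ρ2 b r ∧ T1B_t a ρ1 ρ2 b r ≤ 1 := by
  unfold T1B_t
  exact ⟨le_max_left _ _, max_le zero_le_one (min_le_left _ _)⟩

theorem T1B_t1 (h1 : a < ρ1) (h2 : ρ2 < b) (r : ℝ) (hr1 : ρ1 ≤ r) (hr2 : r ≤ ρ2) :
    T1B_t a ρ1 ρ2 b r = 1 := by
  unfold T1B_t
  have e1 : 1 ≤ (r - a) / (ρ1 - a) := by rw [one_le_div (by linarith)]; linarith
  have e2 : 1 ≤ (b - r) / (b - ρ2) := by rw [one_le_div (by linarith)]; linarith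
  rw [min_eq_left (le_min e1 e2), max_eq_right zero_le_one]

theorem T1B_t0 (h1 : a < ρ1) (h2 : ρ2 < b) (r : ℝ) (hr : r ∉ Icc a b) :
    T1B_t a ρ1 ρ2 b r = 0 := by
  unfold T1B_t
  apply max_eq_left
  rw [mem_Icc, not_and_or, not_le, not_le] at hr
  rcases hr with hr | hr
  · exact (min_le_right _ _).trans ((min_le_left _ _).trans
      (div_nonpos_of_nonpos_of_nonneg (by linarith) (by linarith)))
  · exact (min_le_right _ _).trans ((min_le_right _ _).trans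
      (div_nonpos_of_nonpos_of_nonneg (by linarith) (by linarith)))

theorem T1B_tc (ρ1 ρ2 : ℝ) : Continuous (T1B_t a ρ1 ρ2 b) := by
  unfold T1B_t
  fun_prop

theorem T1B_hc (ha : 0 < a) : Continuous (T1B_h a ρ1 ρ2 b) := by
  unfold T1B_h
  apply (T1B_tc ρ1 ρ2).mul
  apply Continuous.inv₀ (by fun_prop)
  intro r
  have : 0 < max r a := lt_max_of_lt_right ha
  positivity

theorem T1B_h0 (ha : 0 < a) (r : ℝ) : 0 ≤ T1B_h a ρ1 ρ2 b r := by
  unfold T1B_h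
  have : 0 < max r a := lt_max_of_lt_right ha
  exact mul_nonneg (T1B_t01 r).1 (by positivity)

theorem T1B_hsupp (h1 : a < ρ1) (h2 : ρ2 < b) : tsupport (T1B_h a ρ1 ρ2 b) ⊆ Icc a b := by
  apply closure_minimal _ isClosed_Icc
  intro r hr
  by_contra h
  apply hr
  unfold T1B_h
  rw [T1B_t0 h1 h2 r h, zero_mul]

theorem T1B_hcs (h1 : a < ρ1) (h2 : ρ2 < b) : HasCompactSupport (T1B_h a ρ1 ρ2 b) :=
  HasCompactSupport.of_support_subset_isCompact isCompact_Icc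
    ((subset_tsupport _).trans (T1B_hsupp h1 h2))

theorem T1B_hint (ha : 0 < a) (h1 : a < ρ1) (h12 : ρ1 ≤ ρ2) (h2 : ρ2 < b) :
    ∫ r, T1B_h a ρ1 ρ2 b r * r ^ 2 ≤ Real.log (b / a) := by
  have hab : a ≤ b := by linarith
  have hb : 0 < b := by linarith
  have hci : IntegrableOn (fun r : ℝ => r⁻¹) (Icc a b) := by
    apply ContinuousOn.integrableOn_Icc
    intro r hr
    exact (continuousAt_inv₀ (by linarith [hr.1] : r ≠ 0) |>.continuousWithinAt)
  have h3 : ∫ r, T1B_h a ρ1 ρ2 b r * r ^ 2 ≤ ∫ r, (Icc a b).indicator (fun r : ℝ => r⁻¹) r := by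
    apply integral_mono_of_nonneg
    · exact Eventually.of_forall fun r => mul_nonneg (T1B_h0 ha r) (sq_nonneg r)
    · exact (integrable_indicator_iff measurableSet_Icc).2 hci
    · refine Eventually.of_forall fun r => ?_
      by_cases hr : r ∈ Icc a b
      · show T1B_h a ρ1 ρ2 b r * r ^ 2 ≤ (Icc a b).indicator (fun r : ℝ => r⁻¹) r
        rw [indicator_of_mem hr]
        have hr0 : 0 < r := by linarith [hr.1]
        unfold T1B_h
        rw [max_eq_left hr.1]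
        have h4 : T1B_t a ρ1 ρ2 b r * (r ^ 3)⁻¹ * r ^ 2 = T1B_t a ρ1 ρ2 b r * r⁻¹ := by
          field_simp
        rw [h4]
        have h5 : 0 < r⁻¹ := inv_pos.2 hr0
        nlinarith [(T1B_t01 (a := a) (ρ1 := ρ1) (ρ2 := ρ2) (b := b) r).2]
      · show T1B_h a ρ1 ρ2 b r * r ^ 2 ≤ (Icc a b).indicator (fun r : ℝ => r⁻¹) r
        rw [indicator_of_notMem hr]
        unfold T1B_h
        rw [T1B_t0 h1 h2 r hr, zero_mul, zero_mul]
  refine h3.trans (le_of_eq ?_)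
  rw [integral_indicator measurableSet_Icc, integral_Icc_eq_integral_Ioc,
    ← intervalIntegral.integral_of_le hab, integral_inv_of_pos ha hb]

end cut

theorem p_T1B (hSHT : Stmt_SHT) (_hINT : Stmt_INT) (hRINT : Pool.Mart.Stmt_RINT) : Stmt_T1B := by
  intro φ ψ A x0 r0 ρ0 hBP κ t1 t2 Λ p1 p2 _hκc hκ01 ht1 ht12 ht2 hts hΛ hp1 hp2 hG
  obtain ⟨-, hpre, -, -, -⟩ := hSHT φ ψ A x0 r0 ρ0 hBP
  have hq1 : 0 < ‖p1 - x0‖ := norm_pos_iff.2 (sub_ne_zero.2 hp1)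
  have hq2 : 0 < ‖p2 - x0‖ := norm_pos_iff.2 (sub_ne_zero.2 hp2)
  have hΛ0 : 0 < Λ := by linarith
  set ρ1 : ℝ := ‖p1 - x0‖ / Λ with hρ1
  set ρ2 : ℝ := Λ * ‖p2 - x0‖ with hρ2
  have hρ1p : 0 < ρ1 := div_pos hq1 hΛ0
  have hρ2p : 0 < ρ2 := mul_pos hΛ0 hq2
  have hring : ∀ x ∈ ψ.source, t1 ≤ ‖fm φ ψ x - fm φ ψ x0‖ → ‖fm φ ψ x - fm φ ψ x0‖ ≤ t2 →
      ρ1 ≤ ‖x - x0‖ ∧ ‖x - x0‖ ≤ ρ2 := by
    intro x hx h1 h2
    obtain ⟨h3, h4⟩ := hG x hx h1 h2
    exact ⟨by rw [hρ1, div_le_iff₀ hΛ0]; linarith, h4⟩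
  have h12 : ρ1 ≤ ρ2 := by
    have hn : ‖(fm φ ψ x0 + t1 • (EuclideanSpace.single 0 (1 : ℝ) : E3)) - fm φ ψ x0‖ = t1 := by
      rw [add_sub_cancel_left, norm_smul, EuclideanSpace.norm_single]
      simp [abs_of_pos ht1]
    obtain ⟨p, hp, hpe⟩ := hpre _ (hn.le.trans (ht12.le.trans ht2.le))
    have := hring p hp (by rw [hpe, hn]) (by rw [hpe, hn]; exact ht12.le)
    exact this.1.trans this.2
  have hlog : Real.log (ρ2 / ρ1) = Real.log (‖p2 - x0‖ / ‖p1 - x0‖) + 2 * Real.log Λ := by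
    have : ρ2 / ρ1 = (‖p2 - x0‖ / ‖p1 - x0‖) * (Λ * Λ) := by
      rw [hρ1, hρ2]
      field_simp
    rw [this, Real.log_mul (by positivity) (by positivity), Real.log_mul (by positivity)
      (by positivity)]
    ring
  have key : ∀ δ : ℝ, 0 < δ → δ < 1 →
      ∫ x in Metric.ball x0 r0, κ ‖fm φ ψ x - fm φ ψ x0‖ * (‖x - x0‖ ^ 3)⁻¹
        ≤ 4 * Real.pi * (Real.log (ρ2 / ρ1) + (Real.log (1 + δ) - Real.log (1 - δ))) := by
    intro δ hδ hδ1
    set a : ℝ := (1 - δ) * ρ1 with ha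
    set b : ℝ := (1 + δ) * ρ2 with hb
    have ha0 : 0 < a := mul_pos (by linarith) hρ1p
    have ha1 : a < ρ1 := by rw [ha]; nlinarith
    have hb1 : ρ2 < b := by rw [hb]; nlinarith
    have hb0 : 0 < b := by linarith
    have hcont : Continuous (fun x : E3 => T1B_h a ρ1 ρ2 b ‖x‖) :=
      (T1B_hc ha0).comp continuous_norm
    have hcs : HasCompactSupport (fun x : E3 => T1B_h a ρ1 ρ2 b ‖x‖) := by
      apply HasCompactSupport.of_support_subset_isCompact (isCompact_closedBall (0 : E3) b)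
      intro x hx
      have := T1B_hsupp ha1 hb1 (subset_tsupport _ hx)
      rw [mem_closedBall_zero_iff]
      exact this.2
    have hint : Integrable (fun x : E3 => T1B_h a ρ1 ρ2 b ‖x‖) := hcont.integrable_of_hasCompactSupport hcs
    have hint' : Integrable (fun x : E3 => T1B_h a ρ1 ρ2 b ‖x - x0‖) := hint.comp_sub_right x0
    have h1 : ∫ x in Metric.ball x0 r0, κ ‖fm φ ψ x - fm φ ψ x0‖ * (‖x - x0‖ ^ 3)⁻¹
        ≤ ∫ x in Metric.ball x0 r0, T1B_h a ρ1 ρ2 b ‖x - x0‖ := by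
      apply integral_mono_of_nonneg
      · exact Eventually.of_forall fun x => mul_nonneg (hκ01 _).1 (by positivity)
      · exact hint'.integrableOn
      · rw [EventuallyLE, ae_restrict_iff' measurableSet_ball]
        refine Eventually.of_forall fun x hx => ?_
        have hxs : x ∈ ψ.source := hBP.sub (Metric.ball_subset_closedBall hx)
        by_cases hk : κ ‖fm φ ψ x - fm φ ψ x0‖ = 0
        · rw [hk, zero_mul]
          exact T1B_h0 ha0 _
        · have h2 := hts (subset_tsupport κ hk)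
          obtain ⟨h3, h4⟩ := hring x hxs h2.1 h2.2
          unfold T1B_h
          rw [T1B_t1 ha1 hb1 _ h3 h4, one_mul, max_eq_left (by linarith)]
          have h5 : 0 ≤ (‖x - x0‖ ^ 3)⁻¹ := by positivity
          nlinarith [(hκ01 ‖fm φ ψ x - fm φ ψ x0‖).2]
    have h2 : ∫ x in Metric.ball x0 r0, T1B_h a ρ1 ρ2 b ‖x - x0‖
        ≤ ∫ x : E3, T1B_h a ρ1 ρ2 b ‖x - x0‖ :=
      setIntegral_le_integral hint' (Eventually.of_forall fun x => T1B_h0 ha0 _)
    have h3 : ∫ x : E3, T1B_h a ρ1 ρ2 b ‖x - x0‖ = ∫ x : E3, T1B_h a ρ1 ρ2 b ‖x‖ :=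
      integral_sub_right_eq_self (fun x : E3 => T1B_h a ρ1 ρ2 b ‖x‖) x0
    have h4 := hRINT (T1B_h a ρ1 ρ2 b) 0 (b + 1) le_rfl (T1B_hc ha0) (T1B_hcs ha1 hb1)
      (fun r hr => by
        have := T1B_hsupp ha1 hb1 hr
        exact ⟨by linarith [this.1], by linarith [this.2]⟩)
    have h5 := T1B_hint ha0 ha1 h12 hb1
    have h6 : Real.log (b / a) = Real.log (ρ2 / ρ1) + (Real.log (1 + δ) - Real.log (1 - δ)) := by
      rw [ha, hb, Real.log_div (by positivity) ha0.ne', Real.log_mul (by positivity) (by positivity),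
        Real.log_mul (by linarith) hρ1p.ne', Real.log_div hρ2p.ne' hρ1p.ne']
      ring
    calc _ ≤ _ := h1
      _ ≤ _ := h2
      _ = 4 * Real.pi * ∫ r, T1B_h a ρ1 ρ2 b r * r ^ 2 := by rw [h3, h4]
      _ ≤ 4 * Real.pi * Real.log (b / a) :=
        mul_le_mul_of_nonneg_left h5 (by positivity)
      _ = _ := by rw [h6]
  rw [← hlog]
  have hlim : Tendsto (fun δ : ℝ => 4 * Real.pi * (Real.log (ρ2 / ρ1) +
      (Real.log (1 + δ) - Real.log (1 - δ)))) (𝓝[>] 0) (𝓝 (4 * Real.pi * (Real.log (ρ2 / ρ1) +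
      (Real.log (1 + 0) - Real.log (1 - 0))))) := by
    apply Tendsto.mono_left _ nhdsWithin_le_nhds
    apply ContinuousAt.tendsto (f := fun δ : ℝ => 4 * Real.pi * (Real.log (ρ2 / ρ1) +
      (Real.log (1 + δ) - Real.log (1 - δ))))
    have c1 : ContinuousAt (fun δ : ℝ => Real.log (1 + δ)) 0 :=
      ContinuousAt.log (by fun_prop) (by norm_num)
    have c2 : ContinuousAt (fun δ : ℝ => Real.log (1 - δ)) 0 :=
      ContinuousAt.log (by fun_prop) (by norm_num)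
    exact continuousAt_const.mul (continuousAt_const.add (c1.sub c2))
  have hlim' := ge_of_tendsto hlim (b := ∫ x in Metric.ball x0 r0,
    κ ‖fm φ ψ x - fm φ ψ x0‖ * (‖x - x0‖ ^ 3)⁻¹) (by
      have h1 : Ioo (0 : ℝ) 1 ∈ 𝓝[>] (0 : ℝ) := Ioo_mem_nhdsGT one_pos
      filter_upwards [h1] with δ hδ
      exact key δ hδ.1 hδ.2)
  simpa using hlim'

end Pool.SQ
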