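import Pool.Agent.Work.MP_680515_sq.Interface

/-!
# MP_680515_an, THEOREM SQ: block T2B
-/

set_option autoImplicit false

open MeasureTheory Set Filter Topology

namespace Pool.SQ

open Pool.Mart Pool.Flat

theorem T2B_h {k : ℝ → ℝ} {ρ0 : ℝ} (hk : Continuous k) (hc : HasCompactSupport k)
    (hts : tsupport k ⊆ Ioo 0 ρ0) :
    Continuous (fun s => k s / s ^ 2) ∧ HasCompactSupport (fun s => k s / s ^ 2) ∧
      tsupport (fun s => k s / s ^ 2) ⊆ Ioo 0 ρ0 := by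
  have hsup : Function.support (fun s => k s / s ^ 2) ⊆ Function.support k := by
    intro s hs h
    apply hs
    change k s / s ^ 2 = 0
    rw [h, zero_div]
  have hts' : tsupport (fun s => k s / s ^ 2) ⊆ tsupport k := closure_mono hsup
  refine ⟨?_, hc.mono hsup, hts'.trans hts⟩
  apply continuous_of_tsupport
  intro s hs
  have hs0 : 0 < s := (hts (hts' hs)).1
  exact hk.continuousAt.div (continuousAt_id.pow 2) (by positivity)

theorem T2B_det {φ ψ : OpenPartialHomeomorph E3 E3} {A : E3 → M3} {x0 : E3} {r0 ρ0 : ℝ}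
    (hB : BP φ ψ A x0 r0 ρ0) :
    ∀ᵐ x ∂(volume.restrict (Metric.ball x0 r0)), 0 ≤ (A x).det := by
  have hsub : Metric.ball x0 r0 ⊆ ψ.source := Metric.ball_subset_closedBall.trans hB.sub
  filter_upwards [ae_restrict_of_ae_restrict_of_subset hsub hB.wm.good] with x hx
  have h1 : 0 ≤ opn (A x) := norm_nonneg _
  have h2 : 0 ≤ opn (A x) ^ 3 := by positivity
  linarith [hx.2]

theorem T2B_mass (hW : Stmt_WDEG) (hR : Pool.Mart.Stmt_RINT) {φ ψ : OpenPartialHomeomorph E3 E3}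
    {A : E3 → M3} {x0 : E3} {r0 ρ0 : ℝ} (hB : BP φ ψ A x0 r0 ρ0) {k : ℝ → ℝ} (hk : Continuous k)
    (hc : HasCompactSupport k) (hts : tsupport k ⊆ Ioo 0 ρ0) :
    IntegrableOn (fun x => (A x).det * (k ‖fm φ ψ x - fm φ ψ x0‖ / ‖fm φ ψ x - fm φ ψ x0‖ ^ 2))
      (Metric.ball x0 r0) ∧
    ∫ x in Metric.ball x0 r0, (A x).det *
      (k ‖fm φ ψ x - fm φ ψ x0‖ / ‖fm φ ψ x - fm φ ψ x0‖ ^ 2) = 8 * Real.pi * ∫ s, k s := by
  obtain ⟨h1, h2, h3⟩ := T2B_h hk hc hts
  have hcn : Continuous fun y : E3 => ‖y - fm φ ψ x0‖ :=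
    continuous_norm.comp (continuous_id.sub continuous_const)
  have hzero : ∀ s : ℝ, s ∉ Ioo 0 ρ0 → k s / s ^ 2 = 0 := by
    intro s hs
    by_contra hne
    exact hs (h3 (subset_tsupport _ hne))
  have hg : Continuous fun y : E3 => k ‖y - fm φ ψ x0‖ / ‖y - fm φ ψ x0‖ ^ 2 := h1.comp hcn
  have hgc : HasCompactSupport fun y : E3 => k ‖y - fm φ ψ x0‖ / ‖y - fm φ ψ x0‖ ^ 2 := by
    apply HasCompactSupport.intro (isCompact_closedBall (fm φ ψ x0) ρ0)
    intro y hy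
    apply hzero
    intro h
    apply hy
    rw [Metric.mem_closedBall, dist_eq_norm]
    exact h.2.le
  have hgt : tsupport (fun y : E3 => k ‖y - fm φ ψ x0‖ / ‖y - fm φ ψ x0‖ ^ 2) ⊆ VD φ ψ x0 ρ0 := by
    have hcl : IsClosed ((fun y : E3 => ‖y - fm φ ψ x0‖) ⁻¹' tsupport (fun s => k s / s ^ 2)) :=
      (isClosed_tsupport _).preimage hcn
    have h4 : tsupport (fun y : E3 => k ‖y - fm φ ψ x0‖ / ‖y - fm φ ψ x0‖ ^ 2) ⊆
        (fun y : E3 => ‖y - fm φ ψ x0‖) ⁻¹' tsupport (fun s => k s / s ^ 2) := by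
      apply closure_minimal _ hcl
      intro y hy
      exact subset_tsupport _ hy
    intro y hy
    exact h3 (h4 hy)
  obtain ⟨i1, _, i3⟩ := hW φ ψ A x0 r0 ρ0 hB (fun _ => 1)
    (fun y => k ‖y - fm φ ψ x0‖ / ‖y - fm φ ψ x0‖ ^ 2) continuousOn_const hg hgc hgt
  simp only [one_mul] at i1 i3
  refine ⟨i1, ?_⟩
  rw [i3]
  have e1 : ∀ y : E3, FS φ ψ (fun _ => 1) y * (k ‖y - fm φ ψ x0‖ / ‖y - fm φ ψ x0‖ ^ 2) =
      2 * (k ‖y - fm φ ψ x0‖ / ‖y - fm φ ψ x0‖ ^ 2) := by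
    intro y
    unfold FS
    norm_num
  simp_rw [e1]
  rw [integral_const_mul, integral_sub_right_eq_self (fun X : E3 => k ‖X‖ / ‖X‖ ^ 2) (fm φ ψ x0),
    hR (fun s => k s / s ^ 2) 0 ρ0 le_rfl h1 h2 h3]
  have e2 : ∀ r : ℝ, k r / r ^ 2 * r ^ 2 = k r := by
    intro r
    by_cases hr : r = 0
    · have hk0 : k r = 0 := by
        by_contra hne
        have := (hts (subset_tsupport _ hne)).1
        rw [hr] at this
        exact lt_irrefl _ this
      rw [hk0]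
      simp
    · field_simp
  simp_rw [e2]
  ring

theorem T2B_up {κ : ℝ → ℝ} {ρ0 s1 : ℝ} (hκ : Kap 0 ρ0 κ) (h1 : κ s1 = 1) (hs0 : 0 < s1)
    (hm : ∀ s, s ≤ s1 → 0 ≤ deriv κ s) (hd : ∀ s, s1 ≤ s → deriv κ s ≤ 0) :
    ∫ s, max (deriv κ s) 0 = 1 := by
  have hκ0 : ∀ s, s ∉ Ioo 0 ρ0 → deriv κ s = 0 := by
    intro s hs
    by_contra hne
    exact hs (hκ.ts (support_deriv_subset hne))
  have e1 : (fun s => max (deriv κ s) 0) = (Ioc 0 s1).indicator (deriv κ) := by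
    funext s
    by_cases hs : s ∈ Ioc 0 s1
    · rw [Set.indicator_of_mem hs, max_eq_left (hm s hs.2)]
    · rw [Set.indicator_of_notMem hs]
      rcases le_or_gt s 0 with h | h
      · rw [hκ0 s fun h' => absurd h'.1 (not_lt.2 h), max_self]
      · have h2 : s1 ≤ s := by
          by_contra h3
          exact hs ⟨h, (not_le.1 h3).le⟩
        exact max_eq_right (hd s h2)
  rw [e1, integral_indicator measurableSet_Ioc, ← intervalIntegral.integral_of_le hs0.le]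
  rw [intervalIntegral.integral_deriv_eq_sub' κ rfl
    (fun x _ => (hκ.c1.differentiable one_ne_zero).differentiableAt)
    (hκ.c1.continuous_deriv le_rfl).continuousOn, h1]
  have h2 : κ 0 = 0 := by
    by_contra hne
    exact lt_irrefl _ (hκ.ts (subset_tsupport _ hne)).1
  rw [h2, sub_zero]

theorem T2B_dn {κ : ℝ → ℝ} {ρ0 s1 : ℝ} (hκ : Kap 0 ρ0 κ) (h1 : κ s1 = 1) (hs1 : s1 < ρ0)
    (hm : ∀ s, s ≤ s1 → 0 ≤ deriv κ s) (hd : ∀ s, s1 ≤ s → deriv κ s ≤ 0) :
    ∫ s, max (-deriv κ s) 0 = 1 := by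
  have hκ0 : ∀ s, s ∉ Ioo 0 ρ0 → deriv κ s = 0 := by
    intro s hs
    by_contra hne
    exact hs (hκ.ts (support_deriv_subset hne))
  have e1 : (fun s => max (-deriv κ s) 0) = (Ioc s1 ρ0).indicator (fun s => -deriv κ s) := by
    funext s
    by_cases hs : s ∈ Ioc s1 ρ0
    · rw [Set.indicator_of_mem hs, max_eq_left (neg_nonneg.2 (hd s hs.1.le))]
    · rw [Set.indicator_of_notMem hs]
      rcases le_or_gt s s1 with h | h
      · exact max_eq_right (neg_nonpos.2 (hm s h))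
      · have h2 : ρ0 < s := by
          by_contra h3
          exact hs ⟨h, not_lt.1 h3⟩
        rw [hκ0 s fun h' => absurd h'.2 (not_lt.2 h2.le), neg_zero, max_self]
  rw [e1, integral_indicator measurableSet_Ioc, ← intervalIntegral.integral_of_le hs1.le,
    intervalIntegral.integral_neg]
  rw [intervalIntegral.integral_deriv_eq_sub' κ rfl
    (fun x _ => (hκ.c1.differentiable one_ne_zero).differentiableAt)
    (hκ.c1.continuous_deriv le_rfl).continuousOn, h1]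
  have h2 : κ ρ0 = 0 := by
    by_contra hne
    exact lt_irrefl _ (hκ.ts (subset_tsupport _ hne)).2
  rw [h2]
  norm_num

theorem p_T2B (hT : Stmt_T2I) (hW : Stmt_WDEG) (hS : Stmt_SHT) (hI : Stmt_INT)
    (hR : Pool.Mart.Stmt_RINT) : Stmt_T2B := by
  intro φ ψ A x0 r0 ρ0 hB κ s1 Λ p1 p2 hκ h1 hs0 hs1 hm hd hΛ hp1 hp2 hX1 hX2
  have hUD := (hS φ ψ A x0 r0 ρ0 hB).2.2.2.2
  have hk : Continuous (deriv κ) := hκ.c1.continuous_deriv le_rfl
  have hks : Function.support (deriv κ) ⊆ tsupport κ := support_deriv_subset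
  have hkc : HasCompactSupport (deriv κ) := hκ.cs.deriv
  have hkt : tsupport (deriv κ) ⊆ Ioo 0 ρ0 :=
    (closure_minimal hks (isClosed_tsupport κ)).trans hκ.ts
  have k1c : Continuous fun s => max (deriv κ s) 0 := hk.max continuous_const
  have k2c : Continuous fun s => max (-deriv κ s) 0 := hk.neg.max continuous_const
  have k1s : Function.support (fun s => max (deriv κ s) 0) ⊆ Function.support (deriv κ) := by
    intro s hs h
    apply hs
    change max (deriv κ s) 0 = 0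
    rw [h, max_self]
  have k2s : Function.support (fun s => max (-deriv κ s) 0) ⊆ Function.support (deriv κ) := by
    intro s hs h
    apply hs
    change max (-deriv κ s) 0 = 0
    rw [h, neg_zero, max_self]
  obtain ⟨a1, b1⟩ := T2B_mass hW hR hB k1c (hkc.mono k1s) ((closure_mono k1s).trans hkt)
  obtain ⟨a2, b2⟩ := T2B_mass hW hR hB k2c (hkc.mono k2s) ((closure_mono k2s).trans hkt)
  rw [T2B_up hκ h1 hs0 hm hd, mul_one] at b1
  rw [T2B_dn hκ h1 hs1 hm hd, mul_one] at b2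
  obtain ⟨c1, c2, c3⟩ := T2B_h hk hkc hkt
  have hlog : ContinuousOn (fun x : E3 => Real.log ‖x - x0‖) (UD φ ψ x0 ρ0) := by
    apply ContinuousOn.log (continuous_norm.comp (continuous_id.sub continuous_const)).continuousOn
    intro x hx h
    exact (hUD hx).2 (sub_eq_zero.1 (norm_eq_zero.1 h))
  have hint : IntegrableOn (fun x => Real.log ‖x - x0‖ * ((A x).det *
      (deriv κ ‖fm φ ψ x - fm φ ψ x0‖ / ‖fm φ ψ x - fm φ ψ x0‖ ^ 2))) (Metric.ball x0 r0) := by
    have h := ((hI φ ψ A x0 r0 ρ0 hB _ c1 c2 c3).1 _ hlog).2.1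
    refine h.congr_fun (fun x _ => ?_) measurableSet_ball
    simp only
    ring
  rw [hT φ ψ A x0 r0 ρ0 hB κ hκ]
  have hΛ0 : 0 < Λ := by linarith
  have hP1 : 0 < ‖p1 - x0‖ := norm_pos_iff.2 (sub_ne_zero.2 hp1)
  have hP2 : 0 < ‖p2 - x0‖ := norm_pos_iff.2 (sub_ne_zero.2 hp2)
  have hle : ∫ x in Metric.ball x0 r0, Real.log ‖x - x0‖ * ((A x).det *
      (deriv κ ‖fm φ ψ x - fm φ ψ x0‖ / ‖fm φ ψ x - fm φ ψ x0‖ ^ 2)) ≤
      ∫ x in Metric.ball x0 r0, ((Real.log ‖p1 - x0‖ + Real.log Λ) * ((A x).det *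
        (max (deriv κ ‖fm φ ψ x - fm φ ψ x0‖) 0 / ‖fm φ ψ x - fm φ ψ x0‖ ^ 2)) -
        (Real.log ‖p2 - x0‖ - Real.log Λ) * ((A x).det *
        (max (-deriv κ ‖fm φ ψ x - fm φ ψ x0‖) 0 / ‖fm φ ψ x - fm φ ψ x0‖ ^ 2))) := by
    refine integral_mono_ae hint ((a1.const_mul _).sub (a2.const_mul _)) ?_
    filter_upwards [T2B_det hB, ae_restrict_mem measurableSet_ball] with x hJ hx
    have hxs : x ∈ ψ.source := hB.sub (Metric.ball_subset_closedBall hx)
    obtain ⟨Y, hY⟩ : ∃ Y : ℝ, Y = ‖fm φ ψ x - fm φ ψ x0‖ := ⟨_, rfl⟩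
    have g1 := hX1 x hxs
    have g2 := hX2 x hxs
    rw [← hY] at g1 g2 ⊢
    have hpos : deriv κ Y ≠ 0 → 0 < ‖x - x0‖ := by
      intro hne
      have h2 := hkt (subset_tsupport _ hne)
      have h3 : x ∈ UD φ ψ x0 ρ0 := ⟨hxs, by rw [← hY]; exact h2.1, by rw [← hY]; exact h2.2⟩
      exact norm_pos_iff.2 (sub_ne_zero.2 (hUD h3).2)
    have hYY : 0 ≤ (Y ^ 2)⁻¹ := by positivity
    rcases lt_trichotomy (deriv κ Y) 0 with h | h | h
    · have hs : s1 ≤ Y := by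
        by_contra h3
        exact absurd (hm Y (not_le.1 h3).le) (not_le.2 h)
      have hX := hpos h.ne
      have h4 := g2 hs h.ne
      have h5 : Real.log ‖p2 - x0‖ ≤ Real.log Λ + Real.log ‖x - x0‖ := by
        rw [← Real.log_mul hΛ0.ne' hX.ne']
        exact Real.log_le_log hP2 h4
      rw [max_eq_right h.le, max_eq_left (neg_nonneg.2 h.le)]
      have h6 : 0 ≤ (A x).det * (-deriv κ Y * (Y ^ 2)⁻¹) :=
        mul_nonneg hJ (mul_nonneg (neg_nonneg.2 h.le) hYY)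
      have h7 : 0 ≤ (Real.log Λ + Real.log ‖x - x0‖ - Real.log ‖p2 - x0‖) *
          ((A x).det * (-deriv κ Y * (Y ^ 2)⁻¹)) := mul_nonneg (by linarith) h6
      simp only [div_eq_mul_inv, zero_mul, mul_zero]
      nlinarith [h7]
    · rw [h, neg_zero, max_self]
      simp
    · have hs : Y ≤ s1 := by
        by_contra h3
        exact absurd (hd Y (not_le.1 h3).le) (not_le.2 h)
      have hX := hpos h.ne'
      have h4 := g1 hs h.ne'
      have h5 : Real.log ‖x - x0‖ ≤ Real.log Λ + Real.log ‖p1 - x0‖ := by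
        rw [← Real.log_mul hΛ0.ne' hP1.ne']
        exact Real.log_le_log hX h4
      rw [max_eq_left h.le, max_eq_right (neg_nonpos.2 h.le)]
      have h6 : 0 ≤ (A x).det * (deriv κ Y * (Y ^ 2)⁻¹) :=
        mul_nonneg hJ (mul_nonneg h.le hYY)
      have h7 : 0 ≤ (Real.log Λ + Real.log ‖p1 - x0‖ - Real.log ‖x - x0‖) *
          ((A x).det * (deriv κ Y * (Y ^ 2)⁻¹)) := mul_nonneg (by linarith) h6
      simp only [div_eq_mul_inv, zero_mul, mul_zero]
      nlinarith [h7]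
  rw [integral_sub (a1.const_mul _) (a2.const_mul _), integral_const_mul, integral_const_mul,
    b1, b2] at hle
  rw [Real.log_div hP2.ne' hP1.ne']
  linarith

end Pool.SQ
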