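import Pool.Agent.Work.MP_680515_sq.Interface

/-!
# MP_680515_an, THEOREM SQ: block KEY
-/

open MeasureTheory Set Filter Topology
open scoped Manifold ContDiff

namespace Pool.SQ

open Pool.Mart Pool.Flat

theorem KEY_cont {κ : ℝ → ℝ} (hc : Continuous κ) (h0 : (0 : ℝ) ∉ tsupport κ) :
    Continuous (fun t => κ t / t) := by
  refine continuous_iff_continuousAt.2 fun t => ?_
  by_cases ht : t = 0
  · subst ht
    have h1 : κ =ᶠ[𝓝 0] 0 := notMem_tsupport_iff_eventuallyEq.1 h0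
    have h2 : (fun t => κ t / t) =ᶠ[𝓝 0] fun _ => (0 : ℝ) := by
      filter_upwards [h1] with t ht
      rw [ht, Pi.zero_apply, zero_div]
    exact (continuousAt_const (y := (0 : ℝ))).congr h2.symm
  · exact hc.continuousAt.div continuousAt_id ht

theorem KEY_int {κ : ℝ → ℝ} {s1 : ℝ} (h : Kap 0 s1 κ) : Integrable (fun t => κ t / t) := by
  have h0 : (0 : ℝ) ∉ tsupport κ := fun h0 => lt_irrefl _ (h.ts h0).1
  refine (KEY_cont h.c1.continuous h0).integrable_of_hasCompactSupport ?_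
  simp only [div_eq_mul_inv]
  exact h.cs.mul_right

theorem KEY_part {κ : ℝ → ℝ} {s1 : ℝ} (hκ : Kap 0 s1 κ) (β : ℝ → ℝ)
    (hβ : ∀ s ∈ Ioo 0 s1, 0 < β s) :
    ∃ (ι : Type) (_ : Fintype ι) (s : ι → ℝ) (k : ι → ℝ → ℝ),
      (∀ i, s i ∈ Ioo 0 s1) ∧
      (∀ i, Kap (s i * Real.exp (-β (s i))) (s i * Real.exp (β (s i))) (k i)) ∧
      (∀ i, Kap 0 s1 (k i)) ∧ ∀ x, κ x = ∑ i, k i x := by
  classical
  set U : ℝ → Set ℝ := fun x => Ioo (x * Real.exp (-β x)) (x * Real.exp (β x)) with hU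
  have hmem : ∀ x ∈ tsupport κ, x ∈ U x := by
    intro x hx
    have h1 := hκ.ts hx
    have h2 := hβ x h1
    refine ⟨?_, ?_⟩
    · have h3 : Real.exp (-β x) < 1 := by
        rw [Real.exp_lt_one_iff]; linarith
      nlinarith [h1.1]
    · have h3 : 1 < Real.exp (β x) := Real.one_lt_exp_iff.2 h2
      nlinarith [h1.1]
  obtain ⟨t, ht1, ht2⟩ := IsCompact.elim_nhds_subcover hκ.cs.isCompact U
    (fun x hx => isOpen_Ioo.mem_nhds (hmem x hx))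
  obtain ⟨f, hf⟩ := SmoothPartitionOfUnity.exists_isSubordinate 𝓘(ℝ, ℝ) (isClosed_tsupport κ)
    (fun i : {x // x ∈ t} => U i) (fun i => isOpen_Ioo) (by
      intro x hx
      obtain ⟨y, hy, hxy⟩ := mem_iUnion₂.1 (ht2 hx)
      exact mem_iUnion.2 ⟨⟨y, hy⟩, hxy⟩)
  have hk : ∀ i : {x // x ∈ t}, tsupport (fun x => f i x * κ x) ⊆ tsupport (f i) ∩ tsupport κ :=
    fun i => subset_inter (tsupport_mul_subset_left) (tsupport_mul_subset_right)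
  have hc1 : ∀ i : {x // x ∈ t}, ContDiff ℝ 1 (fun x => f i x * κ x) := by
    intro i
    have h1 : ContDiff ℝ ∞ (f i) := contMDiff_iff_contDiff.1 (f i).contMDiff
    exact (h1.of_le (by exact_mod_cast le_top)).mul hκ.c1
  refine ⟨{x // x ∈ t}, inferInstance, fun i => i.1, fun i x => f i x * κ x,
    fun i => hκ.ts (ht1 i.1 i.2), fun i => ⟨hc1 i, fun x => mul_nonneg (f.nonneg i x) (hκ.nn x),
      hκ.cs.mul_left, fun x hx => hf i (hk i hx).1⟩,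
    fun i => ⟨hc1 i, fun x => mul_nonneg (f.nonneg i x) (hκ.nn x),
      hκ.cs.mul_left, fun x hx => hκ.ts (hk i hx).2⟩, fun x => ?_⟩
  rw [← Finset.sum_mul]
  by_cases hx : x ∈ tsupport κ
  · have h1 := f.sum_eq_one hx
    rw [finsum_eq_sum_of_fintype] at h1
    rw [h1, one_mul]
  · rw [image_eq_zero_of_notMem_tsupport hx, mul_zero]

theorem KEY_fx (A : M3) (X Y : E3) :
    fx A X Y / ‖X‖ = cpair A ((‖Y‖ ^ 3)⁻¹ • Y) ((‖X‖⁻¹ * ‖X‖⁻¹) • X) := by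
  simp only [fx, cpair, PiLp.smul_apply, smul_eq_mul]
  rw [div_eq_inv_mul, Finset.mul_sum]
  refine Finset.sum_congr rfl fun i _ => ?_
  rw [Finset.mul_sum]
  refine Finset.sum_congr rfl fun j _ => ?_
  ring

theorem p_KEY (hLV2 : Stmt_LV2) (hINT : Stmt_INT) (hFSC : Stmt_FSC) : Stmt_KEY := by
  intro φ ψ A x0 r0 ρ0 hBP
  obtain ⟨s1, hs1, hs1ρ, hs⟩ := hLV2 φ ψ A x0 r0 ρ0 hBP
  refine ⟨s1, hs1, hs1ρ, fun κ hκ => ?_⟩
  have hs' : ∀ s : ℝ, ∃ β : ℝ, s ∈ Ioo 0 s1 → 0 < β ∧ s * Real.exp β < s1 ∧ ∀ κ : ℝ → ℝ,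
      Kap (s * Real.exp (-β)) (s * Real.exp β) κ →
      1 / 200 * ∫ t, κ t / t
        ≤ (∫ x in Metric.ball x0 r0, κ ‖fm φ ψ x - fm φ ψ x0‖ * (‖x - x0‖ ^ 3)⁻¹)
          - 1 / 2 * ∫ x in Metric.ball x0 r0, κ ‖fm φ ψ x - fm φ ψ x0‖ *
            (fx (A x) (x - x0) (fm φ ψ x - fm φ ψ x0) / ‖x - x0‖) := by
    intro s
    by_cases h : s ∈ Ioo 0 s1
    · obtain ⟨β, hβ⟩ := hs s h
      exact ⟨β, fun _ => hβ⟩
    · exact ⟨0, fun h' => absurd h' h⟩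
  choose β hβ using hs'
  obtain ⟨ι, _, s, k, hsI, hk1, hk2, hsum⟩ := KEY_part hκ β fun s h => (hβ s h).1
  have hcont := (hFSC φ ψ A x0 r0 ρ0 hBP).2.2.1
  have hne : ∀ x ∈ UD φ ψ x0 ρ0, x - x0 ≠ 0 := by
    intro x hx h0
    have h1 : x = x0 := sub_eq_zero.1 h0
    have h2 := hx.2.1
    rw [h1, sub_self, norm_zero] at h2
    exact lt_irrefl _ h2
  have hX : ContinuousOn (fun x : E3 => x - x0) (UD φ ψ x0 ρ0) :=
    (continuous_id.sub continuous_const).continuousOn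
  have hY : ContinuousOn (fun x : E3 => fm φ ψ x - fm φ ψ x0) (UD φ ψ x0 ρ0) :=
    hcont.sub continuousOn_const
  have hg : ContinuousOn (fun x : E3 => (‖x - x0‖ ^ 3)⁻¹) (UD φ ψ x0 ρ0) :=
    (hX.norm.pow 3).inv₀ fun x hx => pow_ne_zero 3 (norm_ne_zero_iff.2 (hne x hx))
  have hH : ContinuousOn (fun x : E3 => (‖fm φ ψ x - fm φ ψ x0‖ ^ 3)⁻¹ • (fm φ ψ x - fm φ ψ x0))
      (UD φ ψ x0 ρ0) :=
    ((hY.norm.pow 3).inv₀ fun x hx => pow_ne_zero 3 hx.2.1.ne').smul hY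
  have hb : ContinuousOn (fun x : E3 => (‖x - x0‖⁻¹ * ‖x - x0‖⁻¹) • (x - x0)) (UD φ ψ x0 ρ0) := by
    have h1 : ContinuousOn (fun x : E3 => ‖x - x0‖⁻¹) (UD φ ψ x0 ρ0) :=
      hX.norm.inv₀ fun x hx => norm_ne_zero_iff.2 (hne x hx)
    exact (h1.mul h1).smul hX
  have hI1 : ∀ i, IntegrableOn (fun x => k i ‖fm φ ψ x - fm φ ψ x0‖ * (‖x - x0‖ ^ 3)⁻¹)
      (Metric.ball x0 r0) := fun i =>
    ((hINT φ ψ A x0 r0 ρ0 hBP (k i) (hk2 i).c1.continuous (hk2 i).cs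
      fun t ht => ⟨((hk2 i).ts ht).1, lt_of_lt_of_le ((hk2 i).ts ht).2 hs1ρ⟩).1 _ hg).1
  have hI2 : ∀ i, IntegrableOn (fun x => k i ‖fm φ ψ x - fm φ ψ x0‖ *
      (fx (A x) (x - x0) (fm φ ψ x - fm φ ψ x0) / ‖x - x0‖)) (Metric.ball x0 r0) := by
    intro i
    have h1 := ((hINT φ ψ A x0 r0 ρ0 hBP (k i) (hk2 i).c1.continuous (hk2 i).cs
      fun t ht => ⟨((hk2 i).ts ht).1, lt_of_lt_of_le ((hk2 i).ts ht).2 hs1ρ⟩).2 _ _ hH hb).1
    refine h1.congr_fun (fun x _ => ?_) measurableSet_ball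
    simp only [KEY_fx]
  have e1 : ∫ t, κ t / t = ∑ i, ∫ t, k i t / t := by
    rw [← integral_finset_sum _ fun i _ => KEY_int (hk2 i)]
    refine integral_congr_ae (Eventually.of_forall fun t => ?_)
    simp only [hsum t, Finset.sum_div]
  have e2 : ∫ x in Metric.ball x0 r0, κ ‖fm φ ψ x - fm φ ψ x0‖ * (‖x - x0‖ ^ 3)⁻¹
      = ∑ i, ∫ x in Metric.ball x0 r0, k i ‖fm φ ψ x - fm φ ψ x0‖ * (‖x - x0‖ ^ 3)⁻¹ := by
    rw [← integral_finset_sum _ fun i _ => hI1 i]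
    refine integral_congr_ae (Eventually.of_forall fun x => ?_)
    simp only [hsum, Finset.sum_mul]
  have e3 : ∫ x in Metric.ball x0 r0, κ ‖fm φ ψ x - fm φ ψ x0‖ *
      (fx (A x) (x - x0) (fm φ ψ x - fm φ ψ x0) / ‖x - x0‖)
      = ∑ i, ∫ x in Metric.ball x0 r0, k i ‖fm φ ψ x - fm φ ψ x0‖ *
      (fx (A x) (x - x0) (fm φ ψ x - fm φ ψ x0) / ‖x - x0‖) := by
    rw [← integral_finset_sum _ fun i _ => hI2 i]
    refine integral_congr_ae (Eventually.of_forall fun x => ?_)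
    simp only [hsum, Finset.sum_mul]
  rw [e1, e2, e3, Finset.mul_sum, Finset.mul_sum, ← Finset.sum_sub_distrib]
  exact Finset.sum_le_sum fun i _ => (hβ (s i) (hsI i)).2.2 (k i) (hk1 i)

end Pool.SQ
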