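import Pool.Agent.Work.MP_680515_sq.Interface
import Pool.Agent.Work.MP_680515_an.B.WIN1

/-! # MP_680515_an, THEOREM SQ: block T3, the solid angle identity -/

set_option autoImplicit false

open MeasureTheory Set Filter Topology

namespace Pool.SQ

open Pool.Mart Pool.Flat

theorem T3_wind : Continuous wind := by
  have h : LipschitzWith 2 wind := by
    refine LipschitzWith.of_dist_le_mul fun X Y => ?_
    rw [dist_eq_norm, dist_eq_norm]
    exact Pool.Mart.WIN1_.lip X Y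
  exact h.continuous

theorem T3_cont {φ ψ : OpenPartialHomeomorph E3 E3} {A : E3 → M3} (h : WM φ ψ A) :
    ContinuousOn (fm φ ψ) ψ.source :=
  φ.continuousOn.comp (T3_wind.comp_continuousOn ψ.continuousOn) h.src

/-- the primitive of `κ(t)/t` -/
theorem T3_prim {ρ0 : ℝ} (hρ : 0 < ρ0) {κ : ℝ → ℝ} (hκ : Kap 0 ρ0 κ) :
    ∃ (Φ : ℝ → ℝ) (t1 t2 : ℝ), 0 < t1 ∧ t2 < ρ0 ∧ 0 < t2 ∧ (∀ s, κ s ≠ 0 → t1 < s ∧ s < t2) ∧
      Continuous (fun s => κ s / s) ∧ (∀ s, HasDerivAt Φ (κ s / s) s) ∧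
      (∀ s, s ≤ t1 → Φ s = 0) ∧ ∀ s, t2 ≤ s → Φ s = ∫ t, κ t / t := by
  have hK : IsCompact (tsupport κ ∪ {ρ0 / 2}) :=
    IsCompact.union hκ.cs isCompact_singleton
  have hne : (tsupport κ ∪ {ρ0 / 2}).Nonempty := ⟨ρ0 / 2, Or.inr rfl⟩
  have hsub : tsupport κ ∪ {ρ0 / 2} ⊆ Ioo 0 ρ0 := by
    refine union_subset hκ.ts ?_
    rintro _ rfl
    exact ⟨by positivity, by linarith⟩
  have h1 := hsub (hK.sInf_mem hne)
  have h2 := hsub (hK.sSup_mem hne)
  have h3 : ∀ s ∈ tsupport κ ∪ {ρ0 / 2}, sInf (tsupport κ ∪ {ρ0 / 2}) ≤ s ∧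
      s ≤ sSup (tsupport κ ∪ {ρ0 / 2}) := fun s hs =>
    ⟨csInf_le hK.bddBelow hs, le_csSup hK.bddAbove hs⟩
  set m1 := sInf (tsupport κ ∪ {ρ0 / 2}) with hm1
  set m2 := sSup (tsupport κ ∪ {ρ0 / 2}) with hm2
  have hs : ∀ s, κ s ≠ 0 → m1 / 2 < s ∧ s < (m2 + ρ0) / 2 := by
    intro s hs
    have h4 := h3 s (Or.inl (subset_tsupport κ hs))
    exact ⟨by linarith [h4.1, h1.1], by linarith [h4.2, h2.2]⟩
  have hc : Continuous (fun s => κ s / s) := by
    rw [continuous_iff_continuousAt]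
    intro s
    by_cases h0 : s = 0
    · have h5 : (fun s => κ s / s) =ᶠ[𝓝 s] fun _ => (0 : ℝ) := by
        filter_upwards [Iio_mem_nhds (show s < m1 / 2 by rw [h0]; linarith [h1.1])] with x hx
        have : κ x = 0 := by
          by_contra hne'
          exact absurd (hs x hne').1 (not_lt.2 (le_of_lt hx))
        rw [this, zero_div]
      exact continuousAt_const.congr h5.symm
    · exact hκ.c1.continuous.continuousAt.div continuousAt_id h0
  refine ⟨fun s => ∫ t in (0 : ℝ)..s, κ t / t, m1 / 2, (m2 + ρ0) / 2, by linarith [h1.1],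
    by linarith [h2.2], by linarith [h2.1], hs, hc, ?_, ?_, ?_⟩
  · intro s
    exact (hc.integral_hasStrictDerivAt 0 s).hasDerivAt
  · intro s hs'
    show ∫ t in (0 : ℝ)..s, κ t / t = 0
    have h6 : ∫ t in (0 : ℝ)..s, κ t / t = ∫ t in (0 : ℝ)..s, (0 : ℝ) := by
      refine intervalIntegral.integral_congr fun t ht => ?_
      have h7 : t ≤ m1 / 2 := by
        rcases le_total 0 s with h8 | h8
        · rw [uIcc_of_le h8] at ht
          exact ht.2.trans hs'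
        · rw [uIcc_of_ge h8] at ht
          linarith [ht.2, h1.1]
      have : κ t = 0 := by
        by_contra hne'
        exact absurd (hs t hne').1 (not_lt.2 h7)
      show κ t / t = 0
      rw [this, zero_div]
    rw [h6, intervalIntegral.integral_zero]
  · intro s hs'
    show ∫ t in (0 : ℝ)..s, κ t / t = ∫ t, κ t / t
    refine intervalIntegral.integral_eq_integral_of_support_subset ?_
    intro t ht
    have h9 : κ t ≠ 0 := fun h0 => ht (by show κ t / t = 0; rw [h0, zero_div])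
    have h10 := hs t h9
    exact ⟨by linarith [h10.1, h1.1], by linarith [h10.2]⟩

/-- the gradient of a radial function -/
theorem T3_rad {Φ g : ℝ → ℝ} {t1 : ℝ} (ht : 0 < t1) (h0 : ∀ s, s ≤ t1 → Φ s = 0)
    (hd : ∀ s, HasDerivAt Φ (g s) s) (hg : Continuous g) (q : E3) :
    ContDiff ℝ 1 (fun y : E3 => Φ ‖y - q‖) ∧
    ∀ y v : E3, fderiv ℝ (fun y : E3 => Φ ‖y - q‖) y v =
      g ‖y - q‖ * (‖y - q‖⁻¹ * inner ℝ (y - q) v) := by
  have hΦ : ContDiff ℝ 1 Φ := by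
    rw [contDiff_one_iff_deriv]
    refine ⟨fun s => (hd s).differentiableAt, ?_⟩
    have : deriv Φ = g := funext fun s => (hd s).deriv
    rw [this]
    exact hg
  have hq : (fun y : E3 => Φ ‖y - q‖) =ᶠ[𝓝 q] fun _ => (0 : ℝ) := by
    filter_upwards [Metric.ball_mem_nhds q ht] with y hy
    rw [Metric.mem_ball, dist_eq_norm] at hy
    exact h0 _ hy.le
  refine ⟨?_, ?_⟩
  · rw [contDiff_iff_contDiffAt]
    intro y
    by_cases hy : y = q
    · rw [hy]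
      exact contDiffAt_const.congr_of_eventuallyEq hq
    · exact hΦ.contDiffAt.comp y ((contDiffAt_id.sub contDiffAt_const).norm ℝ (sub_ne_zero.2 hy))
  · intro y v
    by_cases hy : y = q
    · rw [hy, hq.fderiv_eq]
      simp
    · have hy' : y - q ≠ 0 := sub_ne_zero.2 hy
      have h1 : HasFDerivAt (fun y : E3 => ‖y - q‖ ^ 2) (2 • (innerSL ℝ (y - q)).comp
          (ContinuousLinearMap.id ℝ E3)) y :=
        ((hasFDerivAt_id y).sub_const q).norm_sq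
      have h2 := h1.sqrt (by
        show ‖y - q‖ ^ 2 ≠ 0
        exact pow_ne_zero _ (norm_ne_zero_iff.2 hy'))
      have h3 : (fun y : E3 => √(‖y - q‖ ^ 2)) = fun y : E3 => ‖y - q‖ := by
        funext z
        exact Real.sqrt_sq (norm_nonneg _)
      rw [h3, Real.sqrt_sq (norm_nonneg _)] at h2
      have h4 := (hd ‖y - q‖).comp_hasFDerivAt y h2
      have h5 : fderiv ℝ (fun y : E3 => Φ ‖y - q‖) y = _ := h4.fderiv
      rw [h5]
      have h6 : ‖y - q‖ ≠ 0 := norm_ne_zero_iff.2 hy'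
      simp only [smul_apply, ContinuousLinearMap.comp_apply,
        ContinuousLinearMap.id_apply, innerSL_apply_apply, smul_eq_mul, nsmul_eq_mul,
        Nat.cast_ofNat]
      field_simp

theorem T3_act (B : M3) (X Y : E3) :
    ∑ j : Fin 3, inner ℝ Y (act B (EuclideanSpace.single j 1)) * X j = inner ℝ Y (act B X) := by
  simp only [act, PiLp.inner_apply, Matrix.mulVec, dotProduct, Fin.sum_univ_three,
    EuclideanSpace.single, RCLike.inner_apply, conj_trivial]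
  simp
  ring

/-- the cut-off functions -/
theorem T3_eta {a b c d : ℝ} (hb : a < b) (hd : c < d) :
    ∃ η β : ℝ → ℝ, ContDiff ℝ (⊤ : ℕ∞) η ∧ (∀ r, r ≤ a → η r = 0) ∧ (∀ r, d ≤ r → η r = 0) ∧
      (∀ r, b ≤ r → r ≤ c → η r = 1) ∧ ContDiff ℝ (⊤ : ℕ∞) β ∧ (∀ r, r ≤ c → β r = 1) ∧
      (∀ r, d ≤ r → β r = 0) ∧ ∀ r, b < r → deriv η r = deriv β r := by
  have h1 : (0 : ℝ) < b - a := sub_pos.2 hb
  have h2 : (0 : ℝ) < d - c := sub_pos.2 hd
  let α : ℝ → ℝ := fun r => Real.smoothTransition ((r - a) / (b - a))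
  let β : ℝ → ℝ := fun r => Real.smoothTransition ((d - r) / (d - c))
  have hα : ContDiff ℝ (⊤ : ℕ∞) α :=
    Real.smoothTransition.contDiff.comp ((contDiff_id.sub contDiff_const).div_const _)
  have hβ : ContDiff ℝ (⊤ : ℕ∞) β :=
    Real.smoothTransition.contDiff.comp ((contDiff_const.sub contDiff_id).div_const _)
  have hα0 : ∀ r, r ≤ a → α r = 0 := fun r hr =>
    Real.smoothTransition.zero_of_nonpos (div_nonpos_of_nonpos_of_nonneg (by linarith) h1.le)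
  have hα1 : ∀ r, b ≤ r → α r = 1 := fun r hr =>
    Real.smoothTransition.one_of_one_le (by rw [one_le_div h1]; linarith)
  have hβ0 : ∀ r, d ≤ r → β r = 0 := fun r hr =>
    Real.smoothTransition.zero_of_nonpos (div_nonpos_of_nonpos_of_nonneg (by linarith) h2.le)
  have hβ1 : ∀ r, r ≤ c → β r = 1 := fun r hr =>
    Real.smoothTransition.one_of_one_le (by rw [one_le_div h2]; linarith)
  refine ⟨fun r => α r * β r, β, hα.mul hβ, ?_, ?_, ?_, hβ, hβ1, hβ0, ?_⟩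
  · intro r hr
    show α r * β r = 0
    rw [hα0 r hr, zero_mul]
  · intro r hr
    show α r * β r = 0
    rw [hβ0 r hr, mul_zero]
  · intro r hr hr'
    show α r * β r = 1
    rw [hα1 r hr, hβ1 r hr', mul_one]
  · intro r hr
    refine Filter.EventuallyEq.deriv_eq ?_
    filter_upwards [Ioi_mem_nhds hr] with s hs
    rw [hα1 s (le_of_lt hs), one_mul]

theorem T3_supp {η : ℝ → ℝ} {a d : ℝ} (h0 : ∀ r, r ≤ a → η r = 0)
    (h1 : ∀ r, d ≤ r → η r = 0) : HasCompactSupport η ∧ tsupport η ⊆ Icc a d := by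
  have h2 : tsupport η ⊆ Icc a d := by
    refine closure_minimal ?_ isClosed_Icc
    intro r hr
    refine ⟨?_, ?_⟩
    · by_contra hn
      exact hr (h0 r (le_of_lt (not_le.1 hn)))
    · by_contra hn
      exact hr (h1 r (le_of_lt (not_le.1 hn)))
  exact ⟨isCompact_Icc.of_isClosed_subset (isClosed_tsupport _) h2, h2⟩

/-- the test functions -/
theorem T3_test (hRADF : Pool.Mart.Stmt_RADF) {η : ℝ → ℝ} {a d r0 : ℝ} (ha : 0 < a) (hd : d < r0)
    (hη : ContDiff ℝ (⊤ : ℕ∞) η) (h0 : ∀ r, r ≤ a → η r = 0)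
    (h1 : ∀ r, d ≤ r → η r = 0) (p : E3) :
    (∀ j : Fin 3, ContDiff ℝ (⊤ : ℕ∞)
      (fun x : E3 => η ‖x - p‖ * ((‖x - p‖ ^ 3)⁻¹ * (x - p) j))) ∧
    (∀ j : Fin 3, HasCompactSupport
      (fun x : E3 => η ‖x - p‖ * ((‖x - p‖ ^ 3)⁻¹ * (x - p) j))) ∧
    (∀ j : Fin 3, tsupport
      (fun x : E3 => η ‖x - p‖ * ((‖x - p‖ ^ 3)⁻¹ * (x - p) j)) ⊆ Metric.ball p r0) ∧
    ∀ x : E3, ∑ j : Fin 3, fderiv ℝ
      (fun x : E3 => η ‖x - p‖ * ((‖x - p‖ ^ 3)⁻¹ * (x - p) j)) x (EuclideanSpace.single j 1) =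
        deriv η ‖x - p‖ / ‖x - p‖ ^ 2 := by
  obtain ⟨hR1, hR2, -⟩ := hRADF
  obtain ⟨hs1, hs2⟩ := T3_supp h0 h1
  obtain ⟨k1, k2, k3, k4⟩ := hR1 η p (a / 2) r0 (by positivity)
    (hη.of_le (by exact_mod_cast le_top)) hs1
    (fun r hr => ⟨by linarith [(hs2 hr).1], by linarith [(hs2 hr).2]⟩)
  have hp : ∀ j : Fin 3, (fun x : E3 => η ‖x - p‖ * ((‖x - p‖ ^ 3)⁻¹ * (x - p) j)) =ᶠ[𝓝 p]
      fun _ => (0 : ℝ) := by
    intro j
    filter_upwards [Metric.ball_mem_nhds p ha] with y hy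
    rw [Metric.mem_ball, dist_eq_norm] at hy
    rw [h0 _ hy.le, zero_mul]
  have hpr : ∀ j : Fin 3, ContDiff ℝ (⊤ : ℕ∞) (fun x : E3 => (x - p) j) := by
    intro j
    exact (EuclideanSpace.proj j : E3 →L[ℝ] ℝ).contDiff.comp
      (contDiff_id.sub contDiff_const)
  refine ⟨?_, ?_, ?_, ?_⟩
  · intro j
    rw [contDiff_iff_contDiffAt]
    intro x
    by_cases hx : x = p
    · rw [hx]
      exact contDiffAt_const.congr_of_eventuallyEq (hp j)
    · have hn : ContDiffAt ℝ (⊤ : ℕ∞) (fun x : E3 => ‖x - p‖) x :=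
        (contDiffAt_id.sub contDiffAt_const).norm ℝ (sub_ne_zero.2 hx)
      refine (hη.contDiffAt.comp x hn).mul (((hn.pow 3).inv ?_).mul (hpr j).contDiffAt)
      exact pow_ne_zero _ (norm_ne_zero_iff.2 (sub_ne_zero.2 hx))
  · intro j
    exact k2.mul_right
  · intro j
    refine (tsupport_mul_subset_left).trans (k3.trans ?_)
    intro x hx
    rw [Metric.mem_ball, dist_eq_norm]
    exact hx.2
  · intro x
    by_cases hx : x = p
    · rw [hx]
      have h3 : ∀ j : Fin 3, fderiv ℝ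
          (fun x : E3 => η ‖x - p‖ * ((‖x - p‖ ^ 3)⁻¹ * (x - p) j)) p = 0 := by
        intro j
        rw [(hp j).fderiv_eq]
        simp
      rw [Finset.sum_eq_zero fun j _ => by rw [h3 j]; rfl, sub_self, norm_zero]
      simp
    · have hx' : x - p ≠ 0 := sub_ne_zero.2 hx
      have hdE : HasFDerivAt (fun y : E3 => (‖y - p‖ ^ 3)⁻¹ • (y - p))
          (fderiv ℝ (fun y : E3 => (‖y - p‖ ^ 3)⁻¹ • (y - p)) x) x :=
        (((hR2 p).1.differentiableOn (by norm_num)).differentiableAt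
          (isOpen_compl_singleton.mem_nhds hx)).hasFDerivAt
      have hda : HasFDerivAt (fun x : E3 => η ‖x - p‖)
          (fderiv ℝ (fun x : E3 => η ‖x - p‖) x) x :=
        (k1.differentiable (by norm_num) x).hasFDerivAt
      have h4 : ∀ j : Fin 3, fderiv ℝ
          (fun x : E3 => η ‖x - p‖ * ((‖x - p‖ ^ 3)⁻¹ * (x - p) j)) x
            (EuclideanSpace.single j 1) =
          η ‖x - p‖ * fderiv ℝ (fun y : E3 => (‖y - p‖ ^ 3)⁻¹ • (y - p)) x
            (EuclideanSpace.single j 1) j +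
          ((‖x - p‖ ^ 3)⁻¹ * (x - p) j) *
            gradv (fun x : E3 => η ‖x - p‖) x j := by
        intro j
        have h5 : HasFDerivAt (fun y : E3 => ((‖y - p‖ ^ 3)⁻¹ • (y - p)) j)
            ((EuclideanSpace.proj j : E3 →L[ℝ] ℝ).comp
              (fderiv ℝ (fun y : E3 => (‖y - p‖ ^ 3)⁻¹ • (y - p)) x)) x :=
          (EuclideanSpace.proj j : E3 →L[ℝ] ℝ).hasFDerivAt.comp x hdE
        have h6 := hda.mul h5
        have h7 : fderiv ℝ (fun x : E3 => η ‖x - p‖ * ((‖x - p‖ ^ 3)⁻¹ * (x - p) j)) x = _ :=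
          h6.fderiv
        rw [h7]
        rfl
      rw [Finset.sum_congr rfl fun j _ => h4 j, Finset.sum_add_distrib, ← Finset.mul_sum]
      have h8 : ∑ j : Fin 3, fderiv ℝ (fun y : E3 => (‖y - p‖ ^ 3)⁻¹ • (y - p)) x
            (EuclideanSpace.single j 1) j = 0 := ((hR2 p).2.2 x hx).1
      rw [h8, mul_zero, zero_add, k4 x]
      have h9 : ‖x - p‖ ≠ 0 := norm_ne_zero_iff.2 hx'
      have h10 : ∑ j : Fin 3, (x - p) j * (x - p) j = ‖x - p‖ ^ 2 := by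
        rw [EuclideanSpace.norm_sq_eq]
        refine Finset.sum_congr rfl fun j _ => ?_
        rw [Real.norm_eq_abs, sq_abs, sq]
      have h11 : ∀ j : Fin 3, (‖x - p‖ ^ 3)⁻¹ * (x - p) j *
          (deriv η ‖x - p‖ • (‖x - p‖⁻¹ • (x - p)) : E3) j =
          (‖x - p‖ ^ 3)⁻¹ * (deriv η ‖x - p‖ * ‖x - p‖⁻¹) * ((x - p) j * (x - p) j) := by
        intro j
        show (‖x - p‖ ^ 3)⁻¹ * (x - p) j * (deriv η ‖x - p‖ * (‖x - p‖⁻¹ * (x - p) j)) = _
        ring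
      rw [Finset.sum_congr rfl fun j _ => h11 j, ← Finset.mul_sum, h10]
      field_simp

/-- the integral of the derivative of the outer cut-off function -/
theorem T3_beta (hRINT : Pool.Mart.Stmt_RINT) {β : ℝ → ℝ} {c d : ℝ} (hc : 0 < c)
    (hβ : ContDiff ℝ (⊤ : ℕ∞) β) (h1 : ∀ r, r ≤ c → β r = 1) (h0 : ∀ r, d ≤ r → β r = 0)
    (p : E3) : ∫ x : E3, deriv β ‖x - p‖ / ‖x - p‖ ^ 2 = -(4 * Real.pi) := by
  have hβd : Differentiable ℝ β := hβ.differentiable (by simp)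
  have hβc : Continuous (deriv β) := hβ.continuous_deriv (by simp)
  have hz1 : ∀ r, r < c → deriv β r = 0 := by
    intro r hr
    have h2 : β =ᶠ[𝓝 r] fun _ => (1 : ℝ) := by
      filter_upwards [Iio_mem_nhds hr] with s hs
      exact h1 s (le_of_lt hs)
    rw [h2.deriv_eq, deriv_const]
  have hz2 : ∀ r, d < r → deriv β r = 0 := by
    intro r hr
    have h2 : β =ᶠ[𝓝 r] fun _ => (0 : ℝ) := by
      filter_upwards [Ioi_mem_nhds hr] with s hs
      exact h0 s (le_of_lt hs)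
    rw [h2.deriv_eq, deriv_const]
  have hh : Continuous (fun r => deriv β r / r ^ 2) := by
    rw [continuous_iff_continuousAt]
    intro r
    by_cases hr : r = 0
    · have h5 : (fun r => deriv β r / r ^ 2) =ᶠ[𝓝 r] fun _ => (0 : ℝ) := by
        filter_upwards [Iio_mem_nhds (show r < c by rw [hr]; exact hc)] with s hs
        rw [hz1 s hs, zero_div]
      exact continuousAt_const.congr h5.symm
    · exact hβc.continuousAt.div (continuousAt_id.pow 2) (pow_ne_zero _ hr)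
  obtain ⟨hs1, hs2⟩ := T3_supp (η := fun r => deriv β r / r ^ 2) (a := c / 2) (d := d + 1)
    (fun r hr => by show deriv β r / r ^ 2 = 0; rw [hz1 r (by linarith), zero_div])
    (fun r hr => by show deriv β r / r ^ 2 = 0; rw [hz2 r (by linarith), zero_div])
  have h6 := hRINT (fun r => deriv β r / r ^ 2) (c / 4) (d + 2) (by positivity) hh hs1
    (fun r hr => ⟨by linarith [(hs2 hr).1], by linarith [(hs2 hr).2]⟩)
  have h7 : ∫ x : E3, deriv β ‖x - p‖ / ‖x - p‖ ^ 2 = ∫ x : E3, deriv β ‖x‖ / ‖x‖ ^ 2 :=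
    integral_sub_right_eq_self (fun x : E3 => deriv β ‖x‖ / ‖x‖ ^ 2) p
  have h8 : ∫ x : E3, deriv β ‖x‖ / ‖x‖ ^ 2 =
    4 * Real.pi * ∫ r, deriv β r / r ^ 2 * r ^ 2 := h6
  have h9 : ∀ r : ℝ, deriv β r / r ^ 2 * r ^ 2 = deriv β r := by
    intro r
    by_cases hr : r = 0
    · rw [hr, hz1 0 hc]
      simp
    · field_simp
  have h10 : ∫ r, deriv β r = -1 := by
    have h11 : ∫ r in (0 : ℝ)..(d + 1), deriv β r = ∫ r, deriv β r := by
      refine intervalIntegral.integral_eq_integral_of_support_subset ?_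
      intro r hr
      refine ⟨?_, ?_⟩
      · by_contra hn
        exact hr (hz1 r (by linarith [not_lt.1 hn]))
      · by_contra hn
        exact hr (hz2 r (by linarith [not_le.1 hn]))
    rw [← h11, intervalIntegral.integral_deriv_eq_sub (fun r _ => hβd r)
      (hβc.intervalIntegrable _ _), h0 _ (by linarith), h1 0 hc.le]
    norm_num
  rw [h7, h8, integral_congr_ae (Filter.Eventually.of_forall h9), h10]
  ring

theorem p_T3 (_hSHT : Stmt_SHT) (hCHR : Pool.Flat.Stmt_CHR) (hRINT : Pool.Mart.Stmt_RINT)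
    (hRADF : Pool.Mart.Stmt_RADF) : Stmt_T3 := by
  intro φ ψ A x0 r0 ρ0 h κ hκ
  classical
  obtain ⟨Φ, t1, t2, ht1, ht2, ht20, hk, hg, hd, hΦ0, hΦT⟩ := T3_prim h.ρpos hκ
  obtain ⟨hΨ, hΨ'⟩ := T3_rad ht1 hΦ0 hd hg (fm φ ψ x0)
  have hfc : ContinuousOn (fm φ ψ) ψ.source := T3_cont h.wm
  have hx0 : x0 ∈ ψ.source := h.sub (Metric.mem_closedBall_self h.rpos.le)
  have hbs : Metric.ball x0 r0 ⊆ ψ.source := Metric.ball_subset_closedBall.trans h.sub
  -- the inner radius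
  obtain ⟨b0, hb0, hb⟩ : ∃ b0 : ℝ, 0 < b0 ∧ ∀ x : E3, ‖x - x0‖ ≤ b0 →
      ‖fm φ ψ x - fm φ ψ x0‖ ≤ t1 := by
    have h1 : ContinuousAt (fm φ ψ) x0 := hfc.continuousAt (ψ.open_source.mem_nhds hx0)
    obtain ⟨δ, hδ, h2⟩ := Metric.continuousAt_iff.1 h1 t1 ht1
    refine ⟨δ / 2, by positivity, fun x hx => ?_⟩
    have h3 := h2 (show dist x x0 < δ by rw [dist_eq_norm]; linarith)
    rw [dist_eq_norm] at h3
    exact h3.le
  -- the outer radius
  obtain ⟨c, hc0, hcr, hc⟩ : ∃ c : ℝ, 0 < c ∧ c < r0 ∧ ∀ x : E3, c ≤ ‖x - x0‖ →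
      ‖x - x0‖ < r0 → t2 ≤ ‖fm φ ψ x - fm φ ψ x0‖ := by
    have h1 : ContinuousOn (fun x => ‖fm φ ψ x - fm φ ψ x0‖) (Metric.closedBall x0 r0) :=
      ((hfc.mono h.sub).sub continuousOn_const).norm
    have h2 : IsClosed (Metric.closedBall x0 r0 ∩
        (fun x => ‖fm φ ψ x - fm φ ψ x0‖) ⁻¹' Iic t2) :=
      h1.preimage_isClosed_of_isClosed Metric.isClosed_closedBall isClosed_Iic
    have h3 : IsCompact (Metric.closedBall x0 r0 ∩
        (fun x => ‖fm φ ψ x - fm φ ψ x0‖) ⁻¹' Iic t2) :=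
      (isCompact_closedBall x0 r0).of_isClosed_subset h2 inter_subset_left
    have h4 : x0 ∈ Metric.closedBall x0 r0 ∩
        (fun x => ‖fm φ ψ x - fm φ ψ x0‖) ⁻¹' Iic t2 := by
      refine ⟨Metric.mem_closedBall_self h.rpos.le, ?_⟩
      show ‖fm φ ψ x0 - fm φ ψ x0‖ ≤ t2
      rw [sub_self, norm_zero]
      exact ht20.le
    obtain ⟨xm, hxm, hmax⟩ := h3.exists_isMaxOn ⟨x0, h4⟩
      (continuous_id.sub continuous_const).norm.continuousOn (f := fun x : E3 => ‖x - x0‖)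
    have h5 : ‖xm - x0‖ < r0 := by
      refine h.shr xm (h.sub hxm.1) ?_
      have h6 : ‖fm φ ψ xm - fm φ ψ x0‖ ≤ t2 := hxm.2
      linarith
    refine ⟨(‖xm - x0‖ + r0) / 2, by linarith [norm_nonneg (xm - x0), h.rpos], by linarith,
      fun x hx hx' => ?_⟩
    by_contra hn
    have h7 : x ∈ Metric.closedBall x0 r0 ∩
        (fun x => ‖fm φ ψ x - fm φ ψ x0‖) ⁻¹' Iic t2 := by
      refine ⟨?_, (not_le.1 hn).le⟩
      rw [Metric.mem_closedBall, dist_eq_norm]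
      exact hx'.le
    have h8 : ‖x - x0‖ ≤ ‖xm - x0‖ := hmax h7
    linarith
  obtain ⟨b, hb1, hb2, hb3⟩ : ∃ b : ℝ, 0 < b ∧ b < c ∧ b ≤ b0 :=
    ⟨min b0 (c / 2), by positivity, by linarith [min_le_right b0 (c / 2)], min_le_left _ _⟩
  obtain ⟨η, β, hη, hη0, hη1, hηI, hβ, hβ1, hβ0, hηβ⟩ :=
    T3_eta (a := b / 2) (b := b) (c := c) (d := (c + r0) / 2) (by linarith) (by linarith)
  obtain ⟨hζ1, hζ2, hζ3, hζ4⟩ := T3_test hRADF (by positivity : 0 < b / 2)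
    (by linarith : (c + r0) / 2 < r0) hη hη0 hη1 x0
  have hβI := T3_beta hRINT hc0 hβ hβ1 hβ0 x0
  -- the weak gradient
  have hΨ2 : ContDiff ℝ 1 (fun z : E3 × E3 => Φ ‖z.2 - fm φ ψ x0‖) := hΨ.comp contDiff_snd
  have hwg := hCHR ψ.source (Metric.ball x0 r0) (fm φ ψ) A univ
    (fun z : E3 × E3 => Φ ‖z.2 - fm φ ψ x0‖) ψ.open_source Metric.isOpen_ball hbs hfc h.wm.wg
    isOpen_univ hΨ2.contDiffOn (fun _ _ => mem_univ _)
  have hV : ∀ (x : E3) (j : Fin 3), fderiv ℝ (fun z : E3 × E3 => Φ ‖z.2 - fm φ ψ x0‖)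
      (x, fm φ ψ x) (EuclideanSpace.single j 1, act (A x) (EuclideanSpace.single j 1)) =
      κ ‖fm φ ψ x - fm φ ψ x0‖ / ‖fm φ ψ x - fm φ ψ x0‖ * (‖fm φ ψ x - fm φ ψ x0‖⁻¹ *
        inner ℝ (fm φ ψ x - fm φ ψ x0) (act (A x) (EuclideanSpace.single j 1))) := by
    intro x j
    have h1 : HasFDerivAt (fun y : E3 => Φ ‖y - fm φ ψ x0‖)
        (fderiv ℝ (fun y : E3 => Φ ‖y - fm φ ψ x0‖) (fm φ ψ x)) (fm φ ψ x) :=
      (hΨ.differentiable (by norm_num) _).hasFDerivAt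
    have h2 : HasFDerivAt (fun z : E3 × E3 => Φ ‖z.2 - fm φ ψ x0‖)
        ((fderiv ℝ (fun y : E3 => Φ ‖y - fm φ ψ x0‖) (fm φ ψ x)).comp
          (ContinuousLinearMap.snd ℝ E3 E3)) (x, fm φ ψ x) :=
      HasFDerivAt.comp (g := fun y : E3 => Φ ‖y - fm φ ψ x0‖)
        (f := (Prod.snd : E3 × E3 → E3)) (x, fm φ ψ x) h1 hasFDerivAt_snd
    rw [h2.fderiv]
    exact hΨ' _ _
  -- the function u
  have huc : ContinuousOn (fun x => Φ ‖fm φ ψ x - fm φ ψ x0‖) (Metric.ball x0 r0) :=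
    hΨ.continuous.comp_continuousOn (hfc.mono hbs)
  have hu0 : ∀ x : E3, ‖x - x0‖ ≤ b → Φ ‖fm φ ψ x - fm φ ψ x0‖ = 0 := fun x hx =>
    hΦ0 _ (hb x (hx.trans hb3))
  have huT : ∀ x : E3, c ≤ ‖x - x0‖ → ‖x - x0‖ < r0 →
      Φ ‖fm φ ψ x - fm φ ψ x0‖ = ∫ t, κ t / t := fun x hx hx' => hΦT _ (hc x hx hx')
  have hdβ1 : ∀ r, r < c → deriv β r = 0 := by
    intro r hr
    have h2 : β =ᶠ[𝓝 r] fun _ => (1 : ℝ) := by
      filter_upwards [Iio_mem_nhds hr] with s hs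
      exact hβ1 s (le_of_lt hs)
    rw [h2.deriv_eq, deriv_const]
  have hdβ2 : ∀ r, (c + r0) / 2 < r → deriv β r = 0 := by
    intro r hr
    have h2 : β =ᶠ[𝓝 r] fun _ => (0 : ℝ) := by
      filter_upwards [Ioi_mem_nhds hr] with s hs
      exact hβ0 s (le_of_lt hs)
    rw [h2.deriv_eq, deriv_const]
  have huη : ∀ x : E3, Φ ‖fm φ ψ x - fm φ ψ x0‖ * (deriv η ‖x - x0‖ / ‖x - x0‖ ^ 2) =
      (∫ t, κ t / t) * (deriv β ‖x - x0‖ / ‖x - x0‖ ^ 2) := by
    intro x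
    by_cases h1 : ‖x - x0‖ ≤ b
    · rw [hu0 x h1, hdβ1 _ (lt_of_le_of_lt h1 hb2)]
      simp
    · rw [hηβ _ (not_le.1 h1)]
      by_cases h2 : ‖x - x0‖ < c
      · rw [hdβ1 _ h2]
        simp
      · by_cases h3 : ‖x - x0‖ < r0
        · rw [huT x (not_lt.1 h2) h3]
        · rw [hdβ2 _ (by linarith [not_lt.1 h3])]
          simp
  -- integrability
  have hI1 : ∀ j : Fin 3, Integrable (fun x => Φ ‖fm φ ψ x - fm φ ψ x0‖ * fderiv ℝ
      (fun x : E3 => η ‖x - x0‖ * ((‖x - x0‖ ^ 3)⁻¹ * (x - x0) j)) x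
        (EuclideanSpace.single j 1)) := by
    intro j
    have h1 : Continuous (fun x => fderiv ℝ
      (fun x : E3 => η ‖x - x0‖ * ((‖x - x0‖ ^ 3)⁻¹ * (x - x0) j)) x
        (EuclideanSpace.single j 1)) :=
      ((hζ1 j).continuous_fderiv (by simp)).clm_apply continuous_const
    have h2 : IntegrableOn (fun x => Φ ‖fm φ ψ x - fm φ ψ x0‖ * fderiv ℝ
      (fun x : E3 => η ‖x - x0‖ * ((‖x - x0‖ ^ 3)⁻¹ * (x - x0) j)) x
        (EuclideanSpace.single j 1))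
        (tsupport (fun x : E3 => η ‖x - x0‖ * ((‖x - x0‖ ^ 3)⁻¹ * (x - x0) j))) :=
      ContinuousOn.integrableOn_compact (hζ2 j)
        ((huc.mono (hζ3 j)).mul h1.continuousOn)
    refine (integrableOn_iff_integrable_of_support_subset ?_).1 h2
    intro x hx
    have h3 : fderiv ℝ
      (fun x : E3 => η ‖x - x0‖ * ((‖x - x0‖ ^ 3)⁻¹ * (x - x0) j)) x ≠ 0 := by
      intro h4
      apply hx
      show Φ ‖fm φ ψ x - fm φ ψ x0‖ * fderiv ℝ
        (fun x : E3 => η ‖x - x0‖ * ((‖x - x0‖ ^ 3)⁻¹ * (x - x0) j)) x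
          (EuclideanSpace.single j 1) = 0
      rw [h4]
      simp
    exact support_fderiv_subset ℝ h3
  have hI2 : ∀ j : Fin 3, Integrable (fun x => (κ ‖fm φ ψ x - fm φ ψ x0‖ /
      ‖fm φ ψ x - fm φ ψ x0‖ * (‖fm φ ψ x - fm φ ψ x0‖⁻¹ *
        inner ℝ (fm φ ψ x - fm φ ψ x0) (act (A x) (EuclideanSpace.single j 1)))) *
      (η ‖x - x0‖ * ((‖x - x0‖ ^ 3)⁻¹ * (x - x0) j))) := by
    intro j
    have h1 := hwg.loc _ (hζ2 j) (hζ3 j) j
    have h2 : IntegrableOn (fun x => κ ‖fm φ ψ x - fm φ ψ x0‖ /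
      ‖fm φ ψ x - fm φ ψ x0‖ * (‖fm φ ψ x - fm φ ψ x0‖⁻¹ *
        inner ℝ (fm φ ψ x - fm φ ψ x0) (act (A x) (EuclideanSpace.single j 1))))
        (tsupport (fun x : E3 => η ‖x - x0‖ * ((‖x - x0‖ ^ 3)⁻¹ * (x - x0) j))) := by
      refine h1.congr_fun (fun x _ => ?_) (isClosed_tsupport _).measurableSet
      exact hV x j
    have h3 := h2.mul_continuousOn (hζ1 j).continuous.continuousOn (hζ2 j)
    refine (integrableOn_iff_integrable_of_support_subset ?_).1 h3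
    intro x hx
    refine subset_tsupport _ ?_
    intro h4
    apply hx
    have h5 : η ‖x - x0‖ * ((‖x - x0‖ ^ 3)⁻¹ * (x - x0) j) = 0 := h4
    show _ * (η ‖x - x0‖ * ((‖x - x0‖ ^ 3)⁻¹ * (x - x0) j)) = 0
    rw [h5, mul_zero]
  -- the sum of the three identities
  have hsum : ∫ x, ∑ j : Fin 3, (κ ‖fm φ ψ x - fm φ ψ x0‖ /
      ‖fm φ ψ x - fm φ ψ x0‖ * (‖fm φ ψ x - fm φ ψ x0‖⁻¹ *
        inner ℝ (fm φ ψ x - fm φ ψ x0) (act (A x) (EuclideanSpace.single j 1)))) *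
      (η ‖x - x0‖ * ((‖x - x0‖ ^ 3)⁻¹ * (x - x0) j)) = 4 * Real.pi * ∫ t, κ t / t := by
    rw [integral_finsetSum _ fun j _ => hI2 j]
    have h1 : ∀ j : Fin 3, ∫ x, (κ ‖fm φ ψ x - fm φ ψ x0‖ /
      ‖fm φ ψ x - fm φ ψ x0‖ * (‖fm φ ψ x - fm φ ψ x0‖⁻¹ *
        inner ℝ (fm φ ψ x - fm φ ψ x0) (act (A x) (EuclideanSpace.single j 1)))) *
      (η ‖x - x0‖ * ((‖x - x0‖ ^ 3)⁻¹ * (x - x0) j)) =
        - ∫ x, Φ ‖fm φ ψ x - fm φ ψ x0‖ * fderiv ℝ
      (fun x : E3 => η ‖x - x0‖ * ((‖x - x0‖ ^ 3)⁻¹ * (x - x0) j)) x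
        (EuclideanSpace.single j 1) := by
      intro j
      have h2 := hwg.ibp _ (hζ1 j) (hζ2 j) (hζ3 j) j
      rw [h2, neg_neg]
      refine integral_congr_ae (Filter.Eventually.of_forall fun x => ?_)
      show _ = fderiv ℝ (fun z : E3 × E3 => Φ ‖z.2 - fm φ ψ x0‖)
        (x, fm φ ψ x) (EuclideanSpace.single j 1, act (A x) (EuclideanSpace.single j 1)) * _
      rw [hV x j]
    rw [Finset.sum_congr rfl fun j _ => h1 j, Finset.sum_neg_distrib,
      ← integral_finsetSum _ fun j _ => hI1 j]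
    have h3 : ∀ x : E3, ∑ j : Fin 3, Φ ‖fm φ ψ x - fm φ ψ x0‖ * fderiv ℝ
      (fun x : E3 => η ‖x - x0‖ * ((‖x - x0‖ ^ 3)⁻¹ * (x - x0) j)) x
        (EuclideanSpace.single j 1) =
        (∫ t, κ t / t) * (deriv β ‖x - x0‖ / ‖x - x0‖ ^ 2) := by
      intro x
      rw [← Finset.mul_sum, hζ4 x, huη x]
    rw [integral_congr_ae (Filter.Eventually.of_forall h3), integral_const_mul, hβI]
    ring
  rw [← hsum]
  have hpt : ∀ x : E3, ∑ j : Fin 3, (κ ‖fm φ ψ x - fm φ ψ x0‖ /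
      ‖fm φ ψ x - fm φ ψ x0‖ * (‖fm φ ψ x - fm φ ψ x0‖⁻¹ *
        inner ℝ (fm φ ψ x - fm φ ψ x0) (act (A x) (EuclideanSpace.single j 1)))) *
      (η ‖x - x0‖ * ((‖x - x0‖ ^ 3)⁻¹ * (x - x0) j)) =
      η ‖x - x0‖ * (κ ‖fm φ ψ x - fm φ ψ x0‖ *
        (inner ℝ (fm φ ψ x - fm φ ψ x0) (act (A x) (x - x0))
        / (‖x - x0‖ ^ 3 * ‖fm φ ψ x - fm φ ψ x0‖ ^ 2))) := by
    intro x
    rw [← T3_act (A x) (x - x0) (fm φ ψ x - fm φ ψ x0), Finset.sum_div, Finset.mul_sum,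
      Finset.mul_sum]
    refine Finset.sum_congr rfl fun j _ => ?_
    rw [div_eq_mul_inv, div_eq_mul_inv, mul_inv, ← inv_pow ‖fm φ ψ x - fm φ ψ x0‖ 2]
    ring
  rw [integral_congr_ae (Filter.Eventually.of_forall hpt)]
  have hz : ∀ x : E3, x ∉ Metric.ball x0 r0 → η ‖x - x0‖ * (κ ‖fm φ ψ x - fm φ ψ x0‖ *
        (inner ℝ (fm φ ψ x - fm φ ψ x0) (act (A x) (x - x0))
        / (‖x - x0‖ ^ 3 * ‖fm φ ψ x - fm φ ψ x0‖ ^ 2))) = 0 := by
    intro x hx
    rw [Metric.mem_ball, dist_eq_norm] at hx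
    rw [hη1 _ (by linarith [not_lt.1 hx]), zero_mul]
  rw [← setIntegral_eq_integral_of_forall_compl_eq_zero hz]
  refine setIntegral_congr_fun measurableSet_ball fun x hx => ?_
  show κ ‖fm φ ψ x - fm φ ψ x0‖ * _ = η ‖x - x0‖ * (κ ‖fm φ ψ x - fm φ ψ x0‖ * _)
  by_cases hκ0 : κ ‖fm φ ψ x - fm φ ψ x0‖ = 0
  · rw [hκ0, zero_mul, mul_zero]
  · rw [Metric.mem_ball, dist_eq_norm] at hx
    have h1 := hk _ hκ0
    have h2 : b ≤ ‖x - x0‖ := by
      by_contra hn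
      exact absurd (hb x ((not_le.1 hn).le.trans hb3)) (not_le.2 h1.1)
    have h3 : ‖x - x0‖ ≤ c := by
      by_contra hn
      exact absurd (hc x (not_le.1 hn).le hx) (not_le.2 h1.2)
    rw [hηI _ h2 h3, one_mul]

end Pool.SQ
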