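import Pool.Agent.Work.MP_680515_sq.Interface
import Pool.Agent.Work.MP_680515_an.B.WIN1

/-!
# MP_680515_an, THEOREM SQ, block T2I: the flux identity
-/

set_option autoImplicit false

open MeasureTheory Set Filter Topology

namespace Pool.SQ

open Pool.Mart Pool.Flat

theorem T2I_wind : Continuous wind := by
  have h : LipschitzWith 2 wind := by
    refine LipschitzWith.of_dist_le_mul fun X Y => ?_
    rw [dist_eq_norm, dist_eq_norm]
    exact Pool.Mart.WIN1_.lip X Y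
  exact h.continuous

theorem T2I_fm (φ ψ : OpenPartialHomeomorph E3 E3) (h : ∀ x ∈ ψ.source, wind (ψ x) ∈ φ.source) :
    ContinuousOn (fm φ ψ) ψ.source := by
  have h3 : ContinuousOn (fun x => wind (ψ x)) ψ.source :=
    T2I_wind.comp_continuousOn ψ.continuousOn
  exact φ.continuousOn.comp h3 (fun x hx => h x hx)

theorem T2I_cpair (A : M3) (u v : ℝ) (H b : E3) : cpair A (u • H) (v • b) = u * v * cpair A H b := by
  unfold cpair
  rw [Finset.mul_sum]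
  apply Finset.sum_congr rfl
  intro i _
  rw [Finset.mul_sum]
  apply Finset.sum_congr rfl
  intro j _
  simp only [PiLp.smul_apply, smul_eq_mul]
  ring

theorem T2I_cpair0 (A : M3) (b : E3) : cpair A 0 b = 0 := by
  unfold cpair
  simp

/-- gradient of `log |X|` -/
theorem T2I_log (X : E3) (hX : X ≠ 0) :
    gradv (fun X : E3 => Real.log ‖X‖) X = (‖X‖ ^ 2)⁻¹ • X := by
  have hn : ‖X‖ ≠ 0 := norm_ne_zero_iff.2 hX
  have h1 : HasFDerivAt (fun X : E3 => ‖X‖ ^ 2) (2 • (innerSL ℝ X)) X :=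
    (hasStrictFDerivAt_norm_sq X).hasFDerivAt
  have h2 : HasFDerivAt (fun X : E3 => Real.log (‖X‖ ^ 2)) ((‖X‖ ^ 2)⁻¹ • (2 • (innerSL ℝ X))) X :=
    h1.log (pow_ne_zero 2 hn)
  have h3 : HasFDerivAt (fun X : E3 => (1 / 2 : ℝ) * Real.log (‖X‖ ^ 2))
      ((1 / 2 : ℝ) • ((‖X‖ ^ 2)⁻¹ • (2 • (innerSL ℝ X)))) X := h2.const_mul _
  have h4 : (fun X : E3 => (1 / 2 : ℝ) * Real.log (‖X‖ ^ 2)) = fun X : E3 => Real.log ‖X‖ := by
    funext Z
    rw [Real.log_pow]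
    push_cast
    ring
  rw [h4] at h3
  unfold gradv
  rw [h3.fderiv]
  ext j
  simp only [ContinuousLinearMap.smul_apply, nsmul_eq_mul, innerSL_apply_apply, smul_eq_mul,
    PiLp.smul_apply]
  have h5 : inner ℝ X (EuclideanSpace.single j (1 : ℝ)) = X j := by
    rw [EuclideanSpace.inner_single_right]
    simp
  rw [h5]
  push_cast
  ring

theorem T2I_logC : ContDiffOn ℝ 1 (fun X : E3 => Real.log ‖X‖) {0}ᶜ := by
  intro X hX
  have hX0 : X ≠ 0 := hX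
  exact ((contDiffAt_norm ℝ hX0).log (norm_ne_zero_iff.2 hX0)).contDiffWithinAt

section field

variable {κ : ℝ → ℝ} {ρ0 : ℝ}

noncomputable def T2I_X (κ : ℝ → ℝ) (y : E3) : E3 := κ ‖y‖ • ((‖y‖ ^ 3)⁻¹ • y)

theorem T2I_k0 (hκ : Kap 0 ρ0 κ) : κ 0 = 0 := by
  by_contra h
  have := hκ.ts (subset_tsupport κ h)
  exact lt_irrefl _ this.1

theorem T2I_tsup (_hκ : Kap 0 ρ0 κ) (y : E3) (hy : y ∈ tsupport (T2I_X κ)) : ‖y‖ ∈ tsupport κ := by
  have hcl : IsClosed {y : E3 | ‖y‖ ∈ tsupport κ} := (isClosed_tsupport κ).preimage continuous_norm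
  have hsub : Function.support (T2I_X κ) ⊆ {y : E3 | ‖y‖ ∈ tsupport κ} := by
    intro z hz
    apply subset_tsupport κ
    intro h0
    apply hz
    unfold T2I_X
    rw [h0, zero_smul]
  exact closure_minimal hsub hcl hy

theorem T2I_cs (hκ : Kap 0 ρ0 κ) : HasCompactSupport (T2I_X κ) := by
  apply HasCompactSupport.of_support_subset_isCompact (isCompact_closedBall (0 : E3) ρ0)
  intro z hz
  have h1 := T2I_tsup hκ z (subset_tsupport _ hz)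
  have h2 := hκ.ts h1
  rw [mem_closedBall_zero_iff]
  exact h2.2.le

theorem T2I_kn (hRAD : Pool.Mart.Stmt_RADF) (hκ : Kap 0 ρ0 κ) :
    ContDiff ℝ 1 (fun x : E3 => κ ‖x‖) ∧
    ∀ x : E3, gradv (fun x : E3 => κ ‖x‖) x = deriv κ ‖x‖ • (‖x‖⁻¹ • x) := by
  obtain ⟨h1, -, -⟩ := hRAD
  obtain ⟨h2, -, -, h3⟩ := h1 κ 0 0 ρ0 le_rfl hκ.c1 hκ.cs hκ.ts
  simp only [sub_zero] at h2 h3
  exact ⟨h2, h3⟩

theorem T2I_F (hRAD : Pool.Mart.Stmt_RADF) :
    ContDiffOn ℝ 1 (fun y : E3 => (‖y‖ ^ 3)⁻¹ • y) {0}ᶜ ∧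
    ∀ y : E3, y ≠ 0 → divv (fun y : E3 => (‖y‖ ^ 3)⁻¹ • y) y = 0 := by
  obtain ⟨-, h1, -⟩ := hRAD
  obtain ⟨h2, -, h3⟩ := h1 0
  simp only [sub_zero] at h2 h3
  exact ⟨h2, fun y hy => (h3 y hy).1⟩

theorem T2I_smooth (hRAD : Pool.Mart.Stmt_RADF) (hκ : Kap 0 ρ0 κ) : ContDiff ℝ 1 (T2I_X κ) := by
  rw [contDiff_iff_contDiffAt]
  intro y
  by_cases hy : y = 0
  · have h0 : (0 : E3) ∉ tsupport (T2I_X κ) := by
      intro h
      have := T2I_tsup hκ 0 h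
      rw [norm_zero] at this
      exact lt_irrefl _ (hκ.ts this).1
    rw [hy]
    have h1 : T2I_X κ =ᶠ[𝓝 0] fun _ => 0 := by
      have := notMem_tsupport_iff_eventuallyEq.1 h0
      exact this
    exact contDiffAt_const.congr_of_eventuallyEq h1
  · have h1 : ContDiffAt ℝ 1 (fun y : E3 => (‖y‖ ^ 3)⁻¹ • y) y :=
      (T2I_F hRAD).1.contDiffAt (isOpen_compl_singleton.mem_nhds hy)
    exact (T2I_kn hRAD hκ).1.contDiffAt.smul h1

theorem T2I_div (hRAD : Pool.Mart.Stmt_RADF) (hκ : Kap 0 ρ0 κ) (y : E3) :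
    divv (T2I_X κ) y = deriv κ ‖y‖ / ‖y‖ ^ 2 := by
  by_cases hy : y = 0
  · have h0 : (0 : E3) ∉ tsupport (T2I_X κ) := by
      intro h
      have := T2I_tsup hκ 0 h
      rw [norm_zero] at this
      exact lt_irrefl _ (hκ.ts this).1
    have h1 : T2I_X κ =ᶠ[𝓝 0] fun _ => 0 := notMem_tsupport_iff_eventuallyEq.1 h0
    rw [hy, norm_zero]
    unfold divv
    rw [h1.fderiv_eq]
    simp
  · have hn : ‖y‖ ≠ 0 := norm_ne_zero_iff.2 hy
    have h1 : DifferentiableAt ℝ (fun y : E3 => (‖y‖ ^ 3)⁻¹ • y) y :=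
      ((T2I_F hRAD).1.contDiffAt (isOpen_compl_singleton.mem_nhds hy)).differentiableAt (by norm_num)
    have h2 : DifferentiableAt ℝ (fun x : E3 => κ ‖x‖) y :=
      (T2I_kn hRAD hκ).1.contDiffAt.differentiableAt (by norm_num)
    have h3 := h2.hasFDerivAt.smul h1.hasFDerivAt
    have h4 : HasFDerivAt (T2I_X κ) (κ ‖y‖ • fderiv ℝ (fun y : E3 => (‖y‖ ^ 3)⁻¹ • y) y +
        (fderiv ℝ (fun x : E3 => κ ‖x‖) y).smulRight ((‖y‖ ^ 3)⁻¹ • y)) y := h3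
    have h5 := (T2I_F hRAD).2 y hy
    have h6 := (T2I_kn hRAD hκ).2 y
    have h7 : ∀ i : Fin 3, fderiv ℝ (fun x : E3 => κ ‖x‖) y (EuclideanSpace.single i 1)
        = deriv κ ‖y‖ * (‖y‖⁻¹ * y i) := by
      intro i
      have := congrArg (fun z : E3 => z i) h6
      simpa [gradv] using this
    unfold divv at h5 ⊢
    rw [h4.fderiv]
    have h8 : ∀ i : Fin 3, ((κ ‖y‖ • fderiv ℝ (fun y : E3 => (‖y‖ ^ 3)⁻¹ • y) y +
        (fderiv ℝ (fun x : E3 => κ ‖x‖) y).smulRight ((‖y‖ ^ 3)⁻¹ • y))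
          (EuclideanSpace.single i 1)) i
        = κ ‖y‖ * (fderiv ℝ (fun y : E3 => (‖y‖ ^ 3)⁻¹ • y) y (EuclideanSpace.single i 1) i)
          + deriv κ ‖y‖ * ‖y‖⁻¹ * (‖y‖ ^ 3)⁻¹ * (y i) ^ 2 := by
      intro i
      rw [ContinuousLinearMap.add_apply, ContinuousLinearMap.smul_apply,
        ContinuousLinearMap.smulRight_apply, h7 i]
      simp only [PiLp.add_apply, PiLp.smul_apply, smul_eq_mul]
      ring
    rw [Finset.sum_congr rfl (fun i _ => h8 i), Finset.sum_add_distrib, ← Finset.mul_sum, h5,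
      mul_zero, zero_add, ← Finset.mul_sum]
    have h9 : ∑ i : Fin 3, (y i) ^ 2 = ‖y‖ ^ 2 := by
      rw [EuclideanSpace.norm_sq_eq]
      apply Finset.sum_congr rfl
      intro i _
      rw [Real.norm_eq_abs, sq_abs]
    rw [h9]
    field_simp

end field

theorem p_T2I (hSHT : Stmt_SHT) (hLPI : Pool.Flat.Stmt_LPI) (hRAD : Pool.Mart.Stmt_RADF) :
    Stmt_T2I := by
  intro φ ψ A x0 r0 ρ0 hBP κ hκ
  obtain ⟨-, -, hsph, -, -⟩ := hSHT φ ψ A x0 r0 ρ0 hBP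
  have hf : ContinuousOn (fm φ ψ) ψ.source := T2I_fm φ ψ hBP.wm.src
  obtain ⟨-, hmain⟩ := hLPI ψ.source (fm φ ψ) A x0 r0 (T2I_X κ) (fun X : E3 => Real.log ‖X‖)
    (tsupport κ) ψ.open_source hf hBP.wm.wg hBP.rpos hBP.sub (T2I_smooth hRAD hκ) (T2I_cs hκ)
    hκ.cs (fun s hs => (hκ.ts hs).1) (T2I_tsup hκ)
    (fun x hx s hs => (hκ.ts hs).2.trans (hsph x hx)) T2I_logC
  have e1 : ∀ x : E3, cpair (A x) (T2I_X κ (fm φ ψ x - fm φ ψ x0))
      (gradv (fun X : E3 => Real.log ‖X‖) (x - x0)) = κ ‖fm φ ψ x - fm φ ψ x0‖ *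
      (fx (A x) (x - x0) (fm φ ψ x - fm φ ψ x0) / ‖x - x0‖) := by
    intro x
    by_cases hx : x = x0
    · rw [hx, sub_self, sub_self, norm_zero, T2I_k0 hκ]
      unfold T2I_X
      rw [norm_zero, T2I_k0 hκ, zero_smul, T2I_cpair0, zero_mul]
    · have hx' : x - x0 ≠ 0 := sub_ne_zero.2 hx
      have hn : ‖x - x0‖ ≠ 0 := norm_ne_zero_iff.2 hx'
      rw [T2I_log _ hx']
      unfold T2I_X fx
      rw [show (‖x - x0‖ ^ 2)⁻¹ • (x - x0) = ‖x - x0‖⁻¹ • (‖x - x0‖⁻¹ • (x - x0)) from by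
        rw [smul_smul]; congr 1; rw [sq, mul_inv], T2I_cpair]
      ring
  have e2 : ∀ x : E3, Real.log ‖x - x0‖ * ((A x).det * divv (T2I_X κ) (fm φ ψ x - fm φ ψ x0))
      = Real.log ‖x - x0‖ *
        ((A x).det * (deriv κ ‖fm φ ψ x - fm φ ψ x0‖ / ‖fm φ ψ x - fm φ ψ x0‖ ^ 2)) := by
    intro x
    rw [T2I_div hRAD hκ]
  simp only [e1, e2] at hmain
  exact hmain

end Pool.SQ
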