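import Pool.Agent.Work.MP_680515_sq.Interface

/-!
# MP_680515_an, THEOREM SQ, block ARD: almost every point is covered by two sheets (helper79)
-/

open MeasureTheory Set Filter Topology

namespace Pool.SQ

open Pool.Mart Pool.Flat

/-- The determinant of the linear map of a matrix. -/
theorem ARD_det (A : M3) :
    (LinearMap.toContinuousLinearMap (Matrix.toEuclideanLin A)).det = A.det := by
  have h : Matrix.toEuclideanLin A = Matrix.toLin (PiLp.basisFun 2 ℝ (Fin 3)) (PiLp.basisFun 2 ℝ (Fin 3)) A :=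
    LinearEquiv.congr_fun (Matrix.toLpLin_eq_toLin 2 2) A
  rw [ContinuousLinearMap.det, LinearMap.coe_toContinuousLinearMap, h, LinearMap.det_toLin]

/-- `f` is differentiable with derivative `A x` and nonnegative Jacobian at the points of `D`, and injective
on the measurable set `D`. -/
structure ARD_P (f : E3 → E3) (A : E3 → M3) (D : Set E3) : Prop where
  ms : MeasurableSet D
  inj : InjOn f D
  df : ∀ x ∈ D, 0 ≤ (A x).det ∧
    HasFDerivAt f (LinearMap.toContinuousLinearMap (Matrix.toEuclideanLin (A x))) x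

/-- One piece. -/
theorem ARD_piece (f : E3 → E3) (A : E3 → M3) (D : Set E3) (hD : ARD_P f A D) (g : E3 → ℝ) :
    ∫⁻ x in D, ‖(A x).det * g (f x)‖ₑ = ∫⁻ y in f '' D, ‖g y‖ₑ := by
  rw [lintegral_image_eq_lintegral_abs_det_fderiv_mul volume hD.ms
    (fun x hx => (hD.df x hx).2.hasFDerivWithinAt) hD.inj (fun y => ‖g y‖ₑ)]
  refine setLIntegral_congr_fun hD.ms fun x hx => ?_
  beta_reduce
  rw [ARD_det, enorm_mul, Real.enorm_eq_ofReal_abs (A x).det]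

/-- The inequality of the degree. -/
theorem ARD_ineq (f : E3 → E3) (A : E3 → M3) (x0 : E3) (B U N D1 D2 D3 : Set E3) (c : ℕ)
    (g : E3 → ℝ) (hc : 2 ≤ c) (hg : Continuous g) (hgs : HasCompactSupport g) (hg0 : ∀ y, 0 ≤ g y)
    (hdeg : ∫ x in B, (A x).det * g (f x) = c * ∫ y, g y) (hB : MeasurableSet B)
    (hU : MeasurableSet U) (h0 : ∀ x ∈ B, x ∉ U → x ≠ x0 → g (f x) = 0)
    (hsub : U ⊆ N ∪ (D1 ∪ (D2 ∪ D3))) (hN : volume N = 0) (hD1 : ARD_P f A D1)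
    (hD2 : ARD_P f A D2) (hD3 : ARD_P f A D3) :
    2 * ∫⁻ y, ‖g y‖ₑ ≤ (∫⁻ y in f '' D1, ‖g y‖ₑ) +
      ((∫⁻ y in f '' D2, ‖g y‖ₑ) + ∫⁻ y in f '' D3, ‖g y‖ₑ) := by
  have e1 : ENNReal.ofReal (∫ y, g y) = ∫⁻ y, ‖g y‖ₑ := by
    rw [ofReal_integral_eq_lintegral_ofReal (hg.integrable_of_hasCompactSupport hgs)
      (ae_of_all _ hg0)]
    exact lintegral_congr fun y => (Real.enorm_of_nonneg (hg0 y)).symm
  have e2 : ∫⁻ x in B \ U, ‖(A x).det * g (f x)‖ₑ = 0 := by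
    have h1 : (fun x => ‖(A x).det * g (f x)‖ₑ) =ᵐ[volume.restrict (B \ U)] fun _ => 0 := by
      have h2 : ∀ᵐ x ∂(volume : Measure E3), x ≠ x0 := by
        rw [ae_iff]
        simp
      filter_upwards [ae_restrict_of_ae h2, ae_restrict_mem (hB.diff hU)] with x hx1 hx2
      rw [h0 x hx2.1 hx2.2 hx1, mul_zero, enorm_zero]
    rw [lintegral_congr_ae h1, lintegral_zero]
  calc 2 * ∫⁻ y, ‖g y‖ₑ ≤ (c : ENNReal) * ∫⁻ y, ‖g y‖ₑ := by
        gcongr
        exact_mod_cast hc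
    _ = ENNReal.ofReal (c * ∫ y, g y) := by
        rw [ENNReal.ofReal_mul (Nat.cast_nonneg c), ENNReal.ofReal_natCast, e1]
    _ ≤ ‖∫ x in B, (A x).det * g (f x)‖ₑ := by
        rw [← hdeg, Real.enorm_eq_ofReal_abs]
        exact ENNReal.ofReal_le_ofReal (le_abs_self _)
    _ ≤ ∫⁻ x in B, ‖(A x).det * g (f x)‖ₑ := enorm_integral_le_lintegral_enorm _
    _ ≤ ∫⁻ x in (B \ U) ∪ U, ‖(A x).det * g (f x)‖ₑ := by
        apply lintegral_mono_set
        rw [sdiff_union_self]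
        exact subset_union_left
    _ ≤ (∫⁻ x in B \ U, ‖(A x).det * g (f x)‖ₑ) + ∫⁻ x in U, ‖(A x).det * g (f x)‖ₑ :=
        lintegral_union_le _ _ _
    _ = ∫⁻ x in U, ‖(A x).det * g (f x)‖ₑ := by rw [e2, zero_add]
    _ ≤ ∫⁻ x in N ∪ (D1 ∪ (D2 ∪ D3)), ‖(A x).det * g (f x)‖ₑ := lintegral_mono_set hsub
    _ ≤ (∫⁻ x in N, ‖(A x).det * g (f x)‖ₑ) + ∫⁻ x in D1 ∪ (D2 ∪ D3), ‖(A x).det * g (f x)‖ₑ :=
        lintegral_union_le _ _ _
    _ ≤ 0 + ((∫⁻ x in D1, ‖(A x).det * g (f x)‖ₑ) + ((∫⁻ x in D2, ‖(A x).det * g (f x)‖ₑ) +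
          ∫⁻ x in D3, ‖(A x).det * g (f x)‖ₑ)) := by
        refine add_le_add ?_ ?_
        · rw [Measure.restrict_eq_zero.2 hN, lintegral_zero_measure]
        · exact (lintegral_union_le _ _ _).trans (add_le_add le_rfl (lintegral_union_le _ _ _))
    _ = _ := by
        rw [zero_add, ARD_piece f A D1 hD1, ARD_piece f A D2 hD2, ARD_piece f A D3 hD3]

/-- The number of sheets is two where `g` is positive. -/
theorem ARD_two (S1 S2 S3 : Set E3) (g : E3 → ℝ) (hg : Continuous g) (hgs : HasCompactSupport g)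
    (m1 : MeasurableSet S1) (m2 : MeasurableSet S2) (m3 : MeasurableSet S3)
    (h13 : Disjoint S1 S3) (h23 : Disjoint S2 S3)
    (h : 2 * ∫⁻ y, ‖g y‖ₑ ≤ (∫⁻ y in S1, ‖g y‖ₑ) + ((∫⁻ y in S2, ‖g y‖ₑ) + ∫⁻ y in S3, ‖g y‖ₑ)) :
    ∀ᵐ y ∂(volume : Measure E3), 0 < g y → y ∈ S1 ∧ y ∈ S2 := by
  have hgm : Measurable fun y : E3 => ‖g y‖ₑ := hg.measurable.enorm
  have hfin : ∫⁻ y, ‖g y‖ₑ ≠ ⊤ := (hg.integrable_of_hasCompactSupport hgs).2.ne
  have e : (∫⁻ y in S1, ‖g y‖ₑ) + ((∫⁻ y in S2, ‖g y‖ₑ) + ∫⁻ y in S3, ‖g y‖ₑ) =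
      ∫⁻ y, (S1.indicator (fun y => ‖g y‖ₑ) y + (S2.indicator (fun y => ‖g y‖ₑ) y +
        S3.indicator (fun y => ‖g y‖ₑ) y)) := by
    rw [lintegral_add_left (hgm.indicator m1), lintegral_add_left (hgm.indicator m2),
      lintegral_indicator m1, lintegral_indicator m2, lintegral_indicator m3]
  have hle : ∀ y : E3, S1.indicator (fun y => ‖g y‖ₑ) y + (S2.indicator (fun y => ‖g y‖ₑ) y +
        S3.indicator (fun y => ‖g y‖ₑ) y) ≤ 2 * ‖g y‖ₑ := by
    intro y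
    rw [two_mul]
    by_cases y3 : y ∈ S3
    · have y1 : y ∉ S1 := fun hy => Set.disjoint_left.1 h13 hy y3
      have y2 : y ∉ S2 := fun hy => Set.disjoint_left.1 h23 hy y3
      rw [indicator_of_notMem y1, indicator_of_notMem y2, indicator_of_mem y3, zero_add, zero_add]
      exact le_self_add
    · rw [indicator_of_notMem y3, add_zero]
      exact add_le_add (indicator_le_self _ _ _) (indicator_le_self _ _ _)
  have hle' : ∫⁻ y, (S1.indicator (fun y => ‖g y‖ₑ) y + (S2.indicator (fun y => ‖g y‖ₑ) y +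
        S3.indicator (fun y => ‖g y‖ₑ) y)) ≤ 2 * ∫⁻ y, ‖g y‖ₑ := by
    rw [← lintegral_const_mul _ hgm]
    exact lintegral_mono hle
  have h2 : 2 * ∫⁻ y, ‖g y‖ₑ ≠ ⊤ := ENNReal.mul_ne_top (by simp) hfin
  have hae := ae_eq_of_ae_le_of_lintegral_le (ae_of_all volume hle) (ne_top_of_le_ne_top h2 hle')
    (hgm.const_mul 2).aemeasurable (by rw [lintegral_const_mul _ hgm, ← e]; exact h)
  filter_upwards [hae] with y hy hpos
  have hp : ‖g y‖ₑ ≠ 0 := by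
    rw [enorm_ne_zero]
    exact hpos.ne'
  have ht : ‖g y‖ₑ ≠ ⊤ := enorm_ne_top
  have hlt : ‖g y‖ₑ < 2 * ‖g y‖ₑ := by
    rw [two_mul]
    exact ENNReal.lt_add_right ht hp
  have hone : ∀ S : Set E3, Disjoint S S3 →
      S.indicator (fun y => ‖g y‖ₑ) y + S3.indicator (fun y => ‖g y‖ₑ) y ≤ ‖g y‖ₑ := by
    intro S hS
    by_cases y3 : y ∈ S3
    · have y1 : y ∉ S := fun hy => Set.disjoint_left.1 hS hy y3
      rw [indicator_of_notMem y1, indicator_of_mem y3, zero_add]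
    · rw [indicator_of_notMem y3, add_zero]
      exact indicator_le_self _ _ _
  constructor
  · by_contra y1
    rw [indicator_of_notMem y1, zero_add] at hy
    exact absurd hlt (not_lt.2 (hy ▸ hone S2 h23))
  · by_contra y2
    rw [indicator_of_notMem y2, zero_add] at hy
    exact absurd hlt (not_lt.2 (hy ▸ hone S1 h13))

/-- Almost every point is covered by two sheets. -/
theorem p_ARD (hDGB : Stmt_DGB) (hSHT : Stmt_SHT) (hFSC : Stmt_FSC) (hDAE : Stmt_DAE)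
    (hFOP : Stmt_FOP) (hWOP : Stmt_WOP) : Stmt_ARD := by
  intro φ ψ A x0 r0 ρ0 hBP
  have hW := hBP.wm
  obtain ⟨hcont, hopen, hsep⟩ := hFOP φ ψ hW.src
  obtain ⟨-, -, -, hx0, -⟩ := hSHT φ ψ A x0 r0 ρ0 hBP
  obtain ⟨hUo, -, -, -⟩ := hFSC φ ψ A x0 r0 ρ0 hBP
  obtain ⟨c, hc, hdeg⟩ := hDGB φ ψ A x0 r0 ρ0 hBP
  have hΩ : IsOpen ψ.source := ψ.open_source
  have hae1 := hDAE ψ.source (fm φ ψ) A hΩ hcont hW.wg hopen
  have hae : ∀ᵐ x ∂(volume.restrict ψ.source), 0 ≤ (A x).det ∧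
      HasFDerivAt (fm φ ψ) (LinearMap.toContinuousLinearMap (Matrix.toEuclideanLin (A x))) x := by
    filter_upwards [hae1, hW.good] with x h1 h2
    refine ⟨?_, h1⟩
    have h3 : 0 ≤ opn (A x) := norm_nonneg _
    have h4 := h2.2
    have h5 : 0 ≤ opn (A x) ^ 3 := by positivity
    linarith
  rw [ae_restrict_iff' hΩ.measurableSet] at hae
  obtain ⟨-, -, -, -, hW5, -, -, hW8, -⟩ := hWOP
  -- the null set
  obtain ⟨N, hNsub, hNm, hN0⟩ := exists_measurable_superset_of_null (ae_iff.1 hae)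
  have hUs : ∀ x ∈ UD φ ψ x0 ρ0, x ∈ ψ.source := fun x hx => hx.1
  set D0 : Set E3 := UD φ ψ x0 ρ0 \ N with hD0
  have hD0m : MeasurableSet D0 := hUo.measurableSet.diff hNm
  have hder : ∀ x ∈ D0, 0 ≤ (A x).det ∧ HasFDerivAt (fm φ ψ)
      (LinearMap.toContinuousLinearMap (Matrix.toEuclideanLin (A x))) x := by
    intro x hx
    by_contra hcon
    exact hx.2 (hNsub (fun hh2 => hcon (hh2 (hUs x hx.1))))
  classical
  set ψ' : E3 → E3 := ψ.source.piecewise ψ (fun _ => 0) with hψ'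
  have hψm : Measurable ψ' :=
    ContinuousOn.measurable_piecewise ψ.continuousOn continuousOn_const hΩ.measurableSet
  have hψeq : ∀ x ∈ D0, ψ' x = ψ x := fun x hx => Set.piecewise_eq_of_mem _ _ _ (hUs x hx.1)
  have hm0 : Measurable (fun y : E3 => y 0) := by fun_prop
  have hm1 : Measurable (fun y : E3 => y 1) := by fun_prop
  have hmr : Measurable (fun y : E3 => rad y) := by unfold rad; fun_prop
  set C1 : Set E3 := {y | 0 < y 1 ∨ (y 1 = 0 ∧ 0 < y 0)} with hC1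
  set C2 : Set E3 := {y | y 1 < 0 ∨ (y 1 = 0 ∧ y 0 < 0)} with hC2
  set C3 : Set E3 := {y | rad y = 0} with hC3
  have hC1m : MeasurableSet C1 :=
    (measurableSet_lt measurable_const hm1).union
      ((measurableSet_eq_fun hm1 measurable_const).inter (measurableSet_lt measurable_const hm0))
  have hC2m : MeasurableSet C2 :=
    (measurableSet_lt hm1 measurable_const).union
      ((measurableSet_eq_fun hm1 measurable_const).inter (measurableSet_lt hm0 measurable_const))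
  have hC3m : MeasurableSet C3 := measurableSet_eq_fun hmr measurable_const
  have mC1 : ∀ y : E3, y ∈ C1 ↔ 0 < y 1 ∨ (y 1 = 0 ∧ 0 < y 0) := fun y => Iff.rfl
  have mC2 : ∀ y : E3, y ∈ C2 ↔ y 1 < 0 ∨ (y 1 = 0 ∧ y 0 < 0) := fun y => Iff.rfl
  have mC3 : ∀ y : E3, y ∈ C3 ↔ rad y = 0 := fun y => Iff.rfl
  have hcover : ∀ y : E3, y ∈ C1 ∪ (C2 ∪ C3) := by
    intro y
    rcases lt_trichotomy (y 1) 0 with h1 | h1 | h1
    · right; left; left; exact h1
    · rcases lt_trichotomy (y 0) 0 with h0 | h0 | h0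
      · right; left; right; exact ⟨h1, h0⟩
      · right; right
        rw [mC3]
        unfold rad
        rw [h0, h1]; simp
      · left; right; exact ⟨h1, h0⟩
    · left; left; exact h1
  have hr0 : ∀ y : E3, rad y = 0 → y 0 = 0 ∧ y 1 = 0 := by
    intro y hy
    unfold rad at hy
    have h1 : 0 ≤ y 0 ^ 2 + y 1 ^ 2 := by positivity
    have h2 := (Real.sqrt_eq_zero h1).1 hy
    constructor
    · nlinarith [sq_nonneg (y 0), sq_nonneg (y 1)]
    · nlinarith [sq_nonneg (y 0), sq_nonneg (y 1)]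
  have hC12 : ∀ y : E3, y ∈ C1 → y ∉ C2 := by
    intro y h1 h2
    rw [mC1] at h1
    rw [mC2] at h2
    rcases h1 with h1 | ⟨h1, h1'⟩ <;> rcases h2 with h2 | ⟨h2, h2'⟩ <;> linarith
  have hC13 : ∀ y : E3, y ∈ C1 → y ∉ C3 := by
    intro y h1 h2
    obtain ⟨h3, h4⟩ := hr0 y h2
    rw [mC1] at h1
    rcases h1 with h1 | ⟨h1, h1'⟩ <;> linarith
  have hC23 : ∀ y : E3, y ∈ C2 → y ∉ C3 := by
    intro y h1 h2
    obtain ⟨h3, h4⟩ := hr0 y h2
    rw [mC2] at h1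
    rcases h1 with h1 | ⟨h1, h1'⟩ <;> linarith
  have hinj : ∀ C : Set E3, (∀ y ∈ C, sg y ∈ C → sg y = y) →
      InjOn (fm φ ψ) (D0 ∩ ψ' ⁻¹' C) := by
    intro C hC x hx x' hx' hxx
    have hx1 : ψ x ∈ C := by have := hx.2; rwa [mem_preimage, hψeq x hx.1] at this
    have hx1' : ψ x' ∈ C := by have := hx'.2; rwa [mem_preimage, hψeq x' hx'.1] at this
    have e1 : wind (ψ x) = wind (ψ x') :=
      φ.injOn (hW.src x (hUs x hx.1.1)) (hW.src x' (hUs x' hx'.1.1)) hxx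
    have e2 : ψ x' = ψ x := by
      rcases hW5 _ _ e1 with h2 | h2
      · exact h2
      · have h3 : sg (ψ x) ∈ C := by rw [← h2]; exact hx1'
        rw [h2]; exact hC _ hx1 h3
    exact (ψ.injOn (hUs x' hx'.1.1) (hUs x hx.1.1) e2).symm
  have s0 : ∀ y : E3, (sg y) 0 = -(y 0) := by intro y; simp [sg]
  have s1 : ∀ y : E3, (sg y) 1 = -(y 1) := by intro y; simp [sg]
  have hI1 := hinj C1 (by
    intro y hy hsy
    exfalso
    rw [mC1] at hy hsy
    rw [s0, s1] at hsy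
    rcases hy with h1 | ⟨h1, h1'⟩ <;> rcases hsy with h2 | ⟨h2, h2'⟩ <;> linarith)
  have hI2 := hinj C2 (by
    intro y hy hsy
    exfalso
    rw [mC2] at hy hsy
    rw [s0, s1] at hsy
    rcases hy with h1 | ⟨h1, h1'⟩ <;> rcases hsy with h2 | ⟨h2, h2'⟩ <;> linarith)
  have hI3 := hinj C3 (fun y hy _ => (hW8 y).2 hy)
  have hP : ∀ C : Set E3, MeasurableSet C → InjOn (fm φ ψ) (D0 ∩ ψ' ⁻¹' C) →
      ARD_P (fm φ ψ) A (D0 ∩ ψ' ⁻¹' C) := fun C hCm hi =>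
    ⟨hD0m.inter (hψm hCm), hi, fun x hx => hder x hx.1⟩
  have P1 := hP C1 hC1m hI1
  have P2 := hP C2 hC2m hI2
  have P3 := hP C3 hC3m hI3
  have hsub : UD φ ψ x0 ρ0 ⊆ N ∪ ((D0 ∩ ψ' ⁻¹' C1) ∪ ((D0 ∩ ψ' ⁻¹' C2) ∪ (D0 ∩ ψ' ⁻¹' C3))) := by
    intro x hx
    by_cases hxN : x ∈ N
    · exact Or.inl hxN
    · right
      have hxD : x ∈ D0 := ⟨hx, hxN⟩
      rcases hcover (ψ' x) with h1 | h1 | h1
      · exact Or.inl ⟨hxD, h1⟩
      · exact Or.inr (Or.inl ⟨hxD, h1⟩)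
      · exact Or.inr (Or.inr ⟨hxD, h1⟩)
  -- images
  have himg : ∀ C : Set E3, (∀ y ∈ C, y ∉ C3) →
      Disjoint (fm φ ψ '' (D0 ∩ ψ' ⁻¹' C)) (fm φ ψ '' (D0 ∩ ψ' ⁻¹' C3)) := by
    intro C hC
    rw [Set.disjoint_left]
    rintro _ ⟨x, hx, rfl⟩ ⟨z, hz, hzx⟩
    have hz1 : rad (ψ z) = 0 := by
      have := hz.2
      rwa [mem_preimage, hψeq z hz.1] at this
    have hxz : x = z := hsep x (hUs x hx.1.1) z ⟨hUs z hz.1.1, hz1⟩ hzx.symm
    exact hC _ hx.2 (hxz ▸ hz.2)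
  have hd13 := himg C1 hC13
  have hd23 := himg C2 hC23
  have hmi : ∀ D : Set E3, ARD_P (fm φ ψ) A D → MeasurableSet (fm φ ψ '' D) := fun D hD =>
    measurable_image_of_fderivWithin hD.ms (fun x hx => (hD.df x hx).2.hasFDerivWithinAt) hD.inj
  -- two sheets
  have hstep : ∀ ρ' : ℝ, ρ' < ρ0 → ∀ᵐ y ∂(volume : Measure E3), ‖y - fm φ ψ x0‖ < ρ' →
      y ∈ fm φ ψ '' (D0 ∩ ψ' ⁻¹' C1) ∧ y ∈ fm φ ψ '' (D0 ∩ ψ' ⁻¹' C2) := by
    intro ρ' hρ'
    have hg : Continuous fun y : E3 => max (ρ' - ‖y - fm φ ψ x0‖) 0 := by fun_prop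
    have hg0 : ∀ y : E3, 0 ≤ max (ρ' - ‖y - fm φ ψ x0‖) 0 := fun y => le_max_right _ _
    have hgz : ∀ y : E3, y ∉ Metric.closedBall (fm φ ψ x0) ρ' →
        max (ρ' - ‖y - fm φ ψ x0‖) 0 = 0 := by
      intro y hy
      rw [Metric.mem_closedBall, dist_eq_norm, not_le] at hy
      exact max_eq_right (by linarith)
    have hgs : HasCompactSupport fun y : E3 => max (ρ' - ‖y - fm φ ψ x0‖) 0 :=
      HasCompactSupport.intro (isCompact_closedBall _ _) hgz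
    have hgt : tsupport (fun y : E3 => max (ρ' - ‖y - fm φ ψ x0‖) 0) ⊆
        Metric.ball (fm φ ψ x0) ρ0 := by
      refine (closure_minimal ?_ Metric.isClosed_closedBall).trans
        (Metric.closedBall_subset_ball hρ')
      intro y hy
      by_contra h
      exact hy (hgz y h)
    have h1 := ARD_ineq (fm φ ψ) A x0 (Metric.ball x0 r0) (UD φ ψ x0 ρ0) N
      (D0 ∩ ψ' ⁻¹' C1) (D0 ∩ ψ' ⁻¹' C2) (D0 ∩ ψ' ⁻¹' C3) c _ hc hg hgs hg0
      (hdeg _ hg hgs hgt) measurableSet_ball hUo.measurableSet (by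
        intro x hx hxU hxx
        have hxs : x ∈ ψ.source := hBP.sub (Metric.ball_subset_closedBall hx)
        refine hgz _ fun hmem => ?_
        rw [Metric.mem_closedBall, dist_eq_norm] at hmem
        refine hxU ⟨hxs, ?_, hmem.trans_lt hρ'⟩
        rw [norm_pos_iff, sub_ne_zero]
        exact fun h => hxx (hx0 x hxs h)) hsub hN0 P1 P2 P3
    have h2 := ARD_two _ _ _ _ hg hgs (hmi _ P1) (hmi _ P2) (hmi _ P3) hd13 hd23 h1
    filter_upwards [h2] with y hy hlt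
    exact hy (lt_max_of_lt_left (by linarith))
  have hball : ∀ᵐ y ∂(volume : Measure E3), y ∈ Metric.ball (fm φ ψ x0) ρ0 →
      y ∈ fm φ ψ '' (D0 ∩ ψ' ⁻¹' C1) ∧ y ∈ fm φ ψ '' (D0 ∩ ψ' ⁻¹' C2) := by
    have h1 : ∀ᵐ y ∂(volume : Measure E3), ∀ k : ℕ, ‖y - fm φ ψ x0‖ < ρ0 - 1 / ((k : ℝ) + 1) →
        y ∈ fm φ ψ '' (D0 ∩ ψ' ⁻¹' C1) ∧ y ∈ fm φ ψ '' (D0 ∩ ψ' ⁻¹' C2) := by
      rw [ae_all_iff]
      intro k
      have h2 : (0 : ℝ) < 1 / ((k : ℝ) + 1) := by positivity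
      exact hstep _ (by linarith)
    filter_upwards [h1] with y hy hyb
    rw [Metric.mem_ball, dist_eq_norm] at hyb
    obtain ⟨k, hk⟩ := exists_nat_one_div_lt (sub_pos.2 hyb)
    exact hy k (by linarith)
  refine ⟨D0 ∩ ψ' ⁻¹' C1, D0 ∩ ψ' ⁻¹' C2, P1.ms, P2.ms, ?_, fun x hx => hx.1.1,
    fun x hx => hx.1.1, hI1, hI2, ?_, ?_, ?_, ?_⟩
  · rw [Set.disjoint_left]
    exact fun x h1 h2 => hC12 _ h1.2 h2.2
  · rintro x (hx | hx)
    · exact hder x hx.1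
    · exact hder x hx.1
  · intro x hx x' hx' hxx
    have hx1 : ψ x ∈ C1 := by have := hx.2; rwa [mem_preimage, hψeq x hx.1] at this
    have hx1' : ψ x' ∈ C2 := by have := hx'.2; rwa [mem_preimage, hψeq x' hx'.1] at this
    have e1 : wind (ψ x) = wind (ψ x') :=
      φ.injOn (hW.src x (hUs x hx.1.1)) (hW.src x' (hUs x' hx'.1.1)) hxx
    rcases hW5 _ _ e1 with h2 | h2
    · exact absurd (h2 ▸ hx1') (hC12 _ hx1)
    · unfold sx
      rw [← h2, ψ.left_inv (hUs x' hx'.1.1)]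
  · -- the axis
    have hnull : volume (fm φ ψ '' (D0 ∩ ψ' ⁻¹' C3)) = 0 := by
      rw [measure_eq_zero_iff_ae_notMem]
      filter_upwards [hball] with y hy hy3
      obtain ⟨x, hx, rfl⟩ := hy3
      have h1 : fm φ ψ x ∈ Metric.ball (fm φ ψ x0) ρ0 := by
        rw [Metric.mem_ball, dist_eq_norm]
        exact hx.1.1.2.2
      exact Set.disjoint_left.1 hd13 (hy h1).1 ⟨x, hx, rfl⟩
    have h1 := lintegral_abs_det_fderiv_eq_addHaar_image volume P3.ms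
      (fun x hx => (P3.df x hx).2.hasFDerivWithinAt) P3.inj
    rw [hnull] at h1
    have h2 := (lintegral_eq_zero_iff' (aemeasurable_ofReal_abs_det_fderivWithin volume P3.ms
      (fun x hx => (P3.df x hx).2.hasFDerivWithinAt))).1 h1
    rw [EventuallyEq, ae_restrict_iff' P3.ms] at h2
    have h3 : ∀ᵐ x ∂(volume : Measure E3), x ∉ N := measure_eq_zero_iff_ae_notMem.1 hN0
    rw [ae_restrict_iff' hUo.measurableSet]
    filter_upwards [h2, h3] with x hx2 hx3 hxU hx12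
    rcases hsub hxU with h4 | h4 | h4 | h4
    · exact absurd h4 hx3
    · exact absurd (Or.inl h4) hx12
    · exact absurd (Or.inr h4) hx12
    · have h5 := hx2 h4
      rw [Pi.zero_apply, ENNReal.ofReal_eq_zero, ARD_det] at h5
      exact abs_nonpos_iff.1 h5
  · rw [ae_restrict_iff' measurableSet_ball]
    exact hball

end Pool.SQ
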