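import Pool.Agent.Work.MP_680515_sq.Interface

/-!
# MP_680515_an, THEOREM SQ, block BND: the bound for trapezoids
-/

open MeasureTheory Set Filter Topology

namespace Pool.SQ

open Pool.Mart Pool.Flat

theorem p_BND (hGRW : Stmt_GRW) (hT1B : Stmt_T1B) (hT2B : Stmt_T2B) (hTRZ : Stmt_TRZ)
    (hSHT : Stmt_SHT) : Stmt_BND := by
  intro φ ψ A x0 r0 ρ0 hBP
  obtain ⟨Λ, t0, hΛ, ht0, ht0', hG⟩ := hGRW φ ψ A x0 r0 ρ0 hBP
  obtain ⟨-, hpre, -, -, -⟩ := hSHT φ ψ A x0 r0 ρ0 hBP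
  have hx0 : x0 ∈ ψ.source := hBP.xS.1
  have hpt : ∀ t : ℝ, 0 < t → t ≤ ρ0 → ∃ p ∈ ψ.source, p ≠ x0 ∧ ‖fm φ ψ p - fm φ ψ x0‖ = t := by
    intro t ht ht'
    have hn : ‖(fm φ ψ x0 + t • (EuclideanSpace.single 0 (1 : ℝ) : E3)) - fm φ ψ x0‖ = t := by
      rw [add_sub_cancel_left, norm_smul, EuclideanSpace.norm_single]
      simp [abs_of_pos ht]
    obtain ⟨p, hp, hpe⟩ := hpre _ (hn.le.trans ht')
    refine ⟨p, hp, ?_, by rw [hpe, hn]⟩
    rintro rfl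
    have : ‖fm φ ψ p - fm φ ψ p‖ = t := by
      conv_lhs => rw [show fm φ ψ p - fm φ ψ p = (fm φ ψ p + t • (EuclideanSpace.single 0 (1 : ℝ) : E3))
        - fm φ ψ p from by rw [← hpe]]
      exact hn
    rw [sub_self, norm_zero] at this
    linarith
  refine ⟨16 * Real.pi * Real.log Λ, t0, ht0, ht0', fun t1 t2 ht1 h12 h2 => ?_⟩
  obtain ⟨κ, k1, k2, k3, k4, k5, k6, k7, k8, k9⟩ := hTRZ t1 t2 ht1 h12
  refine ⟨κ, k1, fun s => (k2 s).1, k3, k4, k9, ?_⟩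
  have he1 : (1 : ℝ) < Real.exp 1 := by
    have := Real.add_one_lt_exp (one_ne_zero (α := ℝ))
    linarith
  have he2 : Real.exp 1 < Real.exp 2 := Real.exp_lt_exp.2 (by norm_num)
  have hem2 : Real.exp (-2) < 1 := by
    rw [Real.exp_lt_one_iff]
    norm_num
  have hem1 : Real.exp (-2) ≤ Real.exp (-1) := Real.exp_le_exp.2 (by norm_num)
  have he20 : Real.exp (-2) * Real.exp 1 ≤ 1 := by
    rw [← Real.exp_add, Real.exp_le_one_iff]
    norm_num
  have h12' : t1 < t2 := by nlinarith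
  have hs1t2 : Real.exp 1 * t1 < t2 := by nlinarith
  have hs1pos : 0 < Real.exp 1 * t1 := by positivity
  have ht2ρ : t2 < ρ0 := lt_of_le_of_lt h2 ht0'
  obtain ⟨p1, hp1, hp1n, hp1v⟩ := hpt t1 ht1 (by linarith)
  obtain ⟨p2, hp2, hp2n, hp2v⟩ := hpt t2 (by linarith) (by linarith)
  have hKap : Kap 0 ρ0 κ := ⟨k1, fun s => (k2 s).1, k3, fun s hs =>
    ⟨lt_of_lt_of_le ht1 (k4 hs).1, lt_of_le_of_lt (k4 hs).2 ht2ρ⟩⟩
  have hder : ∀ s, deriv κ s ≠ 0 → s ∈ Icc t1 t2 := by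
    intro s hs
    exact k4 (support_deriv_subset (by simpa [Function.mem_support] using hs))
  have A1 := hT1B φ ψ A x0 r0 ρ0 hBP κ t1 t2 Λ p1 p2 k1.continuous k2 ht1 h12' ht2ρ k4 hΛ hp1n hp2n
    (by
      intro x hx hx1 hx2
      refine ⟨hG p1 hp1 x hx (by linarith) (by linarith) ?_, hG x hx p2 hp2 (by linarith)
        (by linarith) ?_⟩
      · rw [hp1v]
        nlinarith
      · rw [hp2v]
        nlinarith [norm_nonneg (fm φ ψ x - fm φ ψ x0)])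
  have A2 := hT2B φ ψ A x0 r0 ρ0 hBP κ (Real.exp 1 * t1) Λ p1 p2 hKap k5 hs1pos (by linarith) k6 k7
    hΛ hp1n hp2n
    (by
      intro x hx hx1 hx2
      have hx3 := hder _ hx2
      refine hG x hx p1 hp1 (by linarith) (by linarith) ?_
      rw [hp1v]
      have : Real.exp (-2) * ‖fm φ ψ x - fm φ ψ x0‖ ≤ Real.exp (-2) * (Real.exp 1 * t1) :=
        mul_le_mul_of_nonneg_left hx1 (Real.exp_pos _).le
      nlinarith)
    (by
      intro x hx hx1 hx2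
      have hx3 := hder _ hx2
      have hx4 := k8 _ hx1 hx2
      refine hG p2 hp2 x hx (by linarith) (by linarith [hx3.2]) ?_
      rw [hp2v]
      exact le_trans (mul_le_mul_of_nonneg_right hem1 (by linarith)) hx4)
  linarith

end Pool.SQ
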