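import Pool.Agent.Work.MP_680515_sq.Interface

/-! # Block BPE: local data at a branch point -/

open MeasureTheory Set Filter Topology

set_option autoImplicit false

namespace Pool.SQ

open Pool.Mart Pool.Flat

theorem p_BPE (hTPA : Stmt_TPA) : Stmt_BPE := by
  intro φ ψ A x0 hW hD hx0
  obtain ⟨s0, R0, hs0, hR0, h1, h2, h3, -, -, h6⟩ := hTPA φ ψ x0 hW.src hx0
  obtain ⟨s2, hs2, h7⟩ := h6 R0 hR0
  have hsub : Metric.closedBall (fm φ ψ x0) (min (3 * s0) s2) ⊆
      Metric.closedBall (fm φ ψ x0) (3 * s0) :=
    Metric.closedBall_subset_closedBall (min_le_left _ _)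
  exact ⟨R0, min (3 * s0) s2,
    { wm := hW
      dist := hD
      xS := hx0
      rpos := hR0
      ρpos := lt_min (by positivity) hs2
      sub := h3
      tgt := hsub.trans h1
      pre := (preimage_mono (image_mono hsub)).trans h2
      shr := fun x hx hx' => h7 x hx (hx'.trans (min_le_right _ _)) }⟩

end Pool.SQ
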