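import Pool.Agent.Work.MP_680515_sq.Interface

/-!
# Block CON: contractions of three space (helper46)

Proof. Choose a unit vector `c` orthogonal to `b` with `⟨M b, M c⟩ = 0`, and `d = b × c`. Then
`b = c × d` and `cof(M) b = M c × M d`; the claim is
`|M c|² ⟨M b, M d⟩² ≤ (1 - |M b|²) (1 - |M c|² |M d|² + ⟨M c, M d⟩²)`, and
`⟨M b, M d⟩² ≤ (1 - |M b|²) (1 - |M d|²)`.
-/

open MeasureTheory Set Filter Topology

set_option autoImplicit false

namespace Pool.SQ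

open Pool.Mart Pool.Flat

/-- the cross product -/
noncomputable def CON_cr (u v : E3) : E3 :=
  WithLp.toLp 2 ![u 1 * v 2 - u 2 * v 1, u 2 * v 0 - u 0 * v 2, u 0 * v 1 - u 1 * v 0]

theorem CON_inner (u v : E3) : inner ℝ u v = u 0 * v 0 + u 1 * v 1 + u 2 * v 2 := by
  rw [PiLp.inner_apply, Fin.sum_univ_three]
  simp only [RCLike.inner_apply, conj_trivial]
  ring

theorem CON_nsq (u : E3) : ‖u‖ ^ 2 = u 0 ^ 2 + u 1 ^ 2 + u 2 ^ 2 := by
  rw [← real_inner_self_eq_norm_sq, CON_inner]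
  ring

theorem CON_act (A : M3) (v : E3) (i : Fin 3) :
    act A v i = A i 0 * v 0 + A i 1 * v 1 + A i 2 * v 2 := by
  unfold act
  simp only [Matrix.mulVec, dotProduct, Fin.sum_univ_three]

theorem CON_c0 (u v : E3) : CON_cr u v 0 = u 1 * v 2 - u 2 * v 1 := rfl
theorem CON_c1 (u v : E3) : CON_cr u v 1 = u 2 * v 0 - u 0 * v 2 := rfl
theorem CON_c2 (u v : E3) : CON_cr u v 2 = u 0 * v 1 - u 1 * v 0 := rfl

theorem CON_cof (M : M3) (u v : E3) :
    act (cofm M) (CON_cr u v) = CON_cr (act M u) (act M v) := by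
  ext i
  fin_cases i
  · change act (cofm M) (CON_cr u v) 0 = CON_cr (act M u) (act M v) 0
    rw [CON_act, CON_c0, CON_c0, CON_c1, CON_c2, CON_act, CON_act, CON_act, CON_act]
    simp [cofm, Matrix.adjugate_fin_three, Matrix.transpose_apply]
    ring
  · change act (cofm M) (CON_cr u v) 1 = CON_cr (act M u) (act M v) 1
    rw [CON_act, CON_c0, CON_c1, CON_c1, CON_c2, CON_act, CON_act, CON_act, CON_act]
    simp [cofm, Matrix.adjugate_fin_three, Matrix.transpose_apply]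
    ring
  · change act (cofm M) (CON_cr u v) 2 = CON_cr (act M u) (act M v) 2
    rw [CON_act, CON_c0, CON_c1, CON_c2, CON_c2, CON_act, CON_act, CON_act, CON_act]
    simp [cofm, Matrix.adjugate_fin_three, Matrix.transpose_apply]
    ring

theorem CON_gram2 (u v : E3) : ‖CON_cr u v‖ ^ 2 = ‖u‖ ^ 2 * ‖v‖ ^ 2 - inner ℝ u v ^ 2 := by
  rw [CON_nsq, CON_nsq, CON_nsq, CON_inner, CON_c0, CON_c1, CON_c2]
  ring

theorem CON_gram3 (m u v : E3) (h : inner ℝ m u = 0) : inner ℝ m (CON_cr u v) ^ 2 =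
    ‖m‖ ^ 2 * (‖u‖ ^ 2 * ‖v‖ ^ 2 - inner ℝ u v ^ 2) - ‖u‖ ^ 2 * inner ℝ m v ^ 2 := by
  rw [CON_inner] at h
  rw [CON_nsq, CON_nsq, CON_nsq, CON_inner, CON_inner, CON_inner, CON_c0, CON_c1, CON_c2]
  linear_combination ((m 0 * u 0 + m 1 * u 1 + m 2 * u 2) * (v 0 ^ 2 + v 1 ^ 2 + v 2 ^ 2) -
    2 * (m 0 * v 0 + m 1 * v 1 + m 2 * v 2) * (u 0 * v 0 + u 1 * v 1 + u 2 * v 2)) * (-h)

theorem CON_perp (b g : E3) : ∃ c : E3, ‖c‖ = 1 ∧ inner ℝ b c = 0 ∧ inner ℝ g c = 0 := by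
  let K : Submodule ℝ E3 := Submodule.span ℝ {b, g}
  have h1 : Module.finrank ℝ K ≤ 2 := by
    classical
    have h := finrank_span_finset_le_card (R := ℝ) ({b, g} : Finset E3)
    rw [Finset.coe_insert, Finset.coe_singleton] at h
    exact h.trans Finset.card_le_two
  have h2 : Module.finrank ℝ K + Module.finrank ℝ Kᗮ = 3 := by
    rw [Submodule.finrank_add_finrank_orthogonal, finrank_euclideanSpace_fin]
  have h3 : Kᗮ ≠ ⊥ := by
    intro h
    rw [h, finrank_bot] at h2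
    omega
  obtain ⟨c, hc, hc0⟩ := Submodule.exists_mem_ne_zero_of_ne_bot h3
  have hn : ‖c‖ ≠ 0 := norm_ne_zero_iff.2 hc0
  refine ⟨‖c‖⁻¹ • c, ?_, ?_, ?_⟩
  · rw [norm_smul, norm_inv, norm_norm, inv_mul_cancel₀ hn]
  · rw [inner_smul_right, (Submodule.mem_orthogonal K c).1 hc b
      (Submodule.subset_span (by simp)), mul_zero]
  · rw [inner_smul_right, (Submodule.mem_orthogonal K c).1 hc g
      (Submodule.subset_span (by simp)), mul_zero]

theorem CON_adj (M : M3) (b c : E3) :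
    inner ℝ (act M.transpose (act M b)) c = inner ℝ (act M b) (act M c) := by
  rw [CON_inner, CON_inner]
  simp only [CON_act, Matrix.transpose_apply]
  ring

theorem CON_lin (M : M3) (x y : ℝ) (b d : E3) :
    act M (x • b + y • d) = x • act M b + y • act M d := by
  ext i
  rw [CON_act]
  simp only [PiLp.add_apply, PiLp.smul_apply, smul_eq_mul, CON_act]
  ring

theorem CON_ns2 (x y : ℝ) (b d : E3) :
    ‖x • b + y • d‖ ^ 2 = x ^ 2 * ‖b‖ ^ 2 + 2 * x * y * inner ℝ b d + y ^ 2 * ‖d‖ ^ 2 := by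
  rw [CON_nsq, CON_nsq, CON_nsq, CON_inner]
  simp only [PiLp.add_apply, PiLp.smul_apply, smul_eq_mul]
  ring

theorem p_CON (h : Pool.Mart.Stmt_BAS) : Stmt_CON := by
  intro M b hM hb
  have hact : ∀ v : E3, ‖act M v‖ ≤ ‖v‖ := by
    intro v
    refine (h.1 M v).trans ?_
    calc opn M * ‖v‖ ≤ 1 * ‖v‖ := mul_le_mul_of_nonneg_right hM (norm_nonneg v)
      _ = ‖v‖ := one_mul _
  have hact2 : ∀ v : E3, ‖act M v‖ ^ 2 ≤ ‖v‖ ^ 2 := fun v =>
    pow_le_pow_left₀ (norm_nonneg _) (hact v) 2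
  obtain ⟨c, hc, hbc, hgc⟩ := CON_perp b (act M.transpose (act M b))
  rw [CON_adj] at hgc
  have hb2 : ‖b‖ ^ 2 = 1 := by rw [hb, one_pow]
  have hc2 : ‖c‖ ^ 2 = 1 := by rw [hc, one_pow]
  obtain ⟨d, hd⟩ : ∃ d : E3, d = CON_cr b c := ⟨_, rfl⟩
  have hd2 : ‖d‖ ^ 2 = 1 := by
    rw [hd, CON_gram2, hb2, hc2, hbc]
    norm_num
  have hbd : inner ℝ b d = 0 := by
    rw [hd, CON_inner, CON_c0, CON_c1, CON_c2]
    ring
  have hcd : CON_cr c d = b := by
    rw [CON_nsq] at hc2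
    rw [CON_inner] at hbc
    ext i
    fin_cases i
    · change CON_cr c d 0 = b 0
      rw [CON_c0, hd, CON_c1, CON_c2]
      linear_combination b 0 * hc2 - c 0 * hbc
    · change CON_cr c d 1 = b 1
      rw [CON_c1, hd, CON_c0, CON_c2]
      linear_combination b 1 * hc2 - c 1 * hbc
    · change CON_cr c d 2 = b 2
      rw [CON_c2, hd, CON_c0, CON_c1]
      linear_combination b 2 * hc2 - c 2 * hbc
  have hcof : act (cofm M) b = CON_cr (act M c) (act M d) := by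
    rw [← CON_cof, hcd]
  have hdet : M.det = inner ℝ (act M b) (act (cofm M) b) := by
    rw [h.2.2.2.1, real_inner_self_eq_norm_sq, hb2, mul_one]
  rw [hdet, hcof, CON_gram2, CON_gram3 _ _ _ hgc]
  have hbb := hact2 b
  have hcc := hact2 c
  have hdd := hact2 d
  rw [hb2] at hbb
  rw [hc2] at hcc
  rw [hd2] at hdd
  have hq : ∀ x : ℝ, 0 ≤ (1 - ‖act M b‖ ^ 2) * (x * x) + (-2 * inner ℝ (act M b) (act M d)) * x +
      (1 - ‖act M d‖ ^ 2) := by
    intro x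
    have h1 := hact2 (x • b + (1 : ℝ) • d)
    rw [CON_lin, CON_ns2, CON_ns2, hb2, hd2, hbd] at h1
    nlinarith
  have hD := discrim_le_zero hq
  unfold discrim at hD
  have p1 : 0 ≤ ‖act M b‖ ^ 2 := sq_nonneg _
  have p2 : 0 ≤ ‖act M c‖ ^ 2 := sq_nonneg _
  have p3 : 0 ≤ ‖act M d‖ ^ 2 := sq_nonneg _
  generalize ‖act M b‖ ^ 2 = B at *
  generalize ‖act M c‖ ^ 2 = C at *
  generalize ‖act M d‖ ^ 2 = D at *
  generalize (inner ℝ (act M b) (act M d) : ℝ) = r at *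
  generalize (inner ℝ (act M c) (act M d) : ℝ) = t at *
  have e1 : r ^ 2 ≤ (1 - B) * (1 - D) := by nlinarith
  have e2 : C * r ^ 2 ≤ C * ((1 - B) * (1 - D)) := mul_le_mul_of_nonneg_left e1 p2
  have e3 : 0 ≤ (1 - B) * t ^ 2 := mul_nonneg (by linarith) (sq_nonneg _)
  have e4 : 0 ≤ (1 - B) * (1 - C) := mul_nonneg (by linarith) (by linarith)
  nlinarith

end Pool.SQ
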