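import Pool.Agent.Work.MP_680515_sq.Interface

set_option autoImplicit false

open MeasureTheory Set Filter Topology

namespace Pool.SQ

open Pool.Mart Pool.Flat

theorem p_CTN : Stmt_CTN := by
  intro η hη hη2
  let T : ℝ → ℝ := Real.smoothTransition
  let m1 : ℝ → ℝ := fun u => T ((1 - η / 4 - u) / (η / 2))
  let m2 : ℝ → ℝ := fun u => T ((1 - η / 4 + u) / (η / 2))
  let m : ℝ → ℝ := fun u => m1 u * m2 u
  have hη0 : 0 < η / 2 := by linarith
  have hT : ContDiff ℝ 1 T := Real.smoothTransition.contDiff (n := 1)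
  have hm1 : ContDiff ℝ 1 m1 := by
    refine hT.comp ?_
    fun_prop
  have hm2 : ContDiff ℝ 1 m2 := by
    refine hT.comp ?_
    fun_prop
  have hm : ContDiff ℝ 1 m := hm1.mul hm2
  have h1 : ∀ u, u ≤ 1 - 3 * η / 4 → m1 u = 1 := by
    intro u hu
    refine Real.smoothTransition.one_of_one_le ?_
    rw [le_div_iff₀ hη0]
    linarith
  have h1' : ∀ u, 1 - η / 4 ≤ u → m1 u = 0 := by
    intro u hu
    refine Real.smoothTransition.zero_of_nonpos ?_
    exact div_nonpos_of_nonpos_of_nonneg (by linarith) hη0.le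
  have h2 : ∀ u, -(1 - 3 * η / 4) ≤ u → m2 u = 1 := by
    intro u hu
    refine Real.smoothTransition.one_of_one_le ?_
    rw [le_div_iff₀ hη0]
    linarith
  have h2' : ∀ u, u ≤ -(1 - η / 4) → m2 u = 0 := by
    intro u hu
    refine Real.smoothTransition.zero_of_nonpos ?_
    exact div_nonpos_of_nonpos_of_nonneg (by linarith) hη0.le
  have hmono2 : Monotone m2 := by
    intro u v huv
    refine Real.smoothTransition.monotone ?_
    exact div_le_div_of_nonneg_right (by linarith) hη0.le
  have hanti1 : Antitone m1 := by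
    intro u v huv
    refine Real.smoothTransition.monotone ?_
    exact div_le_div_of_nonneg_right (by linarith) hη0.le
  have hout : ∀ u, u ∉ Icc (-(1 - η / 4)) (1 - η / 4) → m u = 0 := by
    intro u hu
    rw [mem_Icc, not_and_or, not_le, not_le] at hu
    rcases hu with hu | hu
    · change m1 u * m2 u = 0
      rw [h2' u hu.le, mul_zero]
    · change m1 u * m2 u = 0
      rw [h1' u hu.le, zero_mul]
  have hcs : HasCompactSupport m := HasCompactSupport.intro isCompact_Icc fun u hu => hout u hu
  have hts : tsupport m ⊆ Icc (-(1 - η / 4)) (1 - η / 4) := by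
    refine closure_minimal ?_ isClosed_Icc
    intro u hu
    by_contra hcon
    exact hu (hout u hcon)
  have hr : ∀ u, 0 ≤ m u ∧ m u ≤ 1 := by
    intro u
    have a1 : 0 ≤ m1 u := Real.smoothTransition.nonneg _
    have a2 : m1 u ≤ 1 := Real.smoothTransition.le_one _
    have b1 : 0 ≤ m2 u := Real.smoothTransition.nonneg _
    have b2 : m2 u ≤ 1 := Real.smoothTransition.le_one _
    exact ⟨mul_nonneg a1 b1, mul_le_one₀ a2 b1 b2⟩
  have hdL : ∀ u, u < 1 - 3 * η / 4 → deriv m u = deriv m2 u := by
    intro u hu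
    refine Filter.EventuallyEq.deriv_eq ?_
    filter_upwards [Iio_mem_nhds hu] with v hv
    change m1 v * m2 v = m2 v
    rw [h1 v (le_of_lt hv), one_mul]
  have hdR : ∀ u, -(1 - 3 * η / 4) < u → deriv m u = deriv m1 u := by
    intro u hu
    refine Filter.EventuallyEq.deriv_eq ?_
    filter_upwards [Ioi_mem_nhds hu] with v hv
    change m1 v * m2 v = m1 v
    rw [h2 v (le_of_lt hv), mul_one]
  have hcont : Continuous (deriv m) := hm.continuous_deriv le_rfl
  have hFT : ∀ a b : ℝ, ∫ u in a..b, deriv m u = m b - m a := fun a b =>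
    intervalIntegral.integral_deriv_eq_sub
      (fun x _ => (hm.differentiable one_ne_zero).differentiableAt) (hcont.intervalIntegrable _ _)
  have hm0 : m 0 = 1 := by
    change m1 0 * m2 0 = 1
    rw [h1 0 (by linarith), h2 0 (by linarith), one_mul]
  have hmone : m 1 = 0 := by
    change m1 1 * m2 1 = 0
    rw [h1' 1 (by linarith), zero_mul]
  have hmneg : m (-1) = 0 := by
    change m1 (-1) * m2 (-1) = 0
    rw [h2' (-1) (by linarith), mul_zero]
  refine ⟨m, ⟨hm, hcs, hts.trans ?_, hr⟩, ?_, ?_, ?_, ?_, ?_⟩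
  · intro u hu
    exact ⟨by linarith [hu.1], by linarith [hu.2]⟩
  · intro u hu
    rw [abs_lt] at hu
    have h3 : m =ᶠ[𝓝 u] fun _ => (1 : ℝ) := by
      filter_upwards [Ioo_mem_nhds (show -(1 - 3 * η / 4) < u by linarith [hu.1])
        (show u < 1 - 3 * η / 4 by linarith [hu.2])] with v hv
      change m1 v * m2 v = 1
      rw [h1 v hv.2.le, h2 v hv.1.le, one_mul]
    rw [h3.deriv_eq, deriv_const]
  · intro u hu
    rw [hdL u (by linarith)]
    exact hmono2.deriv_nonneg
  · intro u hu
    rw [hdR u (by linarith)]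
    exact hanti1.deriv_nonpos
  · rw [hFT, hm0, hmone]
    norm_num
  · rw [hFT, hm0, hmneg]
    norm_num

end Pool.SQ
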