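import Pool.Agent.Work.MP_680515_sq.Interface

/-!
# MP_680515_an, THEOREM SQ, block CUB
-/

open MeasureTheory Set Filter Topology

namespace Pool.SQ

theorem CUB_a0 (D : ℝ) (h : 0 ≤ D) :
    0 ≤ 200 / 283 * D ^ 3 - D / 2 - 574 / 1000 * (200 / 283) * D ^ 2 + 307 / 1000 := by
  nlinarith [mul_nonneg h (sq_nonneg (D - 713 / 1000)), sq_nonneg (D - 713 / 1000)]

theorem CUB_b0 (D : ℝ) (h : 0 ≤ D) :
    0 ≤ 200 / 283 * D ^ 3 - 200 / 283 * D / 2 - 574 / 1000 * D ^ 2 + 307 / 1000 := by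
  nlinarith [mul_nonneg h (sq_nonneg (D - 760 / 1000)), sq_nonneg (D - 760 / 1000)]

theorem CUB_c0 (D : ℝ) (h : 0 ≤ D) :
    0 ≤ D ^ 3 - D / 2 - 574 / 1000 * D ^ 2 + 307 / 1000 := by
  nlinarith [mul_nonneg h (sq_nonneg (D - 642 / 1000)), sq_nonneg (D - 642 / 1000)]

/-- The cubics for `D ≥ c1`. -/
theorem CUB_a1 (D : ℝ) (h : 481 / 1000 ≤ D) :
    4 / 27 * (D - 481 / 1000) ^ 3 / (458 / 1000) ^ 2
      ≤ 200 / 283 * D ^ 3 - D / 2 - 574 / 1000 * (200 / 283) * D ^ 2 + 321 / 1000 := by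
  have e : 4 / 27 * (D - 481 / 1000) ^ 3 / (458 / 1000) ^ 2
      = 1000000 / 1415907 * (D ^ 3 - 3 * (481 / 1000) * D ^ 2 + 3 * (481 / 1000) ^ 2 * D
        - (481 / 1000) ^ 3) := by ring
  rw [e]
  nlinarith [mul_nonneg (by linarith : 0 ≤ D + 1612 / 1000) (sq_nonneg (D - 806 / 1000)),
    sq_nonneg (D - 806 / 1000)]

theorem CUB_b1 (D : ℝ) (h : 481 / 1000 ≤ D) :
    4 / 27 * (D - 481 / 1000) ^ 3 / (458 / 1000) ^ 2
      ≤ 200 / 283 * D ^ 3 - 200 / 283 * D / 2 - 574 / 1000 * D ^ 2 + 321 / 1000 := by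
  have e : 4 / 27 * (D - 481 / 1000) ^ 3 / (458 / 1000) ^ 2
      = 1000000 / 1415907 * (D ^ 3 - 3 * (481 / 1000) * D ^ 2 + 3 * (481 / 1000) ^ 2 * D
        - (481 / 1000) ^ 3) := by ring
  rw [e]
  nlinarith [mul_nonneg (by linarith : 0 ≤ D + 1892 / 1000) (sq_nonneg (D - 946 / 1000)),
    sq_nonneg (D - 946 / 1000)]

theorem CUB_c1 (D : ℝ) (h : 481 / 1000 ≤ D) :
    4 / 27 * (D - 481 / 1000) ^ 3 / (458 / 1000) ^ 2
      ≤ D ^ 3 - D / 2 - 574 / 1000 * D ^ 2 + 321 / 1000 := by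
  have e : 4 / 27 * (D - 481 / 1000) ^ 3 / (458 / 1000) ^ 2
      = 1000000 / 1415907 * (D ^ 3 - 3 * (481 / 1000) * D ^ 2 + 3 * (481 / 1000) ^ 2 * D
        - (481 / 1000) ^ 3) := by ring
  rw [e]
  nlinarith [mul_nonneg (by linarith : 0 ≤ D + 1338 / 1000) (sq_nonneg (D - 669 / 1000)),
    sq_nonneg (D - 669 / 1000)]

/-- The terms with `q`. -/
theorem CUB_q (D q : ℝ) (hD : 0 ≤ D) (hq : 0 ≤ q) :
    -(if 481 / 1000 ≤ D then 4 / 27 * (D - 481 / 1000) ^ 3 / (458 / 1000) ^ 2 else 0)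
      ≤ Ch q - 321 / 1000 - q * D := by
  obtain ⟨r, hr, rfl⟩ : ∃ r : ℝ, 0 ≤ r ∧ r ^ 2 = q := ⟨Real.sqrt q, Real.sqrt_nonneg q, Real.sq_sqrt hq⟩
  have h3 : (r ^ 2) ^ (3 / 2 : ℝ) = r ^ 3 := by
    rw [← Real.rpow_natCast r 2, ← Real.rpow_mul hr, ← Real.rpow_natCast r 3]
    norm_num
  unfold Ch
  rw [h3]
  split_ifs with h
  · have h0 : 0 ≤ 458 / 1000 * (r - 2 * (D - 481 / 1000) / (3 * (458 / 1000))) ^ 2 *
        (r + (D - 481 / 1000) / (3 * (458 / 1000))) := by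
      have h1 : 0 ≤ r + (D - 481 / 1000) / (3 * (458 / 1000)) :=
        add_nonneg hr (div_nonneg (sub_nonneg.2 h) (by norm_num))
      positivity
    have h2 : 458 / 1000 * (r - 2 * (D - 481 / 1000) / (3 * (458 / 1000))) ^ 2 *
        (r + (D - 481 / 1000) / (3 * (458 / 1000))) = 321 / 1000 + 481 / 1000 * r ^ 2
          + 458 / 1000 * r ^ 3 - 321 / 1000 - r ^ 2 * D
          + 4 / 27 * (D - 481 / 1000) ^ 3 / (458 / 1000) ^ 2 := by ring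
    linarith [h0, h2]
  · have h1 : D ≤ 481 / 1000 := (not_le.1 h).le
    nlinarith [mul_nonneg (sq_nonneg r) (sub_nonneg.2 h1), pow_nonneg hr 3]

theorem p_CUB : Stmt_CUB := by
  intro D hD
  refine ⟨⟨CUB_a0 D hD, CUB_b0 D hD, CUB_c0 D hD⟩, fun q hq => ?_⟩
  have hq1 := CUB_q D q hD hq
  split_ifs at hq1 with h
  · refine ⟨?_, ?_, ?_⟩
    · linarith [CUB_a1 D h]
    · linarith [CUB_b1 D h]
    · linarith [CUB_c1 D h]
  · refine ⟨?_, ?_, ?_⟩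
    · linarith [CUB_a0 D hD]
    · linarith [CUB_b0 D hD]
    · linarith [CUB_c0 D hD]

end Pool.SQ
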