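import Pool.Agent.Work.MP_680515_sq.Interface

/-!
# MP_680515_an, THEOREM SQ: block DEL, the smoothed angle
-/

open MeasureTheory Set Filter Topology

namespace Pool.SQ

open Pool.Mart Pool.Flat

private theorem hasFDerivAt_norm' (X : E3) (hX : X ≠ 0) :
    HasFDerivAt (fun x : E3 => ‖x‖) (‖X‖⁻¹ • innerSL ℝ X) X := by
  have hp : 0 < ‖X‖ := norm_pos_iff.2 hX
  have h1 : HasFDerivAt (fun x : E3 => ‖x‖ ^ 2) (2 • innerSL ℝ X) X :=
    (hasStrictFDerivAt_norm_sq X).hasFDerivAt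
  have h2 := h1.sqrt (by positivity)
  have h3 : (fun x : E3 => √(‖x‖ ^ 2)) = fun x => ‖x‖ := by
    funext x
    exact Real.sqrt_sq (norm_nonneg x)
  rw [h3, Real.sqrt_sq hp.le] at h2
  refine h2.congr_fderiv ?_
  ext v
  change 1 / (2 * ‖X‖) * ((2 : ℕ) • inner ℝ X v) = ‖X‖⁻¹ * inner ℝ X v
  rw [nsmul_eq_mul]
  push_cast
  field_simp

private theorem abs_t (e X : E3) (he : ‖e‖ = 1) (hX : X ≠ 0) :
    |inner ℝ X e / ‖X‖| ≤ 1 := by
  have hp : 0 < ‖X‖ := norm_pos_iff.2 hX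
  rw [abs_div, abs_of_pos hp, div_le_one hp]
  have h := abs_real_inner_le_norm X e
  rwa [he, mul_one] at h

private theorem hasFDerivAt_t (e X : E3) (hX : X ≠ 0) :
    HasFDerivAt (fun x : E3 => inner ℝ x e / ‖x‖)
      (innerSL ℝ (‖X‖⁻¹ • e - (inner ℝ X e * (‖X‖⁻¹) ^ 3) • X)) X := by
  have hp : 0 < ‖X‖ := norm_pos_iff.2 hX
  have h1 : HasFDerivAt (fun x : E3 => (‖x‖)⁻¹) ((-(‖X‖ ^ 2)⁻¹) • (‖X‖⁻¹ • innerSL ℝ X)) X :=
    (hasDerivAt_inv hp.ne').comp_hasFDerivAt X (hasFDerivAt_norm' X hX)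
  have h2 : HasFDerivAt (fun x : E3 => inner ℝ x e) (innerSL ℝ e) X := by
    have h : HasFDerivAt (fun x : E3 => (innerSL ℝ e) x) (innerSL ℝ e) X :=
      (innerSL ℝ e).hasFDerivAt
    refine h.congr_of_eventuallyEq (Eventually.of_forall fun x => ?_)
    simp only [innerSL_apply_apply]
    exact real_inner_comm _ _
  have h3 := h2.mul h1
  have h4 : (fun x : E3 => inner ℝ x e / ‖x‖) = fun x : E3 => inner ℝ x e * (‖x‖)⁻¹ := by
    funext x
    rw [div_eq_mul_inv]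
  rw [h4]
  refine h3.congr_fderiv ?_
  ext v
  simp only [_root_.add_apply, _root_.smul_apply, smul_eq_mul,
    innerSL_apply_apply, inner_sub_left, real_inner_smul_left]
  field_simp
  ring

theorem p_DEL : Stmt_DEL := by
  intro c e hc0 hc1 he
  have key : ∀ X : E3, X ≠ 0 → |c * (inner ℝ X e / ‖X‖)| < 1 := by
    intro X hX
    rw [abs_mul, abs_of_pos hc0]
    have h := abs_t e X he hX
    nlinarith [abs_nonneg (inner ℝ X e / ‖X‖)]
  refine ⟨?_, fun X => ⟨Real.arccos_nonneg _, Real.arccos_le_pi _⟩, ?_⟩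
  · intro X hX
    have hX0 : X ≠ 0 := hX
    have hp : 0 < ‖X‖ := norm_pos_iff.2 hX0
    have hk := abs_lt.1 (key X hX0)
    have h1 : ContDiffAt ℝ 1 Real.arccos (c * (inner ℝ X e / ‖X‖)) :=
      Real.contDiffAt_arccos (by linarith [hk.1] |> fun h : _ => ne_of_gt h) (ne_of_lt hk.2)
    have h2 : ContDiffAt ℝ 1 (fun x : E3 => c * (inner ℝ x e / ‖x‖)) X :=
      contDiffAt_const.mul ((contDiffAt_id.inner ℝ contDiffAt_const).div
        (contDiffAt_id.norm ℝ hX0) hp.ne')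
    exact (ContDiffAt.comp X h1 h2).contDiffWithinAt
  · intro X hX
    have hp : 0 < ‖X‖ := norm_pos_iff.2 hX
    have hk := key X hX
    have hk' := abs_lt.1 hk
    set t : ℝ := inner ℝ X e / ‖X‖ with ht
    set W : E3 := ‖X‖⁻¹ • e - (inner ℝ X e * (‖X‖⁻¹) ^ 3) • X with hW
    have hd : HasFDerivAt (dlt c e) ((-(1 / √(1 - (c * t) ^ 2))) • (c • innerSL ℝ W)) X := by
      have ha : HasDerivAt Real.arccos (-(1 / √(1 - (c * t) ^ 2))) (c * t) :=
        Real.hasDerivAt_arccos (ne_of_gt hk'.1) (ne_of_lt hk'.2)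
      have hb : HasFDerivAt (fun x : E3 => c * (inner ℝ x e / ‖x‖)) (c • innerSL ℝ W) X :=
        (hasFDerivAt_t e X hX).const_mul c
      exact ha.comp_hasFDerivAt X hb
    have hg : gradv (dlt c e) X = (-(1 / √(1 - (c * t) ^ 2)) * c) • W := by
      unfold gradv
      rw [hd.fderiv]
      ext j
      simp only [_root_.smul_apply, smul_eq_mul, innerSL_apply_apply,
        EuclideanSpace.inner_single_right, one_mul, conj_trivial, PiLp.smul_apply]
      ring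
    have hs : 0 < 1 - (c * t) ^ 2 := by
      have := (sq_lt_one_iff_abs_lt_one (c * t)).2 hk
      linarith
    have hWn : ‖W‖ ^ 2 = (‖X‖⁻¹) ^ 2 * (1 - t ^ 2) := by
      rw [hW, norm_sub_sq_real, norm_smul, norm_smul, real_inner_smul_left, real_inner_smul_right,
        he, real_inner_comm X e, ht]
      simp only [norm_inv, Real.norm_eq_abs, mul_pow, sq_abs, abs_norm]
      field_simp
      ring
    rw [hg, norm_smul, Real.norm_eq_abs]
    have h5 : (|(-(1 / √(1 - (c * t) ^ 2)) * c)| * ‖W‖) ^ 2 ≤ (‖X‖⁻¹) ^ 2 := by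
      rw [mul_pow, sq_abs, hWn, mul_pow, neg_sq, div_pow, one_pow, Real.sq_sqrt hs.le]
      have h6 : 1 / (1 - (c * t) ^ 2) * c ^ 2 * ((‖X‖⁻¹) ^ 2 * (1 - t ^ 2))
          = (‖X‖⁻¹) ^ 2 * ((c ^ 2 * (1 - t ^ 2)) / (1 - (c * t) ^ 2)) := by
        field_simp
      rw [h6]
      have h7 : (c ^ 2 * (1 - t ^ 2)) / (1 - (c * t) ^ 2) ≤ 1 := by
        rw [div_le_one hs]
        nlinarith [mul_pos hc0 hc0]
      have h8 : 0 ≤ (‖X‖⁻¹) ^ 2 := by positivity
      nlinarith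
    exact le_of_sq_le_sq h5 (by positivity)

end Pool.SQ
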