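import Pool.Agent.Work.MP_680515_sq.Interface

/-!
# MP_680515_an, THEOREM SQ: block DGB (the degree is at least two)
-/

open MeasureTheory Set Filter Topology

namespace Pool.SQ

open Pool.Mart Pool.Flat

theorem DGB_rad0 {y : E3} (h : rad y = 0) : y 0 = 0 ∧ y 1 = 0 := by
  have h1 : rad y ^ 2 = y 0 ^ 2 + y 1 ^ 2 := by
    unfold rad
    exact Real.sq_sqrt (by positivity)
  rw [h] at h1
  have h2 : y 0 ^ 2 = 0 := by nlinarith [sq_nonneg (y 0), sq_nonneg (y 1)]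
  have h3 : y 1 ^ 2 = 0 := by nlinarith [sq_nonneg (y 0), sq_nonneg (y 1)]
  exact ⟨pow_eq_zero_iff two_ne_zero |>.mp h2, pow_eq_zero_iff two_ne_zero |>.mp h3⟩

theorem DGB_locinj (hW : Stmt_WOP) (φ ψ : OpenPartialHomeomorph E3 E3)
    (hφψ : ∀ x ∈ ψ.source, wind (ψ x) ∈ φ.source) {x : E3} (hx : x ∈ ψ.source)
    (h0 : ψ x 0 ≠ 0) :
    ∃ s : ℝ, 0 < s ∧ InjOn (fm φ ψ) (Metric.closedBall x s) := by
  have hc : ContinuousAt (fun z => ψ z 0) x := by
    have h1 : Continuous fun v : E3 => v 0 := by fun_prop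
    exact h1.continuousAt.comp (ψ.continuousAt hx)
  have h1 : ∀ᶠ z in 𝓝 x, 0 < ψ z 0 * ψ x 0 := by
    have h2 : ContinuousAt (fun z => ψ z 0 * ψ x 0) x := hc.mul continuousAt_const
    exact h2.eventually (lt_mem_nhds (mul_self_pos.mpr h0))
  have h2 : ∀ᶠ z in 𝓝 x, z ∈ ψ.source := ψ.open_source.mem_nhds hx
  obtain ⟨s, hs, hsub⟩ := Metric.nhds_basis_closedBall.mem_iff.mp (h1.and h2)
  refine ⟨s, hs, fun z hz z' hz' hzz => ?_⟩
  obtain ⟨a1, a2⟩ := hsub hz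
  obtain ⟨b1, b2⟩ := hsub hz'
  have e1 : wind (ψ z) = wind (ψ z') := φ.injOn (hφψ z a2) (hφψ z' b2) hzz
  have e3 : 0 < ψ z 0 * ψ z' 0 := by
    have h3 : 0 < (ψ z 0 * ψ x 0) * (ψ z' 0 * ψ x 0) := mul_pos a1 b1
    have h4 : 0 < ψ x 0 ^ 2 := by positivity
    have h5 : (ψ z 0 * ψ x 0) * (ψ z' 0 * ψ x 0) = (ψ z 0 * ψ z' 0) * ψ x 0 ^ 2 := by ring
    rw [h5] at h3
    exact pos_of_mul_pos_left h3 h4.le
  rcases hW.2.2.2.2.1 _ _ e1 with h | h
  · exact (ψ.injOn b2 a2 h).symm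
  · exfalso
    have h6 : ψ z' 0 = -(ψ z 0) := by
      rw [h]
      rfl
    rw [h6] at e3
    nlinarith [sq_nonneg (ψ z 0)]

theorem DGB_two (hW : Stmt_WOP) (φ ψ : OpenPartialHomeomorph E3 E3)
    (hφψ : ∀ x ∈ ψ.source, wind (ψ x) ∈ φ.source) {q : E3} (hq : q ∈ bset ψ.source ψ)
    {ρ : ℝ} (hρ : 0 < ρ) :
    ∃ x1 ∈ Metric.ball q ρ, ∃ x2 ∈ Metric.ball q ρ, x1 ≠ x2 ∧
      fm φ ψ x1 = fm φ ψ x2 ∧ ∃ s : ℝ, 0 < s ∧
      InjOn (fm φ ψ) (Metric.closedBall x1 s) ∧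
      InjOn (fm φ ψ) (Metric.closedBall x2 s) := by
  obtain ⟨hqs, hq0⟩ := hq
  obtain ⟨ha0, ha1⟩ := DGB_rad0 hq0
  have ha : ψ q ∈ ψ.target := ψ.map_source hqs
  have hnb : ψ.target ∩ ψ.symm ⁻¹' Metric.ball q ρ ∈ 𝓝 (ψ q) := by
    refine inter_mem (ψ.open_target.mem_nhds ha) ?_
    refine (ψ.continuousAt_symm ha).preimage_mem_nhds ?_
    rw [ψ.left_inv hqs]
    exact Metric.ball_mem_nhds q hρ
  obtain ⟨u, hu, hsub⟩ := Metric.nhds_basis_closedBall.mem_iff.mp hnb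
  have hn : ‖u • (EuclideanSpace.single 0 1 : E3)‖ = u := by
    rw [norm_smul, Real.norm_of_nonneg hu.le, PiLp.norm_single, norm_one, mul_one]
  have hy1 : ψ q + u • (EuclideanSpace.single 0 1 : E3) ∈ Metric.closedBall (ψ q) u := by
    rw [Metric.mem_closedBall, dist_eq_norm, add_sub_cancel_left, hn]
  have hy2 : ψ q - u • (EuclideanSpace.single 0 1 : E3) ∈ Metric.closedBall (ψ q) u := by
    rw [Metric.mem_closedBall, dist_eq_norm, sub_sub_cancel_left, norm_neg, hn]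
  obtain ⟨t1, b1⟩ := hsub hy1
  obtain ⟨t2, b2⟩ := hsub hy2
  have e1 : ψ (ψ.symm (ψ q + u • (EuclideanSpace.single 0 1 : E3))) =
      ψ q + u • (EuclideanSpace.single 0 1 : E3) := ψ.right_inv t1
  have e2 : ψ (ψ.symm (ψ q - u • (EuclideanSpace.single 0 1 : E3))) =
      ψ q - u • (EuclideanSpace.single 0 1 : E3) := ψ.right_inv t2
  have c10 : (ψ q + u • (EuclideanSpace.single 0 1 : E3)) 0 = u := by simp [ha0]
  have c11 : (ψ q + u • (EuclideanSpace.single 0 1 : E3)) 1 = 0 := by simp [ha1]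
  have c12 : (ψ q + u • (EuclideanSpace.single 0 1 : E3)) 2 = ψ q 2 := by simp
  have c20 : (ψ q - u • (EuclideanSpace.single 0 1 : E3)) 0 = -u := by simp [ha0]
  have c21 : (ψ q - u • (EuclideanSpace.single 0 1 : E3)) 1 = 0 := by simp [ha1]
  have c22 : (ψ q - u • (EuclideanSpace.single 0 1 : E3)) 2 = ψ q 2 := by simp
  have hsg : sg (ψ q + u • (EuclideanSpace.single 0 1 : E3)) =
      ψ q - u • (EuclideanSpace.single 0 1 : E3) := by
    ext i
    fin_cases i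
    · show -((ψ q + u • (EuclideanSpace.single 0 1 : E3)) 0) =
        (ψ q - u • (EuclideanSpace.single 0 1 : E3)) 0
      rw [c10, c20]
    · show -((ψ q + u • (EuclideanSpace.single 0 1 : E3)) 1) =
        (ψ q - u • (EuclideanSpace.single 0 1 : E3)) 1
      rw [c11, c21, neg_zero]
    · show (ψ q + u • (EuclideanSpace.single 0 1 : E3)) 2 =
        (ψ q - u • (EuclideanSpace.single 0 1 : E3)) 2
      rw [c12, c22]
  have hwind : wind (ψ q + u • (EuclideanSpace.single 0 1 : E3)) =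
      wind (ψ q - u • (EuclideanSpace.single 0 1 : E3)) := by
    rw [← hsg, hW.2.2.2.1]
  obtain ⟨s1, hs1, i1⟩ := DGB_locinj hW φ ψ hφψ (ψ.map_target t1) (by
    rw [e1, c10]
    exact hu.ne')
  obtain ⟨s2, hs2, i2⟩ := DGB_locinj hW φ ψ hφψ (ψ.map_target t2) (by
    rw [e2, c20]
    exact neg_ne_zero.mpr hu.ne')
  refine ⟨_, b1, _, b2, ?_, ?_, min s1 s2, lt_min hs1 hs2,
    i1.mono (Metric.closedBall_subset_closedBall (min_le_left _ _)),
    i2.mono (Metric.closedBall_subset_closedBall (min_le_right _ _))⟩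
  · intro h
    have h1 := congrArg (fun v => ψ v 0) h
    simp only [e1, e2, c10, c20] at h1
    linarith
  · unfold fm
    rw [e1, e2, hwind]

theorem DGB_prod {μ : Measure E3} {a b c : E3 → ℝ} (ha : MemLp a 3 μ) (hb : MemLp b 3 μ)
    (hc : MemLp c 3 μ) : Integrable (fun x => a x * b x * c x) μ := by
  have ia : Integrable (fun x => ‖a x‖ ^ 3) μ :=
    MemLp.integrable_norm_pow (p := 3) (by exact_mod_cast ha) (by norm_num)
  have ib : Integrable (fun x => ‖b x‖ ^ 3) μ :=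
    MemLp.integrable_norm_pow (p := 3) (by exact_mod_cast hb) (by norm_num)
  have ic : Integrable (fun x => ‖c x‖ ^ 3) μ :=
    MemLp.integrable_norm_pow (p := 3) (by exact_mod_cast hc) (by norm_num)
  refine ((ia.add ib).add ic).mono' ((ha.1.mul hb.1).mul hc.1) ?_
  refine Filter.Eventually.of_forall fun x => ?_
  show ‖a x * b x * c x‖ ≤ ‖a x‖ ^ 3 + ‖b x‖ ^ 3 + ‖c x‖ ^ 3
  rw [norm_mul, norm_mul]
  have h1 := norm_nonneg (a x)
  have h2 := norm_nonneg (b x)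
  have h3 := norm_nonneg (c x)
  nlinarith [mul_nonneg (add_nonneg (add_nonneg h1 h2) h3) (add_nonneg (add_nonneg
    (sq_nonneg (‖a x‖ - ‖b x‖)) (sq_nonneg (‖b x‖ - ‖c x‖))) (sq_nonneg (‖a x‖ - ‖c x‖))),
    pow_nonneg h1 3, pow_nonneg h2 3, pow_nonneg h3 3]

theorem DGB_detint {Ω : Set E3} {f : E3 → E3} {A : E3 → M3} (hA : WeakGrad Ω f A) {K : Set E3}
    (hK : IsCompact K) (hKΩ : K ⊆ Ω) : IntegrableOn (fun x => (A x).det) K := by
  have h : ∀ i j : Fin 3, MemLp (fun x => A x i j) 3 (volume.restrict K) := hA.loc K hK hKΩ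
  have hp : ∀ i j k l m n : Fin 3,
      Integrable (fun x => A x i j * A x k l * A x m n) (volume.restrict K) :=
    fun i j k l m n => DGB_prod (h i j) (h k l) (h m n)
  unfold IntegrableOn
  simp only [Matrix.det_fin_three]
  exact (((((hp 0 0 1 1 2 2).sub (hp 0 0 1 2 2 1)).sub (hp 0 1 1 0 2 2)).add
    (hp 0 1 1 2 2 0)).add (hp 0 2 1 0 2 1)).sub (hp 0 2 1 1 2 0)

theorem DGB_int {Ω : Set E3} {f : E3 → E3} {A : E3 → M3} (hf : ContinuousOn f Ω)
    (hA : WeakGrad Ω f A) {K : Set E3} (hK : IsCompact K) (hKΩ : K ⊆ Ω)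
    {g : E3 → ℝ} (hg : Continuous g) : IntegrableOn (fun x => (A x).det * g (f x)) K :=
  (DGB_detint hA hK hKΩ).mul_continuousOn (hg.comp_continuousOn (hf.mono hKΩ)) hK

theorem DGB_det {A : M3} (h : Good A) : 0 ≤ A.det := by
  have h1 : 0 ≤ opn A ^ 3 := pow_nonneg (norm_nonneg _) 3
  have h2 := h.2
  linarith

theorem DGB_bump (y : E3) {d : ℝ} (hd : 0 < d) : ∃ g : E3 → ℝ, Continuous g ∧
    HasCompactSupport g ∧ tsupport g ⊆ Metric.ball y d ∧ (∀ z, 0 ≤ g z) ∧ 0 < ∫ z, g z := by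
  let b : ContDiffBump y := ⟨d / 4, d / 2, by positivity, by linarith⟩
  refine ⟨b, b.continuous, b.hasCompactSupport, ?_, fun z => b.nonneg, b.integral_pos⟩
  rw [b.tsupport_eq]
  exact Metric.closedBall_subset_ball (show d / 2 < d by linarith)

theorem p_DGB (hSHT : Stmt_SHT) (hINTG : Pool.Flat.Stmt_INTG) (hPOS : Pool.Flat.Stmt_POS)
    (hWOP : Pool.Flat.Stmt_WOP) (hFOP : Pool.Flat.Stmt_FOP) (_hWIN1 : Pool.Mart.Stmt_WIN1) :
    Stmt_DGB := by
  intro φ ψ A p r0 ρ0 hBP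
  have hWM := hBP.wm
  have hr0 := hBP.rpos
  have hρ0pos := hBP.ρpos
  have hop := ψ.open_source
  have hcont : ContinuousOn (fm φ ψ) ψ.source := (hFOP φ ψ hWM.src).1
  have hsub1 : Metric.closedBall p r0 ⊆ ψ.source := hBP.sub
  have hpΩ : p ∈ ψ.source := hsub1 (Metric.mem_closedBall_self hr0.le)
  have hsph := (hSHT φ ψ A p r0 ρ0 hBP).2.2.1
  obtain ⟨k, hk⟩ := hINTG ψ.source (fm φ ψ) A p (fm φ ψ p) r0 ρ0 hop hcont hWM.wg hr0 hsub1
    hρ0pos (fun x hx => (hsph x hx).le)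
  -- two preimages
  have hcp : ContinuousAt (fm φ ψ) p := hcont.continuousAt (hop.mem_nhds hpΩ)
  obtain ⟨δ, hδ, hδf⟩ := Metric.continuousAt_iff.1 hcp ρ0 hρ0pos
  obtain ⟨x1, hx1, x2, hx2, hx12, hfx, s, hs, hi1, hi2⟩ := DGB_two hWOP φ ψ hWM.src hBP.xS
    (ρ := min δ (r0 / 2)) (lt_min hδ (by positivity))
  rw [Metric.mem_ball, lt_min_iff] at hx1 hx2
  set s' := min s (min (dist x1 x2 / 3) (r0 / 2)) with hs'
  have hd12 : 0 < dist x1 x2 := dist_pos.2 hx12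
  have hs'pos : 0 < s' := lt_min hs (lt_min (by positivity) (by positivity))
  have hs's : s' ≤ s := min_le_left _ _
  have hs'd : s' ≤ dist x1 x2 / 3 := (min_le_right _ _).trans (min_le_left _ _)
  have hs'r : s' ≤ r0 / 2 := (min_le_right _ _).trans (min_le_right _ _)
  have hb : ∀ x, dist x p < r0 / 2 → Metric.closedBall x s' ⊆ Metric.ball p r0 := by
    intro x hx z hz
    rw [Metric.mem_closedBall] at hz
    rw [Metric.mem_ball]
    have := dist_triangle z x p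
    linarith
  have hb1 := hb x1 hx1.2
  have hb2 := hb x2 hx2.2
  have hbΩ : Metric.ball p r0 ⊆ ψ.source := Metric.ball_subset_closedBall.trans hsub1
  obtain ⟨k1, ρ1, hk1, hρ1, -, hP1⟩ := hPOS ψ.source (fm φ ψ) A x1 s' hop hcont hWM.wg hWM.good
    hs'pos (hb1.trans hbΩ) (hi1.mono (Metric.closedBall_subset_closedBall hs's))
  obtain ⟨k2, ρ2, hk2, hρ2, -, hP2⟩ := hPOS ψ.source (fm φ ψ) A x2 s' hop hcont hWM.wg hWM.good
    hs'pos (hb2.trans hbΩ) (hi2.mono (Metric.closedBall_subset_closedBall hs's))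
  have hy0 : dist (fm φ ψ x1) (fm φ ψ p) < ρ0 := hδf hx1.1
  set d := min (min ρ1 ρ2) (ρ0 - dist (fm φ ψ x1) (fm φ ψ p)) with hd
  have hdpos : 0 < d := lt_min (lt_min hρ1 hρ2) (by linarith)
  obtain ⟨g, hgc, hgs, hgt, hg0, hgi⟩ := DGB_bump (fm φ ψ x1) hdpos
  have e1 := hP1 g hgc hgs (hgt.trans (Metric.ball_subset_ball ((min_le_left _ _).trans
    (min_le_left _ _))))
  have e2 := hP2 g hgc hgs (by
    rw [← hfx]
    exact hgt.trans (Metric.ball_subset_ball ((min_le_left _ _).trans (min_le_right _ _))))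
  have e0 := hk g hgc hgs (hgt.trans (by
    intro z hz
    rw [Metric.mem_ball] at hz ⊢
    have h1 := dist_triangle z (fm φ ψ x1) (fm φ ψ p)
    have h2 : d ≤ ρ0 - dist (fm φ ψ x1) (fm φ ψ p) := min_le_right _ _
    linarith))
  have hint : IntegrableOn (fun x => (A x).det * g (fm φ ψ x)) (Metric.ball p r0) :=
    (DGB_int hcont hWM.wg (isCompact_closedBall p r0) hsub1 hgc).mono_set
      Metric.ball_subset_closedBall
  have hnn : 0 ≤ᵐ[volume.restrict (Metric.ball p r0)] fun x => (A x).det * g (fm φ ψ x) := by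
    have h1 : ∀ᵐ x ∂(volume.restrict (Metric.ball p r0)), Good (A x) :=
      ae_mono (Measure.restrict_mono hbΩ le_rfl) hWM.good
    filter_upwards [h1] with x hx
    exact mul_nonneg (DGB_det hx) (hg0 _)
  have hdisj : Disjoint (Metric.ball x1 s') (Metric.ball x2 s') := by
    refine Metric.ball_disjoint_ball ?_
    linarith
  have hU : Metric.ball x1 s' ∪ Metric.ball x2 s' ⊆ Metric.ball p r0 :=
    union_subset (Metric.ball_subset_closedBall.trans hb1) (Metric.ball_subset_closedBall.trans hb2)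
  have h1 : ∫ x in Metric.ball x1 s' ∪ Metric.ball x2 s', (A x).det * g (fm φ ψ x) ≤
      ∫ x in Metric.ball p r0, (A x).det * g (fm φ ψ x) :=
    setIntegral_mono_set hint hnn (LE.le.eventuallyLE hU)
  rw [setIntegral_union hdisj Metric.isOpen_ball.measurableSet
    (hint.mono_set (subset_union_left.trans hU)) (hint.mono_set (subset_union_right.trans hU)),
    e1, e2, e0, ← add_mul] at h1
  have h2 : ((k1 : ℝ) + k2) ≤ k := le_of_mul_le_mul_right h1 hgi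
  have h3 : (2 : ℤ) ≤ k := by
    have h4 : ((k1 : ℤ) + k2) ≤ k := by exact_mod_cast h2
    omega
  refine ⟨k.toNat, by omega, ?_⟩
  intro g hg1 hg2 hg3
  rw [hk g hg1 hg2 hg3]
  congr 1
  have h6 : ((k.toNat : ℕ) : ℤ) = k := Int.toNat_of_nonneg (by omega)
  exact_mod_cast h6.symm

end Pool.SQ
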