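import Pool.Agent.Work.MP_680515_sq.Interface

open MeasureTheory Set Filter Topology

namespace Pool.SQ

open Pool.Mart Pool.Flat

theorem FSC_sgc : Continuous sg := by
  unfold sg
  refine (PiLp.continuous_toLp 2 _).comp ?_
  refine continuous_pi fun i => ?_
  fin_cases i
  · show Continuous fun y : E3 => -(y 0)
    exact (PiLp.continuous_apply 2 _ 0).neg
  · show Continuous fun y : E3 => -(y 1)
    exact (PiLp.continuous_apply 2 _ 1).neg
  · show Continuous fun y : E3 => y 2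
    exact PiLp.continuous_apply 2 _ 2

theorem p_FSC (hSHT : Stmt_SHT) (hFOP : Pool.Flat.Stmt_FOP) (_hWOP : Pool.Flat.Stmt_WOP) :
    Stmt_FSC := by
  intro φ ψ A x0 r0 ρ0 hB
  obtain ⟨h1, h2, h3, h4, h5⟩ := hSHT φ ψ A x0 r0 ρ0 hB
  obtain ⟨fc, fo, fs⟩ := hFOP φ ψ hB.wm.src
  have hVo : IsOpen (VD φ ψ x0 ρ0) := by
    have hc : Continuous fun y : E3 => ‖y - fm φ ψ x0‖ := (continuous_id.sub continuous_const).norm
    have e1 : IsOpen {y : E3 | 0 < ‖y - fm φ ψ x0‖} := isOpen_lt continuous_const hc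
    have e2 : IsOpen {y : E3 | ‖y - fm φ ψ x0‖ < ρ0} := isOpen_lt hc continuous_const
    exact e1.inter e2
  have hUo : IsOpen (UD φ ψ x0 ρ0) := by
    have := fc.isOpen_inter_preimage ψ.open_source hVo
    exact this
  refine ⟨hUo, hVo, fc.mono (fun x hx => hx.1), ?_⟩
  intro h hh
  have hmaps : MapsTo (sx ψ) (UD φ ψ x0 ρ0) (UD φ ψ x0 ρ0) := by
    intro x hx
    obtain ⟨a1, a2, a3, a4, a5, a6⟩ := h1 x hx.1 hx.2.2.le
    refine ⟨a1, ?_, ?_⟩
    · rw [a3]; exact hx.2.1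
    · rw [a3]; exact hx.2.2
  have hsx : ContinuousOn (sx ψ) (UD φ ψ x0 ρ0) := by
    have c1 : ContinuousOn (fun x => sg (ψ x)) (UD φ ψ x0 ρ0) :=
      FSC_sgc.comp_continuousOn (ψ.continuousOn.mono fun x hx => hx.1)
    have c2 : MapsTo (fun x => sg (ψ x)) (UD φ ψ x0 ρ0) ψ.target := by
      intro x hx
      obtain ⟨a1, a2, a3, a4, a5, a6⟩ := h1 x hx.1 hx.2.2.le
      have := ψ.map_source a1
      rw [a2] at this
      exact this
    have c3 := ψ.continuousOn_symm.comp c1 c2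
    exact c3
  have hk : ContinuousOn (fun x => h x + h (sx ψ x)) (UD φ ψ x0 ρ0) :=
    hh.add (hh.comp hsx hmaps)
  intro y0 hy0
  obtain ⟨x, hxs, hxy⟩ := h2 y0 hy0.2.le
  have hxU : x ∈ UD φ ψ x0 ρ0 := by
    refine ⟨hxs, ?_, ?_⟩
    · rw [hxy]; exact hy0.1
    · rw [hxy]; exact hy0.2
  have hkx : ContinuousAt (fun x => h x + h (sx ψ x)) x := hk.continuousAt (hUo.mem_nhds hxU)
  refine ContinuousAt.continuousWithinAt ?_
  have hFS : ∀ x' ∈ UD φ ψ x0 ρ0, FS φ ψ h (fm φ ψ x') = h x' + h (sx ψ x') := by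
    intro x' hx'
    exact (h1 x' hx'.1 hx'.2.2.le).2.2.2.2.2 h
  intro s hs
  have hs' : s ∈ 𝓝 (h x + h (sx ψ x)) := by
    have := hFS x hxU
    rw [hxy] at this
    rw [← this]; exact hs
  have hpre := hkx hs'
  obtain ⟨W, hW1, hW2, hW3⟩ := mem_nhds_iff.1 (Filter.inter_mem hpre (hUo.mem_nhds hxU))
  have hWo : IsOpen (fm φ ψ '' W) := fo W hW2 (fun z hz => (hW1 hz).2.1)
  have hWn : fm φ ψ '' W ∈ 𝓝 y0 := hWo.mem_nhds ⟨x, hW3, hxy⟩
  show (FS φ ψ h) ⁻¹' s ∈ 𝓝 y0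
  refine Filter.mem_of_superset hWn ?_
  rintro y ⟨z, hz, rfl⟩
  have e1 : h z + h (sx ψ z) ∈ s := (hW1 hz).1
  show FS φ ψ h (fm φ ψ z) ∈ s
  rw [hFS z (hW1 hz).2]
  exact e1

end Pool.SQ
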