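import Pool.Agent.Work.MP_680515_sq.Interface

/-!
# MP_680515_an, THEOREM SQ: block GEO (the two directions at a level)
-/

open MeasureTheory Set Filter Topology

namespace Pool.SQ

open Pool.Mart Pool.Flat

theorem GEO_rad (a : E3) (t : ℝ) : rad (a + t • e3) = rad a := by
  unfold rad e3
  simp

theorem GEO_e3 : ‖e3‖ = 1 := by
  unfold e3
  simp

theorem GEO_un {x : E3} (hx : x ≠ 0) : ‖un x‖ = 1 := by
  unfold un
  rw [norm_smul, norm_inv, norm_norm, inv_mul_cancel₀ (norm_ne_zero_iff.2 hx)]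

theorem GEO_smul {x : E3} (hx : x ≠ 0) : ‖x‖ • un x = x := by
  unfold un
  rw [smul_smul, mul_inv_cancel₀ (norm_ne_zero_iff.2 hx), one_smul]

theorem GEO_arc (h4 : Pool.Flat.Stmt_FOP) {φ ψ : OpenPartialHomeomorph E3 E3} {x0 : E3}
    (hsrc : ∀ x ∈ ψ.source, wind (ψ x) ∈ φ.source) (hx0 : x0 ∈ bset ψ.source ψ) :
    ∃ s' : ℝ, 0 < s' ∧ ∀ s : ℝ, 0 < s → s < s' →
      ∃ z ∈ bset ψ.source ψ, ‖fm φ ψ z - fm φ ψ x0‖ = s := by
  obtain ⟨hx0s, hx0r⟩ := hx0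
  obtain ⟨hc, _, hinj⟩ := h4 φ ψ hsrc
  obtain ⟨r, hr, hball⟩ := Metric.isOpen_iff.1 ψ.open_target (ψ x0) (ψ.map_source hx0s)
  have hr2 : (0 : ℝ) ≤ r / 2 := by positivity
  have htgt : ∀ t ∈ Icc (0 : ℝ) (r / 2), ψ x0 + t • e3 ∈ ψ.target := by
    intro t ht
    apply hball
    rw [mem_ball_iff_norm, add_sub_cancel_left, norm_smul, GEO_e3, mul_one, Real.norm_eq_abs,
      abs_of_nonneg ht.1]
    linarith [ht.2]
  have hγs : ∀ t ∈ Icc (0 : ℝ) (r / 2), ψ.symm (ψ x0 + t • e3) ∈ ψ.source :=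
    fun t ht => ψ.map_target (htgt t ht)
  have hψγ : ∀ t ∈ Icc (0 : ℝ) (r / 2), ψ (ψ.symm (ψ x0 + t • e3)) = ψ x0 + t • e3 :=
    fun t ht => ψ.right_inv (htgt t ht)
  have hγc : ContinuousOn (fun t : ℝ => ψ.symm (ψ x0 + t • e3)) (Icc 0 (r / 2)) :=
    ψ.continuousOn_symm.comp (by fun_prop) htgt
  have hgc : ContinuousOn (fun t : ℝ => ‖fm φ ψ (ψ.symm (ψ x0 + t • e3)) - fm φ ψ x0‖)
      (Icc 0 (r / 2)) := ((hc.comp hγc hγs).sub continuousOn_const).norm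
  have h0 : ψ.symm (ψ x0 + (0 : ℝ) • e3) = x0 := by
    rw [zero_smul, add_zero]
    exact ψ.left_inv hx0s
  have hmem : r / 2 ∈ Icc (0 : ℝ) (r / 2) := ⟨hr2, le_rfl⟩
  have hend : 0 < ‖fm φ ψ (ψ.symm (ψ x0 + (r / 2) • e3)) - fm φ ψ x0‖ := by
    rw [norm_pos_iff, sub_ne_zero]
    intro h
    have h1 := hinj _ (hγs _ hmem) x0 ⟨hx0s, hx0r⟩ h
    have h2 := hψγ (r / 2) hmem
    rw [h1] at h2
    have h3 : (r / 2) • e3 = 0 := by
      have h3 := congrArg (fun v => v - ψ x0) h2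
      simpa using h3.symm
    have h5 := congrArg norm h3
    rw [norm_smul, GEO_e3, mul_one, norm_zero, Real.norm_eq_abs, abs_of_nonneg hr2] at h5
    linarith
  refine ⟨_, hend, fun s hs hs' => ?_⟩
  have h6 : s ∈ Icc (‖fm φ ψ (ψ.symm (ψ x0 + (0 : ℝ) • e3)) - fm φ ψ x0‖)
      (‖fm φ ψ (ψ.symm (ψ x0 + (r / 2) • e3)) - fm φ ψ x0‖) := by
    refine ⟨?_, hs'.le⟩
    rw [h0, sub_self, norm_zero]
    exact hs.le
  obtain ⟨t, ht, hts⟩ := intermediate_value_Icc hr2 hgc h6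
  refine ⟨_, ⟨hγs t ht, ?_⟩, hts⟩
  rw [hψγ t ht, GEO_rad]
  exact hx0r

theorem GEO_ray (h4 : Pool.Flat.Stmt_FOP) {φ ψ : OpenPartialHomeomorph E3 E3} {A : E3 → M3}
    {x0 : E3} {r0 ρ0 : ℝ} (h : BP φ ψ A x0 r0 ρ0)
    (hsph : ∀ x : E3, ‖x - x0‖ = r0 → ρ0 < ‖fm φ ψ x - fm φ ψ x0‖) {e : E3} (he : ‖e‖ = 1)
    {s : ℝ} (hs : 0 < s) (hs' : s ≤ ρ0) :
    ∃ t : ℝ, 0 < t ∧ x0 - t • e ∈ ψ.source ∧ ‖fm φ ψ (x0 - t • e) - fm φ ψ x0‖ = s := by
  obtain ⟨hc, _, _⟩ := h4 φ ψ h.wm.src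
  have hr0 : (0 : ℝ) ≤ r0 := h.rpos.le
  have hn : ∀ t : ℝ, 0 ≤ t → ‖x0 - t • e - x0‖ = t := by
    intro t ht
    rw [sub_sub_cancel_left, norm_neg, norm_smul, he, mul_one, Real.norm_eq_abs, abs_of_nonneg ht]
  have hsrc : ∀ t ∈ Icc (0 : ℝ) r0, x0 - t • e ∈ ψ.source := by
    intro t ht
    apply h.sub
    rw [mem_closedBall_iff_norm, hn t ht.1]
    exact ht.2
  have hgc : ContinuousOn (fun t : ℝ => ‖fm φ ψ (x0 - t • e) - fm φ ψ x0‖) (Icc 0 r0) :=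
    ((hc.comp (f := fun t : ℝ => x0 - t • e) (by fun_prop) hsrc).sub continuousOn_const).norm
  have h6 : s ∈ Icc (‖fm φ ψ (x0 - (0 : ℝ) • e) - fm φ ψ x0‖)
      (‖fm φ ψ (x0 - r0 • e) - fm φ ψ x0‖) := by
    refine ⟨?_, ?_⟩
    · rw [zero_smul, sub_zero, sub_self, norm_zero]
      exact hs.le
    · exact hs'.trans (hsph _ (hn r0 hr0)).le
  obtain ⟨t, ht, hts⟩ := intermediate_value_Icc hr0 hgc h6
  refine ⟨t, lt_of_le_of_ne ht.1 ?_, hsrc t ht, hts⟩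
  intro h0
  rw [← h0] at hts
  simp at hts
  linarith

theorem p_GEO (h1 : Stmt_SHT) (_ : Stmt_FSC) (h3 : Pool.Flat.Stmt_TPA) (h4 : Pool.Flat.Stmt_FOP)
    (h5 : Pool.Flat.Stmt_GL3) (_ : Pool.Flat.Stmt_WOP) : Stmt_GEO := by
  intro φ ψ A x0 r0 ρ0 h
  obtain ⟨s', hs'0, hs'⟩ := GEO_arc h4 h.wm.src h.xS
  obtain ⟨-, -, hsph, -, -⟩ := h1 φ ψ A x0 r0 ρ0 h
  obtain ⟨hc, hop, hinj⟩ := h4 φ ψ h.wm.src
  refine ⟨min ρ0 s', lt_min h.ρpos hs'0, min_le_left _ _, ?_⟩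
  rintro s ⟨hs0, hs1⟩
  obtain ⟨z, hz, hzs⟩ := hs' s hs0 (hs1.trans_le (min_le_right _ _))
  have hzp : z - x0 ≠ 0 := by
    intro h0
    rw [sub_eq_zero] at h0
    rw [h0, sub_self, norm_zero] at hzs
    exact hs0.ne hzs
  have he := GEO_un hzp
  have hez := GEO_smul hzp
  set e := un (z - x0) with he_def
  obtain ⟨t, ht, hξs, hξ⟩ := GEO_ray h4 h hsph he hs0 (hs1.le.trans (min_le_left _ _))
  set ξ := x0 - t • e with hξ_def
  have hξp : ξ - x0 = -(t • e) := by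
    rw [hξ_def]
    abel
  have hfz : fm φ ψ z - fm φ ψ x0 ≠ 0 := by
    rw [← norm_pos_iff, hzs]
    exact hs0
  have hfξ : fm φ ψ ξ - fm φ ψ x0 ≠ 0 := by
    rw [← norm_pos_iff, hξ]
    exact hs0
  have ha := GEO_un hfz
  have hb := GEO_un hfξ
  have haz := GEO_smul hfz
  have hbξ := GEO_smul hfξ
  rw [hzs] at haz
  rw [hξ] at hbξ
  set a := un (fm φ ψ z - fm φ ψ x0) with ha_def
  set b := un (fm φ ψ ξ - fm φ ψ x0) with hb_def
  have hzn : 0 < ‖z - x0‖ := norm_pos_iff.2 hzp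
  have hab : a ≠ b := by
    intro hab
    rw [hab, hbξ] at haz
    have h6 : fm φ ψ ξ = fm φ ψ z := sub_left_injective haz
    have h7 := hinj ξ hξs z hz h6
    have h8 : ‖z - x0‖ • e = -(t • e) := by rw [hez, ← hξp, h7]
    have h9 : (‖z - x0‖ + t) • e = 0 := by
      rw [add_smul, h8]
      abel
    have h10 := congrArg norm h9
    rw [norm_smul, he, mul_one, norm_zero, Real.norm_eq_abs, abs_of_pos (by positivity)] at h10
    linarith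
  refine ⟨e, a, b, he, ha, hb, hab, fun ε hε => ?_⟩
  -- near z
  obtain ⟨s2, hs2, hz2⟩ : ∃ s2 : ℝ, 0 < s2 ∧ ∀ x ∈ ψ.source, ‖fm φ ψ x - fm φ ψ z‖ ≤ s2 →
      (1 - ε) * ‖x - x0‖ ≤ inner ℝ (x - x0) e := by
    have hcont : ContinuousAt (fun x : E3 => inner ℝ (x - x0) e - (1 - ε) * ‖x - x0‖) z := by
      fun_prop
    have hval : 0 < inner ℝ (z - x0) e - (1 - ε) * ‖z - x0‖ := by
      have h6 : inner ℝ (z - x0) e = ‖z - x0‖ := by
        conv_lhs => rw [← hez]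
        rw [real_inner_smul_left, real_inner_self_eq_norm_sq, he]
        ring
      rw [h6]
      nlinarith
    obtain ⟨R1, hR1, hR1'⟩ := Metric.eventually_nhds_iff.1 (hcont.eventually (lt_mem_nhds hval))
    obtain ⟨_, _, _, _, _, _, _, _, _, hlast⟩ := h3 φ ψ z h.wm.src hz
    obtain ⟨s2, hs2, h6⟩ := hlast R1 hR1
    refine ⟨s2, hs2, fun x hx hx' => ?_⟩
    have h7 : 0 < inner ℝ (x - x0) e - (1 - ε) * ‖x - x0‖ :=
      hR1' (y := x) (by rw [dist_eq_norm]; exact h6 x hx hx')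
    linarith
  -- near ξ
  obtain ⟨s3, hs3, hξ3⟩ : ∃ s3 : ℝ, 0 < s3 ∧ ∀ y, ‖y - fm φ ψ ξ‖ < s3 →
      ∃ x ∈ ψ.source, x ≠ x0 ∧ fm φ ψ x = y ∧ inner ℝ (x - x0) e ≤ -((1 - ε) * ‖x - x0‖) := by
    let W : Set E3 := ψ.source ∩ {x | x ≠ x0 ∧ inner ℝ (x - x0) e < -((1 - ε) * ‖x - x0‖)}
    have hW : IsOpen W := by
      refine ψ.open_source.inter (IsOpen.inter isOpen_ne ?_)
      exact isOpen_lt (f := fun x : E3 => inner ℝ (x - x0) e)
        (g := fun x : E3 => -((1 - ε) * ‖x - x0‖)) (by fun_prop) (by fun_prop)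
    have hξW : ξ ∈ W := by
      refine ⟨hξs, ?_, ?_⟩
      · intro h0
        apply hfξ
        rw [h0, sub_self]
      · rw [hξp, inner_neg_left, real_inner_smul_left, real_inner_self_eq_norm_sq, he, norm_neg,
          norm_smul, he, Real.norm_eq_abs, abs_of_pos ht]
        nlinarith
    obtain ⟨s3, hs3, hsub⟩ := Metric.isOpen_iff.1 (hop W hW fun x hx => hx.1) (fm φ ψ ξ)
      ⟨ξ, hξW, rfl⟩
    refine ⟨s3, hs3, fun y hy => ?_⟩
    obtain ⟨x, hx, rfl⟩ := hsub (mem_ball_iff_norm.2 hy)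
    exact ⟨x, hx.1, hx.2.1, rfl, hx.2.2.le⟩
  -- the constants
  have hc' : 0 < min s2 s3 / (2 * s) := div_pos (lt_min hs2 hs3) (by positivity)
  obtain ⟨β0, η, hβ0, -, hη, hη2, hG⟩ := h5.2 _ hc'
  have hlog : 0 < Real.log (min ρ0 s' / s) := Real.log_pos ((one_lt_div hs0).2 hs1)
  have hcs : min s2 s3 / (2 * s) * s = min s2 s3 / 2 := by
    field_simp
  refine ⟨min β0 (Real.log (min ρ0 s' / s) / 2), η, lt_min hβ0 (by positivity), ?_, hη, hη2, ?_, ?_⟩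
  · have h6 : Real.exp (min β0 (Real.log (min ρ0 s' / s) / 2)) < min ρ0 s' / s := by
      rw [← Real.lt_log_iff_exp_lt (div_pos (lt_min h.ρpos hs'0) hs0)]
      have := min_le_right β0 (Real.log (min ρ0 s' / s) / 2)
      linarith
    rw [lt_div_iff₀ hs0] at h6
    linarith
  · intro x hx hx1 hx2
    have hx3 : ‖fm φ ψ x - fm φ ψ x0‖ ∈ Icc (s * Real.exp (-β0)) (s * Real.exp β0) := by
      refine ⟨le_trans ?_ hx1.1, hx1.2.trans ?_⟩
      · exact mul_le_mul_of_nonneg_left (Real.exp_le_exp.2 (neg_le_neg (min_le_left _ _))) hs0.le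
      · exact mul_le_mul_of_nonneg_left (Real.exp_le_exp.2 (min_le_left _ _)) hs0.le
    have h6 := (hG a b _ s ha hb hab hs0 hx3).2 hx2
    apply hz2 x hx
    rw [hcs, haz, sub_sub_sub_cancel_right] at h6
    have h7 := min_le_left s2 s3
    linarith
  · intro y hy1 hy2
    have hy3 : ‖y‖ ∈ Icc (s * Real.exp (-β0)) (s * Real.exp β0) := by
      refine ⟨le_trans ?_ hy1.1, hy1.2.trans ?_⟩
      · exact mul_le_mul_of_nonneg_left (Real.exp_le_exp.2 (neg_le_neg (min_le_left _ _))) hs0.le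
      · exact mul_le_mul_of_nonneg_left (Real.exp_le_exp.2 (min_le_left _ _)) hs0.le
    have h6 := (hG a b y s ha hb hab hs0 hy3).1 hy2
    rw [hcs, hbξ] at h6
    apply hξ3
    have h7 : fm φ ψ x0 + y - fm φ ψ ξ = y - (fm φ ψ ξ - fm φ ψ x0) := by abel
    rw [h7]
    have h8 := min_le_right s2 s3
    linarith

end Pool.SQ
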