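import Pool.Agent.Work.MP_680515_sq.Interface

/-! # Block GRW (helper52): growth at a branch point -/

open MeasureTheory Set Filter Topology

namespace Pool.SQ

open Pool.Mart Pool.Flat

/-- Branch points at all small distances from a branch point. -/
theorem grw_arc (ψ : OpenPartialHomeomorph E3 E3) (x0 : E3) (hx0 : x0 ∈ bset ψ.source ψ) :
    ∃ d1 : ℝ, 0 < d1 ∧ ∀ d : ℝ, 0 ≤ d → d ≤ d1 → ∃ z ∈ bset ψ.source ψ, ‖z - x0‖ = d := by
  obtain ⟨hs, hr⟩ := hx0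
  have hopen : ψ.target ∈ 𝓝 (ψ x0) := ψ.open_target.mem_nhds (ψ.map_source hs)
  obtain ⟨a, ha, hball⟩ := Metric.mem_nhds_iff.1 hopen
  set e : E3 := EuclideanSpace.single 2 1 with he
  have hne : ‖e‖ = 1 := by simp [he]
  have hmem : ∀ t ∈ Icc (0 : ℝ) (a / 2), ψ x0 + t • e ∈ ψ.target := by
    intro t ht
    apply hball
    rw [Metric.mem_ball, dist_eq_norm, add_sub_cancel_left, norm_smul, hne, mul_one,
      Real.norm_eq_abs, abs_of_nonneg ht.1]
    linarith [ht.2]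
  have hrad : ∀ t : ℝ, rad (ψ x0 + t • e) = 0 := by
    intro t
    have h0 : (ψ x0 + t • e) 0 = ψ x0 0 := by simp [he]
    have h1 : (ψ x0 + t • e) 1 = ψ x0 1 := by simp [he]
    unfold rad at hr ⊢
    rw [h0, h1]
    exact hr
  set α : ℝ → E3 := fun t => ψ.symm (ψ x0 + t • e) with hα
  have hc : ContinuousOn α (Icc 0 (a / 2)) := by
    refine ψ.continuousOn_symm.comp (by fun_prop) ?_
    intro t ht
    exact hmem t ht
  have hα0 : α 0 = x0 := by
    simp only [hα, zero_smul, add_zero]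
    exact ψ.left_inv hs
  have hb : ∀ t ∈ Icc (0 : ℝ) (a / 2), α t ∈ bset ψ.source ψ := by
    intro t ht
    refine ⟨ψ.map_target (hmem t ht), ?_⟩
    change rad (ψ (ψ.symm (ψ x0 + t • e))) = 0
    rw [ψ.right_inv (hmem t ht)]
    exact hrad t
  have ha2 : (0 : ℝ) ≤ a / 2 := by linarith
  have hend : α (a / 2) ≠ x0 := by
    intro h
    have h1 : ψ (α (a / 2)) = ψ x0 + (a / 2) • e := ψ.right_inv (hmem _ ⟨ha2, le_refl _⟩)
    rw [h] at h1
    have h2 : (a / 2) • e = 0 := by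
      have := h1.symm
      rwa [add_eq_left] at this
    have h3 : ‖(a / 2) • e‖ = 0 := by rw [h2, norm_zero]
    rw [norm_smul, hne, mul_one, Real.norm_eq_abs, abs_of_nonneg ha2] at h3
    linarith
  refine ⟨‖α (a / 2) - x0‖, norm_pos_iff.2 (sub_ne_zero.2 hend), ?_⟩
  intro d hd0 hd1
  have hcn : ContinuousOn (fun t => ‖α t - x0‖) (Icc 0 (a / 2)) :=
    (hc.sub continuousOn_const).norm
  have hiv := intermediate_value_Icc ha2 hcn
  have hd : d ∈ Icc ‖α 0 - x0‖ ‖α (a / 2) - x0‖ := by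
    rw [hα0, sub_self, norm_zero]
    exact ⟨hd0, hd1⟩
  obtain ⟨t, ht, htd⟩ := hiv hd
  exact ⟨α t, hb t ht, htd⟩

theorem p_GRW (hLDA : Pool.Flat.Stmt_LDA) (hPKG : Pool.Flat.Stmt_PKG)
    (hTPA : Pool.Flat.Stmt_TPA) (hFOP : Pool.Flat.Stmt_FOP) : Stmt_GRW := by
  intro φ ψ A x0 r0 ρ0 hBP
  obtain ⟨H, hH, hL⟩ := hLDA 1 (le_refl 1)
  obtain ⟨R', hR', hRs, hL⟩ := hL φ ψ A x0 hBP.wm hBP.xS
  obtain ⟨d1, hd1, harc⟩ := grw_arc ψ x0 hBP.xS
  obtain ⟨s0, R0, -, -, -, -, -, -, -, hT⟩ := hTPA φ ψ x0 hBP.wm.src hBP.xS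
  obtain ⟨s2, hs2, hT⟩ := hT (min R' d1) (lt_min hR' hd1)
  have hF := (hFOP φ ψ hBP.wm.src).2.2
  have hH0 : 0 < H := by linarith
  set θ : ℝ := Real.exp (-2) with hθdef
  have hθ : 0 < θ := Real.exp_pos _
  obtain ⟨P, hP⟩ := hPKG H (θ / H ^ 2) (by positivity)
  have hρ0 := hBP.ρpos
  refine ⟨4 ^ (P + 1), min s2 (ρ0 / 2), one_le_pow₀ (by norm_num), lt_min hs2 (by linarith),
    lt_of_le_of_lt (min_le_right _ _) (by linarith), ?_⟩
  intro x hx y hy hxt hyt hxy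
  have hxR : ‖x - x0‖ < min R' d1 := hT x hx (hxt.trans (min_le_left _ _))
  have hyR : ‖y - x0‖ < min R' d1 := hT y hy (hyt.trans (min_le_left _ _))
  by_contra hcon
  push Not at hcon
  have hΛ0 : (0 : ℝ) < 4 ^ (P + 1) := by positivity
  have hxne : x ≠ x0 := by
    intro h
    rw [h, sub_self, norm_zero] at hcon
    have : 0 ≤ 4 ^ (P + 1) * ‖y - x0‖ := by positivity
    linarith
  set f : E3 → E3 := fm φ ψ with hf
  have hD : 0 < ‖f x - f x0‖ := by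
    rw [norm_pos_iff, sub_ne_zero]
    intro h
    exact hxne (hF x hx x0 hBP.xS h)
  set D := ‖f x - f x0‖ with hDdef
  have hyD : 0 < ‖f y - f x0‖ := lt_of_lt_of_le (by positivity) hxy
  have hyne : y ≠ x0 := by
    intro h
    rw [h, sub_self, norm_zero] at hyD
    exact lt_irrefl _ hyD
  have hρ : 0 < ‖y - x0‖ := norm_pos_iff.2 (sub_ne_zero.2 hyne)
  set ρ := ‖y - x0‖ with hρdef
  have hmR : min R' d1 ≤ R' := min_le_left _ _
  have hmd : min R' d1 ≤ d1 := min_le_right _ _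
  have hrj : ∀ j : Fin (P + 1), (4 : ℝ) ^ (j : ℕ) * ρ < ‖x - x0‖ := by
    intro j
    have h1 : (4 : ℝ) ^ (j : ℕ) ≤ 4 ^ (P + 1) := pow_le_pow_right₀ (by norm_num) (by omega)
    have h2 : (4 : ℝ) ^ (j : ℕ) * ρ ≤ 4 ^ (P + 1) * ρ := mul_le_mul_of_nonneg_right h1 hρ.le
    linarith
  have hex : ∀ j : Fin (P + 1), ∃ z ∈ bset ψ.source ψ, ‖z - x0‖ = 4 ^ (j : ℕ) * ρ := by
    intro j
    exact harc _ (by positivity) (by linarith [hrj j])
  choose q hqb hqr using hex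
  have hball : ∀ z : E3, ‖z - x0‖ < R' → z ∈ Metric.ball x0 R' := by
    intro z hz
    rwa [Metric.mem_ball, dist_eq_norm]
  have hqB : ∀ j, q j ∈ Metric.ball x0 R' := by
    intro j
    apply hball
    rw [hqr]
    linarith [hrj j]
  have hxB : x ∈ Metric.ball x0 R' := hball x (by linarith)
  have hyB : y ∈ Metric.ball x0 R' := hball y (by linarith)
  have h0B : x0 ∈ Metric.ball x0 R' := Metric.mem_ball_self hR'
  -- lower bound at the points of the arm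
  have hlow : ∀ j, θ * D ≤ H * ‖f (q j) - f x0‖ := by
    intro j
    refine hxy.trans (hL x0 ⟨hBP.xS, h0B⟩ y hyB (q j) (hqB j) ?_)
    rw [hqr, one_mul]
    have h1 : (1 : ℝ) ≤ 4 ^ (j : ℕ) := one_le_pow₀ (by norm_num)
    nlinarith
  have hsep : ∀ j k : Fin (P + 1), j < k → ‖f x0 - f (q j)‖ ≤ H * ‖f (q k) - f (q j)‖ := by
    intro j k hjk
    have h4 : (4 : ℝ) * 4 ^ (j : ℕ) ≤ 4 ^ (k : ℕ) := by
      have : (4 : ℝ) ^ ((j : ℕ) + 1) ≤ 4 ^ (k : ℕ) :=
        pow_le_pow_right₀ (by norm_num) (Nat.succ_le_of_lt hjk)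
      rw [pow_succ] at this
      linarith
    have h5 : 4 * (4 ^ (j : ℕ) * ρ) ≤ 4 ^ (k : ℕ) * ρ := by nlinarith
    have h6 : ‖x0 - q j‖ = 4 ^ (j : ℕ) * ρ := by rw [norm_sub_rev, hqr]
    have h7 : 4 ^ (k : ℕ) * ρ - 4 ^ (j : ℕ) * ρ ≤ ‖q k - q j‖ := by
      rw [← hqr k, ← hqr j]
      have := norm_sub_norm_le (q k - x0) (q j - x0)
      rwa [sub_sub_sub_cancel_right] at this
    have hpos : 0 < (4 : ℝ) ^ (j : ℕ) * ρ := by positivity
    refine hL (q j) ⟨hqb j, hqB j⟩ x0 h0B (q k) (hqB k) ?_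
    rw [h6, one_mul]
    linarith
  have hd : ∀ j k : Fin (P + 1), j ≠ k → θ / H ^ 2 ≤ D⁻¹ * ‖f (q j) - f (q k)‖ := by
    have main : ∀ j k : Fin (P + 1), j < k → θ / H ^ 2 ≤ D⁻¹ * ‖f (q k) - f (q j)‖ := by
      intro j k hjk
      have h1 := hlow j
      have h2 := hsep j k hjk
      rw [norm_sub_rev] at h2
      have h3 : θ * D ≤ H ^ 2 * ‖f (q k) - f (q j)‖ := by
        have : H * ‖f (q j) - f x0‖ ≤ H * (H * ‖f (q k) - f (q j)‖) :=
          mul_le_mul_of_nonneg_left h2 hH0.le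
        nlinarith
      rw [div_le_iff₀ (by positivity)]
      have h4 : D⁻¹ * (θ * D) ≤ D⁻¹ * (H ^ 2 * ‖f (q k) - f (q j)‖) :=
        mul_le_mul_of_nonneg_left h3 (inv_nonneg.2 hD.le)
      have h5 : D⁻¹ * (θ * D) = θ := by
        field_simp
      linarith
    intro j k hjk
    rcases lt_or_gt_of_ne hjk with h | h
    · rw [norm_sub_rev]
      exact main j k h
    · exact main k j h
  have hfin := hP (P + 1) (fun j => D⁻¹ • (f (q j) - f x0)) ?_ ?_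
  · omega
  · intro j
    rw [norm_smul, norm_inv, Real.norm_eq_abs, abs_of_pos hD]
    have h1 : ‖f (q j) - f x0‖ ≤ H * D := by
      refine hL x0 ⟨hBP.xS, h0B⟩ (q j) (hqB j) x hxB ?_
      rw [hqr, one_mul]
      exact (hrj j).le
    rw [inv_mul_le_iff₀ hD]
    linarith
  · intro j k hjk
    rw [← smul_sub, sub_sub_sub_cancel_right, norm_smul, norm_inv, Real.norm_eq_abs,
      abs_of_pos hD]
    exact hd j k hjk

end Pool.SQ
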