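import Pool.Agent.Work.MP_680515_sq.Interface
import Pool.Agent.Work.MP_680515_an.B.PIOI
import Pool.Agent.Work.MP_680515_fl.B_WOP

/-!
# Block INT: integrability
-/

set_option autoImplicit false

open MeasureTheory Set Filter Topology

namespace Pool.SQ

open Pool.Mart Pool.Flat

theorem INT_inner (M : M3) (H b : E3) :
    inner ℝ H (act M b) = ∑ i, ∑ j, H i * M i j * b j := by
  unfold act
  rw [PiLp.inner_apply]
  refine Finset.sum_congr rfl fun i _ => ?_
  have e : ((WithLp.toLp 2 (M.mulVec b.ofLp) : E3) i) = ∑ j, M i j * b j := rfl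
  rw [e]
  have e2 : inner ℝ (H i) (∑ j, M i j * b j) = (∑ j, M i j * b j) * H i := rfl
  rw [e2, Finset.sum_mul]
  refine Finset.sum_congr rfl fun j _ => ?_
  ring

theorem INT_fm {φ ψ : OpenPartialHomeomorph E3 E3} (h : ∀ x ∈ ψ.source, wind (ψ x) ∈ φ.source) :
    ContinuousOn (fm φ ψ) ψ.source :=
  φ.continuousOn.comp (WOP_cont.comp_continuousOn ψ.continuousOn) h

theorem p_INT : Stmt_INT := by
  intro φ ψ A x0 r0 ρ0 hBP κ hκ hκc hκs
  have hfm := INT_fm hBP.wm.src
  have hCsub0 : Metric.closedBall x0 r0 ⊆ ψ.source := hBP.sub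
  set C : Set E3 := Metric.closedBall x0 r0 ∩ (fun x => ‖fm φ ψ x - fm φ ψ x0‖) ⁻¹' tsupport κ with hC
  have hYc : ContinuousOn (fun x => ‖fm φ ψ x - fm φ ψ x0‖) (Metric.closedBall x0 r0) :=
    ((hfm.mono hCsub0).sub continuousOn_const).norm
  have hCcl : IsClosed C :=
    hYc.preimage_isClosed_of_isClosed Metric.isClosed_closedBall (isClosed_tsupport κ)
  have hCcpt : IsCompact C :=
    (isCompact_closedBall x0 r0).of_isClosed_subset hCcl inter_subset_left
  have hCU : C ⊆ UD φ ψ x0 ρ0 := by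
    intro x hx
    have h1 := hκs hx.2
    exact ⟨hCsub0 hx.1, h1.1, h1.2⟩
  have hCO : C ⊆ ψ.source := fun x hx => hCsub0 hx.1
  have hκC : ContinuousOn (fun x => κ ‖fm φ ψ x - fm φ ψ x0‖) C :=
    hκ.comp_continuousOn (hYc.mono inter_subset_left)
  have key : ∀ F : E3 → ℝ, IntegrableOn F C →
      IntegrableOn (fun x => κ ‖fm φ ψ x - fm φ ψ x0‖ * F x) (Metric.ball x0 r0) := by
    intro F hF
    have h1 : IntegrableOn (fun x => κ ‖fm φ ψ x - fm φ ψ x0‖ * F x) C :=
      hF.continuousOn_mul hκC hCcpt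
    refine h1.of_forall_sdiff_eq_zero measurableSet_ball ?_
    intro x hx
    have h2 : ‖fm φ ψ x - fm φ ψ x0‖ ∉ tsupport κ := fun h =>
      hx.2 ⟨Metric.ball_subset_closedBall hx.1, h⟩
    rw [image_eq_zero_of_notMem_tsupport h2, zero_mul]
  have h3 := hBP.wm.wg.loc C hCcpt hCO
  have : IsFiniteMeasure (volume.restrict C) := ⟨by
    rw [Measure.restrict_apply_univ]; exact hCcpt.measure_lt_top⟩
  have h2 : ∀ i j : Fin 3, MemLp (fun x => A x i j) 2 (volume.restrict C) := fun i j =>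
    (h3 i j).mono_exponent (by norm_num)
  have hint : ∀ i j : Fin 3, IntegrableOn (fun x => A x i j) C := fun i j =>
    (h3 i j).integrable (by norm_num)
  have hdet : IntegrableOn (fun x => (A x).det) C := PIOI42_.int_det h3
  have hopn : IntegrableOn (fun x => opn (cofm (A x))) C := by
    have h4 : MemLp (fun x => opn (cofm (A x))) 1 (volume.restrict C) :=
      PIOI42_.memLp_opn (A := fun x => cofm (A x)) fun i j =>
        memLp_one_iff_integrable.2 (PIOI42_.int_cof h2 i j)
    exact memLp_one_iff_integrable.1 h4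
  have hPIOI := (stmt_PIOI' ψ.source (fm φ ψ) A ψ.open_source hfm hBP.wm.wg C hCcpt hCO).2.2.2
  refine ⟨fun g hg => ⟨?_, ?_, ?_⟩, fun H b hH hb => ⟨?_, ?_⟩⟩
  · exact key _ ((hg.mono hCU).integrableOn_compact hCcpt)
  · exact key _ (hdet.continuousOn_mul (hg.mono hCU) hCcpt)
  · exact key _ (hopn.continuousOn_mul (hg.mono hCU) hCcpt)
  · exact key _ (hPIOI H b (hH.mono hCU) (hb.mono hCU))
  · refine key _ ?_
    have e : (fun x => inner ℝ (H x) (act (A x) (b x))) =
        fun x => ∑ i, ∑ j, H x i * A x i j * b x j := funext fun x => INT_inner _ _ _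
    rw [e]
    refine integrable_finsetSum _ fun i _ => ?_
    refine integrable_finsetSum _ fun j _ => ?_
    exact ((hint i j).continuousOn_mul (PIOI42_.cont_coord (hH.mono hCU) i) hCcpt).mul_continuousOn
      (PIOI42_.cont_coord (hb.mono hCU) j) hCcpt

end Pool.SQ
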