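import Pool.Agent.Work.MP_680515_sq.Interface
import Pool.Agent.Work.MP_680515_fl.B_FLD
import Pool.Agent.Work.MP_680515_fl.B_LPI

/-! # Block LG1 (helper83): the logarithm of a continuous function in a divergence integral -/

open MeasureTheory Set Filter Topology
open scoped Pointwise

namespace Pool.SQ

open Pool.Mart Pool.Flat

/-- A globally defined positive continuous function which agrees with `Q` on `C`. -/
theorem LG1_ext {V C : Set E3} {Q : E3 → ℝ} (hV : IsOpen V) (hQ : ContinuousOn Q V)
    (hpos : ∀ y ∈ V, 0 < Q y) (hC : IsCompact C) (hCV : C ⊆ V) :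
    ∃ (Q' : E3 → ℝ) (c : ℝ), Continuous Q' ∧ UniformContinuous Q' ∧ 0 < c ∧ (∀ y, c ≤ Q' y) ∧
      ∀ y ∈ C, Q' y = Q y := by
  obtain ⟨L, hLc, hCL, hLV⟩ := exists_compact_between hC hV hCV
  have hdis : Disjoint C (interior L)ᶜ := disjoint_compl_right_iff_subset.2 hCL
  obtain ⟨χ, h1, h0, -, hχ⟩ := exists_continuous_one_zero_of_isCompact hC
    isOpen_interior.isClosed_compl hdis
  have hsupp : ∀ y, y ∉ L → χ y = 0 := fun y hy => h0 (fun h => hy (interior_subset h))
  have hts : tsupport (fun y => χ y * (Q y - 1)) ⊆ L := by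
    refine closure_minimal ?_ hLc.isClosed
    intro x hx
    by_contra h
    apply hx
    simp [hsupp x h]
  have hgc : Continuous (fun y => χ y * (Q y - 1)) := by
    refine continuous_of_tsupport fun x hx => ?_
    have hxV : x ∈ V := hLV (hts hx)
    exact (χ.continuous.continuousAt).mul
      ((hQ.continuousAt (hV.mem_nhds hxV)).sub continuousAt_const)
  have hgs : HasCompactSupport (fun y => χ y * (Q y - 1)) :=
    HasCompactSupport.of_support_subset_isCompact hLc ((subset_tsupport _).trans hts)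
  have hgu : UniformContinuous (fun y => χ y * (Q y - 1)) :=
    hgs.uniformContinuous_of_continuous hgc
  have hp : ∀ y, 0 < 1 + χ y * (Q y - 1) := by
    intro y
    by_cases hy : y ∈ L
    · have h2 := hpos y (hLV hy)
      obtain ⟨h3, h4⟩ := hχ y
      rcases h3.eq_or_lt with h5 | h5
      · rw [← h5]; norm_num
      · nlinarith [mul_pos h5 h2]
    · rw [hsupp y hy]; norm_num
  have hc1 : Continuous (fun y => 1 + χ y * (Q y - 1)) := continuous_const.add hgc
  have hex : ∃ c : ℝ, 0 < c ∧ ∀ y, c ≤ 1 + χ y * (Q y - 1) := by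
    rcases L.eq_empty_or_nonempty with hL | hL
    · refine ⟨1, one_pos, fun y => ?_⟩
      rw [hsupp y (by rw [hL]; simp)]; norm_num
    · obtain ⟨y0, hy0, hmin⟩ := hLc.exists_isMinOn hL hc1.continuousOn
      refine ⟨min (1 + χ y0 * (Q y0 - 1)) 1, lt_min (hp y0) one_pos, fun y => ?_⟩
      by_cases hy : y ∈ L
      · exact (min_le_left _ _).trans (hmin hy)
      · rw [hsupp y hy]
        refine (min_le_right _ _).trans (by norm_num)
  obtain ⟨c, hc, hcle⟩ := hex
  refine ⟨fun y => 1 + χ y * (Q y - 1), c, hc1, uniformContinuous_const.add hgu, hc, hcle, ?_⟩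
  intro y hy
  have h2 : χ y = 1 := h1 hy
  show 1 + χ y * (Q y - 1) = Q y
  rw [h2]; ring

/-- Mollification. -/
noncomputable def LG1_cv {X : Type} [NormedAddCommGroup X] [NormedSpace ℝ X]
    (ζ : ContDiffBump (0 : E3)) (g : E3 → X) (y : E3) : X :=
  ∫ t, ζ.normed volume t • g (y - t)

theorem LG1_cv_eq {X : Type} [NormedAddCommGroup X] [NormedSpace ℝ X]
    (ζ : ContDiffBump (0 : E3)) (g : E3 → X) :
    LG1_cv ζ g = convolution (ζ.normed volume) g (ContinuousLinearMap.lsmul ℝ ℝ) volume := rfl

theorem LG1_cv_dist {X : Type} [NormedAddCommGroup X] [NormedSpace ℝ X] [CompleteSpace X]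
    (ζ : ContDiffBump (0 : E3)) {g : E3 → X} (hg : Continuous g) {y : E3} {ε : ℝ}
    (h : ∀ x ∈ Metric.ball y ζ.rOut, dist (g x) (g y) ≤ ε) : dist (LG1_cv ζ g y) (g y) ≤ ε := by
  rw [LG1_cv_eq]
  exact ContDiffBump.dist_normed_convolution_le hg.aestronglyMeasurable h

theorem LG1_cv_smooth {X : Type} [NormedAddCommGroup X] [NormedSpace ℝ X] [CompleteSpace X]
    (ζ : ContDiffBump (0 : E3)) {g : E3 → X} (hg : Continuous g) : ContDiff ℝ 1 (LG1_cv ζ g) := by
  rw [LG1_cv_eq]
  exact HasCompactSupport.contDiff_convolution_left (n := 1) (ContinuousLinearMap.lsmul ℝ ℝ)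
    ζ.hasCompactSupport_normed ζ.contDiff_normed hg.locallyIntegrable

/-- The divergence as a functional of the derivative. -/
noncomputable def LG1_D : (E3 →L[ℝ] E3) →L[ℝ] ℝ :=
  ∑ i : Fin 3, (EuclideanSpace.proj i : E3 →L[ℝ] ℝ).comp
    (ContinuousLinearMap.apply ℝ E3 (EuclideanSpace.single i (1 : ℝ)))

theorem LG1_D_eq (H : E3 → E3) (y : E3) : divv H y = LG1_D (fderiv ℝ H y) := by
  simp [LG1_D, divv]

theorem LG1_divv_cont {H : E3 → E3} (hH : ContDiff ℝ 1 H) : Continuous (divv H) := by
  have h1 : divv H = fun y => LG1_D (fderiv ℝ H y) := by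
    funext y
    exact LG1_D_eq H y
  rw [h1]
  exact LG1_D.continuous.comp (hH.continuous_fderiv (by norm_num))

theorem LG1_divv_supp {H : E3 → E3} (hs : HasCompactSupport H) : HasCompactSupport (divv H) :=
  HasCompactSupport.of_support_subset_isCompact hs (by
    intro y hy
    by_contra h
    exact hy (LPI_divv_zero h))

theorem LG1_cv_divv (ζ : ContDiffBump (0 : E3)) {W : E3 → E3} (hW : ContDiff ℝ 1 W)
    (hs : HasCompactSupport W) (y : E3) : divv (LG1_cv ζ W) y = LG1_cv ζ (divv W) y := by
  have hli : LocallyIntegrable (ζ.normed volume) (volume : Measure E3) :=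
    ζ.continuous_normed.locallyIntegrable
  have h1 := HasCompactSupport.hasFDerivAt_convolution_right (μ := (volume : Measure E3))
    (ContinuousLinearMap.lsmul ℝ ℝ : ℝ →L[ℝ] E3 →L[ℝ] E3) hs hli hW y
  have h2 : Integrable (fun t => ((ContinuousLinearMap.lsmul ℝ ℝ : ℝ →L[ℝ] E3 →L[ℝ] E3).precompR E3)
      (ζ.normed volume t) (fderiv ℝ W (y - t))) volume :=
    (hs.fderiv ℝ).convolutionExists_right
      ((ContinuousLinearMap.lsmul ℝ ℝ : ℝ →L[ℝ] E3 →L[ℝ] E3).precompR E3) hli
      (hW.continuous_fderiv (by norm_num)) y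
  rw [LG1_D_eq, LG1_cv_eq, h1.fderiv]
  unfold convolution
  rw [← ContinuousLinearMap.integral_comp_comm LG1_D h2]
  unfold LG1_cv
  refine integral_congr_ae (Eventually.of_forall fun t => ?_)
  show LG1_D _ = ζ.normed volume t • divv W (y - t)
  rw [LG1_D_eq]
  have h3 : ((ContinuousLinearMap.lsmul ℝ ℝ : ℝ →L[ℝ] E3 →L[ℝ] E3).precompR E3)
      (ζ.normed volume t) (fderiv ℝ W (y - t)) = ζ.normed volume t • fderiv ℝ W (y - t) := by
    ext v
    simp
  rw [h3, map_smul]

theorem LG1_cv_supp {X : Type} [NormedAddCommGroup X] [NormedSpace ℝ X]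
    (ζ : ContDiffBump (0 : E3)) {g : E3 → X} {K : Set E3} {δ : ℝ} (hδ : ζ.rOut ≤ δ)
    (hg : ∀ y, y ∉ K → g y = 0) {y : E3} (hy : y ∉ Metric.cthickening δ K) :
    LG1_cv ζ g y = 0 := by
  unfold LG1_cv
  rw [← integral_zero E3 X (μ := volume)]
  refine integral_congr_ae (Eventually.of_forall fun t => ?_)
  show ζ.normed volume t • g (y - t) = 0
  by_cases ht : t ∈ Metric.ball (0 : E3) ζ.rOut
  · rw [hg, smul_zero]
    intro h
    apply hy
    apply Metric.mem_cthickening_of_dist_le y (y - t) δ K h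
    rw [dist_eq_norm, sub_sub_cancel]
    rw [Metric.mem_ball, dist_zero_right] at ht
    linarith
  · have h1 : ζ.normed volume t = 0 := by
      by_contra h
      apply ht
      have h2 : t ∈ Function.support (ζ.normed (volume : Measure E3)) := h
      rwa [ζ.support_normed_eq] at h2
    rw [h1, zero_smul]

theorem LG1_fub (ζ : ContDiffBump (0 : E3)) {q w : E3 → ℝ} (hq : Continuous q) (hw : Continuous w)
    (hs : HasCompactSupport w) :
    ∫ y, q y * LG1_cv ζ w y = ∫ y, LG1_cv ζ q y * w y := by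
  have e1 : ∀ y, q y * LG1_cv ζ w y = ∫ t, q y * (ζ.normed volume t * w (y - t)) := by
    intro y
    rw [integral_const_mul]
    rfl
  have e2 : ∀ y, LG1_cv ζ q y * w y = ∫ t, (ζ.normed volume t * q (y + t)) * w y := by
    intro y
    rw [integral_mul_const]
    congr 1
    unfold LG1_cv
    rw [← integral_neg_eq_self]
    refine integral_congr_ae (Eventually.of_forall fun t => ?_)
    show ζ.normed volume (-t) • q (y - -t) = ζ.normed volume t * q (y + t)
    rw [ζ.normed_neg, sub_neg_eq_add, smul_eq_mul]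
  simp_rw [e1, e2]
  have hK1 : IsCompact ((tsupport w + Metric.closedBall (0 : E3) ζ.rOut) ×ˢ
      Metric.closedBall (0 : E3) ζ.rOut) :=
    (IsCompact.add hs (isCompact_closedBall _ _)).prod (isCompact_closedBall _ _)
  have hz : ∀ t, t ∉ Metric.closedBall (0 : E3) ζ.rOut → ζ.normed (volume : Measure E3) t = 0 := by
    intro t ht
    by_contra h
    have h2 : t ∈ Function.support (ζ.normed (volume : Measure E3)) := h
    rw [ζ.support_normed_eq] at h2
    exact ht (Metric.ball_subset_closedBall h2)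
  have s1 : ∫ y, ∫ t, q y * (ζ.normed volume t * w (y - t)) =
      ∫ t, ∫ y, q y * (ζ.normed volume t * w (y - t)) := by
    apply integral_integral_swap_of_hasCompactSupport
    · have := ζ.continuous_normed (μ := (volume : Measure E3))
      show Continuous fun p : E3 × E3 => q p.1 * (ζ.normed volume p.2 * w (p.1 - p.2))
      fun_prop
    · refine HasCompactSupport.intro hK1 ?_
      rintro ⟨y, t⟩ h
      show q y * (ζ.normed volume t * w (y - t)) = 0
      by_cases ht : t ∈ Metric.closedBall (0 : E3) ζ.rOut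
      · have h3 : w (y - t) = 0 := by
          by_contra h4
          apply h
          refine mk_mem_prod ?_ ht
          have h5 : y - t ∈ tsupport w := subset_tsupport _ h4
          have := Set.add_mem_add h5 ht
          rwa [sub_add_cancel] at this
        rw [h3]; ring
      · rw [hz t ht]; ring
  have s2 : ∫ y, ∫ t, (ζ.normed volume t * q (y + t)) * w y =
      ∫ t, ∫ y, (ζ.normed volume t * q (y + t)) * w y := by
    apply integral_integral_swap_of_hasCompactSupport
    · have := ζ.continuous_normed (μ := (volume : Measure E3))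
      show Continuous fun p : E3 × E3 => (ζ.normed volume p.2 * q (p.1 + p.2)) * w p.1
      fun_prop
    · refine HasCompactSupport.intro (IsCompact.prod hs (isCompact_closedBall (0 : E3) ζ.rOut)) ?_
      rintro ⟨y, t⟩ h
      show (ζ.normed volume t * q (y + t)) * w y = 0
      by_cases ht : t ∈ Metric.closedBall (0 : E3) ζ.rOut
      · have h3 : w y = 0 := by
          by_contra h4
          exact h (mk_mem_prod (subset_tsupport _ h4) ht)
        rw [h3]; ring
      · rw [hz t ht]; ring
  rw [s1, s2]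
  refine integral_congr_ae (Eventually.of_forall fun t => ?_)
  show ∫ y, q y * (ζ.normed volume t * w (y - t)) = ∫ y, (ζ.normed volume t * q (y + t)) * w y
  rw [← integral_add_right_eq_self (μ := (volume : Measure E3))
    (fun y => q y * (ζ.normed volume t * w (y - t))) t]
  refine integral_congr_ae (Eventually.of_forall fun y => ?_)
  show q (y + t) * (ζ.normed volume t * w (y + t - t)) = (ζ.normed volume t * q (y + t)) * w y
  rw [add_sub_cancel_right]
  ring

theorem LG1_int_fderiv {g : E3 → ℝ} (hg : ContDiff ℝ 1 g) (hs : HasCompactSupport g) (v : E3) :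
    ∫ y, fderiv ℝ g y v = 0 := by
  have h1 : Continuous (fun y => fderiv ℝ g y v) :=
    (hg.continuous_fderiv (by norm_num)).clm_apply continuous_const
  have h2 : HasCompactSupport (fun y => fderiv ℝ g y v) :=
    (hs.fderiv ℝ).comp_left (g := fun A : E3 →L[ℝ] ℝ => A v) (by simp)
  have h3 := integral_mul_fderiv_eq_neg_fderiv_mul_of_integrable (μ := (volume : Measure E3))
    (f := fun _ : E3 => (1 : ℝ)) (g := g) (v := v)
    (by simp)
    (by simpa using h1.integrable_of_hasCompactSupport h2)
    (by simpa using hg.continuous.integrable_of_hasCompactSupport hs)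
    (fun x _ => differentiableAt_const _)
    (fun x _ => (hg.differentiable (by norm_num)) x)
  simpa using h3

theorem LG1_int_divv {H : E3 → E3} (hH : ContDiff ℝ 1 H) (hs : HasCompactSupport H) :
    ∫ y, divv H y = 0 := by
  have hc : ∀ i : Fin 3, ContDiff ℝ 1 (fun y => H y i) := fun i =>
    (EuclideanSpace.proj i : E3 →L[ℝ] ℝ).contDiff.comp hH
  have hcs : ∀ i : Fin 3, HasCompactSupport (fun y => H y i) := fun i =>
    hs.comp_left (g := fun x : E3 => x i) (by simp)
  have hd : ∀ (i : Fin 3) (y v : E3), fderiv ℝ (fun y => H y i) y v = fderiv ℝ H y v i := by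
    intro i y v
    have h1 : HasFDerivAt (fun y => H y i)
        ((EuclideanSpace.proj i : E3 →L[ℝ] ℝ).comp (fderiv ℝ H y)) y :=
      (EuclideanSpace.proj i : E3 →L[ℝ] ℝ).hasFDerivAt.comp y
        (hH.differentiable (by norm_num) y).hasFDerivAt
    rw [h1.fderiv]
    rfl
  have hi : ∀ i : Fin 3, Integrable (fun y => fderiv ℝ H y (EuclideanSpace.single i 1) i)
      (volume : Measure E3) := by
    intro i
    have h1 : Continuous (fun y => fderiv ℝ (fun y => H y i) y (EuclideanSpace.single i 1)) :=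
      ((hc i).continuous_fderiv (by norm_num)).clm_apply continuous_const
    have h2 : HasCompactSupport
        (fun y => fderiv ℝ (fun y => H y i) y (EuclideanSpace.single i 1)) :=
      ((hcs i).fderiv ℝ).comp_left
        (g := fun A : E3 →L[ℝ] ℝ => A (EuclideanSpace.single i 1)) (by simp)
    have h3 := h1.integrable_of_hasCompactSupport h2 (μ := (volume : Measure E3))
    simpa only [hd] using h3
  unfold divv
  rw [integral_finsetSum _ (fun i _ => hi i)]
  apply Finset.sum_eq_zero
  intro i _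
  have h1 := LG1_int_fderiv (hc i) (hcs i) (EuclideanSpace.single i 1)
  simpa only [hd] using h1

theorem LG1_log {a b c : ℝ} (hc : 0 < c) (ha : c ≤ a) (hb : c ≤ b) :
    |Real.log a - Real.log b| ≤ |a - b| / c := by
  have key : ∀ a b : ℝ, c ≤ a → c ≤ b → Real.log a - Real.log b ≤ |a - b| / c := by
    intro a b ha hb
    have ha0 : 0 < a := lt_of_lt_of_le hc ha
    have hb0 : 0 < b := lt_of_lt_of_le hc hb
    have h1 : Real.log a - Real.log b = Real.log (a / b) := (Real.log_div ha0.ne' hb0.ne').symm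
    have h2 : Real.log (a / b) ≤ a / b - 1 := Real.log_le_sub_one_of_pos (by positivity)
    have h3 : a / b - 1 = (a - b) / b := by field_simp
    have h4 : (a - b) / b ≤ |a - b| / b := by gcongr; exact le_abs_self _
    have h5 : |a - b| / b ≤ |a - b| / c := by gcongr
    linarith
  rw [abs_le]
  constructor
  · have := key b a hb ha
    rw [abs_sub_comm] at this
    linarith
  · exact key a b ha hb

theorem LG1_smul_supp {u : E3 → ℝ} {Z : E3 → E3} (hs : HasCompactSupport Z) :
    HasCompactSupport (fun y => u y • Z y) :=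
  HasCompactSupport.of_support_subset_isCompact hs (by
    intro y hy
    apply subset_tsupport
    intro h
    apply hy
    show u y • Z y = 0
    rw [h, smul_zero])

/-- Integration by parts for the smooth weight. -/
theorem LG1_ibp {q : E3 → ℝ} {Z : E3 → E3} (hq : ContDiff ℝ 1 q) (hpos : ∀ y, 0 < q y)
    (hZ : ContDiff ℝ 1 Z) (hs : HasCompactSupport Z) :
    ∫ y, q y * divv (fun y => (q y)⁻¹ • Z y) y = ∫ y, Real.log (q y) * divv Z y := by
  have hinv : ContDiff ℝ 1 (fun y => (q y)⁻¹) := hq.inv (fun y => (hpos y).ne')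
  have hW : ContDiff ℝ 1 (fun y => (q y)⁻¹ • Z y) := hinv.smul hZ
  have hWs : HasCompactSupport (fun y => (q y)⁻¹ • Z y) := LG1_smul_supp hs
  have hlog : ContDiff ℝ 1 (fun y => 1 - Real.log (q y)) :=
    contDiff_const.sub (hq.log (fun y => (hpos y).ne'))
  have hH : ContDiff ℝ 1 (fun y => (1 - Real.log (q y)) • Z y) := hlog.smul hZ
  have hHs : HasCompactSupport (fun y => (1 - Real.log (q y)) • Z y) := LG1_smul_supp hs
  have hpt : ∀ y, q y * divv (fun y => (q y)⁻¹ • Z y) y =
      Real.log (q y) * divv Z y + divv (fun y => (1 - Real.log (q y)) • Z y) y := by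
    intro y
    have hqd : HasFDerivAt q (fderiv ℝ q y) y := (hq.differentiable (by norm_num) y).hasFDerivAt
    have hZd : DifferentiableAt ℝ Z y := hZ.differentiable (by norm_num) y
    have hWd : DifferentiableAt ℝ (fun y => (q y)⁻¹ • Z y) y := hW.differentiable (by norm_num) y
    have h1 := FLD_divv hqd hWd
    have h2 : (fun y => q y • ((q y)⁻¹ • Z y)) = Z := by
      funext y
      rw [smul_smul, mul_inv_cancel₀ (hpos y).ne', one_smul]
    rw [h2] at h1
    have hld : HasFDerivAt (fun y => 1 - Real.log (q y)) (-((q y)⁻¹ • fderiv ℝ q y)) y :=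
      (hqd.log (hpos y).ne').const_sub 1
    have h3 := FLD_divv hld hZd
    rw [h3]
    simp only [_root_.neg_apply, _root_.smul_apply, smul_eq_mul,
      map_smul] at h1 ⊢
    linarith
  simp_rw [hpt]
  have hl0 : Continuous (fun y => Real.log (q y)) :=
    hq.continuous.log (fun y => (hpos y).ne')
  rw [integral_add, LG1_int_divv hH hHs, add_zero]
  · exact (hl0.mul (LG1_divv_cont hZ)).integrable_of_hasCompactSupport
      ((LG1_divv_supp hs).mul_left)
  · exact (LG1_divv_cont hH).integrable_of_hasCompactSupport (LG1_divv_supp hHs)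

theorem p_LG1 : Stmt_LG1 := by
  intro V Q Z hV hQ hpos hZ hZs hZV
  obtain ⟨δ, hδ, hδV⟩ := hZs.isCompact.exists_cthickening_subset_open hV hZV
  set K := tsupport Z with hK
  set C := Metric.cthickening δ K with hCdef
  have hC : IsCompact C := hZs.isCompact.cthickening
  have hKC : K ⊆ C := Metric.self_subset_cthickening K
  obtain ⟨Q', c, hQc, hQu, hc, hcle, hQC⟩ := LG1_ext hV hQ hpos hC hδV
  have hrpos : ∀ n : ℕ, 0 < δ / ((n : ℝ) + 1) := fun n => by positivity
  let ζ : ℕ → ContDiffBump (0 : E3) := fun n =>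
    ⟨δ / ((n : ℝ) + 1) / 2, δ / ((n : ℝ) + 1), by have := hrpos n; positivity,
      by have := hrpos n; linarith⟩
  have hζr : ∀ n, (ζ n).rOut = δ / ((n : ℝ) + 1) := fun n => rfl
  have hζδ : ∀ n, (ζ n).rOut ≤ δ := fun n => by
    rw [hζr]
    apply div_le_self hδ.le
    have : (0 : ℝ) ≤ n := n.cast_nonneg
    linarith
  have hζ0 : ∀ η : ℝ, 0 < η → ∃ N : ℕ, ∀ n ≥ N, (ζ n).rOut < η := by
    intro η hη
    have ht : Tendsto (fun n : ℕ => δ / ((n : ℝ) + 1)) atTop (𝓝 0) := by
      have := tendsto_one_div_add_atTop_nhds_zero_nat (𝕜 := ℝ)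
      have h2 := this.const_mul δ
      simpa [mul_one_div, div_eq_mul_inv] using h2
    obtain ⟨N, hN⟩ := (Metric.tendsto_atTop.1 ht) η hη
    refine ⟨N, fun n hn => ?_⟩
    have := hN n hn
    rw [Real.dist_eq, sub_zero, abs_of_pos (hrpos n)] at this
    exact this
  let q : ℕ → E3 → ℝ := fun n => LG1_cv (ζ n) Q'
  have hqs : ∀ n, ContDiff ℝ 1 (q n) := fun n => LG1_cv_smooth (ζ n) hQc
  have hqc : ∀ n y, c ≤ q n y := by
    intro n y
    have h1 : ∫ t, (ζ n).normed (volume : Measure E3) t • c = c := by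
      rw [integral_smul_const, (ζ n).integral_normed, one_smul]
    have hi1 : Integrable (fun t => (ζ n).normed (volume : Measure E3) t • c) volume :=
      (ζ n).integrable_normed.smul_const c
    have hi2 : Integrable (fun t => (ζ n).normed (volume : Measure E3) t • Q' (y - t)) volume := by
      have hcont : Continuous (fun t => (ζ n).normed (volume : Measure E3) t • Q' (y - t)) :=
        (ζ n).continuous_normed.smul (hQc.comp (continuous_const.sub continuous_id))
      exact hcont.integrable_of_hasCompactSupport ((ζ n).hasCompactSupport_normed.smul_right)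
    calc c = ∫ t, (ζ n).normed (volume : Measure E3) t • c := h1.symm
      _ ≤ ∫ t, (ζ n).normed (volume : Measure E3) t • Q' (y - t) := by
          apply integral_mono hi1 hi2
          intro t
          have h2 := (ζ n).nonneg_normed (μ := (volume : Measure E3)) t
          exact mul_le_mul_of_nonneg_left (hcle (y - t)) h2
  have hq0 : ∀ n y, 0 < q n y := fun n y => lt_of_lt_of_le hc (hqc n y)
  have hQ0 : ∀ y, 0 < Q' y := fun y => lt_of_lt_of_le hc (hcle y)
  have hqQ : ∀ ε : ℝ, 0 < ε → ∃ N : ℕ, ∀ n ≥ N, ∀ y, |q n y - Q' y| ≤ ε := by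
    intro ε hε
    obtain ⟨η, hη, h1⟩ := Metric.uniformContinuous_iff.1 hQu ε hε
    obtain ⟨N, hN⟩ := hζ0 η hη
    refine ⟨N, fun n hn y => ?_⟩
    rw [← Real.dist_eq]
    apply LG1_cv_dist (ζ n) hQc
    intro x hx
    exact (h1 (lt_trans (Metric.mem_ball.1 hx) (hN n hn))).le
  let W : ℕ → E3 → E3 := fun n y => (q n y)⁻¹ • Z y
  have hWs : ∀ n, ContDiff ℝ 1 (W n) := fun n =>
    ((hqs n).inv (fun y => (hq0 n y).ne')).smul hZ
  have hWc : ∀ n, HasCompactSupport (W n) := fun n => LG1_smul_supp hZs
  have hW0 : ∀ n y, y ∉ K → W n y = 0 := by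
    intro n y hy
    have : Z y = 0 := image_eq_zero_of_notMem_tsupport hy
    show (q n y)⁻¹ • Z y = 0
    rw [this, smul_zero]
  have hXC : ∀ n, tsupport (LG1_cv (ζ n) (W n)) ⊆ C := by
    intro n
    refine closure_minimal ?_ hC.isClosed
    intro y hy
    by_contra h
    exact hy (LG1_cv_supp (ζ n) (hζδ n) (hW0 n) h)
  have hG : (fun y => (Q y)⁻¹ • Z y) = fun y => (Q' y)⁻¹ • Z y := by
    funext y
    by_cases hy : y ∈ K
    · rw [hQC y (hKC hy)]
    · have : Z y = 0 := image_eq_zero_of_notMem_tsupport hy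
      rw [this, smul_zero, smul_zero]
  have hGc : Continuous (fun y => (Q' y)⁻¹ • Z y) :=
    (hQc.inv₀ (fun y => (hQ0 y).ne')).smul hZ.continuous
  have hGs : HasCompactSupport (fun y => (Q' y)⁻¹ • Z y) := LG1_smul_supp hZs
  have hGu : UniformContinuous (fun y => (Q' y)⁻¹ • Z y) :=
    hGs.uniformContinuous_of_continuous hGc
  obtain ⟨B, hB⟩ := hZ.continuous.bounded_above_of_compact_support hZs
  have hB0 : 0 ≤ B := (norm_nonneg _).trans (hB 0)
  refine ⟨C, fun n => LG1_cv (ζ n) (W n), hC, hδV, fun n => ⟨LG1_cv_smooth _ (hWs n).continuous,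
    HasCompactSupport.of_support_subset_isCompact hC ((subset_tsupport _).trans (hXC n)), hXC n⟩,
    ?_, ?_⟩
  · rw [hG, Metric.tendstoUniformly_iff]
    intro ε hε
    obtain ⟨η, hη, h1⟩ := Metric.uniformContinuous_iff.1 hGu (ε / 8) (by positivity)
    obtain ⟨N1, hN1⟩ := hζ0 η hη
    obtain ⟨N2, hN2⟩ := hqQ (ε / 8 * c ^ 2 / (B + 1)) (by positivity)
    filter_upwards [eventually_ge_atTop (max N1 N2)] with n hn y
    have hn1 : N1 ≤ n := (le_max_left _ _).trans hn
    have hn2 : N2 ≤ n := (le_max_right _ _).trans hn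
    have hWG : ∀ x, dist (W n x) ((Q' x)⁻¹ • Z x) ≤ ε / 8 := by
      intro x
      rw [dist_eq_norm]
      show ‖(q n x)⁻¹ • Z x - (Q' x)⁻¹ • Z x‖ ≤ ε / 8
      rw [← sub_smul, norm_smul, Real.norm_eq_abs]
      have h2 : (q n x)⁻¹ - (Q' x)⁻¹ = -(q n x - Q' x) / (q n x * Q' x) := by
        have := (hq0 n x).ne'
        have := (hQ0 x).ne'
        field_simp
        ring
      have h3 : |(q n x)⁻¹ - (Q' x)⁻¹| ≤ (ε / 8 * c ^ 2 / (B + 1)) / c ^ 2 := by
        rw [h2, abs_div, abs_neg, abs_of_pos (mul_pos (hq0 n x) (hQ0 x))]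
        have h4 : c ^ 2 ≤ q n x * Q' x := by
          have := mul_le_mul (hqc n x) (hcle x) hc.le (hq0 n x).le
          nlinarith
        have h5 := hN2 n hn2 x
        gcongr
      have h6 : (ε / 8 * c ^ 2 / (B + 1)) / c ^ 2 = ε / 8 / (B + 1) := by
        field_simp
      rw [h6] at h3
      calc |(q n x)⁻¹ - (Q' x)⁻¹| * ‖Z x‖ ≤ (ε / 8 / (B + 1)) * B :=
            mul_le_mul h3 (hB x) (norm_nonneg _) (by positivity)
        _ ≤ (ε / 8 / (B + 1)) * (B + 1) := by gcongr; linarith
        _ = ε / 8 := by field_simp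
    have hXW : dist (LG1_cv (ζ n) (W n) y) (W n y) ≤ ε / 8 + ε / 8 + ε / 8 := by
      apply LG1_cv_dist (ζ n) (hWs n).continuous
      intro x hx
      have h2 := hWG x
      have h3 := hWG y
      have h4 : dist ((Q' x)⁻¹ • Z x) ((Q' y)⁻¹ • Z y) < ε / 8 :=
        h1 (lt_trans (Metric.mem_ball.1 hx) (hN1 n hn1))
      rw [dist_comm] at h3
      calc dist (W n x) (W n y) ≤ dist (W n x) ((Q' x)⁻¹ • Z x) +
            dist ((Q' x)⁻¹ • Z x) ((Q' y)⁻¹ • Z y) + dist ((Q' y)⁻¹ • Z y) (W n y) :=
            dist_triangle4 _ _ _ _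
        _ ≤ ε / 8 + ε / 8 + ε / 8 := by linarith
    have h5 := hWG y
    have h6 := dist_triangle (LG1_cv (ζ n) (W n) y) (W n y) ((Q' y)⁻¹ • Z y)
    rw [dist_comm]
    linarith
  · have hint : ∀ n, ∫ y, Q y * divv (LG1_cv (ζ n) (W n)) y =
        ∫ y, Real.log (q n y) * divv Z y := by
      intro n
      have h1 : ∫ y, Q y * divv (LG1_cv (ζ n) (W n)) y =
          ∫ y, Q' y * LG1_cv (ζ n) (divv (W n)) y := by
        refine integral_congr_ae (Eventually.of_forall fun y => ?_)
        show Q y * divv (LG1_cv (ζ n) (W n)) y = Q' y * LG1_cv (ζ n) (divv (W n)) y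
        rw [← LG1_cv_divv (ζ n) (hWs n) (hWc n)]
        by_cases hy : y ∈ C
        · rw [hQC y hy]
        · rw [LPI_divv_zero (fun h => hy (hXC n h)), mul_zero, mul_zero]
      rw [h1, LG1_fub (ζ n) hQc (LG1_divv_cont (hWs n)) (LG1_divv_supp (hWc n))]
      exact LG1_ibp (hqs n) (hq0 n) hZ hZs
    have hlim : ∫ y, Real.log (Q y) * divv Z y = ∫ y, Real.log (Q' y) * divv Z y := by
      refine integral_congr_ae (Eventually.of_forall fun y => ?_)
      show Real.log (Q y) * divv Z y = Real.log (Q' y) * divv Z y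
      by_cases hy : y ∈ K
      · rw [hQC y (hKC hy)]
      · rw [LPI_divv_zero hy, mul_zero, mul_zero]
    have hdc := LG1_divv_cont hZ
    have hds := LG1_divv_supp hZs
    have hI : Integrable (fun y => |divv Z y|) (volume : Measure E3) :=
      (hdc.integrable_of_hasCompactSupport hds).abs
    set I : ℝ := ∫ y, |divv Z y| with hIdef
    have hI0 : 0 ≤ I := integral_nonneg fun y => abs_nonneg _
    rw [hlim, Metric.tendsto_atTop]
    intro ε hε
    obtain ⟨N, hN⟩ := hqQ (ε / 2 * c / (I + 1)) (by positivity)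
    refine ⟨N, fun n hn => ?_⟩
    rw [hint n, Real.dist_eq]
    have i1 : Integrable (fun y => Real.log (q n y) * divv Z y) (volume : Measure E3) :=
      (((hqs n).continuous.log (fun y => (hq0 n y).ne')).mul hdc).integrable_of_hasCompactSupport
        hds.mul_left
    have i2 : Integrable (fun y => Real.log (Q' y) * divv Z y) (volume : Measure E3) :=
      ((hQc.log (fun y => (hQ0 y).ne')).mul hdc).integrable_of_hasCompactSupport hds.mul_left
    rw [← integral_sub i1 i2]
    have h7 : |∫ y, (Real.log (q n y) * divv Z y - Real.log (Q' y) * divv Z y)| ≤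
        ∫ y, (ε / 2 / (I + 1)) * |divv Z y| := by
      refine (abs_integral_le_integral_abs).trans ?_
      apply integral_mono (i1.sub i2).abs (hI.const_mul _)
      intro y
      show |Real.log (q n y) * divv Z y - Real.log (Q' y) * divv Z y| ≤ _
      rw [← sub_mul, abs_mul]
      have h8 := LG1_log hc (hqc n y) (hcle y)
      have h9 := hN n hn y
      have h10 : |q n y - Q' y| / c ≤ ε / 2 / (I + 1) := by
        rw [div_le_iff₀ hc]
        calc |q n y - Q' y| ≤ ε / 2 * c / (I + 1) := h9
          _ = ε / 2 / (I + 1) * c := by ring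
      exact mul_le_mul_of_nonneg_right (h8.trans h10) (abs_nonneg _)
    rw [integral_const_mul] at h7
    calc |∫ y, (Real.log (q n y) * divv Z y - Real.log (Q' y) * divv Z y)|
        ≤ ε / 2 / (I + 1) * I := h7
      _ ≤ ε / 2 / (I + 1) * (I + 1) := by gcongr; linarith
      _ = ε / 2 := by field_simp
      _ < ε := by linarith

end Pool.SQ
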