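import Pool.Agent.Work.MP_680515_sq.Interface
import Pool.Agent.Work.MP_680515_fl.B_FOP
import Pool.Agent.Work.MP_680515_fl.B_WOP

/-!
# MP_680515_an, THEOREM SQ, block LGI: the logarithmic identity
-/

open MeasureTheory Set Filter Topology

namespace Pool.SQ

open Pool.Mart Pool.Flat

theorem LGI_cont_gradv {F : E3 → ℝ} (hF : ContDiffOn ℝ 1 F {0}ᶜ) :
    ContinuousOn (gradv F) {0}ᶜ := by
  have h1 : ContinuousOn (fderiv ℝ F) ({0}ᶜ : Set E3) :=
    hF.continuousOn_fderiv_of_isOpen isOpen_compl_singleton le_rfl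
  unfold gradv
  refine (PiLp.continuous_toLp 2 _).comp_continuousOn (continuousOn_pi.2 fun j => ?_)
  exact h1.clm_apply continuousOn_const

theorem LGI_cont_divv {X : E3 → E3} (hX : ContDiff ℝ 1 X) : Continuous (divv X) := by
  have h1 : Continuous (fderiv ℝ X) := hX.continuous_fderiv (by norm_num)
  unfold divv
  refine continuous_finsetSum _ fun i _ => ?_
  have h2 : Continuous fun y => fderiv ℝ X y (EuclideanSpace.single i 1) :=
    h1.clm_apply continuous_const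
  exact (PiLp.continuous_apply 2 _ i).comp h2

theorem LGI_divv_zero {X : E3 → E3} {y : E3} (h : y ∉ tsupport X) : divv X y = 0 := by
  have h1 : fderiv ℝ X y = 0 := by
    by_contra hne
    exact h (support_fderiv_subset ℝ (Function.mem_support.2 hne))
  simp [divv, h1]

theorem LGI_cpair_zero (A : M3) (b : E3) : cpair A 0 b = 0 := by
  simp [cpair]

/-- the difference of two values of the pairing -/
theorem LGI_cpair_sub (hBAS : Pool.Mart.Stmt_BAS) (A : M3) (H H' b : E3) (ε M : ℝ)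
    (hε : 0 ≤ ε) (hH : ‖H - H'‖ ≤ ε) (hb : ‖b‖ ≤ M) :
    ‖cpair A H b - cpair A H' b‖ ≤ ε * M * opn A ^ 2 := by
  obtain ⟨h1, -, h3, -, -, h6, -⟩ := hBAS
  rw [h3, h3, ← inner_sub_left]
  have h4 : ‖inner ℝ (H - H') (act (cofm A) b)‖ ≤ ‖H - H'‖ * ‖act (cofm A) b‖ :=
    norm_inner_le_norm _ _
  have h5 : ‖act (cofm A) b‖ ≤ opn (cofm A) * ‖b‖ := h1 _ _
  have h7 : opn (cofm A) ≤ opn A ^ 2 := h6 A
  have h8 : opn (cofm A) * ‖b‖ ≤ opn A ^ 2 * M :=
    mul_le_mul h7 hb (norm_nonneg _) (sq_nonneg _)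
  have h9 : ‖H - H'‖ * ‖act (cofm A) b‖ ≤ ε * (opn A ^ 2 * M) :=
    mul_le_mul hH (h5.trans h8) (norm_nonneg _) hε
  calc ‖inner ℝ (H - H') (act (cofm A) b)‖ ≤ ε * (opn A ^ 2 * M) := h4.trans h9
    _ = ε * M * opn A ^ 2 := by ring

theorem p_LGI (hLG1 : Stmt_LG1) (hWDEG : Stmt_WDEG) (hFSC : Stmt_FSC) (hWTS : Stmt_WTS)
    (hSHT : Stmt_SHT) (hLPI : Pool.Flat.Stmt_LPI) (hPIOI : Pool.Mart.Stmt_PIOI)
    (hBAS : Pool.Mart.Stmt_BAS) : Stmt_LGI := by
  intro φ ψ A x0 r0 ρ0 hBP F Z hF hFpos hZ hZc hZs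
  obtain ⟨-, -, hsph, -, hUD⟩ := hSHT φ ψ A x0 r0 ρ0 hBP
  obtain ⟨hUo, hVo, -, hFS⟩ := hFSC φ ψ A x0 r0 ρ0 hBP
  have hfc : ContinuousOn (fm φ ψ) ψ.source :=
    (Pool.Flat.p_FOP Pool.Flat.p_WOP φ ψ hBP.wm.src).1
  have hFc : ContinuousOn F {0}ᶜ := hF.continuousOn
  obtain ⟨-, -, -, hpos⟩ := hWTS φ ψ A x0 r0 ρ0 hBP F hFc hFpos
  have hF'c : ContinuousOn (fun x => F (x - x0)) (UD φ ψ x0 ρ0) := by
    refine hFc.comp (continuousOn_id.sub continuousOn_const) ?_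
    intro x hx hx0
    exact (hUD hx).2 (sub_eq_zero.1 hx0)
  have hFSc := hFS (fun x => F (x - x0)) hF'c
  -- the open set
  obtain ⟨V, hV⟩ : ∃ V : Set E3, V = {y | 0 < ‖y‖ ∧ ‖y‖ < ρ0} := ⟨_, rfl⟩
  have hVopen : IsOpen V := by
    rw [hV]
    exact (isOpen_lt continuous_const continuous_norm).inter
      (isOpen_lt continuous_norm continuous_const)
  obtain ⟨Q, hQ⟩ : ∃ Q : E3 → ℝ,
      Q = fun y => FS φ ψ (fun x => F (x - x0)) (y + fm φ ψ x0) := ⟨_, rfl⟩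
  have hQY : ∀ x, Q (fm φ ψ x - fm φ ψ x0) = FS φ ψ (fun x => F (x - x0)) (fm φ ψ x) := by
    intro x
    rw [hQ]
    simp only [sub_add_cancel]
  have hQc : ContinuousOn Q V := by
    rw [hQ]
    refine hFSc.comp (continuous_id.add continuous_const).continuousOn ?_
    intro y hy
    rw [hV] at hy
    change 0 < ‖y + fm φ ψ x0 - fm φ ψ x0‖ ∧ ‖y + fm φ ψ x0 - fm φ ψ x0‖ < ρ0
    rw [add_sub_cancel_right]
    exact hy
  have hQpos : ∀ y, 0 < Q y := by
    intro y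
    rw [hQ]
    exact hpos _
  rw [← hV] at hZs
  obtain ⟨C, X, hC, hCV, hX, hXu, hXl⟩ := hLG1 V Q Z hVopen hQc (fun y _ => hQpos y) hZ hZc hZs
  have hCn : ∀ y ∈ C, 0 < ‖y‖ ∧ ‖y‖ < ρ0 := by
    intro y hy
    have := hCV hy
    rw [hV] at this
    exact this
  have hX0 : ∀ n y, y ∉ C → X n y = 0 := fun n y hy =>
    image_eq_zero_of_notMem_tsupport (fun h => hy ((hX n).2.2 h))
  have hG0 : ∀ y, y ∉ C → (Q y)⁻¹ • Z y = 0 := by
    intro y hy
    have h1 : Tendsto (fun n => X n y) atTop (𝓝 ((Q y)⁻¹ • Z y)) := hXu.tendsto_at y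
    simp only [hX0 _ y hy] at h1
    exact tendsto_nhds_unique h1 tendsto_const_nhds
  -- the compact set
  obtain ⟨S, hS⟩ : ∃ S : Set E3,
      S = {x | x ∈ Metric.closedBall x0 r0 ∧ fm φ ψ x - fm φ ψ x0 ∈ C} := ⟨_, rfl⟩
  have hmemS : ∀ x, x ∈ S ↔ x ∈ Metric.closedBall x0 r0 ∧ fm φ ψ x - fm φ ψ x0 ∈ C := by
    intro x
    rw [hS]
    rfl
  have hfK : ContinuousOn (fm φ ψ) (Metric.closedBall x0 r0) := hfc.mono hBP.sub
  have hSc : IsCompact S := by
    have h1 : IsClosed (Metric.closedBall x0 r0 ∩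
        (fun x => fm φ ψ x - fm φ ψ x0) ⁻¹' C) :=
      (hfK.sub continuousOn_const).preimage_isClosed_of_isClosed Metric.isClosed_closedBall
        hC.isClosed
    rw [hS]
    exact (isCompact_closedBall x0 r0).of_isClosed_subset h1 inter_subset_left
  have hSb : S ⊆ Metric.ball x0 r0 := by
    intro x hx
    obtain ⟨hx1, hx2⟩ := (hmemS x).1 hx
    rw [Metric.mem_closedBall, dist_eq_norm] at hx1
    rw [Metric.mem_ball, dist_eq_norm]
    refine lt_of_le_of_ne hx1 fun he => ?_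
    exact lt_asymm (hsph x he) (hCn _ hx2).2
  have hSΩ : S ⊆ ψ.source := fun x hx => hBP.sub (Metric.ball_subset_closedBall (hSb hx))
  have hS0 : ∀ x ∈ S, x - x0 ∈ ({0}ᶜ : Set E3) := by
    intro x hx hx0
    have h1 : x = x0 := sub_eq_zero.1 hx0
    have h2 := (hCn _ ((hmemS x).1 hx).2).1
    rw [h1, sub_self, norm_zero] at h2
    exact lt_irrefl _ h2
  have hoff : ∀ x ∈ Metric.ball x0 r0 \ S, fm φ ψ x - fm φ ψ x0 ∉ C := by
    intro x hx h
    exact hx.2 ((hmemS x).2 ⟨Metric.ball_subset_closedBall hx.1, h⟩)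
  have hYc : ContinuousOn (fun x => fm φ ψ x - fm φ ψ x0) S :=
    (hfc.mono hSΩ).sub continuousOn_const
  have hYV : MapsTo (fun x => fm φ ψ x - fm φ ψ x0) S V := fun x hx =>
    hCV ((hmemS x).1 hx).2
  have hgc : ContinuousOn (fun x => gradv F (x - x0)) S :=
    (LGI_cont_gradv hF).comp (continuousOn_id.sub continuousOn_const) hS0
  have hGc : ContinuousOn (fun x => (Q (fm φ ψ x - fm φ ψ x0))⁻¹ •
      Z (fm φ ψ x - fm φ ψ x0)) S := by
    refine ContinuousOn.smul (ContinuousOn.inv₀ (hQc.comp hYc hYV) ?_)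
      (hZ.continuous.comp_continuousOn hYc)
    intro x _
    exact (hQpos _).ne'
  obtain ⟨-, -, hI2, hI4⟩ := hPIOI ψ.source (fm φ ψ) A ψ.open_source hfc hBP.wm.wg S hSc hSΩ
  have hIG := hI4 _ _ hGc hgc
  have hIX : ∀ n, IntegrableOn (fun x => cpair (A x) (X n (fm φ ψ x - fm φ ψ x0))
      (gradv F (x - x0))) S := fun n =>
    hI4 _ _ ((hX n).1.continuous.comp_continuousOn hYc) hgc
  have hbm : MeasurableSet (Metric.ball x0 r0) := Metric.isOpen_ball.measurableSet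
  have hzG : ∀ x ∈ Metric.ball x0 r0 \ S, cpair (A x) ((Q (fm φ ψ x - fm φ ψ x0))⁻¹ •
      Z (fm φ ψ x - fm φ ψ x0)) (gradv F (x - x0)) = 0 := by
    intro x hx
    rw [hG0 _ (hoff x hx), LGI_cpair_zero]
  have hzX : ∀ n, ∀ x ∈ Metric.ball x0 r0 \ S, cpair (A x) (X n (fm φ ψ x - fm φ ψ x0))
      (gradv F (x - x0)) = 0 := by
    intro n x hx
    rw [hX0 n _ (hoff x hx), LGI_cpair_zero]
  have hIGb := hIG.of_forall_sdiff_eq_zero hbm hzG
  -- the left sides converge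
  have hL1 : ∫ x in Metric.ball x0 r0, cpair (A x) ((Q (fm φ ψ x - fm φ ψ x0))⁻¹ •
      Z (fm φ ψ x - fm φ ψ x0)) (gradv F (x - x0)) =
      ∫ x in S, cpair (A x) ((Q (fm φ ψ x - fm φ ψ x0))⁻¹ •
      Z (fm φ ψ x - fm φ ψ x0)) (gradv F (x - x0)) :=
    setIntegral_eq_of_subset_of_forall_sdiff_eq_zero hbm hSb hzG
  have hL2 : ∀ n, ∫ x in Metric.ball x0 r0, cpair (A x) (X n (fm φ ψ x - fm φ ψ x0))
      (gradv F (x - x0)) =
      ∫ x in S, cpair (A x) (X n (fm φ ψ x - fm φ ψ x0)) (gradv F (x - x0)) := fun n =>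
    setIntegral_eq_of_subset_of_forall_sdiff_eq_zero hbm hSb (hzX n)
  obtain ⟨M, hM⟩ : ∃ M : ℝ, ∀ x ∈ S, ‖gradv F (x - x0)‖ ≤ M :=
    hSc.exists_bound_of_continuousOn hgc
  have hM' : ∀ x ∈ S, ‖gradv F (x - x0)‖ ≤ |M| := fun x hx => (hM x hx).trans (le_abs_self M)
  obtain ⟨J, hJ⟩ : ∃ J : ℝ, J = ∫ x in S, opn (A x) ^ 2 := ⟨_, rfl⟩
  have hJ0 : 0 ≤ J := by
    rw [hJ]
    exact integral_nonneg fun x => sq_nonneg _
  have hT1 : Tendsto (fun n => ∫ x in Metric.ball x0 r0,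
      cpair (A x) (X n (fm φ ψ x - fm φ ψ x0)) (gradv F (x - x0))) atTop
      (𝓝 (∫ x in Metric.ball x0 r0, cpair (A x) ((Q (fm φ ψ x - fm φ ψ x0))⁻¹ •
      Z (fm φ ψ x - fm φ ψ x0)) (gradv F (x - x0)))) := by
    rw [Metric.tendsto_atTop]
    intro ε hε
    have hden : 0 < |M| * J + 1 := by positivity
    have hε' : 0 < ε / (|M| * J + 1) := div_pos hε hden
    obtain ⟨N, hN⟩ := (Filter.eventually_atTop).1
      ((Metric.tendstoUniformly_iff.1 hXu) (ε / (|M| * J + 1)) hε')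
    refine ⟨N, fun n hn => ?_⟩
    rw [hL1, hL2 n, dist_eq_norm, ← integral_sub (hIX n) hIG]
    have h1 : ‖∫ x in S, (cpair (A x) (X n (fm φ ψ x - fm φ ψ x0)) (gradv F (x - x0)) -
        cpair (A x) ((Q (fm φ ψ x - fm φ ψ x0))⁻¹ •
        Z (fm φ ψ x - fm φ ψ x0)) (gradv F (x - x0)))‖ ≤
        ∫ x in S, ε / (|M| * J + 1) * |M| * opn (A x) ^ 2 := by
      refine norm_integral_le_of_norm_le (hI2.const_mul _) ?_
      refine (ae_restrict_iff' hSc.measurableSet).2 (Eventually.of_forall fun x hx => ?_)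
      refine LGI_cpair_sub hBAS (A x) _ _ _ _ _ hε'.le ?_ (hM' x hx)
      have h2 := hN n hn (fm φ ψ x - fm φ ψ x0)
      rw [dist_comm, dist_eq_norm] at h2
      exact h2.le
    rw [integral_const_mul, ← hJ] at h1
    have h3 : ε / (|M| * J + 1) * |M| * J < ε := by
      rw [div_mul_eq_mul_div, div_mul_eq_mul_div, div_lt_iff₀ hden]
      nlinarith
    exact lt_of_le_of_lt h1 h3
  -- the right sides
  have hR : ∀ n, ∫ x in Metric.ball x0 r0, cpair (A x) (X n (fm φ ψ x - fm φ ψ x0))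
      (gradv F (x - x0)) = - ∫ y, Q y * divv (X n) y := by
    intro n
    obtain ⟨hXn, hXnc, hXns⟩ := hX n
    have h1 := (hLPI ψ.source (fm φ ψ) A x0 r0 (X n) F ((fun y : E3 => ‖y‖) '' C)
      ψ.open_source hfc hBP.wm.wg hBP.rpos hBP.sub hXn hXnc (hC.image continuous_norm)
      (by
        rintro s ⟨y, hy, rfl⟩
        exact (hCn y hy).1)
      (fun y hy => ⟨y, hXns hy, rfl⟩)
      (by
        rintro x hx s ⟨y, hy, rfl⟩
        exact (hCn y hy).2.trans (hsph x hx))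
      hF).2
    rw [h1]
    congr 1
    -- the test function
    have hg1 : Continuous (fun y => divv (X n) (y - fm φ ψ x0)) :=
      (LGI_cont_divv hXn).comp (continuous_id.sub continuous_const)
    have hC' : IsCompact ((fun y => y + fm φ ψ x0) '' C) :=
      hC.image (continuous_id.add continuous_const)
    have hsupp : Function.support (fun y => divv (X n) (y - fm φ ψ x0)) ⊆
        (fun y => y + fm φ ψ x0) '' C := by
      intro y hy
      refine ⟨y - fm φ ψ x0, ?_, sub_add_cancel _ _⟩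
      by_contra h
      exact hy (LGI_divv_zero fun h' => h (hXns h'))
    have hg2 : HasCompactSupport (fun y => divv (X n) (y - fm φ ψ x0)) :=
      HasCompactSupport.of_support_subset_isCompact hC' hsupp
    have hg3 : tsupport (fun y => divv (X n) (y - fm φ ψ x0)) ⊆ VD φ ψ x0 ρ0 := by
      refine (closure_minimal hsupp hC'.isClosed).trans ?_
      rintro _ ⟨y, hy, rfl⟩
      change 0 < ‖y + fm φ ψ x0 - fm φ ψ x0‖ ∧ ‖y + fm φ ψ x0 - fm φ ψ x0‖ < ρ0
      rw [add_sub_cancel_right]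
      exact hCn y hy
    have h2 := (hWDEG φ ψ A x0 r0 ρ0 hBP (fun x => F (x - x0))
      (fun y => divv (X n) (y - fm φ ψ x0)) hF'c hg1 hg2 hg3).2.2
    have h3 : ∫ x in Metric.ball x0 r0, F (x - x0) * ((A x).det *
        divv (X n) (fm φ ψ x - fm φ ψ x0)) =
        ∫ x in Metric.ball x0 r0, (A x).det * (F (x - x0) *
        divv (X n) (fm φ ψ x - fm φ ψ x0)) := by
      refine integral_congr_ae (Eventually.of_forall fun x => ?_)
      change F (x - x0) * ((A x).det * divv (X n) (fm φ ψ x - fm φ ψ x0)) =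
        (A x).det * (F (x - x0) * divv (X n) (fm φ ψ x - fm φ ψ x0))
      ring
    rw [h3]
    refine h2.trans ?_
    have h4 := integral_add_right_eq_self (μ := (volume : Measure E3))
      (fun y => FS φ ψ (fun x => F (x - x0)) y * divv (X n) (y - fm φ ψ x0)) (fm φ ψ x0)
    rw [← h4]
    refine integral_congr_ae (Eventually.of_forall fun y => ?_)
    rw [hQ]
    simp only [add_sub_cancel_right]
  have hT2 : Tendsto (fun n => ∫ x in Metric.ball x0 r0,
      cpair (A x) (X n (fm φ ψ x - fm φ ψ x0)) (gradv F (x - x0))) atTop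
      (𝓝 (- ∫ y, Real.log (Q y) * divv Z y)) := by
    simp only [hR]
    exact hXl.neg
  have hfin := tendsto_nhds_unique hT1 hT2
  simp only [hQY] at hIGb hfin
  refine ⟨hIGb, ?_⟩
  rw [hfin, hQ]

end Pool.SQ
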