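import Pool.Agent.Work.MP_680515_sq.Interface

/-!
# MP_680515_an, THEOREM SQ: block MAT
-/

set_option autoImplicit false

open MeasureTheory Set Filter Topology

namespace Pool.SQ

open Pool.Mart Pool.Flat

theorem MAT_act_smul (c : ℝ) (M : M3) (v : E3) : act (c • M) v = c • act M v := by
  unfold Pool.Mart.act
  rw [Matrix.smul_mulVec]
  rfl

theorem MAT_cofm_smul (c : ℝ) (M : M3) : cofm (c • M) = c ^ 2 • cofm M := by
  unfold Pool.Mart.cofm
  rw [Matrix.adjugate_smul, Matrix.transpose_smul]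
  simp

theorem MAT_det_cofm (A : M3) : (cofm A).det = A.det ^ 2 := by
  unfold Pool.Mart.cofm
  rw [Matrix.det_transpose, Matrix.det_adjugate]
  simp

theorem MAT_opn_nonneg (M : M3) : 0 ≤ opn M := norm_nonneg _

theorem MAT_inner_le (u v : E3) (hu : ‖u‖ = 1) : inner ℝ u v ≤ ‖v‖ := by
  have h := real_inner_le_norm u v
  rwa [hu, one_mul] at h

theorem p_MAT (h1 : Stmt_CON) (h2 : Pool.Mart.Stmt_BAS) : Stmt_MAT := by
  obtain ⟨hb1, hb2, -, hb4, -, hb6, hb7⟩ := h2
  intro A b u _ hJ hb hu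
  have hN0 : 0 ≤ opn (cofm A) := MAT_opn_nonneg _
  have hbb : inner ℝ b b = (1 : ℝ) := by
    rw [real_inner_self_eq_norm_sq, hb, one_pow]
  have hN : 0 < opn (cofm A) := by
    rcases hN0.lt_or_eq with h | h
    · exact h
    · exfalso
      have h3 := hb1 (cofm A) b
      rw [← h, zero_mul] at h3
      have h4 : act (cofm A) b = 0 := norm_le_zero_iff.1 h3
      have h5 := hb4 A b b
      rw [h4, inner_zero_right, hbb, mul_one] at h5
      linarith
  set N := opn (cofm A) with hNd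
  set J := A.det with hJd
  have hBb : ‖act (cofm A) b‖ ≤ N := by
    have h := hb1 (cofm A) b
    rwa [hb, mul_one] at h
  have hCb : ‖act (cofm (cofm A)) b‖ ≤ N ^ 2 := by
    have h := hb1 (cofm (cofm A)) b
    rw [hb, mul_one] at h
    exact h.trans (hb6 (cofm A))
  have hdet : J ^ 2 ≤ N ^ 3 := by
    have h := hb4 (cofm A) b b
    rw [hbb, mul_one, MAT_det_cofm] at h
    rw [← h]
    calc inner ℝ (act (cofm A) b) (act (cofm (cofm A)) b)
        ≤ ‖act (cofm A) b‖ * ‖act (cofm (cofm A)) b‖ := real_inner_le_norm _ _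
      _ ≤ N * N ^ 2 := mul_le_mul hBb hCb (norm_nonneg _) hN0
      _ = N ^ 3 := by ring
  have hC : act (cofm (cofm A)) b = J • act A b := by
    rw [hb7, MAT_act_smul]
  have h4 : J * inner ℝ u (act A b) ≤ N ^ 2 := by
    have h := (MAT_inner_le u _ hu).trans hCb
    rwa [hC, inner_smul_right] at h
  refine ⟨hN, hdet, (MAT_inner_le u _ hu).trans hBb, h4, ?_⟩
  -- the contraction
  have hM1 : opn (N⁻¹ • cofm A) ≤ 1 := by
    refine hb2 _ 1 zero_le_one fun v => ?_
    rw [MAT_act_smul, norm_smul, norm_inv, Real.norm_of_nonneg hN0, one_mul, inv_mul_le_iff₀ hN]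
    exact hb1 (cofm A) v
  have hcof : act (cofm (N⁻¹ • cofm A)) b = (N⁻¹ ^ 2 * J) • act A b := by
    rw [MAT_cofm_smul, MAT_act_smul, hC, smul_smul]
  have hdM : (N⁻¹ • cofm A).det = J ^ 2 / N ^ 3 := by
    rw [Matrix.det_smul, MAT_det_cofm]
    simp only [Fintype.card_fin]
    rw [← hJd]
    field_simp
  have h5 := h1 (N⁻¹ • cofm A) b hM1 hb
  have h6 := hb4 (N⁻¹ • cofm A) b b
  rw [hbb, mul_one] at h6
  have hd0 : 0 ≤ (N⁻¹ • cofm A).det := by
    rw [hdM]
    positivity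
  have h7 : ‖act (N⁻¹ • cofm A) b + act (cofm (N⁻¹ • cofm A)) b‖ ^ 2 ≤ (1 + (N⁻¹ • cofm A).det) ^ 2 := by
    rw [norm_add_sq_real, h6]
    nlinarith
  have h8 : ‖act (N⁻¹ • cofm A) b + act (cofm (N⁻¹ • cofm A)) b‖ ≤ 1 + (N⁻¹ • cofm A).det :=
    le_of_sq_le_sq h7 (by linarith)
  have h9 := (MAT_inner_le u _ hu).trans h8
  rw [inner_add_right, hcof, hdM, MAT_act_smul, inner_smul_right, inner_smul_right] at h9
  have e1 : inner ℝ u (act (cofm A) b) / N + J * inner ℝ u (act A b) / N ^ 2 =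
      N⁻¹ * inner ℝ u (act (cofm A) b) + N⁻¹ ^ 2 * J * inner ℝ u (act A b) := by
    field_simp
  rw [e1]
  exact h9

end Pool.SQ
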