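import Pool.Agent.Work.MP_680515_sq.Interface

/-!
# MP_680515_an, THEOREM SQ, block NUM
-/

open MeasureTheory Set Filter Topology

namespace Pool.SQ

open Pool.Mart Pool.Flat

theorem NUM_poly (t : ℝ) (h0 : 0 ≤ t) (h1 : t ≤ 1) :
    1 ≤ (5947 / 10000 + 223 / 1000 * t + 1824 / 10000 * t ^ 2) ^ 4 * (2 - t) ^ 3 := by
  obtain ⟨r, hr, hrt⟩ : ∃ r : ℝ, 0 ≤ r ∧ r = 1 - t := ⟨1 - t, by linarith, rfl⟩
  have key : (5947 / 10000 + 223 / 1000 * t + 1824 / 10000 * t ^ 2) ^ 4 * (2 - t) ^ 3 - 1 =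
      (6489430739848 * t ^ 0 * r ^ 11 +
        70542432485836 * t ^ 1 * r ^ 10 +
        6058394542551750 * t ^ 2 * r ^ 9 +
        47270702741615713 * t ^ 3 * r ^ 8 +
        167193156804981384 * t ^ 4 * r ^ 7 +
        341558952987062804 * t ^ 5 * r ^ 6 +
        437780301327534004 * t ^ 6 * r ^ 5 +
        358807572912893382 * t ^ 7 * r ^ 4 +
        182784756808225856 * t ^ 8 * r ^ 3 +
        52637212565807032 * t ^ 9 * r ^ 2 +
        6536954095176502 * t ^ 10 * r ^ 1 +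
        4000600040001 * t ^ 11 * r ^ 0) / 10000000000000000 := by
    rw [hrt]
    ring
  have hpos : 0 ≤ (6489430739848 * t ^ 0 * r ^ 11 +
        70542432485836 * t ^ 1 * r ^ 10 +
        6058394542551750 * t ^ 2 * r ^ 9 +
        47270702741615713 * t ^ 3 * r ^ 8 +
        167193156804981384 * t ^ 4 * r ^ 7 +
        341558952987062804 * t ^ 5 * r ^ 6 +
        437780301327534004 * t ^ 6 * r ^ 5 +
        358807572912893382 * t ^ 7 * r ^ 4 +
        182784756808225856 * t ^ 8 * r ^ 3 +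
        52637212565807032 * t ^ 9 * r ^ 2 +
        6536954095176502 * t ^ 10 * r ^ 1 +
        4000600040001 * t ^ 11 * r ^ 0) / (10000000000000000 : ℝ) := by
    positivity
  linarith

theorem NUM_pt (t : ℝ) (h0 : 0 < t) (h1 : t ≤ 1) :
    (2 - t) ^ (-(3 / 4) : ℝ) ≤ 5947 / 10000 + 223 / 1000 * t + 1824 / 10000 * t ^ 2 := by
  have h2 : 0 < 2 - t := by linarith
  have hp : 0 ≤ 5947 / 10000 + 223 / 1000 * t + 1824 / 10000 * t ^ 2 := by positivity
  have hz : 0 ≤ (2 - t) ^ (-(3 / 4) : ℝ) := Real.rpow_nonneg h2.le _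
  rw [← pow_le_pow_iff_left₀ hz hp (by norm_num : (4 : ℕ) ≠ 0)]
  have hz4 : ((2 - t) ^ (-(3 / 4) : ℝ)) ^ 4 * (2 - t) ^ 3 = 1 := by
    rw [← Real.rpow_natCast ((2 - t) ^ (-(3 / 4) : ℝ)) 4, ← Real.rpow_mul h2.le,
      ← Real.rpow_natCast (2 - t) 3, ← Real.rpow_add h2]
    norm_num
  have h3 := NUM_poly t h0.le h1
  rw [← hz4] at h3
  exact le_of_mul_le_mul_right h3 (by positivity)

theorem NUM_g (t : ℝ) (h0 : 0 < t) :
    5947 / 10000 * t ^ (-(3 / 4) : ℝ) + 223 / 1000 * t ^ (1 / 4 : ℝ) +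
      1824 / 10000 * t ^ (5 / 4 : ℝ) =
    t ^ (-(3 / 4) : ℝ) * (5947 / 10000 + 223 / 1000 * t + 1824 / 10000 * t ^ 2) := by
  have e1 : t ^ (1 / 4 : ℝ) = t ^ (-(3 / 4) : ℝ) * t := by
    conv_rhs => rw [← Real.rpow_one t, ← Real.rpow_mul h0.le, ← Real.rpow_add h0]
    norm_num
  have e2 : t ^ (5 / 4 : ℝ) = t ^ (-(3 / 4) : ℝ) * t ^ 2 := by
    rw [← Real.rpow_natCast t 2, ← Real.rpow_add h0]
    norm_num
  rw [e1, e2]
  ring

theorem NUM_int : ∫ t in (0 : ℝ)..1, (5947 / 10000 * t ^ (-(3 / 4) : ℝ) +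
    223 / 1000 * t ^ (1 / 4 : ℝ) + 1824 / 10000 * t ^ (5 / 4 : ℝ)) ≤ 264 / 100 := by
  have i1 : IntervalIntegrable (fun t : ℝ => 5947 / 10000 * t ^ (-(3 / 4) : ℝ)) volume 0 1 :=
    (intervalIntegral.intervalIntegrable_rpow' (by norm_num)).const_mul _
  have i2 : IntervalIntegrable (fun t : ℝ => 223 / 1000 * t ^ (1 / 4 : ℝ)) volume 0 1 :=
    (intervalIntegral.intervalIntegrable_rpow' (by norm_num)).const_mul _
  have i3 : IntervalIntegrable (fun t : ℝ => 1824 / 10000 * t ^ (5 / 4 : ℝ)) volume 0 1 :=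
    (intervalIntegral.intervalIntegrable_rpow' (by norm_num)).const_mul _
  rw [intervalIntegral.integral_add (i1.add i2) i3, intervalIntegral.integral_add i1 i2,
    intervalIntegral.integral_const_mul, intervalIntegral.integral_const_mul,
    intervalIntegral.integral_const_mul, integral_rpow (Or.inl (by norm_num)),
    integral_rpow (Or.inl (by norm_num)), integral_rpow (Or.inl (by norm_num))]
  norm_num

theorem NUM_half (hf : IntervalIntegrable (fun u : ℝ => (1 - u ^ 2) ^ (-(3 / 4) : ℝ)) volume 0 1) :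
    ∫ u in (0 : ℝ)..1, (1 - u ^ 2) ^ (-(3 / 4) : ℝ) ≤ 264 / 100 := by
  have e1 : ∫ t in (0 : ℝ)..1, (fun u : ℝ => (1 - u ^ 2) ^ (-(3 / 4) : ℝ)) (1 - t) =
      ∫ u in (0 : ℝ)..1, (1 - u ^ 2) ^ (-(3 / 4) : ℝ) := by
    have h := intervalIntegral.integral_comp_sub_left (a := (0 : ℝ)) (b := 1)
      (fun u : ℝ => (1 - u ^ 2) ^ (-(3 / 4) : ℝ)) 1
    simp only [sub_zero, sub_self] at h
    exact h
  rw [← e1]
  refine le_trans ?_ NUM_int
  have i1 : IntervalIntegrable (fun t : ℝ => 5947 / 10000 * t ^ (-(3 / 4) : ℝ)) volume 0 1 :=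
    (intervalIntegral.intervalIntegrable_rpow' (by norm_num)).const_mul _
  have i2 : IntervalIntegrable (fun t : ℝ => 223 / 1000 * t ^ (1 / 4 : ℝ)) volume 0 1 :=
    (intervalIntegral.intervalIntegrable_rpow' (by norm_num)).const_mul _
  have i3 : IntervalIntegrable (fun t : ℝ => 1824 / 10000 * t ^ (5 / 4 : ℝ)) volume 0 1 :=
    (intervalIntegral.intervalIntegrable_rpow' (by norm_num)).const_mul _
  refine intervalIntegral.integral_mono_on_of_le_Ioo zero_le_one ?_ ((i1.add i2).add i3) ?_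
  · have := (hf.comp_sub_left 1).symm
    simpa using this
  · intro t ht
    have ht0 : 0 < t := ht.1
    have ht1 : t < 1 := ht.2
    have h2 : 0 ≤ 2 - t := by linarith
    change (1 - (1 - t) ^ 2) ^ (-(3 / 4) : ℝ) ≤ _
    have e2 : 1 - (1 - t) ^ 2 = t * (2 - t) := by ring
    rw [e2, Real.mul_rpow ht0.le h2, NUM_g t ht0]
    exact mul_le_mul_of_nonneg_left (NUM_pt t ht0 ht1.le) (Real.rpow_nonneg ht0.le _)

theorem p_NUM (hI0X : Pool.Flat.Stmt_I0X) : Stmt_NUM := by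
  have hI := hI0X.1
  have hint : IntervalIntegrable (fun u : ℝ => (1 - u ^ 2) ^ (-(3 / 4) : ℝ)) volume (-1) 1 := by
    rw [intervalIntegrable_iff_integrableOn_Ioo_of_le (by norm_num)]
    exact hI
  have hR : IntervalIntegrable (fun u : ℝ => (1 - u ^ 2) ^ (-(3 / 4) : ℝ)) volume 0 1 := by
    refine hint.mono_set ?_
    rw [uIcc_of_le (by norm_num), uIcc_of_le (by norm_num)]
    exact Icc_subset_Icc (by norm_num) le_rfl
  have hL : IntervalIntegrable (fun u : ℝ => (1 - u ^ 2) ^ (-(3 / 4) : ℝ)) volume (-1) 0 := by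
    refine hint.mono_set ?_
    rw [uIcc_of_le (by norm_num), uIcc_of_le (by norm_num)]
    exact Icc_subset_Icc le_rfl (by norm_num)
  have e1 : ∫ u in (-1 : ℝ)..0, (1 - u ^ 2) ^ (-(3 / 4) : ℝ) =
      ∫ u in (0 : ℝ)..1, (1 - u ^ 2) ^ (-(3 / 4) : ℝ) := by
    have h := intervalIntegral.integral_comp_neg (a := (-1 : ℝ)) (b := 0)
      (fun u : ℝ => (1 - u ^ 2) ^ (-(3 / 4) : ℝ))
    simp only [neg_sq, neg_zero, neg_neg] at h
    exact h
  have h2 := NUM_half hR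
  show I0 ≤ 528 / 100
  unfold I0
  rw [← intervalIntegral.integral_add_adjacent_intervals hL hR, e1]
  linarith

end Pool.SQ
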