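import Pool.Agent.Work.MP_680515_sq.Interface

/-!
# MP_680515_an, THEOREM SQ, block PWI
-/

open MeasureTheory Set Filter Topology

namespace Pool.SQ

open Pool.Mart Pool.Flat

theorem PWI_act_smul (A : M3) (c : ℝ) (v : E3) : act A (c • v) = c • act A v := by
  unfold act
  rw [WithLp.ofLp_smul, Matrix.mulVec_smul, WithLp.toLp_smul]

theorem PWI_opn_nonneg (A : M3) : 0 ≤ opn A := norm_nonneg _

theorem PWI_unit {X : E3} (hX : X ≠ 0) : ‖(‖X‖⁻¹ • X : E3)‖ = 1 := by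
  rw [norm_smul, norm_inv, norm_norm, inv_mul_cancel₀ (norm_ne_zero_iff.2 hX)]

/-- the algebra -/
theorem PWI_alg (x y J N P R q w C : ℝ) (hx : 0 < x) (hy : 0 < y) (hJ : 0 < J) (hN : 0 < N) :
    (x ^ 3)⁻¹ - 1 / 2 * ((y ^ 2)⁻¹ * P / x) - 574 / 1000 * (y * (x * R) / (x ^ 3 * y ^ 2))
      - w * q * N / (y ^ 2 * x) + J * (y ^ 3)⁻¹ * ((1 - w) * (307 / 1000) + w * C) =
    J / y ^ 3 * ((1 - w) * (J ^ 2 / N ^ 3 * (y * N / (x * J)) ^ 3 - P / N * (y * N / (x * J)) / 2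
        - 574 / 1000 * (J * R / N ^ 2) * (y * N / (x * J)) ^ 2 + 307 / 1000) +
      w * (J ^ 2 / N ^ 3 * (y * N / (x * J)) ^ 3 - P / N * (y * N / (x * J)) / 2
        - 574 / 1000 * (J * R / N ^ 2) * (y * N / (x * J)) ^ 2 - q * (y * N / (x * J)) + C)) := by
  field_simp
  ring

theorem p_PWI (hPWR : Stmt_PWR) (hMAT : Stmt_MAT) (hBAS : Pool.Mart.Stmt_BAS) : Stmt_PWI := by
  obtain ⟨hB1, -, hB3, -, -, -, -⟩ := hBAS
  intro A X Y q w hG hK hX hY hq hw0 hw1
  have hx : 0 < ‖X‖ := norm_pos_iff.2 hX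
  have hy : 0 < ‖Y‖ := norm_pos_iff.2 hY
  have hJ0 : 0 ≤ A.det := by
    have h1 := hG.2
    have h2 : 0 ≤ opn A ^ 3 := pow_nonneg (PWI_opn_nonneg A) 3
    linarith
  rcases hJ0.eq_or_lt with hJ | hJ
  · -- `det A = 0`
    have hA0 : opn A = 0 := by
      have h1 := hG.2
      rw [← hJ, mul_zero] at h1
      have h2 : opn A ^ 3 = 0 := le_antisymm h1 (pow_nonneg (PWI_opn_nonneg A) 3)
      exact pow_eq_zero_iff (by norm_num) |>.1 h2
    have hC0 : opn (cofm A) = 0 := by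
      have h1 := hK
      rw [← hJ] at h1
      have h2 : opn (cofm A) ^ 3 = 0 :=
        le_antisymm (by simpa using h1) (pow_nonneg (PWI_opn_nonneg _) 3)
      exact pow_eq_zero_iff (by norm_num) |>.1 h2
    have e1 : act A X = 0 := by
      have := hB1 A X
      rw [hA0, zero_mul] at this
      exact norm_le_zero_iff.1 this
    have e2 : fx A X Y = 0 := by
      unfold fx
      rw [hB3]
      have := hB1 (cofm A) (‖X‖⁻¹ • X)
      rw [hC0, zero_mul] at this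
      rw [norm_le_zero_iff.1 this, inner_zero_right]
    rw [e1, e2, hC0, ← hJ, inner_zero_right]
    simp only [zero_div, mul_zero, sub_zero, zero_mul, add_zero]
    positivity
  · obtain ⟨hN, h1, h2, h3, h4⟩ := hMAT A (‖X‖⁻¹ • X) (‖Y‖⁻¹ • Y) hG hJ (PWI_unit hX) (PWI_unit hY)
    set N := opn (cofm A) with hNdef
    set J := A.det with hJdef
    set P := inner ℝ (‖Y‖⁻¹ • Y) (act (cofm A) (‖X‖⁻¹ • X)) with hP
    set R := inner ℝ (‖Y‖⁻¹ • Y) (act A (‖X‖⁻¹ • X)) with hR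
    have e1 : fx A X Y = (‖Y‖ ^ 2)⁻¹ * P := by
      unfold fx
      rw [hB3, hP, real_inner_smul_left, real_inner_smul_left, ← mul_assoc]
      congr 1
      field_simp
    have e2 : inner ℝ Y (act A X) = ‖Y‖ * (‖X‖ * R) := by
      rw [hR, PWI_act_smul, real_inner_smul_left, real_inner_smul_right]
      field_simp
    rw [e1, e2, PWI_alg ‖X‖ ‖Y‖ J N P R q w (Ch q) hx hy hJ hN]
    have hd1 : 200 / 283 ≤ J ^ 2 / N ^ 3 := by
      rw [div_le_div_iff₀ (by norm_num) (by positivity)]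
      linarith
    have hd2 : J ^ 2 / N ^ 3 ≤ 1 := by
      rw [div_le_one (by positivity)]
      exact h1
    have ha : P / N ≤ 1 := by
      rw [div_le_one hN]
      exact h2
    have hc : J * R / N ^ 2 ≤ 1 := by
      rw [div_le_one (by positivity)]
      exact h3
    obtain ⟨k1, k2⟩ := hPWR (P / N) (J * R / N ^ 2) (J ^ 2 / N ^ 3) (‖Y‖ * N / (‖X‖ * J)) q
      (by positivity) hq ha hc h4 hd1 hd2
    refine mul_nonneg (by positivity) (add_nonneg (mul_nonneg (by linarith) k1) (mul_nonneg hw0 k2))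

end Pool.SQ
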