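import Pool.Agent.Work.MP_680515_sq.Interface

/-!
# MP_680515_an, THEOREM SQ, block PWR
-/

open MeasureTheory Set Filter Topology

namespace Pool.SQ

/-- The linear programme. -/
theorem PWR_core (a c d D R : ℝ) (hD : 0 ≤ D) (ha : a ≤ 1) (hc : c ≤ 1) (hac : a + c ≤ 1 + d)
    (hd : 200 / 283 ≤ d) (hd1 : d ≤ 1)
    (hA : 0 ≤ 200 / 283 * D ^ 3 - D / 2 - 574 / 1000 * (200 / 283) * D ^ 2 + R)
    (hB : 0 ≤ 200 / 283 * D ^ 3 - 200 / 283 * D / 2 - 574 / 1000 * D ^ 2 + R)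
    (hC : 0 ≤ D ^ 3 - D / 2 - 574 / 1000 * D ^ 2 + R) :
    0 ≤ d * D ^ 3 - a * D / 2 - 574 / 1000 * c * D ^ 2 + R := by
  have h3 : 0 ≤ D ^ 3 := pow_nonneg hD 3
  have h2 : 0 ≤ D ^ 2 := pow_nonneg hD 2
  obtain ⟨t, ht, ht1, rfl⟩ : ∃ t : ℝ, 0 ≤ t ∧ t ≤ 1 ∧ d = 200 / 283 + t * (83 / 283) :=
    ⟨(d - 200 / 283) * (283 / 83), by linarith, by linarith, by ring⟩
  rcases le_total (574 / 1000 * D ^ 2) (D / 2) with h | h
  · have e1 : a * D / 2 + 574 / 1000 * c * D ^ 2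
        ≤ D / 2 + (200 / 283 + t * (83 / 283)) * (574 / 1000 * D ^ 2) := by
      nlinarith [mul_nonneg (sub_nonneg.2 ha) (sub_nonneg.2 h),
        mul_nonneg (sub_nonneg.2 hac) h2]
    nlinarith [mul_nonneg ht hC, mul_nonneg (sub_nonneg.2 ht1) hA]
  · have e1 : a * D / 2 + 574 / 1000 * c * D ^ 2
        ≤ (200 / 283 + t * (83 / 283)) * (D / 2) + 574 / 1000 * D ^ 2 := by
      nlinarith [mul_nonneg (sub_nonneg.2 hc) (sub_nonneg.2 h),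
        mul_nonneg (sub_nonneg.2 hac) hD]
    nlinarith [mul_nonneg ht hC, mul_nonneg (sub_nonneg.2 ht1) hB]

theorem p_PWR (hCUB : Stmt_CUB) : Stmt_PWR := by
  intro a c d D q hD hq ha hc hac hd hd1
  obtain ⟨⟨h1, h2, h3⟩, h4⟩ := hCUB D hD
  obtain ⟨h5, h6, h7⟩ := h4 q hq
  refine ⟨PWR_core a c d D _ hD ha hc hac hd hd1 h1 h2 h3, ?_⟩
  have h := PWR_core a c d D (Ch q - q * D) hD ha hc hac hd hd1 (by linarith) (by linarith)
    (by linarith)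
  linarith

end Pool.SQ
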