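import Pool.Agent.Work.MP_680515_sq.Interface

/-! # Block SHT: the two sheets -/

open MeasureTheory Set Filter Topology

set_option autoImplicit false

namespace Pool.SQ

open Pool.Mart Pool.Flat

theorem SHT_sg (y : E3) : sg (sg y) = y := by
  ext i
  fin_cases i <;> simp [sg]

theorem SHT_ws (hWOP : Stmt_WOP) (y : E3) : wind (ws y) = y :=
  Classical.epsilon_spec (p := fun y' : E3 => wind y' = y) (hWOP.2.2.1 y)

theorem p_SHT (hWOP : Stmt_WOP) : Stmt_SHT := by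
  intro φ ψ A x0 r0 ρ0 h
  have hws := SHT_ws hWOP
  obtain ⟨-, -, w3, w4, w5, w6, w7, w8, -⟩ := hWOP
  have hfs : ∀ x ∈ ψ.source, φ.symm (fm φ ψ x) = wind (ψ x) := fun x hx =>
    φ.left_inv (h.wm.src x hx)
  have h1 : ∀ x ∈ ψ.source, ‖fm φ ψ x - fm φ ψ x0‖ ≤ ρ0 → sx ψ x ∈ ψ.source ∧
      ψ (sx ψ x) = sg (ψ x) ∧ fm φ ψ (sx ψ x) = fm φ ψ x ∧ sx ψ (sx ψ x) = x ∧
      (∀ x' ∈ ψ.source, fm φ ψ x' = fm φ ψ x → x' = x ∨ x' = sx ψ x) ∧
      (∀ h : E3 → ℝ, FS φ ψ h (fm φ ψ x) = h x + h (sx ψ x)) := by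
    intro x hx hxρ
    have a1 : sg (ψ x) ∈ ψ.target := by
      apply h.pre
      refine ⟨fm φ ψ x, ?_, ?_⟩
      · rw [mem_closedBall_iff_norm]
        exact hxρ
      · rw [hfs x hx, w4]
    have a2 : sx ψ x ∈ ψ.source := ψ.map_target a1
    have a3 : ψ (sx ψ x) = sg (ψ x) := ψ.right_inv a1
    have a4 : fm φ ψ (sx ψ x) = fm φ ψ x := by
      unfold fm
      rw [a3, w4]
    have a5 : sx ψ (sx ψ x) = x := by
      have : sx ψ (sx ψ x) = ψ.symm (sg (ψ (sx ψ x))) := rfl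
      rw [this, a3, SHT_sg]
      exact ψ.left_inv hx
    refine ⟨a2, a3, a4, a5, ?_, ?_⟩
    · intro x' hx' hxx
      have b1 : wind (ψ x') = wind (ψ x) :=
        φ.injOn (h.wm.src x' hx') (h.wm.src x hx) hxx
      rcases w5 _ _ b1.symm with b2 | b2
      · exact Or.inl (ψ.injOn hx' hx b2)
      · refine Or.inr ?_
        have : x' = ψ.symm (ψ x') := (ψ.left_inv hx').symm
        rw [this, b2]
        rfl
    · intro g
      unfold FS
      rw [hfs x hx]
      have b1 : wind (ψ x) = wind (ws (wind (ψ x))) := (hws _).symm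
      rcases w5 _ _ b1 with b2 | b2
      · rw [b2, ψ.left_inv hx]
      · rw [b2]
        have b3 : ψ.symm (sg (ψ x)) = sx ψ x := rfl
        rw [b3, a5, add_comm]
  have hx0 := h.xS
  have h00 : ‖fm φ ψ x0 - fm φ ψ x0‖ ≤ ρ0 := by
    rw [sub_self, norm_zero]
    exact h.ρpos.le
  refine ⟨h1, ?_, ?_, ?_, ?_⟩
  · intro y hy
    have hyb : y ∈ Metric.closedBall (fm φ ψ x0) ρ0 := by
      rw [mem_closedBall_iff_norm]
      exact hy
    have hyt := h.tgt hyb
    have b1 : ws (φ.symm y) ∈ ψ.target := h.pre ⟨y, hyb, (hws _).symm⟩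
    refine ⟨ψ.symm (ws (φ.symm y)), ψ.map_target b1, ?_⟩
    unfold fm
    rw [ψ.right_inv b1, hws, φ.right_inv hyt]
  · intro x hx
    by_contra hcon
    push Not at hcon
    have b1 : x ∈ ψ.source := h.sub (by rw [mem_closedBall_iff_norm]; exact hx.le)
    have b2 := h.shr x b1 hcon
    rw [hx] at b2
    exact lt_irrefl _ b2
  · intro x hx hxx
    obtain ⟨-, -, -, -, b1, -⟩ := h1 x0 hx0.1 h00
    rcases b1 x hx hxx with b2 | b2
    · exact b2
    · rw [b2]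
      have b3 : sx ψ x0 = ψ.symm (sg (ψ x0)) := rfl
      rw [b3, (w8 _).2 hx0.2]
      exact ψ.left_inv hx0.1
  · rintro x ⟨hx, hx1, hx2⟩
    refine ⟨?_, ?_⟩
    · rw [mem_ball_iff_norm]
      exact h.shr x hx hx2.le
    · intro hxx
      have b1 : x = x0 := hxx
      rw [b1, sub_self, norm_zero] at hx1
      exact lt_irrefl _ hx1

end Pool.SQ
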