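import Pool.Agent.Work.MP_680515_sq.Interface

/-!
# MP_680515_an, THEOREM SQ: block TRZ (a trapezoid)
-/

open MeasureTheory Set Filter Topology

namespace Pool.SQ

open Pool.Mart Pool.Flat

/-- The trapezoid. -/
noncomputable def TRZ_k (a b c d s : ℝ) : ℝ :=
  Real.smoothTransition ((s - a) / (b - a)) * Real.smoothTransition ((d - s) / (d - c))

theorem TRZ_contDiff (a b c d : ℝ) : ContDiff ℝ 1 (TRZ_k a b c d) := by
  unfold TRZ_k
  refine ContDiff.mul ?_ ?_
  · exact Real.smoothTransition.contDiff.comp (by fun_prop)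
  · exact Real.smoothTransition.contDiff.comp (by fun_prop)

theorem TRZ_range (a b c d s : ℝ) : 0 ≤ TRZ_k a b c d s ∧ TRZ_k a b c d s ≤ 1 :=
  ⟨mul_nonneg (Real.smoothTransition.nonneg _) (Real.smoothTransition.nonneg _),
    mul_le_one₀ (Real.smoothTransition.le_one _) (Real.smoothTransition.nonneg _)
      (Real.smoothTransition.le_one _)⟩

theorem TRZ_supp {a b c d s : ℝ} (hab : a < b) (hcd : c < d) (hs : s ∉ Icc a d) :
    TRZ_k a b c d s = 0 := by
  unfold TRZ_k
  rw [mem_Icc, not_and_or, not_le, not_le] at hs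
  rcases hs with hs | hs
  · rw [Real.smoothTransition.zero_of_nonpos, zero_mul]
    exact div_nonpos_of_nonpos_of_nonneg (by linarith) (by linarith)
  · rw [Real.smoothTransition.zero_of_nonpos (x := (d - s) / (d - c)), mul_zero]
    exact div_nonpos_of_nonpos_of_nonneg (by linarith) (by linarith)

theorem TRZ_left {a b c d s : ℝ} (hcd : c < d) (hs : s ≤ c) :
    TRZ_k a b c d s = Real.smoothTransition ((s - a) / (b - a)) := by
  unfold TRZ_k
  rw [Real.smoothTransition.one_of_one_le (x := (d - s) / (d - c)), mul_one]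
  rw [le_div_iff₀ (by linarith)]
  linarith

theorem TRZ_right {a b c d s : ℝ} (hab : a < b) (hs : b ≤ s) :
    TRZ_k a b c d s = Real.smoothTransition ((d - s) / (d - c)) := by
  unfold TRZ_k
  rw [Real.smoothTransition.one_of_one_le (x := (s - a) / (b - a)), one_mul]
  rw [le_div_iff₀ (by linarith)]
  linarith

theorem TRZ_one {a b c d s : ℝ} (hab : a < b) (hcd : c < d) (h1 : b ≤ s) (h2 : s ≤ c) :
    TRZ_k a b c d s = 1 := by
  rw [TRZ_right hab h1, Real.smoothTransition.one_of_one_le]
  rw [le_div_iff₀ (by linarith)]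
  linarith

theorem TRZ_deriv_zero {a b c d s : ℝ} (hab : a < b) (hcd : c < d) (h1 : b ≤ s) (h2 : s ≤ c) :
    deriv (TRZ_k a b c d) s = 0 := by
  refine IsLocalMax.deriv_eq_zero (Filter.Eventually.of_forall fun u => ?_)
  rw [TRZ_one hab hcd h1 h2]
  exact (TRZ_range a b c d u).2

theorem TRZ_deriv_nonneg {a b c d s : ℝ} (hab : a < b) (hbc : b < c) (hcd : c < d) (h1 : s ≤ b) :
    0 ≤ deriv (TRZ_k a b c d) s := by
  have h2 : TRZ_k a b c d =ᶠ[𝓝 s] fun s => Real.smoothTransition ((s - a) / (b - a)) := by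
    filter_upwards [Iio_mem_nhds (lt_of_le_of_lt h1 hbc)] with u hu
    exact TRZ_left hcd hu.le
  rw [h2.deriv_eq]
  refine Monotone.deriv_nonneg ?_
  intro u v huv
  refine Real.smoothTransition.monotone ?_
  rw [div_le_div_iff_of_pos_right (by linarith)]
  linarith

theorem TRZ_deriv_nonpos {a b c d s : ℝ} (hab : a < b) (hbc : b < c) (hcd : c < d) (h1 : b ≤ s) :
    deriv (TRZ_k a b c d) s ≤ 0 := by
  rcases eq_or_lt_of_le h1 with h1 | h1
  · rw [TRZ_deriv_zero hab hcd h1.le (by linarith)]
  · have h2 : TRZ_k a b c d =ᶠ[𝓝 s] fun s => Real.smoothTransition ((d - s) / (d - c)) := by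
      filter_upwards [Ioi_mem_nhds h1] with u hu
      exact TRZ_right hab (le_of_lt hu)
    rw [h2.deriv_eq]
    have h3 : 0 ≤ deriv (fun s => - Real.smoothTransition ((d - s) / (d - c))) s := by
      refine Monotone.deriv_nonneg ?_
      intro u v huv
      refine neg_le_neg (Real.smoothTransition.monotone ?_)
      rw [div_le_div_iff_of_pos_right (by linarith)]
      linarith
    have h4 : deriv (fun s => - Real.smoothTransition ((d - s) / (d - c))) s =
        - deriv (fun s => Real.smoothTransition ((d - s) / (d - c))) s := deriv.fun_neg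
    rw [h4] at h3
    linarith

theorem TRZ_int {a b c d : ℝ} (ha : 0 < a) (hab : a < b) (hbc : b < c) (hcd : c < d) :
    Real.log (c / b) ≤ ∫ s, TRZ_k a b c d s / s := by
  have hcont : ContinuousOn (fun s => TRZ_k a b c d s / s) (Icc a d) := by
    refine ContinuousOn.div (TRZ_contDiff a b c d).continuous.continuousOn continuousOn_id ?_
    intro s hs
    have h0 : a ≤ s := hs.1
    exact (lt_of_lt_of_le ha h0).ne'
  have hint : IntegrableOn (fun s => TRZ_k a b c d s / s) (Icc a d) :=
    hcont.integrableOn_compact isCompact_Icc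
  have h1 : ∫ s, TRZ_k a b c d s / s = ∫ s in Icc a d, TRZ_k a b c d s / s := by
    refine (setIntegral_eq_integral_of_forall_compl_eq_zero ?_).symm
    intro s hs
    rw [TRZ_supp hab hcd hs, zero_div]
  have hsub : Icc b c ⊆ Icc a d := Icc_subset_Icc hab.le hcd.le
  have h2 : ∫ s in Icc b c, TRZ_k a b c d s / s ≤ ∫ s in Icc a d, TRZ_k a b c d s / s := by
    refine setIntegral_mono_set hint ?_ (Filter.Eventually.of_forall hsub)
    refine (ae_restrict_iff' measurableSet_Icc).2 (Filter.Eventually.of_forall fun s hs => ?_)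
    exact div_nonneg (TRZ_range a b c d s).1 (by have := hs.1; linarith)
  have h3 : ∫ s in Icc b c, TRZ_k a b c d s / s = ∫ s in Icc b c, s⁻¹ := by
    refine setIntegral_congr_fun measurableSet_Icc fun s hs => ?_
    show TRZ_k a b c d s / s = s⁻¹
    rw [TRZ_one hab hcd hs.1 hs.2, one_div]
  have h4 : ∫ s in Icc b c, s⁻¹ = Real.log (c / b) := by
    rw [integral_Icc_eq_integral_Ioc, ← intervalIntegral.integral_of_le hbc.le,
      integral_inv_of_pos (by linarith) (by linarith)]
  rw [h1]
  linarith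

theorem p_TRZ : Stmt_TRZ := by
  intro t1 t2 ht1 ht
  have he1 : Real.exp 1 * Real.exp (-1) = 1 := by
    rw [← Real.exp_add]; simp
  have he2 : Real.exp 2 = Real.exp 1 * Real.exp 1 := by
    rw [← Real.exp_add]; norm_num
  have hp := Real.exp_pos 1
  have hm := Real.exp_pos (-1)
  have hgt : 1 < Real.exp 1 := Real.one_lt_exp_iff.2 one_pos
  have ht2 : 0 < t2 := lt_trans (by positivity) ht
  have hab : t1 < Real.exp 1 * t1 := by nlinarith
  have hbc : Real.exp 1 * t1 < Real.exp (-1) * t2 := by
    have h1 : Real.exp (-1) * (Real.exp 2 * t1) < Real.exp (-1) * t2 :=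
      mul_lt_mul_of_pos_left ht hm
    have h2 : Real.exp (-1) * (Real.exp 2 * t1) = Real.exp 1 * t1 := by
      rw [he2]
      linear_combination (Real.exp 1 * t1) * he1
    linarith
  have hcd : Real.exp (-1) * t2 < t2 := by
    have : Real.exp (-1) < 1 := Real.exp_lt_one_iff.2 (by norm_num)
    nlinarith
  refine ⟨TRZ_k t1 (Real.exp 1 * t1) (Real.exp (-1) * t2) t2, TRZ_contDiff _ _ _ _,
    TRZ_range _ _ _ _, ?_, ?_, TRZ_one hab hcd le_rfl hbc.le,
    fun s hs => TRZ_deriv_nonneg hab hbc hcd hs, fun s hs => TRZ_deriv_nonpos hab hbc hcd hs,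
    ?_, ?_⟩
  · exact HasCompactSupport.intro isCompact_Icc fun s hs => TRZ_supp hab hcd hs
  · refine closure_minimal ?_ isClosed_Icc
    intro s hs
    by_contra hcon
    exact hs (TRZ_supp hab hcd hcon)
  · intro s hs hne
    by_contra hcon
    exact hne (TRZ_deriv_zero hab hcd hs (not_le.1 hcon).le)
  · have h1 := TRZ_int ht1 hab hbc hcd
    have h2 : Real.log (Real.exp (-1) * t2 / (Real.exp 1 * t1)) = Real.log (t2 / t1) - 2 := by
      rw [Real.log_div (by positivity) (by positivity), Real.log_mul hm.ne' ht2.ne',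
        Real.log_mul hp.ne' ht1.ne', Real.log_div ht2.ne' ht1.ne', Real.log_exp, Real.log_exp]
      ring
    linarith

end Pool.SQ
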