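import Pool.Agent.Work.MP_680515_sq.Interface
import Pool.Agent.Work.MP_680515_fl.B_WOP

/-!
# MP_680515_an, THEOREM SQ, block WDEG: the weighted degree formula
-/

set_option autoImplicit false

open MeasureTheory Set Filter Topology

namespace Pool.SQ

open Pool.Mart Pool.Flat

/-- The determinant of the linear map of a matrix. -/
theorem WDEG_det (A : M3) :
    (LinearMap.toContinuousLinearMap (Matrix.toEuclideanLin A)).det = A.det := by
  rw [ContinuousLinearMap.det, LinearMap.coe_toContinuousLinearMap,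
    Matrix.toEuclideanLin_eq_toLin, LinearMap.det_toLin]

/-- Change of variables on one sheet. -/
theorem WDEG_sheet (f : E3 → E3) (A : E3 → M3) (D : Set E3) (hDm : MeasurableSet D)
    (hinj : InjOn f D)
    (hder : ∀ x ∈ D, 0 ≤ (A x).det ∧ HasFDerivAt f
      (LinearMap.toContinuousLinearMap (Matrix.toEuclideanLin (A x))) x) (h g : E3 → ℝ)
    (hint : IntegrableOn (fun x => (A x).det * (h x * g (f x))) D) :
    IntegrableOn (fun y => h (Function.invFunOn f D y) * g y) (f '' D) ∧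
    ∫ x in D, (A x).det * (h x * g (f x)) =
      ∫ y in f '' D, h (Function.invFunOn f D y) * g y := by
  have hinv : ∀ x ∈ D, Function.invFunOn f D (f x) = x := fun x hx => hinj.leftInvOn_invFunOn hx
  have hcong : ∀ x ∈ D, |(LinearMap.toContinuousLinearMap (Matrix.toEuclideanLin (A x))).det| •
      (h (Function.invFunOn f D (f x)) * g (f x)) = (A x).det * (h x * g (f x)) := by
    intro x hx
    rw [WDEG_det, abs_of_nonneg (hder x hx).1, hinv x hx, smul_eq_mul]
  constructor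
  · rw [integrableOn_image_iff_integrableOn_abs_det_fderiv_smul volume hDm
      (fun x hx => (hder x hx).2.hasFDerivWithinAt) hinj]
    exact hint.congr_fun (fun x hx => (hcong x hx).symm) hDm
  · rw [integral_image_eq_integral_abs_det_fderiv_smul volume hDm
      (fun x hx => (hder x hx).2.hasFDerivWithinAt) hinj]
    exact setIntegral_congr_fun hDm (fun x hx => (hcong x hx).symm)

theorem p_WDEG (hARD : Stmt_ARD) (hSHT : Stmt_SHT) (hFSC : Stmt_FSC)
    (hPIOI : Pool.Mart.Stmt_PIOI) : Stmt_WDEG := by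
  intro φ ψ A x0 r0 ρ0 hB h g hh hg hgc hgs
  obtain ⟨D1, D2, hD1m, hD2m, hdis, hD1U, hD2U, hinj1, hinj2, hder, hpair, hzero, hcov⟩ :=
    hARD φ ψ A x0 r0 ρ0 hB
  obtain ⟨hS1, hS2, hS3, hS4, hS5⟩ := hSHT φ ψ A x0 r0 ρ0 hB
  obtain ⟨hUo, hVo, hfU, hFS⟩ := hFSC φ ψ A x0 r0 ρ0 hB
  have hfΩ : ContinuousOn (fm φ ψ) ψ.source := by
    have h1 : ContinuousOn (fun x => wind (ψ x)) ψ.source :=
      WOP_cont.comp_continuousOn ψ.continuousOn
    exact φ.continuousOn.comp h1 (fun x hx => hB.wm.src x hx)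
  obtain ⟨K, hK⟩ : ∃ K : Set E3, K = Metric.closedBall x0 r0 ∩ fm φ ψ ⁻¹' tsupport g := ⟨_, rfl⟩
  have hKcl : IsClosed K := by
    rw [hK]
    exact (hfΩ.mono hB.sub).preimage_isClosed_of_isClosed Metric.isClosed_closedBall
      (isClosed_tsupport g)
  have hKb : K ⊆ Metric.closedBall x0 r0 := by
    rw [hK]
    exact Set.inter_subset_left
  have hKc : IsCompact K := (isCompact_closedBall x0 r0).of_isClosed_subset hKcl hKb
  have hKU : K ⊆ UD φ ψ x0 ρ0 := by
    intro x hx
    rw [hK] at hx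
    have h1 := hgs hx.2
    exact ⟨hB.sub hx.1, h1.1, h1.2⟩
  have hKΩ : K ⊆ ψ.source := fun x hx => hB.sub (hKb hx)
  have hdetK : IntegrableOn (fun x => (A x).det) K :=
    (hPIOI ψ.source (fm φ ψ) A ψ.open_source hfΩ hB.wm.wg K hKc hKΩ).1
  have hFK : IntegrableOn (fun x => (A x).det * (h x * g (fm φ ψ x))) K :=
    hdetK.mul_continuousOn ((hh.mono hKU).mul (hg.comp_continuousOn (hfΩ.mono hKΩ))) hKc
  have hFz : ∀ x ∈ Metric.closedBall x0 r0, x ∉ K →
      (A x).det * (h x * g (fm φ ψ x)) = 0 := by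
    intro x hx hxK
    have h1 : fm φ ψ x ∉ tsupport g := fun h2 => hxK (by rw [hK]; exact ⟨hx, h2⟩)
    rw [image_eq_zero_of_notMem_tsupport h1, mul_zero, mul_zero]
  have hFB : IntegrableOn (fun x => (A x).det * (h x * g (fm φ ψ x))) (Metric.ball x0 r0) := by
    have h1 : IntegrableOn (fun x => (A x).det * (h x * g (fm φ ψ x)))
        (Metric.ball x0 r0 ∩ K) := hFK.mono_set inter_subset_right
    have h2 : IntegrableOn (fun x => (A x).det * (h x * g (fm φ ψ x)))
        (Metric.ball x0 r0 \ K) := by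
      refine IntegrableOn.congr_fun (integrableOn_zero)
        (fun x hx => (hFz x (Metric.ball_subset_closedBall hx.1) hx.2).symm)
        (measurableSet_ball.diff hKcl.measurableSet)
    refine (h1.union h2).mono_set (fun x hx => ?_)
    by_cases hxK : x ∈ K
    · exact Or.inl ⟨hx, hxK⟩
    · exact Or.inr ⟨hx, hxK⟩
  have hG : Integrable (fun y => FS φ ψ h y * g y) := by
    have h1 : ContinuousOn (fun y => FS φ ψ h y * g y) (tsupport g) :=
      ((hFS h hh).mono hgs).mul hg.continuousOn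
    have h2 : IntegrableOn (fun y => FS φ ψ h y * g y) (tsupport g) :=
      h1.integrableOn_compact hgc
    refine (integrableOn_iff_integrable_of_support_subset ?_).1 h2
    intro y hy
    apply subset_tsupport
    intro h3
    apply hy
    show FS φ ψ h y * g y = 0
    rw [h3, mul_zero]
  refine ⟨hFB, hG, ?_⟩
  have hsub : D1 ∪ D2 ⊆ Metric.ball x0 r0 := by
    intro x hx
    rcases hx with hx | hx
    · exact (hS5 (hD1U hx)).1
    · exact (hS5 (hD2U hx)).1
  have hF0 : ∀ᵐ x ∂(volume : Measure E3), x ∈ Metric.ball x0 r0 \ (D1 ∪ D2) →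
      (A x).det * (h x * g (fm φ ψ x)) = 0 := by
    rw [ae_restrict_iff' hUo.measurableSet] at hzero
    filter_upwards [hzero] with x hx hx2
    by_cases hxU : x ∈ UD φ ψ x0 ρ0
    · rw [hx hxU hx2.2, zero_mul]
    · exact hFz x (Metric.ball_subset_closedBall hx2.1) (fun hk => hxU (hKU hk))
  have e1 : ∫ x in Metric.ball x0 r0, (A x).det * (h x * g (fm φ ψ x)) =
      ∫ x in D1 ∪ D2, (A x).det * (h x * g (fm φ ψ x)) :=
    setIntegral_eq_of_subset_of_ae_sdiff_eq_zero measurableSet_ball.nullMeasurableSet hsub hF0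
  have hi1 : IntegrableOn (fun x => (A x).det * (h x * g (fm φ ψ x))) D1 :=
    hFB.mono_set (subset_union_left.trans hsub)
  have hi2 : IntegrableOn (fun x => (A x).det * (h x * g (fm φ ψ x))) D2 :=
    hFB.mono_set (subset_union_right.trans hsub)
  obtain ⟨j1, k1⟩ := WDEG_sheet (fm φ ψ) A D1 hD1m hinj1 (fun x hx => hder x (Or.inl hx)) h g hi1
  obtain ⟨j2, k2⟩ := WDEG_sheet (fm φ ψ) A D2 hD2m hinj2 (fun x hx => hder x (Or.inr hx)) h g hi2
  rw [e1, setIntegral_union hdis hD2m hi1 hi2, k1, k2]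
  have him : ∀ D : Set E3, D ⊆ UD φ ψ x0 ρ0 → fm φ ψ '' D ⊆ Metric.ball (fm φ ψ x0) ρ0 := by
    rintro D hD _ ⟨x, hx, rfl⟩
    rw [Metric.mem_ball, dist_eq_norm]
    exact (hD hx).2.2
  have hc := (ae_restrict_iff' measurableSet_ball).1 hcov
  have hae1 : (fm φ ψ '' D1 : Set E3) =ᵐ[volume] Metric.ball (fm φ ψ x0) ρ0 := by
    rw [eventuallyEq_set]
    filter_upwards [hc] with y hy
    exact ⟨fun h1 => him D1 hD1U h1, fun h1 => (hy h1).1⟩
  have hae2 : (fm φ ψ '' D2 : Set E3) =ᵐ[volume] Metric.ball (fm φ ψ x0) ρ0 := by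
    rw [eventuallyEq_set]
    filter_upwards [hc] with y hy
    exact ⟨fun h1 => him D2 hD2U h1, fun h1 => (hy h1).2⟩
  rw [setIntegral_congr_set hae1, setIntegral_congr_set hae2,
    ← integral_add (j1.congr_set_ae hae1.symm) (j2.congr_set_ae hae2.symm)]
  have e2 : ∫ y in Metric.ball (fm φ ψ x0) ρ0,
      (h (Function.invFunOn (fm φ ψ) D1 y) * g y + h (Function.invFunOn (fm φ ψ) D2 y) * g y) =
      ∫ y in Metric.ball (fm φ ψ x0) ρ0, FS φ ψ h y * g y := by
    apply setIntegral_congr_ae measurableSet_ball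
    filter_upwards [hc] with y hy hyb
    obtain ⟨⟨x1, hx1, e1⟩, ⟨x2, hx2, e2⟩⟩ := hy hyb
    have h12 : x2 = sx ψ x1 := hpair x1 hx1 x2 hx2 (e1.trans e2.symm)
    have i1 : Function.invFunOn (fm φ ψ) D1 y = x1 := by
      rw [← e1]
      exact hinj1.leftInvOn_invFunOn hx1
    have i2 : Function.invFunOn (fm φ ψ) D2 y = x2 := by
      rw [← e2]
      exact hinj2.leftInvOn_invFunOn hx2
    have hU1 := hD1U hx1
    have hfs := (hS1 x1 hU1.1 hU1.2.2.le).2.2.2.2.2 h
    rw [i1, i2, h12, ← add_mul, ← hfs, e1]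
  rw [e2]
  apply setIntegral_eq_integral_of_forall_compl_eq_zero
  intro y hy
  have hg0 : g y = 0 := by
    apply image_eq_zero_of_notMem_tsupport
    intro h1
    apply hy
    rw [Metric.mem_ball, dist_eq_norm]
    exact (hgs h1).2
  rw [hg0, mul_zero]

end Pool.SQ
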