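import Pool.Agent.Work.MP_680515_sq.Lib
import Pool.Agent.Work.MP_680515_sq.B_CON
import Pool.Agent.Work.MP_680515_sq.B_MAT
import Pool.Agent.Work.MP_680515_sq.B_CUB
import Pool.Agent.Work.MP_680515_sq.B_PWR
import Pool.Agent.Work.MP_680515_sq.B_PWI
import Pool.Agent.Work.MP_680515_sq.B_NUM
import Pool.Agent.Work.MP_680515_sq.B_BPE
import Pool.Agent.Work.MP_680515_sq.B_SHT
import Pool.Agent.Work.MP_680515_sq.B_FSC
import Pool.Agent.Work.MP_680515_sq.B_WTS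
import Pool.Agent.Work.MP_680515_sq.B_DGB
import Pool.Agent.Work.MP_680515_sq.B_ARD
import Pool.Agent.Work.MP_680515_sq.B_WDEG
import Pool.Agent.Work.MP_680515_sq.B_INT
import Pool.Agent.Work.MP_680515_sq.B_LG1
import Pool.Agent.Work.MP_680515_sq.B_LGI
import Pool.Agent.Work.MP_680515_sq.B_DEL
import Pool.Agent.Work.MP_680515_sq.B_GEO
import Pool.Agent.Work.MP_680515_sq.B_CTN
import Pool.Agent.Work.MP_680515_sq.B_CV3
import Pool.Agent.Work.MP_680515_sq.B_VSM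
import Pool.Agent.Work.MP_680515_sq.B_LEU
import Pool.Agent.Work.MP_680515_sq.B_LEL
import Pool.Agent.Work.MP_680515_sq.B_LEV
import Pool.Agent.Work.MP_680515_sq.B_T3
import Pool.Agent.Work.MP_680515_sq.B_T2I
import Pool.Agent.Work.MP_680515_sq.B_GRW
import Pool.Agent.Work.MP_680515_sq.B_T1B
import Pool.Agent.Work.MP_680515_sq.B_T2B
import Pool.Agent.Work.MP_680515_sq.B_TRZ
import Pool.Agent.Work.MP_680515_sq.B_BND
import Pool.Agent.Work.MP_680515_sq.B_LVI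
import Pool.Agent.Work.MP_680515_sq.B_LV2
import Pool.Agent.Work.MP_680515_sq.B_KEY
import Pool.Agent.Work.MP_680515_sq.B_FNL

/-!
# MP_680515_an, THEOREM SQ: assembly
-/

namespace Pool.SQ

theorem g_SHT : Stmt_SHT := p_SHT l_WOP

theorem g_FSC : Stmt_FSC := p_FSC g_SHT l_FOP l_WOP

theorem g_WTS : Stmt_WTS := p_WTS g_SHT g_FSC

theorem g_DGB : Stmt_DGB := p_DGB g_SHT l_INTG l_POS l_WOP l_FOP m_WIN1

theorem g_ARD : Stmt_ARD := p_ARD g_DGB g_SHT g_FSC l_DAE l_FOP l_WOP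

theorem g_WDEG : Stmt_WDEG := p_WDEG g_ARD g_SHT g_FSC m_PIOI

theorem g_INT : Stmt_INT := p_INT

theorem g_LGI : Stmt_LGI := p_LGI p_LG1 g_WDEG g_FSC g_WTS g_SHT l_LPI m_PIOI m_BAS

theorem g_VSM : Stmt_VSM :=
  p_VSM (p_CV3 l_ISO l_BS1 l_BS2 l_BS3 l_SPH l_POI) l_CV2 l_GL3

theorem g_GEO : Stmt_GEO := p_GEO g_SHT g_FSC l_TPA l_FOP l_GL3 l_WOP

theorem g_LEV : Stmt_LEV :=
  p_LEV g_GEO p_CTN (p_LEU g_LGI p_DEL g_WTS g_VSM g_INT l_FLD m_BAS g_SHT g_FSC)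
    (p_LEL g_SHT g_FSC g_WTS l_CV1 l_FLD l_GL3) p_DEL

theorem g_LV2 : Stmt_LV2 :=
  p_LV2 (p_PWI (p_PWR p_CUB) (p_MAT (p_CON m_BAS) m_BAS) m_BAS)
    (p_T3 g_SHT l_CHR m_RINT m_RADF) g_INT g_LEV (p_LVI g_WDEG g_WTS g_SHT g_VSM g_INT m_RINT)
    (p_NUM l_I0X) g_WTS g_VSM g_SHT g_FSC

theorem g_KEY : Stmt_KEY := p_KEY g_LV2 g_INT g_FSC

theorem g_BND : Stmt_BND :=
  p_BND (p_GRW l_LDA l_PKG l_TPA l_FOP) (p_T1B g_SHT g_INT m_RINT)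
    (p_T2B (p_T2I g_SHT l_LPI m_RADF) g_WDEG g_SHT g_INT m_RINT) p_TRZ g_SHT

theorem final : Stmt_FinalSQ := p_FNL g_KEY g_BND (p_BPE l_TPA) m_LIN4

end Pool.SQ
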