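import Pool.Agent.Work.MP_680515_sq.Interface

/-!
# MP_680515_an, THEOREM SQ: block LVI
-/

open MeasureTheory Set Filter Topology

namespace Pool.SQ

open Pool.Mart Pool.Flat

theorem LVI_supp {κ : ℝ → ℝ} {ρ0 : ℝ} (hκ : Kap 0 ρ0 κ) (q0 : E3) {g : E3 → ℝ}
    (hg : ∀ y, κ ‖y - q0‖ = 0 → g y = 0) :
    HasCompactSupport g ∧ tsupport g ⊆ {y | 0 < ‖y - q0‖ ∧ ‖y - q0‖ < ρ0} := by
  have hcl : IsClosed {y : E3 | ‖y - q0‖ ∈ tsupport κ} :=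
    (isClosed_tsupport κ).preimage (continuous_id.sub continuous_const).norm
  have hco : IsCompact {y : E3 | ‖y - q0‖ ∈ tsupport κ} := by
    refine (isCompact_closedBall q0 ρ0).of_isClosed_subset hcl fun y hy => ?_
    rw [mem_closedBall_iff_norm]
    exact (hκ.ts hy).2.le
  have hz : ∀ y, y ∉ {y : E3 | ‖y - q0‖ ∈ tsupport κ} → g y = 0 := fun y hy =>
    hg y (image_eq_zero_of_notMem_tsupport hy)
  refine ⟨HasCompactSupport.intro' hco hcl hz, fun y hy => ?_⟩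
  have h1 : tsupport g ⊆ {y : E3 | ‖y - q0‖ ∈ tsupport κ} := by
    refine closure_minimal (fun y hy => ?_) hcl
    by_contra hc
    exact hy (hz y hc)
  exact hκ.ts (h1 hy)

theorem LVI_cont {κ : ℝ → ℝ} {ρ0 : ℝ} (hκ : Kap 0 ρ0 κ) {G : E3 → ℝ} (hG : ContinuousOn G {0}ᶜ) :
    Continuous (fun y => κ ‖y‖ * G y) := by
  have h0 : (0 : ℝ) ∉ tsupport κ := fun h0 => lt_irrefl _ (hκ.ts h0).1
  refine continuous_iff_continuousAt.2 fun y => ?_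
  by_cases hy : y = 0
  · subst hy
    have h1 : κ =ᶠ[𝓝 0] 0 := notMem_tsupport_iff_eventuallyEq.1 h0
    have h3 : Tendsto (fun y : E3 => ‖y‖) (𝓝 0) (𝓝 0) := continuous_norm.tendsto' 0 0 norm_zero
    have h2 : (fun y : E3 => κ ‖y‖ * G y) =ᶠ[𝓝 0] fun _ => (0 : ℝ) := by
      filter_upwards [h3.eventually h1] with y hy
      rw [hy, Pi.zero_apply, zero_mul]
    exact (continuousAt_const (y := (0 : ℝ))).congr h2.symm
  · exact (hκ.c1.continuous.comp continuous_norm).continuousAt.mul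
      (hG.continuousAt (isOpen_compl_singleton.mem_nhds hy))

theorem LVI_cont1 {κ : ℝ → ℝ} {ρ0 : ℝ} (hκ : Kap 0 ρ0 κ) :
    Continuous (fun r => κ r * (r ^ 3)⁻¹) := by
  have h0 : (0 : ℝ) ∉ tsupport κ := fun h0 => lt_irrefl _ (hκ.ts h0).1
  refine continuous_iff_continuousAt.2 fun y => ?_
  by_cases hy : y = 0
  · subst hy
    have h1 : κ =ᶠ[𝓝 0] 0 := notMem_tsupport_iff_eventuallyEq.1 h0
    have h2 : (fun r => κ r * (r ^ 3)⁻¹) =ᶠ[𝓝 0] fun _ => (0 : ℝ) := by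
      filter_upwards [h1] with y hy
      rw [hy, Pi.zero_apply, zero_mul]
    exact (continuousAt_const (y := (0 : ℝ))).congr h2.symm
  · exact hκ.c1.continuous.continuousAt.mul
      ((continuousAt_id.pow 3).inv₀ (pow_ne_zero 3 hy))

theorem LVI_rad (hRINT : Pool.Mart.Stmt_RINT) {κ : ℝ → ℝ} {ρ0 : ℝ} (hκ : Kap 0 ρ0 κ) :
    ∫ y : E3, κ ‖y‖ * (‖y‖ ^ 3)⁻¹ = 4 * Real.pi * ∫ t, κ t / t := by
  have h1 := hRINT (fun r => κ r * (r ^ 3)⁻¹) 0 ρ0 le_rfl (LVI_cont1 hκ) hκ.cs.mul_right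
    ((tsupport_mul_subset_left).trans hκ.ts)
  rw [h1]
  congr 1
  refine integral_congr_ae (Eventually.of_forall fun r => ?_)
  by_cases hr : r = 0
  · subst hr
    simp
  · simp only
    field_simp

theorem LVI_pow {v : ℝ} (hv : 0 ≤ v) :
    (81 / 400 * v) ^ (3 / 2 : ℝ) = 729 / 8000 * v ^ (3 / 2 : ℝ) := by
  rw [Real.mul_rpow (by norm_num) hv]
  congr 1
  rw [show (81 / 400 : ℝ) = (9 / 20 : ℝ) ^ (2 : ℝ) by norm_num, ← Real.rpow_mul (by norm_num)]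
  norm_num

/-- the constant function -/
noncomputable def LVI_g1 (κ : ℝ → ℝ) (y : E3) : ℝ := 307 / 1000 * (κ ‖y‖ * (‖y‖ ^ 3)⁻¹)

/-- the second function -/
noncomputable def LVI_g2 (a b : E3) (κ m : ℝ → ℝ) (y : E3) : ℝ :=
  14 / 1000 * (κ ‖y‖ * (‖y‖ ^ 3)⁻¹) +
    (481 / 1000 * (81 / 400)) * (κ ‖y‖ * ((‖y‖ ^ 3)⁻¹ * vs a b m y)) +
    (458 / 1000 * (729 / 8000)) * (κ ‖y‖ * ((‖y‖ ^ 3)⁻¹ * vs a b m y ^ (3 / 2 : ℝ)))

theorem LVI_alg {a b : E3} {κ m : ℝ → ℝ} (J w : ℝ) (y : E3) (hv : 0 ≤ vs a b m y) :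
    κ ‖y‖ * (J * (‖y‖ ^ 3)⁻¹ * ((1 - w) * (307 / 1000) + w * Ch (81 / 400 * vs a b m y)))
      = J * (1 * LVI_g1 κ y) + J * (w * LVI_g2 a b κ m y) := by
  unfold Ch LVI_g1 LVI_g2
  rw [LVI_pow hv]
  ring

theorem p_LVI (hWDEG : Stmt_WDEG) (hWTS : Stmt_WTS) (_hSHT : Stmt_SHT) (hVSM : Stmt_VSM)
    (_hINT : Stmt_INT) (hRINT : Pool.Mart.Stmt_RINT) : Stmt_LVI := by
  intro φ ψ A x0 r0 ρ0 hBP a b F κ m ha hb hab hF hF0 hm hκ
  obtain ⟨w1, -, w3, -⟩ := hWTS φ ψ A x0 r0 ρ0 hBP F hF hF0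
  obtain ⟨-, v2, v3, v4, v5, v6⟩ := hVSM a b m κ ha hb hab hm hκ.c1.continuous hκ.nn hκ.cs
    fun t ht => (hκ.ts ht).1
  have hinv : ContinuousOn (fun y : E3 => (‖y‖ ^ 3)⁻¹) {0}ᶜ :=
    (continuous_norm.continuousOn.pow 3).inv₀ fun y hy => pow_ne_zero 3 (norm_ne_zero_iff.2 hy)
  have c0 : Continuous (fun y : E3 => κ ‖y‖ * (‖y‖ ^ 3)⁻¹) := LVI_cont hκ hinv
  have hs : ∀ {G : E3 → ℝ}, HasCompactSupport (fun y : E3 => κ ‖y‖ * G y) := by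
    intro G
    refine (LVI_supp hκ 0 fun y hy => ?_).1
    rw [sub_zero] at hy
    simp only [hy, zero_mul]
  have i0 : Integrable (fun y : E3 => κ ‖y‖ * (‖y‖ ^ 3)⁻¹) := c0.integrable_of_hasCompactSupport hs
  have i1 : Integrable (fun y : E3 => κ ‖y‖ * ((‖y‖ ^ 3)⁻¹ * vs a b m y)) :=
    v3.integrable_of_hasCompactSupport hs
  have i2 : Integrable (fun y : E3 => κ ‖y‖ * ((‖y‖ ^ 3)⁻¹ * vs a b m y ^ (3 / 2 : ℝ))) :=
    v4.integrable_of_hasCompactSupport hs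
  have hg1 : Continuous (LVI_g1 κ) := continuous_const.mul c0
  have hg2 : Continuous (LVI_g2 a b κ m) :=
    ((continuous_const.mul c0).add (continuous_const.mul v3)).add (continuous_const.mul v4)
  set q0 : E3 := fm φ ψ x0 with hq0
  have hsub : Continuous (fun y : E3 => y - q0) := continuous_id.sub continuous_const
  have s1 := LVI_supp hκ q0 (g := fun y => LVI_g1 κ (y - q0)) fun y hy => by
    simp only [LVI_g1, hy, zero_mul, mul_zero]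
  have s2 := LVI_supp hκ q0 (g := fun y => LVI_g2 a b κ m (y - q0)) fun y hy => by
    simp only [LVI_g2, hy, zero_mul, mul_zero, add_zero]
  obtain ⟨d1, -, d3⟩ := hWDEG φ ψ A x0 r0 ρ0 hBP (fun _ => 1) (fun y => LVI_g1 κ (y - q0))
    continuousOn_const (hg1.comp hsub) s1.1 s1.2
  obtain ⟨f1, -, f3⟩ := hWDEG φ ψ A x0 r0 ρ0 hBP (wq φ ψ x0 F) (fun y => LVI_g2 a b κ m (y - q0))
    w1 (hg2.comp hsub) s2.1 s2.2
  have halg : ∀ x : E3, κ ‖fm φ ψ x - q0‖ *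
      ((A x).det * (‖fm φ ψ x - q0‖ ^ 3)⁻¹ * ((1 - wq φ ψ x0 F x) * (307 / 1000)
        + wq φ ψ x0 F x * Ch (81 / 400 * vs a b m (fm φ ψ x - q0))))
      = (A x).det * (1 * LVI_g1 κ (fm φ ψ x - q0)) +
        (A x).det * (wq φ ψ x0 F x * LVI_g2 a b κ m (fm φ ψ x - q0)) :=
    fun x => LVI_alg _ _ _ (v2 _)
  simp only [halg]
  refine ⟨d1.add f1, ?_⟩
  rw [integral_add d1 f1, d3, f3]
  have e1 : ∫ y, FS φ ψ (fun _ => 1) y * LVI_g1 κ (y - q0) =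
      2 * (307 / 1000) * (4 * Real.pi * ∫ t, κ t / t) := by
    have h1 : ∀ y : E3, FS φ ψ (fun _ => 1) y * LVI_g1 κ (y - q0) =
        2 * (307 / 1000) * (κ ‖y - q0‖ * (‖y - q0‖ ^ 3)⁻¹) := by
      intro y
      simp only [FS, LVI_g1]
      ring
    simp only [h1]
    rw [integral_const_mul, integral_sub_right_eq_self (fun y : E3 => κ ‖y‖ * (‖y‖ ^ 3)⁻¹) q0,
      LVI_rad hRINT hκ]
  have e2 : ∫ y, FS φ ψ (wq φ ψ x0 F) y * LVI_g2 a b κ m (y - q0) =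
      14 / 1000 * (4 * Real.pi * ∫ t, κ t / t) +
      ((481 / 1000 * (81 / 400)) * ∫ y, κ ‖y‖ * ((‖y‖ ^ 3)⁻¹ * vs a b m y)) +
      (458 / 1000 * (729 / 8000)) * ∫ y, κ ‖y‖ * ((‖y‖ ^ 3)⁻¹ * vs a b m y ^ (3 / 2 : ℝ)) := by
    have h1 : ∀ y : E3, FS φ ψ (wq φ ψ x0 F) y * LVI_g2 a b κ m (y - q0) =
        LVI_g2 a b κ m (y - q0) := by
      intro y
      by_cases hy : y ∈ VD φ ψ x0 ρ0
      · rw [w3 y hy, one_mul]
      · have h2 : κ ‖y - q0‖ = 0 := by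
          refine image_eq_zero_of_notMem_tsupport fun h => hy ?_
          exact hκ.ts h
        simp only [LVI_g2, h2, zero_mul, mul_zero, add_zero]
    simp only [h1]
    rw [integral_sub_right_eq_self (LVI_g2 a b κ m) q0]
    have j01 : Integrable (fun y : E3 => 14 / 1000 * (κ ‖y‖ * (‖y‖ ^ 3)⁻¹) +
        (481 / 1000 * (81 / 400)) * (κ ‖y‖ * ((‖y‖ ^ 3)⁻¹ * vs a b m y))) :=
      (i0.const_mul _).add (i1.const_mul _)
    have j2 : Integrable (fun y : E3 =>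
        (458 / 1000 * (729 / 8000)) * (κ ‖y‖ * ((‖y‖ ^ 3)⁻¹ * vs a b m y ^ (3 / 2 : ℝ)))) :=
      i2.const_mul _
    have k1 := integral_add j01 j2
    have k2 : ∫ y : E3, (14 / 1000 * (κ ‖y‖ * (‖y‖ ^ 3)⁻¹) +
        (481 / 1000 * (81 / 400)) * (κ ‖y‖ * ((‖y‖ ^ 3)⁻¹ * vs a b m y))) =
        (∫ y : E3, 14 / 1000 * (κ ‖y‖ * (‖y‖ ^ 3)⁻¹)) +
        ∫ y : E3, (481 / 1000 * (81 / 400)) * (κ ‖y‖ * ((‖y‖ ^ 3)⁻¹ * vs a b m y)) :=
      integral_add (i0.const_mul _) (i1.const_mul _)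
    rw [k2, integral_const_mul, integral_const_mul, integral_const_mul, LVI_rad hRINT hκ] at k1
    exact k1
  rw [e1, e2]
  have h5 := mul_le_mul_of_nonneg_left v5 (by norm_num : (0 : ℝ) ≤ 481 / 1000 * (81 / 400))
  have h6 := mul_le_mul_of_nonneg_left v6 (by norm_num : (0 : ℝ) ≤ 458 / 1000 * (729 / 8000))
  set T := ∫ t, κ t / t with hT
  have e3 : (4 * Real.pi * (307 / 1000 + 321 / 1000) + 2 * Real.pi ^ 2 * (481 / 1000) * (81 / 400)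
        + 2 * Real.pi * I0 * (458 / 1000) * (729 / 8000)) * T =
      2 * (307 / 1000) * (4 * Real.pi * T) + (14 / 1000 * (4 * Real.pi * T) +
        481 / 1000 * (81 / 400) * (2 * Real.pi ^ 2 * T) +
        458 / 1000 * (729 / 8000) * (2 * Real.pi * I0 * T)) := by ring
  rw [e3]
  linarith

end Pool.SQ
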