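import Pool.Agent.Work.MP_680515_sq.Interface

/-! Block VSM of THEOREM SQ (helper90). Hypotheses used: CV3, F.CV2, F.GL3. -/

open MeasureTheory Set Filter Topology

namespace Pool.SQ

open Pool.Mart Pool.Flat

theorem VSM_dn (a : E3) : Continuous (dn a) := by
  unfold dn
  exact continuous_norm.sub (continuous_id.inner continuous_const)

theorem VSM_inner (a b : E3) (ha : ‖a‖ = 1) (hb : ‖b‖ = 1) : 0 ≤ 1 - inner ℝ a b := by
  have h := real_inner_le_norm a b
  rw [ha, hb] at h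
  linarith

theorem VSM_dnn (a y : E3) (ha : ‖a‖ = 1) : 0 ≤ dn a y := by
  have h := real_inner_le_norm y a
  rw [ha, mul_one] at h
  unfold dn
  linarith

theorem VSM_sq (a b y : E3) (ha : ‖a‖ = 1) (hb : ‖b‖ = 1) : 0 ≤ sq2 a b y := by
  unfold sq2
  exact div_nonneg (VSM_inner a b ha hb)
    (mul_nonneg (mul_nonneg (by norm_num) (VSM_dnn a y ha)) (VSM_dnn b y hb))

theorem VSM_cont (κ : ℝ → ℝ) (hκ : Continuous κ) (ht : tsupport κ ⊆ Ioi 0) (h : E3 → ℝ)
    (hh : ContinuousOn h {0}ᶜ) : Continuous (fun y : E3 => κ ‖y‖ * h y) := by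
  rw [continuous_iff_continuousAt]
  intro y
  by_cases hy : y = 0
  · subst hy
    have h0 : (0 : ℝ) ∉ tsupport κ := fun h1 => lt_irrefl (0 : ℝ) (mem_Ioi.1 (ht h1))
    have h1 : ∀ᶠ s in 𝓝 (0 : ℝ), κ s = 0 := by
      have h2 : (tsupport κ)ᶜ ∈ 𝓝 (0 : ℝ) := (isClosed_tsupport κ).isOpen_compl.mem_nhds h0
      filter_upwards [h2] with s hs
      exact image_eq_zero_of_notMem_tsupport hs
    have h3 : Tendsto (fun y : E3 => ‖y‖) (𝓝 0) (𝓝 (0 : ℝ)) := by
      have := (continuous_norm (E := E3)).tendsto 0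
      rwa [norm_zero] at this
    have h4 : (fun y : E3 => κ ‖y‖ * h y) =ᶠ[𝓝 0] fun _ => 0 := by
      filter_upwards [h3.eventually h1] with z hz
      rw [hz, zero_mul]
    exact (continuousAt_const.congr h4.symm)
  · have h5 : ContinuousAt h y := hh.continuousAt (isOpen_compl_singleton.mem_nhds hy)
    exact ((hκ.comp continuous_norm).continuousAt).mul h5

theorem VSM_rng (κ : ℝ → ℝ) (hκ : Continuous κ) (h0 : ∀ t, 0 ≤ κ t) (hc : HasCompactSupport κ)
    (ht : tsupport κ ⊆ Ioi 0) : ∃ r1 r2 C : ℝ, 0 < r1 ∧ (∀ s, 0 ≤ κ s ∧ κ s ≤ C) ∧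
      ∀ s, κ s ≠ 0 → s ∈ Icc r1 r2 := by
  obtain ⟨C, hC⟩ := hκ.bounded_above_of_compact_support hc
  have hC' : ∀ s, 0 ≤ κ s ∧ κ s ≤ C := fun s => ⟨h0 s, (le_abs_self _).trans (hC s)⟩
  rcases (tsupport κ).eq_empty_or_nonempty with he | hne
  · refine ⟨1, 1, C, one_pos, hC', fun s hs => ?_⟩
    have h1 : s ∈ tsupport κ := subset_tsupport κ hs
    rw [he] at h1
    exact absurd h1 (Set.notMem_empty s)
  · obtain ⟨r1, h1⟩ := hc.isCompact.exists_isLeast hne
    obtain ⟨r2, h2⟩ := hc.isCompact.exists_isGreatest hne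
    refine ⟨r1, r2, C, ht h1.1, hC', fun s hs => ?_⟩
    have h3 : s ∈ tsupport κ := subset_tsupport κ hs
    exact ⟨h1.2 h3, h2.2 h3⟩

theorem p_VSM (hCV3 : Stmt_CV3) (hCV2 : Pool.Flat.Stmt_CV2) (hGL3 : Pool.Flat.Stmt_GL3) :
    Stmt_VSM := by
  intro a b m κ ha hb hab hm hκ hκ0 hκc hκt
  obtain ⟨hUc, hU⟩ := hGL3.1 a b ha hb hab
  have hnn : ∀ y, 0 ≤ vs a b m y := fun y =>
    mul_nonneg (hm.r01 _).1 (mul_nonneg (norm_nonneg _) (Real.rpow_nonneg (VSM_sq a b y ha hb) _))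
  have hcon : ContinuousOn (vs a b m) {0}ᶜ := by
    intro y hy
    refine ContinuousAt.continuousWithinAt ?_
    have hUy : ContinuousAt (UU a b) y := hUc.continuousAt (isOpen_compl_singleton.mem_nhds hy)
    by_cases hmem : UU a b y ∈ tsupport m
    · have h1 := hm.ts hmem
      obtain ⟨-, -, -, -, h2, h3⟩ := hU y hy
      have h4 := h2 h1.1
      have h5 := h3 h1.2
      have h6 : ContinuousAt (sq2 a b) y := by
        unfold sq2
        refine ContinuousAt.div continuousAt_const ?_ (by positivity)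
        exact (continuousAt_const.mul (VSM_dn a).continuousAt).mul (VSM_dn b).continuousAt
      have h7 : ContinuousAt (fun y => sq2 a b y ^ (1 / 2 : ℝ)) y :=
        h6.rpow_const (Or.inr (by norm_num))
      have h8 : ContinuousAt (fun y => m (UU a b y)) y :=
        ContinuousAt.comp (g := m) hm.c1.continuous.continuousAt hUy
      exact h8.mul (continuous_norm.continuousAt.mul h7)
    · have h1 : (tsupport m)ᶜ ∈ 𝓝 (UU a b y) := (isClosed_tsupport m).isOpen_compl.mem_nhds hmem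
      have h2 : vs a b m =ᶠ[𝓝 y] fun _ => 0 := by
        filter_upwards [hUy.eventually h1] with z hz
        unfold vs
        rw [image_eq_zero_of_notMem_tsupport hz, zero_mul]
      exact continuousAt_const.congr h2.symm
  have hinv : ContinuousOn (fun y : E3 => (‖y‖ ^ 3)⁻¹) {0}ᶜ := by
    refine ContinuousOn.inv₀ (continuous_norm.pow 3).continuousOn fun y hy => ?_
    exact pow_ne_zero _ (norm_ne_zero_iff.2 hy)
  have hκz : κ 0 = 0 := image_eq_zero_of_notMem_tsupport fun h1 => lt_irrefl (0 : ℝ) (mem_Ioi.1 (hκt h1))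
  obtain ⟨r1, r2, C, hr1, hC, hr⟩ := VSM_rng κ hκ hκ0 hκc hκt
  refine ⟨hcon, hnn, VSM_cont κ hκ hκt _ (hinv.mul hcon),
    VSM_cont κ hκ hκt _ (hinv.mul (hcon.rpow_const fun y _ => Or.inr (by norm_num))), ?_, ?_⟩
  · obtain ⟨h1, h2⟩ := hCV3 a b κ r1 r2 C ha hb hab hκ.measurable hr1 hC hr
    refine le_trans (integral_mono_of_nonneg ?_ h1 ?_) h2
    · exact Filter.Eventually.of_forall fun y => mul_nonneg (hκ0 _)
        (mul_nonneg (inv_nonneg.2 (pow_nonneg (norm_nonneg _) _)) (hnn y))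
    · refine Filter.Eventually.of_forall fun y => ?_
      refine mul_le_mul_of_nonneg_left ?_ (hκ0 _)
      by_cases hy : y = 0
      · subst hy
        simp
      · have hy' : 0 < ‖y‖ := norm_pos_iff.2 hy
        have h3 : 0 ≤ (‖y‖ ^ 2)⁻¹ * sq2 a b y ^ (1 / 2 : ℝ) :=
          mul_nonneg (by positivity) (Real.rpow_nonneg (VSM_sq a b y ha hb) _)
        calc (‖y‖ ^ 3)⁻¹ * vs a b m y
            = m (UU a b y) * ((‖y‖ ^ 2)⁻¹ * sq2 a b y ^ (1 / 2 : ℝ)) := by
              unfold vs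
              field_simp
          _ ≤ 1 * ((‖y‖ ^ 2)⁻¹ * sq2 a b y ^ (1 / 2 : ℝ)) :=
              mul_le_mul_of_nonneg_right (hm.r01 _).2 h3
          _ = _ := one_mul _
  · obtain ⟨h1, h2⟩ := hCV2 a b κ r1 r2 C ha hb hab hκ.measurable hr1 hC hr
    refine le_trans (integral_mono_of_nonneg ?_ h1 ?_) h2
    · exact Filter.Eventually.of_forall fun y => mul_nonneg (hκ0 _)
        (mul_nonneg (inv_nonneg.2 (pow_nonneg (norm_nonneg _) _)) (Real.rpow_nonneg (hnn y) _))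
    · refine Filter.Eventually.of_forall fun y => ?_
      by_cases hy : y = 0
      · subst hy
        simp only [norm_zero, hκz, zero_mul, le_refl]
      · refine mul_le_mul_of_nonneg_left ?_ (hκ0 _)
        have hy' : 0 < ‖y‖ := norm_pos_iff.2 hy
        have hs := VSM_sq a b y ha hb
        have hm0 := (hm.r01 (UU a b y)).1
        have e1 : vs a b m y ^ (3 / 2 : ℝ)
            = m (UU a b y) ^ (3 / 2 : ℝ) * (‖y‖ ^ (3 / 2 : ℝ) * sq2 a b y ^ (3 / 4 : ℝ)) := by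
          unfold vs
          rw [Real.mul_rpow hm0 (mul_nonneg hy'.le (Real.rpow_nonneg hs _)),
            Real.mul_rpow hy'.le (Real.rpow_nonneg hs _), ← Real.rpow_mul hs]
          norm_num
        have e2 : (‖y‖ ^ 3)⁻¹ * ‖y‖ ^ (3 / 2 : ℝ) = ‖y‖ ^ (-(3 / 2) : ℝ) := by
          have e3 : (‖y‖ ^ 3)⁻¹ = ‖y‖ ^ (-3 : ℝ) := by
            rw [Real.rpow_neg hy'.le]
            norm_num
          rw [e3, ← Real.rpow_add hy']
          norm_num
        have h3 : 0 ≤ ‖y‖ ^ (-(3 / 2) : ℝ) * sq2 a b y ^ (3 / 4 : ℝ) :=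
          mul_nonneg (Real.rpow_nonneg hy'.le _) (Real.rpow_nonneg hs _)
        calc (‖y‖ ^ 3)⁻¹ * vs a b m y ^ (3 / 2 : ℝ)
            = m (UU a b y) ^ (3 / 2 : ℝ)
              * (((‖y‖ ^ 3)⁻¹ * ‖y‖ ^ (3 / 2 : ℝ)) * sq2 a b y ^ (3 / 4 : ℝ)) := by
              rw [e1]
              ring
          _ = m (UU a b y) ^ (3 / 2 : ℝ)
              * (‖y‖ ^ (-(3 / 2) : ℝ) * sq2 a b y ^ (3 / 4 : ℝ)) := by
              rw [e2]
          _ ≤ 1 * (‖y‖ ^ (-(3 / 2) : ℝ) * sq2 a b y ^ (3 / 4 : ℝ)) :=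
              mul_le_mul_of_nonneg_right (Real.rpow_le_one hm0 (hm.r01 _).2 (by norm_num)) h3
          _ = wt a b y := by
              rw [one_mul]
              rfl

end Pool.SQ
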