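import Pool.Agent.Work.MP_680515_sq.Interface

/-! # Block WTS: the weights -/

open MeasureTheory Set Filter Topology

set_option autoImplicit false

namespace Pool.SQ

open Pool.Mart Pool.Flat

theorem p_WTS (hSHT : Stmt_SHT) (hFSC : Stmt_FSC) : Stmt_WTS := by
  intro φ ψ A x0 r0 ρ0 h F hF hpos
  obtain ⟨s1, s2, s3, s4, s5⟩ := hSHT φ ψ A x0 r0 ρ0 h
  obtain ⟨-, -, f3, f4⟩ := hFSC φ ψ A x0 r0 ρ0 h
  have hFS : ∀ y : E3, 0 < FS φ ψ (fun x => F (x - x0)) y := fun y => add_pos (hpos _) (hpos _)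
  have hc : ContinuousOn (fun x => F (x - x0)) (UD φ ψ x0 ρ0) := by
    refine hF.comp (continuous_id.sub continuous_const).continuousOn ?_
    intro x hx
    have h1 := (s5 hx).2
    intro h2
    exact h1 (sub_eq_zero.1 h2)
  have hmap : MapsTo (fm φ ψ) (UD φ ψ x0 ρ0) (VD φ ψ x0 ρ0) := fun x hx => ⟨hx.2.1, hx.2.2⟩
  refine ⟨?_, ?_, ?_, hFS⟩
  · exact hc.div ((f4 _ hc).comp f3 hmap) fun x _ => (hFS _).ne'
  · rintro x ⟨hx, hx1, hx2⟩
    obtain ⟨-, -, -, -, -, b⟩ := s1 x hx hx2.le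
    have b1 := b fun x => F (x - x0)
    unfold wq
    refine ⟨div_nonneg (hpos _).le (hFS _).le, ?_⟩
    rw [div_le_one (hFS _), b1]
    have := (hpos (sx ψ x - x0)).le
    linarith
  · rintro y ⟨hy1, hy2⟩
    obtain ⟨x, hx, rfl⟩ := s2 y hy2.le
    obtain ⟨-, -, b3, -, -, b⟩ := s1 x hx hy2.le
    have b1 := b fun x => F (x - x0)
    rw [b (wq φ ψ x0 F)]
    unfold wq
    rw [b3, ← add_div, b1]
    exact div_self (add_pos (hpos _) (hpos _)).ne'

end Pool.SQ
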