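import Pool.Agent.Work.MP_680515_sq.All
import Pool.Agent.Work.MP_680515_an.DefsR

/-!
# The inner distortion of `φ ∘ w ∘ ψ` is larger than `√2`

`w` is the winding map `(r, θ, z) ↦ (r, 2θ, z)`.  Every quasiregular map `f = φ ∘ w ∘ ψ`, where `φ`
and `ψ` are arbitrary homeomorphisms between open sets of `ℝ³` and the image of `ψ` meets the third
axis (so the branch set of `f` is not empty), has inner distortion larger than `283/200 > √2`.  There
is no hypothesis on the branch set.  The definitions are in
`Pool/Agent/Work/MP_680515_an/Defs.lean`, `Pool/Agent/Work/MP_680515_an/DefsR.lean` and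
`Pool/Agent/Work/MP_680515_fl/Defs.lean` (`bset`).
-/

set_option autoImplicit false

open Set

namespace Pool.Agent.Results.MP_680515_an.BeyondSqrtTwo

open Pool.Mart Pool.Flat

/-- Let `φ`, `ψ` be homeomorphisms between open subsets of `ℝ³`, `Ω` the domain of `ψ`, with
`w(ψ(Ω))` in the domain of `φ`, such that some point of `Ω` is mapped by `ψ` to the third axis.  If
`f = φ ∘ w ∘ ψ` is quasiregular on `Ω` with weak gradient `A` and its inner distortion is at most `K`
almost everywhere, then `283/200 < K` (and `283/200 = 1.415 > √2`). -/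
theorem result :
    ∀ (φ ψ : OpenPartialHomeomorph E3 E3) (A : E3 → M3) (K : ℝ),
      (∀ x ∈ ψ.source, wind (ψ x) ∈ φ.source) → (bset ψ.source ψ).Nonempty →
      Quasiregular ψ.source (fun x => φ (wind (ψ x))) A → InnerDistLe ψ.source A K →
      283 / 200 < K :=
  fun φ ψ A K h1 h2 h3 h4 => Pool.SQ.final φ ψ A K h1 h2 h3.qreg h4.innerDist

end Pool.Agent.Results.MP_680515_an.BeyondSqrtTwo
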