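import Pool.Agent.Work.MP_680515_fl.Iface4

/-!
# MP_680515_an, THEOREM SQ: definitions

`f = φ ∘ w ∘ ψ` quasiregular, `φ`, `ψ` arbitrary homeomorphisms between open subsets of `ℝ³`, `w` the
winding map.  Then the inner distortion of `f` is larger than `283/200 > √2`, for every branch set.
Paper proof: note 3352 of the team database.
-/

open MeasureTheory Set Filter Topology

namespace Pool.SQ

open Pool.Mart Pool.Flat

/-- THE FINAL THEOREM. -/
def Stmt_FinalSQ : Prop :=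
  ∀ (φ ψ : OpenPartialHomeomorph E3 E3) (A : E3 → M3) (K : ℝ),
    (∀ x ∈ ψ.source, wind (ψ x) ∈ φ.source) → (bset ψ.source ψ).Nonempty →
    QReg ψ.source (fun x => φ (wind (ψ x))) A → InnerDist ψ.source A K → 283 / 200 < K

/-- Local data at a branch point `x0` of `f = fm φ ψ`, for a map of inner distortion at most
`283/200`: all preimages of the closed ball `B(f x0, ρ0)` are in the open ball `B(x0, r0)`. -/
structure BP (φ ψ : OpenPartialHomeomorph E3 E3) (A : E3 → M3) (x0 : E3) (r0 ρ0 : ℝ) : Prop where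
  wm : WM φ ψ A
  dist : InnerDist ψ.source A (283 / 200)
  xS : x0 ∈ bset ψ.source ψ
  rpos : 0 < r0
  ρpos : 0 < ρ0
  sub : Metric.closedBall x0 r0 ⊆ ψ.source
  tgt : Metric.closedBall (fm φ ψ x0) ρ0 ⊆ φ.target
  pre : wind ⁻¹' (φ.symm '' Metric.closedBall (fm φ ψ x0) ρ0) ⊆ ψ.target
  shr : ∀ x ∈ ψ.source, ‖fm φ ψ x - fm φ ψ x0‖ ≤ ρ0 → ‖x - x0‖ < r0

/-- The punctured neighbourhood of `x0`: preimage of the punctured ball. -/
def UD (φ ψ : OpenPartialHomeomorph E3 E3) (x0 : E3) (ρ0 : ℝ) : Set E3 :=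
  {x | x ∈ ψ.source ∧ 0 < ‖fm φ ψ x - fm φ ψ x0‖ ∧ ‖fm φ ψ x - fm φ ψ x0‖ < ρ0}

/-- The punctured ball in the target. -/
def VD (φ ψ : OpenPartialHomeomorph E3 E3) (x0 : E3) (ρ0 : ℝ) : Set E3 :=
  {y | 0 < ‖y - fm φ ψ x0‖ ∧ ‖y - fm φ ψ x0‖ < ρ0}

/-- The other sheet. -/
noncomputable def sx (ψ : OpenPartialHomeomorph E3 E3) (x : E3) : E3 := ψ.symm (sg (ψ x))

/-- A section of the winding map. -/
noncomputable def ws (y : E3) : E3 := Classical.epsilon fun y' => wind y' = y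

/-- Sum of `h` over the two preimages of `y` under `fm φ ψ`. -/
noncomputable def FS (φ ψ : OpenPartialHomeomorph E3 E3) (h : E3 → ℝ) (y : E3) : ℝ :=
  h (ψ.symm (ws (φ.symm y))) + h (sx ψ (ψ.symm (ws (φ.symm y))))

/-- The weight of a sheet: `F (x - x0)` divided by the sum of its values on the two sheets. -/
noncomputable def wq (φ ψ : OpenPartialHomeomorph E3 E3) (x0 : E3) (F : E3 → ℝ) (x : E3) : ℝ :=
  F (x - x0) / FS φ ψ (fun x => F (x - x0)) (fm φ ψ x)

/-- Smoothed angle between `X` and `e`. -/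
noncomputable def dlt (c : ℝ) (e X : E3) : ℝ := Real.arccos (c * (inner ℝ X e / ‖X‖))

/-- The scale invariant norm of the conformal field, cut off near the two rays. -/
noncomputable def vs (a b : E3) (m : ℝ → ℝ) (y : E3) : ℝ :=
  m (UU a b y) * (‖y‖ * sq2 a b y ^ (1 / 2 : ℝ))

/-- The majorant of the cost. -/
noncomputable def Ch (q : ℝ) : ℝ := 321 / 1000 + 481 / 1000 * q + 458 / 1000 * q ^ (3 / 2 : ℝ)

/-- A cut-off function for the conformal field. -/
structure Cut (m : ℝ → ℝ) : Prop where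
  c1 : ContDiff ℝ 1 m
  cs : HasCompactSupport m
  ts : tsupport m ⊆ Ioo (-1) 1
  r01 : ∀ u, 0 ≤ m u ∧ m u ≤ 1

/-- An admissible function of the level: `C^1`, nonnegative, compact support in `(t1, t2)`. -/
structure Kap (t1 t2 : ℝ) (κ : ℝ → ℝ) : Prop where
  c1 : ContDiff ℝ 1 κ
  nn : ∀ s, 0 ≤ κ s
  cs : HasCompactSupport κ
  ts : tsupport κ ⊆ Ioo t1 t2

end Pool.SQ
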