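import Pool.Agent.Work.MP_680515_sq.Defs

/-!
# MP_680515_an, THEOREM SQ: interface

Notation in the docstrings: `Ω = ψ.source`, `f = fm φ ψ`, `q0 = f x0`, `X = x - x0`, `Y = f x - q0`,
`J = det (A x)`, `B = cofm (A x)`, `N = opn B`, `T = ∫ κ(s)/s ds`, `UD`, `VD` as in `Defs.lean`.
`F.ABC` in the column `uses` means `Pool.Flat.Stmt_ABC`, `M.ABC` means `Pool.Mart.Stmt_ABC` (take them
as hypotheses, all are proved in the library).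
-/

open MeasureTheory Set Filter Topology

namespace Pool.SQ

open Pool.Mart Pool.Flat

/-! ## Part 1. Linear algebra and numbers -/

/-- CON.  Contractions of `ℝ³`.  Proof: `P = Mᵀ M`, `0 ≤ P ≤ 1`, `|M b|² = ⟨b, P b⟩`,
`|cof(M) b|² = ⟨b, adj(P) b⟩` (`cof` is multiplicative, `P` symmetric), `det P = det(M)²`, and
`(1 + det P) 1 - P - adj P = (1 - P)(1 - adj P)` because `P adj P = det P`.  In an orthonormal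
eigenbasis of `P` (eigenvalues `p1, p2, p3 ∈ [0, 1]`) the diagonal entries of the right side are
`(1 - p1)(1 - p2 p3) ≥ 0` etc. (`Matrix.IsHermitian.spectral_theorem`); or: `1 - P` and `1 - adj P`
are commuting positive semidefinite matrices. -/
def Stmt_CON : Prop :=
  ∀ (M : M3) (b : E3), opn M ≤ 1 → ‖b‖ = 1 →
    ‖act M b‖ ^ 2 + ‖act (cofm M) b‖ ^ 2 ≤ 1 + M.det ^ 2

/-- MAT.  Proof: `J = det A > 0`, `B = cofm A`, `N = opn B > 0` (`A ≠ 0`: `cofm B = J A` is not `0`).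
`BAS` (4) for `B` and `v = w` a unit vector: `|det B| ≤ |B v| |cofm(B) v| ≤ N · N²` and
`det B = J²`.  `⟨u, B b⟩ ≤ N`; `J ⟨u, A b⟩ = ⟨u, cofm(B) b⟩ ≤ opn (cofm B) ≤ N²` (`BAS` (6), (7)).  Last
part: `M = N⁻¹ B`, `opn M ≤ 1`, `cofm M = N⁻² cofm B = N⁻² J A`, `det M = J²/N³ ≥ 0`; by `CON` and
`⟨M b, cofm(M) b⟩ = det M`: `|M b + cofm(M) b|² ≤ (1 + det M)²`; pair with `u`. -/
def Stmt_MAT : Prop :=
  ∀ (A : M3) (b u : E3), Good A → 0 < A.det → ‖b‖ = 1 → ‖u‖ = 1 →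
    0 < opn (cofm A) ∧ A.det ^ 2 ≤ opn (cofm A) ^ 3 ∧
    inner ℝ u (act (cofm A) b) ≤ opn (cofm A) ∧
    A.det * inner ℝ u (act A b) ≤ opn (cofm A) ^ 2 ∧
    inner ℝ u (act (cofm A) b) / opn (cofm A) + A.det * inner ℝ u (act A b) / opn (cofm A) ^ 2
      ≤ 1 + A.det ^ 2 / opn (cofm A) ^ 3

/-- CUB.  Three cubic inequalities (all are true with a small margin; minima near `D = 0.7`, `0.8`,
`0.95`).  Proof: the versions without `q` are cubics in one variable (`nlinarith` with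
`sq_nonneg (D - 0.713)`, `(D - 0.76)`, `(D - 0.642)` times `D` or `1`).  With `q = r²`, `q^(3/2) = r³`:
if `D ≤ c1 = 0.481` the terms with `r` are `≥ 0` and the cubic is `≥ 0`.  If `D ≥ c1`, with
`r0 = 2 (D - c1)/(3 c2)`, `c2 = 0.458`:
`c2 r³ - (D - c1) r² + (4/(27 c2²)) (D - c1)³ = c2 (r - r0)² (r + r0/2) ≥ 0`, and the one variable
cubics `200/283 D³ - D/2 - .. + 0.321 - (4/(27 c2²)) (D - c1)³ ≥ 0` (`4/(27 c2²) = 0.70627..` is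
smaller than `200/283 = 0.70671..`; minima at `D = 0.806`, `0.946`, `0.669`, margins `> 0.0002`;
write the cubic as `ε D³ + a D² - b D + c` and use `D³ ≥ 3 d² D - 2 d³`). -/
def Stmt_CUB : Prop :=
  ∀ D : ℝ, 0 ≤ D →
    (0 ≤ 200 / 283 * D ^ 3 - D / 2 - 574 / 1000 * (200 / 283) * D ^ 2 + 307 / 1000 ∧
      0 ≤ 200 / 283 * D ^ 3 - 200 / 283 * D / 2 - 574 / 1000 * D ^ 2 + 307 / 1000 ∧
      0 ≤ D ^ 3 - D / 2 - 574 / 1000 * D ^ 2 + 307 / 1000) ∧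
    ∀ q : ℝ, 0 ≤ q →
      (0 ≤ 200 / 283 * D ^ 3 - D / 2 - 574 / 1000 * (200 / 283) * D ^ 2 - q * D + Ch q ∧
        0 ≤ 200 / 283 * D ^ 3 - 200 / 283 * D / 2 - 574 / 1000 * D ^ 2 - q * D + Ch q ∧
        0 ≤ D ^ 3 - D / 2 - 574 / 1000 * D ^ 2 - q * D + Ch q)

/-- PWR.  Linear programming.  Proof: `α = D/2`, `γ = 0.574 D²`.  If `α ≥ γ`:
`a α + c γ = a (α - γ) + (a + c) γ ≤ α + d γ`; otherwise `a α + c γ ≤ d α + γ`.  Then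
`d D³ - α - d γ` and `d D³ - d α - γ` are affine in `d ∈ [200/283, 1]`, so at least the smaller of
the two end values, given by `CUB` (at `d = 1` both are the third inequality). -/
def Stmt_PWR : Prop :=
  ∀ a c d D q : ℝ, 0 ≤ D → 0 ≤ q → a ≤ 1 → c ≤ 1 → a + c ≤ 1 + d → 200 / 283 ≤ d → d ≤ 1 →
    0 ≤ d * D ^ 3 - a * D / 2 - 574 / 1000 * c * D ^ 2 + 307 / 1000 ∧
    0 ≤ d * D ^ 3 - a * D / 2 - 574 / 1000 * c * D ^ 2 - q * D + Ch q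

/-- PWI.  The pointwise inequality.  Proof: `J = det A ≥ 0` (`Good`).  If `J = 0` then `opn A = 0`,
`A = 0`, and the claim is `0 ≤ |X|⁻³`.  If `J > 0`: `b = X/|X|`, `u = Y/|Y|`, `σ = |Y|/|X|`,
`D = σ N/J`, `a = ⟨u, B b⟩/N`, `c = J ⟨u, A b⟩/N²`, `d = J²/N³ ∈ [200/283, 1]` (`MAT`,
`N³ ≤ (283/200) J²`).  The right side is `|X|⁻³ (J/σ³)` times
`d D³ - a D/2 - 0.574 c D² - w q D + (1 - w) (307/1000) + w Ch q`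
(`σ³/J = d D³`, `fx A X Y/|X| = |Y|⁻² |X|⁻¹ ⟨u, B b⟩`), which is `(1 - w)` times the first expression
of `PWR` plus `w` times the second one. -/
def Stmt_PWI : Prop :=
  ∀ (A : M3) (X Y : E3) (q w : ℝ), Good A → opn (cofm A) ^ 3 ≤ 283 / 200 * A.det ^ 2 → X ≠ 0 →
    Y ≠ 0 → 0 ≤ q → 0 ≤ w → w ≤ 1 →
    0 ≤ (‖X‖ ^ 3)⁻¹ - 1 / 2 * (fx A X Y / ‖X‖)
      - 574 / 1000 * (inner ℝ Y (act A X) / (‖X‖ ^ 3 * ‖Y‖ ^ 2))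
      - w * q * opn (cofm A) / (‖Y‖ ^ 2 * ‖X‖)
      + A.det * (‖Y‖ ^ 3)⁻¹ * ((1 - w) * (307 / 1000) + w * Ch q)

/-- NUM.  `I0 = 5.2441..`.  Proof: `I0 = 2 ∫_0^1 (1 - u²)^{-3/4} du`; substitution `u = 1 - v⁴`:
`I0 = 8 ∫_0^1 (2 - v⁴)^{-3/4} dv`.  For `t ∈ [0, 1]`: `(2 - t)^{-3/4} ≤ p(t) = 0.5947 + 0.223 t + 0.1824 t²`
(equivalent to `1 ≤ p(t)⁴ (2 - t)³`, margin `> 0.0003`; or: the Taylor coefficients of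
`(2 - t)^{-3/4}` are nonnegative, so the function is below `f(0) + f'(0) t + (1 - f(0) - f'(0)) t²`).
So `I0 ≤ 8 (0.5947 + 0.223/5 + 0.1824/9) < 5.28`. -/
def Stmt_NUM : Prop := I0 ≤ 528 / 100

/-! ## Part 2. The map near a branch point -/

/-- BPE.  Proof: `s0, R0` from `TPA`, `r0 = R0`, `ρ0 = min (3 s0) s2` with `s2` for `R1 = R0`
(`image_mono`, `preimage_mono`). -/
def Stmt_BPE : Prop :=
  ∀ (φ ψ : OpenPartialHomeomorph E3 E3) (A : E3 → M3) (x0 : E3), WM φ ψ A →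
    InnerDist ψ.source A (283 / 200) → x0 ∈ bset ψ.source ψ → ∃ r0 ρ0 : ℝ, BP φ ψ A x0 r0 ρ0

/-- SHT.  The sheets.  Proof: if `x ∈ Ω`, `|f x - q0| ≤ ρ0`, then `φ.symm (f x) = wind (ψ x)`, so
`sg (ψ x) ∈ wind⁻¹ (φ.symm '' ..) ⊆ ψ.target` (`wind (sg y) = wind y`); hence `sx ψ x ∈ Ω`,
`ψ (sx ψ x) = sg (ψ x)`, `f (sx ψ x) = f x`, `sx (sx x) = x` (`sg (sg y) = y`).  If `f x' = f x` then
`wind (ψ x') = wind (ψ x)` (`φ` is injective on its source) and `WOP` (5).  `y' = ws (φ.symm (f x))`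
satisfies `wind y' = wind (ψ x)`, so it is `ψ x` or `sg (ψ x)`.  Preimages: `x = ψ.symm (ws (φ.symm y))`.
Sphere: `shr`.  `x0` is the only preimage of `q0` (`rad (ψ x0) = 0`, `sg (ψ x0) = ψ x0`). -/
def Stmt_SHT : Prop :=
  ∀ (φ ψ : OpenPartialHomeomorph E3 E3) (A : E3 → M3) (x0 : E3) (r0 ρ0 : ℝ),
    BP φ ψ A x0 r0 ρ0 →
    (∀ x ∈ ψ.source, ‖fm φ ψ x - fm φ ψ x0‖ ≤ ρ0 → sx ψ x ∈ ψ.source ∧
      ψ (sx ψ x) = sg (ψ x) ∧ fm φ ψ (sx ψ x) = fm φ ψ x ∧ sx ψ (sx ψ x) = x ∧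
      (∀ x' ∈ ψ.source, fm φ ψ x' = fm φ ψ x → x' = x ∨ x' = sx ψ x) ∧
      (∀ h : E3 → ℝ, FS φ ψ h (fm φ ψ x) = h x + h (sx ψ x))) ∧
    (∀ y : E3, ‖y - fm φ ψ x0‖ ≤ ρ0 → ∃ x ∈ ψ.source, fm φ ψ x = y) ∧
    (∀ x : E3, ‖x - x0‖ = r0 → ρ0 < ‖fm φ ψ x - fm φ ψ x0‖) ∧
    (∀ x ∈ ψ.source, fm φ ψ x = fm φ ψ x0 → x = x0) ∧
    UD φ ψ x0 ρ0 ⊆ Metric.ball x0 r0 \ {x0}

/-- FSC.  The fibre sum is continuous.  Proof: `UD` is open (`FOP`).  Let `y0 ∈ VD`, `x ∈ UD` with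
`f x = y0` (`SHT`).  `k x' = h x' + h (sx ψ x')` is continuous at `x` on `UD` (`sx` maps `UD` to `UD` and is
continuous there).  For `ε > 0` let `W ∋ x` be open in `UD` with `|k - k x| < ε` on `W`; `f '' W` is an
open neighbourhood of `y0` (`FOP`) and `FS h (f x') = k x'` (`SHT`). -/
def Stmt_FSC : Prop :=
  ∀ (φ ψ : OpenPartialHomeomorph E3 E3) (A : E3 → M3) (x0 : E3) (r0 ρ0 : ℝ),
    BP φ ψ A x0 r0 ρ0 → IsOpen (UD φ ψ x0 ρ0) ∧ IsOpen (VD φ ψ x0 ρ0) ∧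
    ContinuousOn (fm φ ψ) (UD φ ψ x0 ρ0) ∧
    ∀ h : E3 → ℝ, ContinuousOn h (UD φ ψ x0 ρ0) → ContinuousOn (FS φ ψ h) (VD φ ψ x0 ρ0)

/-- WTS.  The weights.  Proof: `FS F' (f x) = F' x + F' (sx x) > 0` with `F' x = F (x - x0)`;
`wq x = F' x/FS F' (f x)`, continuous by `FSC` (`x - x0 ≠ 0` on `UD`); `f (sx x) = f x`, so
`FS (wq) (f x) = (F' x + F' (sx x))/FS F' (f x) = 1`. -/
def Stmt_WTS : Prop :=
  ∀ (φ ψ : OpenPartialHomeomorph E3 E3) (A : E3 → M3) (x0 : E3) (r0 ρ0 : ℝ),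
    BP φ ψ A x0 r0 ρ0 → ∀ F : E3 → ℝ, ContinuousOn F {0}ᶜ → (∀ X, 0 < F X) →
    ContinuousOn (wq φ ψ x0 F) (UD φ ψ x0 ρ0) ∧
    (∀ x ∈ UD φ ψ x0 ρ0, 0 ≤ wq φ ψ x0 F x ∧ wq φ ψ x0 F x ≤ 1) ∧
    (∀ y ∈ VD φ ψ x0 ρ0, FS φ ψ (wq φ ψ x0 F) y = 1) ∧
    (∀ y : E3, 0 < FS φ ψ (fun x => F (x - x0)) y)

/-- DGB.  The degree is at least two.  Proof (compare the blocks `DEG2` and `LOC` (`two`) in
`Work/MP_680515_fl`): `INTG` with `R = r0`, `ρ = ρ0`, `q = q0` (`SHT`: sphere) gives `k ∈ ℤ`.  Let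
`a = ψ x0` (`rad a = 0`), `y1 = a + u e`, `y2 = sg y1`, `e = single 0 1`, `u > 0` small: `x_i = ψ.symm y_i`,
`f x1 = f x2`, close to `q0`, `x1 ≠ x2`, `f` is injective on small closed balls around `x_i` (`wind` is
injective on `{y 0 > 0}` and on `{y 0 < 0}`).  `POS` at `x1, x2` and a bump `g ≥ 0` near `f x1`:
`k ∫ g ≥ 2 ∫ g`. -/
def Stmt_DGB : Prop :=
  ∀ (φ ψ : OpenPartialHomeomorph E3 E3) (A : E3 → M3) (x0 : E3) (r0 ρ0 : ℝ),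
    BP φ ψ A x0 r0 ρ0 → ∃ c : ℕ, 2 ≤ c ∧ ∀ g : E3 → ℝ, Continuous g → HasCompactSupport g →
      tsupport g ⊆ Metric.ball (fm φ ψ x0) ρ0 →
      ∫ x in Metric.ball x0 r0, (A x).det * g (fm φ ψ x) = c * ∫ y, g y

/-- ARD.  Almost every point is covered by two sheets.  Proof (compare the block `ARE` in
`Work/MP_680515_fl`): a measurable `D ⊆ Ω` of full measure where `f` has derivative `A x` (`DAE`,
`FOP`) and `det ≥ 0`.  `D1`, `D2`, `D3` = points of `D ∩ UD` with `ψ x` in (i) `y 1 > 0` or (`y 1 = 0`,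
`y 0 > 0`), (ii) `y 1 < 0` or (`y 1 = 0`, `y 0 < 0`), (iii) `rad y = 0`.  `f` is injective on each;
`f '' D3` is disjoint from `f '' D1 ∪ f '' D2` (`FOP` (3)).  Let `n y` be the number of `i` with
`y ∈ f '' D i`; `n ≤ 2`.  For continuous `g ≥ 0` with compact support in the ball
`B(q0, ρ0)`: `c ∫ g = ∫_{ball x0 r0} J g(f) = ∫ n g` (`DGB`,
`lintegral_image_eq_lintegral_abs_det_fderiv_mul`; outside `D ∩ UD` the integrand is `0` a.e.), and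
`c ≥ 2`; so `n = 2` a.e. on the ball, i.e. a.e. `y` is in `f '' D1 ∩ f '' D2`, and `f '' D3` is a null
set, so `∫_{D3} det = 0` and `det = 0` a.e. on `D3`. -/
def Stmt_ARD : Prop :=
  ∀ (φ ψ : OpenPartialHomeomorph E3 E3) (A : E3 → M3) (x0 : E3) (r0 ρ0 : ℝ),
    BP φ ψ A x0 r0 ρ0 → ∃ D1 D2 : Set E3, MeasurableSet D1 ∧ MeasurableSet D2 ∧ Disjoint D1 D2 ∧
      D1 ⊆ UD φ ψ x0 ρ0 ∧ D2 ⊆ UD φ ψ x0 ρ0 ∧ InjOn (fm φ ψ) D1 ∧ InjOn (fm φ ψ) D2 ∧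
      (∀ x ∈ D1 ∪ D2, 0 ≤ (A x).det ∧ HasFDerivAt (fm φ ψ)
        (LinearMap.toContinuousLinearMap (Matrix.toEuclideanLin (A x))) x) ∧
      (∀ x ∈ D1, ∀ x' ∈ D2, fm φ ψ x = fm φ ψ x' → x' = sx ψ x) ∧
      (∀ᵐ x ∂(volume.restrict (UD φ ψ x0 ρ0)), x ∉ D1 ∪ D2 → (A x).det = 0) ∧
      (∀ᵐ y ∂(volume.restrict (Metric.ball (fm φ ψ x0) ρ0)),
        y ∈ fm φ ψ '' D1 ∧ y ∈ fm φ ψ '' D2)

/-- WDEG.  Weighted degree formula.  Proof: `ARD`.  The left integrand vanishes a.e. outside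
`D1 ∪ D2` (outside `UD` because `g (f x) = 0`).  On `D i` change of variables
(`integral_image_eq_integral_abs_det_fderiv_smul`) with the function `y ↦ h (inv_i y) g y`,
`inv_i = Function.invFunOn f (D i)`: the integral is `∫_{f '' D i} h (inv_i y) g y dy`.  For a.e. `y`
in the ball `inv_2 y = sx (inv_1 y)`, so the sum is `∫ FS h y g y dy` (`SHT`); outside the ball `g = 0`.
Integrability: `h` is bounded on the compact set `{x ∈ closedBall x0 r0 : f x ∈ tsupport g} ⊆ UD`,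
`det A` is integrable there (`PIOI`); `FS h · g` is continuous with compact support (`FSC`). -/
def Stmt_WDEG : Prop :=
  ∀ (φ ψ : OpenPartialHomeomorph E3 E3) (A : E3 → M3) (x0 : E3) (r0 ρ0 : ℝ),
    BP φ ψ A x0 r0 ρ0 → ∀ h g : E3 → ℝ, ContinuousOn h (UD φ ψ x0 ρ0) → Continuous g →
    HasCompactSupport g → tsupport g ⊆ VD φ ψ x0 ρ0 →
    IntegrableOn (fun x => (A x).det * (h x * g (fm φ ψ x))) (Metric.ball x0 r0) ∧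
    Integrable (fun y => FS φ ψ h y * g y) ∧
    ∫ x in Metric.ball x0 r0, (A x).det * (h x * g (fm φ ψ x)) = ∫ y, FS φ ψ h y * g y

/-- INT.  Integrability.  Proof: `C = {x ∈ closedBall x0 r0 : |Y| ∈ tsupport κ}` is compact and
contained in `UD` (`SHT`: sphere), all integrands vanish on `ball x0 r0 \ C`; on `C` the functions
`g`, `H`, `b` are bounded and continuous; `PIOI` for `det`, `opn ^ 3`, `opn ^ 2`, `cpair`;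
`opn (cofm A) ≤ opn A ^ 2` (`BAS`), `opn A ≤ 1 + opn A ^ 3`, `|⟨H, act A b⟩| ≤ |H| opn A |b|`;
measurability: the entries of `A` are a.e. strongly measurable on `C` (`WeakGrad.loc`), `opn` and the
other functions of the matrix are continuous. -/
def Stmt_INT : Prop :=
  ∀ (φ ψ : OpenPartialHomeomorph E3 E3) (A : E3 → M3) (x0 : E3) (r0 ρ0 : ℝ),
    BP φ ψ A x0 r0 ρ0 → ∀ κ : ℝ → ℝ, Continuous κ → HasCompactSupport κ → tsupport κ ⊆ Ioo 0 ρ0 →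
    (∀ g : E3 → ℝ, ContinuousOn g (UD φ ψ x0 ρ0) →
      IntegrableOn (fun x => κ ‖fm φ ψ x - fm φ ψ x0‖ * g x) (Metric.ball x0 r0) ∧
      IntegrableOn (fun x => κ ‖fm φ ψ x - fm φ ψ x0‖ * (g x * (A x).det))
        (Metric.ball x0 r0) ∧
      IntegrableOn (fun x => κ ‖fm φ ψ x - fm φ ψ x0‖ * (g x * opn (cofm (A x))))
        (Metric.ball x0 r0)) ∧
    (∀ H b : E3 → E3, ContinuousOn H (UD φ ψ x0 ρ0) → ContinuousOn b (UD φ ψ x0 ρ0) →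
      IntegrableOn (fun x => κ ‖fm φ ψ x - fm φ ψ x0‖ * cpair (A x) (H x) (b x))
        (Metric.ball x0 r0) ∧
      IntegrableOn (fun x => κ ‖fm φ ψ x - fm φ ψ x0‖ * inner ℝ (H x) (act (A x) (b x)))
        (Metric.ball x0 r0))

/-! ## Part 3. The logarithmic identity -/

/-- LG1.  Logarithm of a continuous function in a divergence integral (pure analysis).  Proof: `C` a
compact neighbourhood of `tsupport Z` in `V`, `χ` a cut-off (`χ = 1` on `C`, compact support in `V`,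
`0 ≤ χ ≤ 1`), `Q' = χ Q + (1 - χ)`: continuous, `1` outside a compact set, so uniformly continuous and
`≥ c > 0`.  `ζ_n` symmetric normed bumps (`ContDiffBump` at `0`) with radius tending to `0`,
`Q_n = ζ_n ⋆ Q'` (smooth, `≥ c`, `Q_n → Q'` uniformly), `W_n = Z/Q_n` (`C^1`, support in `tsupport Z`),
`X_n = ζ_n ⋆ W_n`.  `X_n → Z/Q'` uniformly (the `W_n` converge uniformly to the uniformly continuous
function `Z/Q'`), support in `C` for large `n` (drop the first ones).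
`∫ Q divv X_n = ∫ Q' (ζ_n ⋆ divv W_n) = ∫ (ζ_n ⋆ Q') divv W_n = ∫ Q_n divv (Z/Q_n)`
`= - ∫ ⟨∇ log Q_n, Z⟩ = ∫ log Q_n divv Z → ∫ log Q divv Z` (integration by parts:
`integral_mul_fderiv_eq_neg_fderiv_mul_of_integrable` componentwise). -/
def Stmt_LG1 : Prop :=
  ∀ (V : Set E3) (Q : E3 → ℝ) (Z : E3 → E3), IsOpen V → ContinuousOn Q V → (∀ y ∈ V, 0 < Q y) →
    ContDiff ℝ 1 Z → HasCompactSupport Z → tsupport Z ⊆ V →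
    ∃ (C : Set E3) (X : ℕ → E3 → E3), IsCompact C ∧ C ⊆ V ∧
      (∀ n, ContDiff ℝ 1 (X n) ∧ HasCompactSupport (X n) ∧ tsupport (X n) ⊆ C) ∧
      TendstoUniformly (fun n => X n) (fun y => (Q y)⁻¹ • Z y) atTop ∧
      Tendsto (fun n => ∫ y, Q y * divv (X n) y) atTop
        (𝓝 (∫ y, Real.log (Q y) * divv Z y))

/-- LGI.  The logarithmic identity.  `Q y = FS F' (y + q0)`, `F' x = F (x - x0)`.  Proof: `LG1` with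
`V = {y | 0 < |y| < ρ0}` (`Q` is continuous there by `FSC`, positive by `WTS`) gives `X_n`.  For every
`n`: `LPI` with the field `X_n`, `h = F`, `K' = {|y| : y ∈ C}`, then `WDEG` with `h = F'`,
`g y = divv X_n (y - q0)`:
`∫_ball cpair(A, X_n(Y), ∇F(X)) = - ∫_ball F(X) J divv X_n(Y) = - ∫ Q divv X_n`, which converges to
`- ∫ log Q divv Z`.  Left side: the difference to the claimed integral is at most
`sup |X_n - Z/Q| · sup |∇F(X)| ∫ opn (cofm A)` over the compact set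
`{x ∈ closedBall x0 r0 : Y ∈ C} ⊆ UD` (`BAS`, `PIOI`). -/
def Stmt_LGI : Prop :=
  ∀ (φ ψ : OpenPartialHomeomorph E3 E3) (A : E3 → M3) (x0 : E3) (r0 ρ0 : ℝ),
    BP φ ψ A x0 r0 ρ0 → ∀ (F : E3 → ℝ) (Z : E3 → E3), ContDiffOn ℝ 1 F {0}ᶜ → (∀ X, 0 < F X) →
    ContDiff ℝ 1 Z → HasCompactSupport Z → tsupport Z ⊆ {y | 0 < ‖y‖ ∧ ‖y‖ < ρ0} →
    IntegrableOn (fun x => cpair (A x) ((FS φ ψ (fun x => F (x - x0)) (fm φ ψ x))⁻¹ •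
      Z (fm φ ψ x - fm φ ψ x0)) (gradv F (x - x0))) (Metric.ball x0 r0) ∧
    ∫ x in Metric.ball x0 r0, cpair (A x) ((FS φ ψ (fun x => F (x - x0)) (fm φ ψ x))⁻¹ •
      Z (fm φ ψ x - fm φ ψ x0)) (gradv F (x - x0))
      = - ∫ y, Real.log (FS φ ψ (fun x => F (x - x0)) (y + fm φ ψ x0)) * divv Z y

/-- DEL.  The smoothed angle.  Proof: `t = ⟨X, e⟩/|X|`, `|t| ≤ 1`, `|c t| < 1`, so `arccos` is smooth at
`c t`; `|∇ t| = √(1 - t²)/|X|`, `|arccos'(c t)| = 1/√(1 - c² t²)` and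
`c √(1 - t²) ≤ √(1 - c² t²)`. -/
def Stmt_DEL : Prop :=
  ∀ (c : ℝ) (e : E3), 0 < c → c < 1 → ‖e‖ = 1 →
    ContDiffOn ℝ 1 (dlt c e) {0}ᶜ ∧ (∀ X, 0 ≤ dlt c e X ∧ dlt c e X ≤ Real.pi) ∧
    ∀ X : E3, X ≠ 0 → ‖gradv (dlt c e) X‖ ≤ ‖X‖⁻¹

/-! ## Part 4. One level -/

/-- GEO.  The two directions at a level.  Proof: `p = x0`.  Arc `t ↦ ψ.symm (ψ p + t • e3)`, `t ∈ [0, a]`
(in `bset`, continuous, `f` of it is `φ (ψ p + t • e3)`); `s1 = min ρ0 |f (end) - q0| > 0`.  For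
`s < s1` a point `z ∈ bset` of the arc with `|f z - q0| = s` (intermediate value theorem), `e = un (z - p)`.
Ray `p - t e`, `t ∈ [0, r0]`: `|f - q0|` goes from `0` to more than `ρ0` (`SHT`), so there is
`ξ = p - t e`, `t > 0`, with `|f ξ - q0| = s`.  `a = un (f z - q0)`, `b = un (f ξ - q0)`.  `a ≠ b`: otherwise
`f ξ = f z`, `ξ = z` (`FOP` (3)), but `un (ξ - p) = - e`.  Given `ε`: `TPA` at `z` (last part): if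
`|f x - f z| ≤ s2` then `x` is so close to `z` that `⟨x - p, e⟩ ≥ (1 - ε) |x - p|`.  `FOP`: the image of a
neighbourhood `W` of `ξ` in `Ω` where `x ≠ p`, `⟨x - p, e⟩ ≤ - (1 - ε) |x - p|` contains
`ball (f ξ) s3`.  `GL3` with `c' = min s2 s3/(2 s)`, `T = s` (`f z = q0 + s a`, `f ξ = q0 + s b`), make `β`
smaller if necessary (`s e^β < s1`). -/
def Stmt_GEO : Prop :=
  ∀ (φ ψ : OpenPartialHomeomorph E3 E3) (A : E3 → M3) (x0 : E3) (r0 ρ0 : ℝ),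
    BP φ ψ A x0 r0 ρ0 → ∃ s1 : ℝ, 0 < s1 ∧ s1 ≤ ρ0 ∧ ∀ s ∈ Ioo 0 s1, ∃ e a b : E3,
      ‖e‖ = 1 ∧ ‖a‖ = 1 ∧ ‖b‖ = 1 ∧ a ≠ b ∧ ∀ ε : ℝ, 0 < ε → ∃ β η : ℝ, 0 < β ∧
        s * Real.exp β < s1 ∧ 0 < η ∧ η ≤ 1 / 2 ∧
        (∀ x ∈ ψ.source, ‖fm φ ψ x - fm φ ψ x0‖ ∈ Icc (s * Real.exp (-β)) (s * Real.exp β) →
          UU a b (fm φ ψ x - fm φ ψ x0) ≤ -1 + η → (1 - ε) * ‖x - x0‖ ≤ inner ℝ (x - x0) e) ∧
        (∀ y : E3, ‖y‖ ∈ Icc (s * Real.exp (-β)) (s * Real.exp β) → 1 - η ≤ UU a b y →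
          ∃ x ∈ ψ.source, x ≠ x0 ∧ fm φ ψ x = fm φ ψ x0 + y ∧
            inner ℝ (x - x0) e ≤ -((1 - ε) * ‖x - x0‖))

/-- CTN.  Monotone cut-off function.  Proof: `m u = S ((1 + u - η/4)/(η/2)) S ((1 - u - η/4)/(η/2))`,
`S` the `C^1` step `3 t² - 2 t³` on `[0, 1]`, `0` before, `1` after; the two transition zones are
`η/4 ≤ 1 ∓ u ≤ 3η/4`, `m (±1) = 0`, `m 0 = 1`; fundamental theorem. -/
def Stmt_CTN : Prop :=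
  ∀ η : ℝ, 0 < η → η ≤ 1 / 2 → ∃ m : ℝ → ℝ, Cut m ∧ (∀ u, |u| < 1 - η → deriv m u = 0) ∧
    (∀ u, u ≤ 0 → 0 ≤ deriv m u) ∧ (∀ u, 0 ≤ u → deriv m u ≤ 0) ∧
    ∫ u in (0 : ℝ)..1, deriv m u = -1 ∧ ∫ u in (-1 : ℝ)..0, deriv m u = 1

/-- CV3.  Length integral (the block `CV2` with exponent `1` instead of `3/2`).  Proof: `ISO` (volume
preserving), `BS2`, `BS3`: `sq2 (bst v y) = 1/(mu² (E² - y2²))`, `E = |y|`, so the integral is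
`∫ κ(E) E^{-3} (1 - u²)^{-1/2} mu dy`, `u = y2/E`; `SPH`; `mu = s/(1 + v √(1-u²) cos θ)`,
`s = √(1 - v²)`; `POI` with `q = v √(1 - u²)`: `∫ mu dθ = 2 π s/√(1 - q²) ≤ 2 π`; and
`∫_{-1}^1 (1 - u²)^{-1/2} du = π`. -/
def Stmt_CV3 : Prop :=
  ∀ (a b : E3) (κ : ℝ → ℝ) (r1 r2 C : ℝ), ‖a‖ = 1 → ‖b‖ = 1 → a ≠ b → Measurable κ → 0 < r1 →
    (∀ s, 0 ≤ κ s ∧ κ s ≤ C) → (∀ s, κ s ≠ 0 → s ∈ Icc r1 r2) →
    Integrable (fun y => κ ‖y‖ * ((‖y‖ ^ 2)⁻¹ * sq2 a b y ^ (1 / 2 : ℝ))) ∧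
    ∫ y, κ ‖y‖ * ((‖y‖ ^ 2)⁻¹ * sq2 a b y ^ (1 / 2 : ℝ)) ≤ 2 * Real.pi ^ 2 * ∫ s, κ s / s

/-- VSM.  The cut off field.  Proof: continuity: where `m (UU) ≠ 0` locally both `dn` are positive
(`GL3`, `GL1`), near the other points `vs = 0`.  `|y|^{-3} vs = m |y|^{-2} sq2^{1/2}`, `m ≤ 1` and
`CV3`; `|y|^{-3} vs^{3/2} = m^{3/2} wt a b y ≤ wt a b y` and `CV2`. -/
def Stmt_VSM : Prop :=
  ∀ (a b : E3) (m κ : ℝ → ℝ), ‖a‖ = 1 → ‖b‖ = 1 → a ≠ b → Cut m → Continuous κ →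
    (∀ t, 0 ≤ κ t) → HasCompactSupport κ → tsupport κ ⊆ Ioi 0 →
    ContinuousOn (vs a b m) {0}ᶜ ∧ (∀ y, 0 ≤ vs a b m y) ∧
    Continuous (fun y => κ ‖y‖ * ((‖y‖ ^ 3)⁻¹ * vs a b m y)) ∧
    Continuous (fun y => κ ‖y‖ * ((‖y‖ ^ 3)⁻¹ * vs a b m y ^ (3 / 2 : ℝ))) ∧
    ∫ y, κ ‖y‖ * ((‖y‖ ^ 3)⁻¹ * vs a b m y) ≤ 2 * Real.pi ^ 2 * ∫ s, κ s / s ∧
    ∫ y, κ ‖y‖ * ((‖y‖ ^ 3)⁻¹ * vs a b m y ^ (3 / 2 : ℝ)) ≤ 2 * Real.pi * I0 * ∫ s, κ s / s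

/-- LEU.  Upper bound of the flux.  `F X = exp (k dlt c e X)`, `Z = fld a b κ m`.  Proof: `LGI` (support of
`Z` from `FLD`): the left side is `∫_ball cpair(A, Q⁻¹ Z(Y), ∇F(X))`, `∇F = k F ∇(dlt)`; by `BAS` the
integrand is at most `Q⁻¹ |Z(Y)| N k F |X|⁻¹` (`DEL`), i.e. `k wq |Z(Y)| N/|X|`, and
`|Z(Y)| ≤ κ(|Y|) m(U) sq2^{1/2}/(2π|Y|) = κ(|Y|) vs(Y)/(2π|Y|²)` (`FLD`).  Integrability: `INT` with
`g = wq vs(Y)/(|Y|² |X|)` (`WTS`, `VSM`). -/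
def Stmt_LEU : Prop :=
  ∀ (φ ψ : OpenPartialHomeomorph E3 E3) (A : E3 → M3) (x0 : E3) (r0 ρ0 : ℝ),
    BP φ ψ A x0 r0 ρ0 → ∀ (e a b : E3) (c k : ℝ) (κ m : ℝ → ℝ), ‖e‖ = 1 → ‖a‖ = 1 → ‖b‖ = 1 →
    a ≠ b → 0 < c → c < 1 → 0 < k → Kap 0 ρ0 κ → Cut m →
    IntegrableOn (fun x => κ ‖fm φ ψ x - fm φ ψ x0‖ *
      (wq φ ψ x0 (fun X => Real.exp (k * dlt c e X)) x * vs a b m (fm φ ψ x - fm φ ψ x0)
        * opn (cofm (A x)) / (‖fm φ ψ x - fm φ ψ x0‖ ^ 2 * ‖x - x0‖))) (Metric.ball x0 r0) ∧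
    - ∫ y, Real.log (FS φ ψ (fun x => Real.exp (k * dlt c e (x - x0))) (y + fm φ ψ x0))
        * divv (fld a b κ m) y
      ≤ k / (2 * Real.pi) * ∫ x in Metric.ball x0 r0, κ ‖fm φ ψ x - fm φ ψ x0‖ *
        (wq φ ψ x0 (fun X => Real.exp (k * dlt c e X)) x * vs a b m (fm φ ψ x - fm φ ψ x0)
          * opn (cofm (A x)) / (‖fm φ ψ x - fm φ ψ x0‖ ^ 2 * ‖x - x0‖))

/-- LEL.  Lower bound of the flux.  `Q y = FS F' (y + q0)`, `F' x = exp (k dlt c e (x - x0))`.  Proof: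
`divv (fld a b κ m) y = κ(|y|) m'(U) q2/(2π|y|) = g₋ - g₊` with
`g₋ = κ ℓ₋(U) q2/(2π|y|) ≥ 0`, `g₊ = κ ℓ₊(U) q2/(2π|y|) ≥ 0`, `ℓ₋ = m' 1_{u<0}`, `ℓ₊ = - m' 1_{u>0}`
(continuous), `∫ g₋ = ∫ g₊ = T` (`CV1`).  If `g₊(y) ≠ 0` then `U ≥ 1 - η`, some preimage `x` of
`y + q0` has `⟨X, e⟩ ≤ - (1 - ε)|X|`, so `dlt c e X ≥ arccos (-c (1 - ε)) ≥ π - ε1` and
`log Q ≥ k (π - ε1)` (`SHT`: `Q = F' x + F' (sx x)`).  If `g₋(y) ≠ 0` then `U ≤ - 1 + η`, both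
preimages have `dlt ≤ ε1`, so `log Q ≤ log 2 + k ε1`.  `log Q` is continuous on the support
(`FSC`), so everything is integrable. -/
def Stmt_LEL : Prop :=
  ∀ (φ ψ : OpenPartialHomeomorph E3 E3) (A : E3 → M3) (x0 : E3) (r0 ρ0 : ℝ),
    BP φ ψ A x0 r0 ρ0 → ∀ (e a b : E3) (c k ε ε1 s β η : ℝ) (κ m : ℝ → ℝ), ‖e‖ = 1 → ‖a‖ = 1 →
    ‖b‖ = 1 → a ≠ b → 0 < c → c < 1 → 0 < k → 0 < ε → ε < 1 → Real.arccos (c * (1 - ε)) ≤ ε1 →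
    0 < s → 0 < β → s * Real.exp β ≤ ρ0 → 0 < η → η ≤ 1 / 2 →
    (∀ x ∈ ψ.source, ‖fm φ ψ x - fm φ ψ x0‖ ∈ Icc (s * Real.exp (-β)) (s * Real.exp β) →
      UU a b (fm φ ψ x - fm φ ψ x0) ≤ -1 + η → (1 - ε) * ‖x - x0‖ ≤ inner ℝ (x - x0) e) →
    (∀ y : E3, ‖y‖ ∈ Icc (s * Real.exp (-β)) (s * Real.exp β) → 1 - η ≤ UU a b y →
      ∃ x ∈ ψ.source, x ≠ x0 ∧ fm φ ψ x = fm φ ψ x0 + y ∧
        inner ℝ (x - x0) e ≤ -((1 - ε) * ‖x - x0‖)) →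
    Cut m → (∀ u, |u| < 1 - η → deriv m u = 0) → (∀ u, u ≤ 0 → 0 ≤ deriv m u) →
    (∀ u, 0 ≤ u → deriv m u ≤ 0) → ∫ u in (0 : ℝ)..1, deriv m u = -1 →
    ∫ u in (-1 : ℝ)..0, deriv m u = 1 → Kap (s * Real.exp (-β)) (s * Real.exp β) κ →
    (k * (Real.pi - 2 * ε1) - Real.log 2) * ∫ t, κ t / t
      ≤ - ∫ y, Real.log (FS φ ψ (fun x => Real.exp (k * dlt c e (x - x0))) (y + fm φ ψ x0))
        * divv (fld a b κ m) y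

/-- LEV.  The length inequality at a level.  Proof: `s1` from `GEO`.  Given `ε`: `c < 1` and `ε' > 0` with
`arccos (c (1 - ε')) ≤ ε/8` (continuity of `arccos` at `1`), `k` with `log 2/k ≤ ε/4`; `e, a, b` and then
`β, η` from `GEO` (with `ε'`), `m` from `CTN`, `F X = exp (k dlt c e X)` (`DEL`: continuous off `0`).
`LEU` and `LEL`, divided by `k/(2π)`: `2π (π - ε/4 - ε/4) T ≤ ∫_ball ..`, and `T ≥ 0`. -/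
def Stmt_LEV : Prop :=
  ∀ (φ ψ : OpenPartialHomeomorph E3 E3) (A : E3 → M3) (x0 : E3) (r0 ρ0 : ℝ),
    BP φ ψ A x0 r0 ρ0 → ∃ s1 : ℝ, 0 < s1 ∧ s1 ≤ ρ0 ∧ ∀ ε : ℝ, 0 < ε → ∀ s ∈ Ioo 0 s1,
    ∃ (a b : E3) (F : E3 → ℝ) (m : ℝ → ℝ) (β : ℝ), ‖a‖ = 1 ∧ ‖b‖ = 1 ∧ a ≠ b ∧
      ContinuousOn F {0}ᶜ ∧ (∀ X, 0 < F X) ∧ Cut m ∧ 0 < β ∧ s * Real.exp β < s1 ∧
      ∀ κ : ℝ → ℝ, Kap (s * Real.exp (-β)) (s * Real.exp β) κ →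
      IntegrableOn (fun x => κ ‖fm φ ψ x - fm φ ψ x0‖ *
        (wq φ ψ x0 F x * vs a b m (fm φ ψ x - fm φ ψ x0) * opn (cofm (A x))
          / (‖fm φ ψ x - fm φ ψ x0‖ ^ 2 * ‖x - x0‖))) (Metric.ball x0 r0) ∧
      2 * Real.pi * (Real.pi - ε) * ∫ t, κ t / t
        ≤ ∫ x in Metric.ball x0 r0, κ ‖fm φ ψ x - fm φ ψ x0‖ *
          (wq φ ψ x0 F x * vs a b m (fm φ ψ x - fm φ ψ x0) * opn (cofm (A x))
            / (‖fm φ ψ x - fm φ ψ x0‖ ^ 2 * ‖x - x0‖))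

/-! ## Part 5. Integral identities and bounds -/

/-- T3.  The solid angle identity.  Proof: `Φ0 s = ∫_0^s κ(t)/t dt` (`C^1`, `0` for small `s`, equal to `T` for
large `s`); `CHR` with `𝓞 = univ`, `Φ (x, y) = Φ0 |y - q0|` and `W = ball x0 r0`: `u x = Φ0 |Y|` has the
weak gradient `V_j = κ(|Y|) |Y|⁻² ⟨Y, act A e_j⟩`.  There are `0 < ρ1 < ρ2 < r0` with
`{x : |Y| ∈ tsupport κ} ⊆ {ρ1 ≤ |X| ≤ ρ2}`, `u = 0` for `|X| ≤ ρ1`, `u = T` for `ρ2 ≤ |X| < r0`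
(compactness, `SHT`: sphere; connectedness is not needed: `|Y| ≤ max supp κ` defines a compact
subset of the open ball).  `η` smooth, `1` on `[ρ1, ρ2]`, support in `(0, r0)`: the test functions
`ζ_j x = η(|X|) X_j/|X|³` are smooth, `Σ_j ∂_j ζ_j = η'(|X|)/|X|²`, so
`∫ κ(|Y|) ⟨Y, A X⟩/(|Y|² |X|³) = Σ_j ∫ V_j ζ_j = - ∫ u η'(|X|)/|X|² = - T 4π ∫_{ρ2}^∞ η' = 4π T`
(`RINT`). -/
def Stmt_T3 : Prop :=
  ∀ (φ ψ : OpenPartialHomeomorph E3 E3) (A : E3 → M3) (x0 : E3) (r0 ρ0 : ℝ),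
    BP φ ψ A x0 r0 ρ0 → ∀ κ : ℝ → ℝ, Kap 0 ρ0 κ →
    ∫ x in Metric.ball x0 r0, κ ‖fm φ ψ x - fm φ ψ x0‖ *
      (inner ℝ (fm φ ψ x - fm φ ψ x0) (act (A x) (x - x0))
        / (‖x - x0‖ ^ 3 * ‖fm φ ψ x - fm φ ψ x0‖ ^ 2)) = 4 * Real.pi * ∫ t, κ t / t

/-- T2I.  The flux identity.  Proof: `LPI` with the field `y ↦ κ(|y|) |y|⁻³ y` (`C^1`, divergence
`κ'(|y|)/|y|²`, `RADF`), `h X = log |X|`, `gradv h X = X/|X|²`, `K' = tsupport κ`: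
`cpair (A, κ |Y|⁻³ Y, X/|X|²) = κ fx/|X|`. -/
def Stmt_T2I : Prop :=
  ∀ (φ ψ : OpenPartialHomeomorph E3 E3) (A : E3 → M3) (x0 : E3) (r0 ρ0 : ℝ),
    BP φ ψ A x0 r0 ρ0 → ∀ κ : ℝ → ℝ, Kap 0 ρ0 κ →
    ∫ x in Metric.ball x0 r0, κ ‖fm φ ψ x - fm φ ψ x0‖ *
      (fx (A x) (x - x0) (fm φ ψ x - fm φ ψ x0) / ‖x - x0‖)
      = - ∫ x in Metric.ball x0 r0, Real.log ‖x - x0‖ *
        ((A x).det * (deriv κ ‖fm φ ψ x - fm φ ψ x0‖ / ‖fm φ ψ x - fm φ ψ x0‖ ^ 2))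

/-- GRW.  Growth at a branch point (compare the block `E2` in `Work/MP_680515_fl`).  Proof: `p = x0`;
`H, R'` from `LDA` with `M = 1`; arc `t ↦ ψ.symm (ψ p + t • e3)`, `t ∈ [0, a]`, in `bset`; its points have
all distances `≤ d1` from `p` (intermediate value theorem).  `t0 < ρ0` small: `|f x - f p| ≤ t0`
implies `|x - p| < min R' d1` (`TPA`, last part).  `θ = e^{-2}`, `P` from `PKG` with radius `H` and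
distance `θ/H²`, `Λ = 4^(P+1)`.  Suppose `|x - p| > Λ |y - p|` and `|f y - f p| ≥ θ |f x - f p|`; then
`x ≠ p`, `d = |f x - f p| > 0`, `r = |y - p| > 0`.  Points `q_j ∈ bset`, `|q_j - p| = 4^j r`, `j = 0..P`.  For
`j < k`: `|q_k - q_j| ≥ |p - q_j|`, so `LDA` at `q_j`: `|f p - f q_j| ≤ H |f q_k - f q_j|`; `LDA` at `p`:
`|f y - f p| ≤ H |f q_j - f p|` and `|f q_j - f p| ≤ H d`.  So the `P + 1` points `(f q_j - f p)/d` are in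
the ball of radius `H` with mutual distances `≥ θ/H²`: contradiction.  (If `x = p` the claim is
trivial.) -/
def Stmt_GRW : Prop :=
  ∀ (φ ψ : OpenPartialHomeomorph E3 E3) (A : E3 → M3) (x0 : E3) (r0 ρ0 : ℝ),
    BP φ ψ A x0 r0 ρ0 → ∃ Λ t0 : ℝ, 1 ≤ Λ ∧ 0 < t0 ∧ t0 < ρ0 ∧
    ∀ x ∈ ψ.source, ∀ y ∈ ψ.source, ‖fm φ ψ x - fm φ ψ x0‖ ≤ t0 →
      ‖fm φ ψ y - fm φ ψ x0‖ ≤ t0 →
      Real.exp (-2) * ‖fm φ ψ x - fm φ ψ x0‖ ≤ ‖fm φ ψ y - fm φ ψ x0‖ →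
      ‖x - x0‖ ≤ Λ * ‖y - x0‖

/-- T1B.  Proof: the integrand is at most `|X|⁻³` on the ring `|p1 - x0|/Λ ≤ |X| ≤ Λ |p2 - x0|` and `0`
elsewhere; the ring is not empty (`SHT`: there is a point `x` at the level `t1`), so
`ρ1 = |p1 - x0|/Λ ≤ ρ2 = Λ |p2 - x0|`; `∫_{ring} |X|⁻³ = 4π log(ρ2/ρ1)` (`RINT` for slightly larger
continuous functions, or `SPH`). -/
def Stmt_T1B : Prop :=
  ∀ (φ ψ : OpenPartialHomeomorph E3 E3) (A : E3 → M3) (x0 : E3) (r0 ρ0 : ℝ),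
    BP φ ψ A x0 r0 ρ0 → ∀ (κ : ℝ → ℝ) (t1 t2 Λ : ℝ) (p1 p2 : E3), Continuous κ →
    (∀ s, 0 ≤ κ s ∧ κ s ≤ 1) → 0 < t1 → t1 < t2 → t2 < ρ0 → tsupport κ ⊆ Icc t1 t2 → 1 ≤ Λ →
    p1 ≠ x0 → p2 ≠ x0 → (∀ x ∈ ψ.source, t1 ≤ ‖fm φ ψ x - fm φ ψ x0‖ →
      ‖fm φ ψ x - fm φ ψ x0‖ ≤ t2 → ‖p1 - x0‖ ≤ Λ * ‖x - x0‖ ∧ ‖x - x0‖ ≤ Λ * ‖p2 - x0‖) →
    ∫ x in Metric.ball x0 r0, κ ‖fm φ ψ x - fm φ ψ x0‖ * (‖x - x0‖ ^ 3)⁻¹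
      ≤ 4 * Real.pi * (Real.log (‖p2 - x0‖ / ‖p1 - x0‖) + 2 * Real.log Λ)

/-- T2B.  Proof: `T2I`; `κ' = k1 - k2`, `k1 = κ'` on `s ≤ s1`, `k2 = - κ'` on `s ≥ s1`, both continuous
(`κ'(s1) = 0`) and `≥ 0`, `∫ k1 = κ(s1) = 1 = ∫ k2`.  Almost everywhere (`J ≥ 0`, `Good`)
`- log|X| J (k1 - k2)(|Y|)/|Y|² ≥ - (log|p1 - x0| + log Λ) J k1(|Y|)/|Y|²
+ (log|p2 - x0| - log Λ) J k2(|Y|)/|Y|²`.  `WDEG` with `h = 1` (`FS 1 = 2`) and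
`g y = k_i(|y - q0|)/|y - q0|²`: `∫_ball J k_i(|Y|)/|Y|² = 2 ∫ g = 8π ∫ k_i = 8π` (`RINT`). -/
def Stmt_T2B : Prop :=
  ∀ (φ ψ : OpenPartialHomeomorph E3 E3) (A : E3 → M3) (x0 : E3) (r0 ρ0 : ℝ),
    BP φ ψ A x0 r0 ρ0 → ∀ (κ : ℝ → ℝ) (s1 Λ : ℝ) (p1 p2 : E3), Kap 0 ρ0 κ → κ s1 = 1 →
    0 < s1 → s1 < ρ0 → (∀ s, s ≤ s1 → 0 ≤ deriv κ s) → (∀ s, s1 ≤ s → deriv κ s ≤ 0) → 1 ≤ Λ →
    p1 ≠ x0 → p2 ≠ x0 →
    (∀ x ∈ ψ.source, ‖fm φ ψ x - fm φ ψ x0‖ ≤ s1 → deriv κ ‖fm φ ψ x - fm φ ψ x0‖ ≠ 0 →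
      ‖x - x0‖ ≤ Λ * ‖p1 - x0‖) →
    (∀ x ∈ ψ.source, s1 ≤ ‖fm φ ψ x - fm φ ψ x0‖ → deriv κ ‖fm φ ψ x - fm φ ψ x0‖ ≠ 0 →
      ‖p2 - x0‖ ≤ Λ * ‖x - x0‖) →
    8 * Real.pi * (Real.log (‖p2 - x0‖ / ‖p1 - x0‖) - 2 * Real.log Λ)
      ≤ ∫ x in Metric.ball x0 r0, κ ‖fm φ ψ x - fm φ ψ x0‖ *
        (fx (A x) (x - x0) (fm φ ψ x - fm φ ψ x0) / ‖x - x0‖)

/-- TRZ.  A trapezoid.  Proof: `κ s = S (log (s/t1)) S (log (t2/s))` for `s > 0`, `0` for `s ≤ 0`, `S` the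
`C^1` step `3 u² - 2 u³` on `[0, 1]`; `κ = 1` on `[e t1, t2/e]`; the integral is at least
`log (t2/t1) - 2`. -/
def Stmt_TRZ : Prop :=
  ∀ t1 t2 : ℝ, 0 < t1 → Real.exp 2 * t1 < t2 → ∃ κ : ℝ → ℝ, ContDiff ℝ 1 κ ∧
    (∀ s, 0 ≤ κ s ∧ κ s ≤ 1) ∧ HasCompactSupport κ ∧ tsupport κ ⊆ Icc t1 t2 ∧
    κ (Real.exp 1 * t1) = 1 ∧ (∀ s, s ≤ Real.exp 1 * t1 → 0 ≤ deriv κ s) ∧
    (∀ s, Real.exp 1 * t1 ≤ s → deriv κ s ≤ 0) ∧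
    (∀ s, Real.exp 1 * t1 ≤ s → deriv κ s ≠ 0 → Real.exp (-1) * t2 ≤ s) ∧
    Real.log (t2 / t1) - 2 ≤ ∫ s, κ s / s

/-- BND.  Proof: `Λ, t0` from `GRW`, `κ` from `TRZ`, `s1 = e t1`; `p1, p2` preimages of points at the
levels `t1`, `t2` (`SHT`), different from `x0`.  The hypotheses of `T1B` and `T2B` follow from `GRW`
(`e^{-2} t1 ≤ |Y|`, `e^{-2} |Y| ≤ t2`; `e^{-2} |Y| ≤ t1` if `|Y| ≤ e t1`; `e^{-2} t2 ≤ |Y|` if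
`κ'(|Y|) ≠ 0`, `|Y| ≥ e t1`).  So the difference is at most
`4π (L + 2 log Λ) - 4π (L - 2 log Λ) = 16 π log Λ = C`, `L = log (|p2 - x0|/|p1 - x0|)`. -/
def Stmt_BND : Prop :=
  ∀ (φ ψ : OpenPartialHomeomorph E3 E3) (A : E3 → M3) (x0 : E3) (r0 ρ0 : ℝ),
    BP φ ψ A x0 r0 ρ0 → ∃ C t0 : ℝ, 0 < t0 ∧ t0 < ρ0 ∧ ∀ t1 t2 : ℝ, 0 < t1 →
    Real.exp 2 * t1 < t2 → t2 ≤ t0 → ∃ κ : ℝ → ℝ, ContDiff ℝ 1 κ ∧ (∀ s, 0 ≤ κ s) ∧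
      HasCompactSupport κ ∧ tsupport κ ⊆ Icc t1 t2 ∧ Real.log (t2 / t1) - 2 ≤ ∫ s, κ s / s ∧
      (∫ x in Metric.ball x0 r0, κ ‖fm φ ψ x - fm φ ψ x0‖ * (‖x - x0‖ ^ 3)⁻¹)
        - 1 / 2 * ∫ x in Metric.ball x0 r0, κ ‖fm φ ψ x - fm φ ψ x0‖ *
          (fx (A x) (x - x0) (fm φ ψ x - fm φ ψ x0) / ‖x - x0‖) ≤ C

/-! ## Part 6. Assembly -/

/-- LVI.  The cost integral.  `w = wq x`, `v = vs(Y)`, `λ = 81/400`.  Proof: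
`(1 - w) C0 + w Ch (λ v) = C0 + w (c0 - C0 + c1 λ v + c2 (λ v)^{3/2})`, `C0 = 307/1000`.  `WDEG` with `h = 1`,
`g y = κ |y'|⁻³` (`y' = y - q0`) and with `h = wq`, `g y = κ |y'|⁻³ (c0 - C0 + c1 λ v + c2 λ^{3/2} v^{3/2})`
(continuous by `VSM`): `FS 1 = 2`, `FS wq = 1` (`SHT`, `WTS`), so the integral is
`(C0 + c0) ∫ κ |y|⁻³ + c1 λ ∫ κ |y|⁻³ v + c2 λ^{3/2} ∫ κ |y|⁻³ v^{3/2}`; `∫ κ |y|⁻³ = 4π T` (`RINT`), `VSM`;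
`λ^{3/2} = (9/20)³ = 729/8000`. -/
def Stmt_LVI : Prop :=
  ∀ (φ ψ : OpenPartialHomeomorph E3 E3) (A : E3 → M3) (x0 : E3) (r0 ρ0 : ℝ),
    BP φ ψ A x0 r0 ρ0 → ∀ (a b : E3) (F : E3 → ℝ) (κ m : ℝ → ℝ), ‖a‖ = 1 → ‖b‖ = 1 → a ≠ b →
    ContinuousOn F {0}ᶜ → (∀ X, 0 < F X) → Cut m → Kap 0 ρ0 κ →
    IntegrableOn (fun x => κ ‖fm φ ψ x - fm φ ψ x0‖ *
      ((A x).det * (‖fm φ ψ x - fm φ ψ x0‖ ^ 3)⁻¹ * ((1 - wq φ ψ x0 F x) * (307 / 1000)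
        + wq φ ψ x0 F x * Ch (81 / 400 * vs a b m (fm φ ψ x - fm φ ψ x0)))))
      (Metric.ball x0 r0) ∧
    ∫ x in Metric.ball x0 r0, κ ‖fm φ ψ x - fm φ ψ x0‖ *
      ((A x).det * (‖fm φ ψ x - fm φ ψ x0‖ ^ 3)⁻¹ * ((1 - wq φ ψ x0 F x) * (307 / 1000)
        + wq φ ψ x0 F x * Ch (81 / 400 * vs a b m (fm φ ψ x - fm φ ψ x0))))
      ≤ (4 * Real.pi * (307 / 1000 + 321 / 1000) + 2 * Real.pi ^ 2 * (481 / 1000) * (81 / 400)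
        + 2 * Real.pi * I0 * (458 / 1000) * (729 / 8000)) * ∫ t, κ t / t

/-- LV2.  The inequality near one level.  Proof: `LEV` with `ε = 1/1000`.  Integrate `κ(|Y|)` times `PWI`
(`q = 81/400 vs(Y)`, `w = wq x`; a.e. `x ∈ UD`; `WTS`, `VSM`) over `ball x0 r0` (outside `UD` all terms
are `0`): `0 ≤ I1 - I2/2 - 0.574 I3 - (81/400) I4 + I5`, with `I3 = 4π T` (`T3`; integrability of the
first three terms: `INT` with `H = (|X|³|Y|²)⁻¹ Y`, `b = X` etc.), `I4 ≥ 2π(π - ε) T`, `I5` from `LVI`.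
So `I1 - I2/2 ≥ 2π (1.148 + 0.2025 (π - ε) - 1.256 - 0.481 · 0.2025 π - I0 · 0.458 · 0.091125) T`
`≥ 2π · 0.0015 T ≥ T/200` (`NUM`; `3.1415 < π < 3.1416`, `T ≥ 0`). -/
def Stmt_LV2 : Prop :=
  ∀ (φ ψ : OpenPartialHomeomorph E3 E3) (A : E3 → M3) (x0 : E3) (r0 ρ0 : ℝ),
    BP φ ψ A x0 r0 ρ0 → ∃ s1 : ℝ, 0 < s1 ∧ s1 ≤ ρ0 ∧ ∀ s ∈ Ioo 0 s1, ∃ β : ℝ, 0 < β ∧
      s * Real.exp β < s1 ∧ ∀ κ : ℝ → ℝ, Kap (s * Real.exp (-β)) (s * Real.exp β) κ →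
      1 / 200 * ∫ t, κ t / t
        ≤ (∫ x in Metric.ball x0 r0, κ ‖fm φ ψ x - fm φ ψ x0‖ * (‖x - x0‖ ^ 3)⁻¹)
          - 1 / 2 * ∫ x in Metric.ball x0 r0, κ ‖fm φ ψ x - fm φ ψ x0‖ *
            (fx (A x) (x - x0) (fm φ ψ x - fm φ ψ x0) / ‖x - x0‖)

/-- KEY.  The same for all `κ`.  Proof: `tsupport κ` is compact in `(0, s1)`; finitely many intervals
`(s_j e^{-β_j}, s_j e^{β_j})` of `LV2` cover it; a smooth partition of unity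
(`SmoothPartitionOfUnity.exists_isSubordinate` on `ℝ`, or piecewise by hand) gives `κ = Σ κ_j` with
`Kap .. κ_j`; both sides are additive (`INT`: integrability; `κ_j(t)/t` is continuous with compact
support). -/
def Stmt_KEY : Prop :=
  ∀ (φ ψ : OpenPartialHomeomorph E3 E3) (A : E3 → M3) (x0 : E3) (r0 ρ0 : ℝ),
    BP φ ψ A x0 r0 ρ0 → ∃ s1 : ℝ, 0 < s1 ∧ s1 ≤ ρ0 ∧ ∀ κ : ℝ → ℝ, Kap 0 s1 κ →
      1 / 200 * ∫ t, κ t / t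
        ≤ (∫ x in Metric.ball x0 r0, κ ‖fm φ ψ x - fm φ ψ x0‖ * (‖x - x0‖ ^ 3)⁻¹)
          - 1 / 2 * ∫ x in Metric.ball x0 r0, κ ‖fm φ ψ x - fm φ ψ x0‖ *
            (fx (A x) (x - x0) (fm φ ψ x - fm φ ψ x0) / ‖x - x0‖)

/-- FNL.  The end.  Proof: suppose `K ≤ 283/200`; then `InnerDist (283/200)` and `InnerDist 2`, `LIN4`
gives `Good` a.e., so `WM φ ψ A`; `BPE` at a point of `bset`; `KEY` (`s1`) and `BND` (`C`, `t0`) with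
`t2 = min t0 (s1/2)` and `t1 = e^{-n} t2`, `n ≥ 3`: `(n - 2)/200 ≤ C` for all `n`, impossible. -/
def Stmt_FNL : Prop := Stmt_FinalSQ

end Pool.SQ
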