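import Pool.Agent.Work.MP_680515_fl.B_I0X
import Pool.Agent.Work.MP_680515_fl.B_WOP
import Pool.Agent.Work.MP_680515_fl.B_WCN
import Pool.Agent.Work.MP_680515_fl.B_TPA
import Pool.Agent.Work.MP_680515_fl.B_FOP
import Pool.Agent.Work.MP_680515_an.B.MOLL
import Pool.Agent.Work.MP_680515_an.B.PIO1
import Pool.Agent.Work.MP_680515_an.B.BAS
import Pool.Agent.Work.MP_680515_an.B.PIOI
import Pool.Agent.Work.MP_680515_an.B.PIOW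
import Pool.Agent.Work.MP_680515_fl.B_DEGF
import Pool.Agent.Work.MP_680515_fl.B_SINT
import Pool.Agent.Work.MP_680515_fl.B_INTG
import Pool.Agent.Work.MP_680515_fl.B_OSC
import Pool.Agent.Work.MP_680515_fl.B_POS
import Pool.Agent.Work.MP_680515_an.B.CYLM
import Pool.Agent.Work.MP_680515_fl.B_SPH
import Pool.Agent.Work.MP_680515_fl.B_ROS
import Pool.Agent.Work.MP_680515_fl.B_MOR
import Pool.Agent.Work.MP_680515_fl.B_OSL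
import Pool.Agent.Work.MP_680515_fl.B_LEB
import Pool.Agent.Work.MP_680515_fl.B_PMN
import Pool.Agent.Work.MP_680515_fl.B_DAE
import Pool.Agent.Work.MP_680515_fl.B_LPI
import Pool.Agent.Work.MP_680515_fl.B_GL1
import Pool.Agent.Work.MP_680515_fl.B_GL3
import Pool.Agent.Work.MP_680515_fl.B_GL2
import Pool.Agent.Work.MP_680515_fl.B_FLD
import Pool.Agent.Work.MP_680515_fl.B_BS1
import Pool.Agent.Work.MP_680515_fl.B_BS2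
import Pool.Agent.Work.MP_680515_fl.B_BS3
import Pool.Agent.Work.MP_680515_fl.B_ISO
import Pool.Agent.Work.MP_680515_fl.B_CV1
import Pool.Agent.Work.MP_680515_fl.B_POI
import Pool.Agent.Work.MP_680515_fl.B_CV2
import Pool.Agent.Work.MP_680515_fl.B_CHR
import Pool.Agent.Work.MP_680515_fl.B_ARE
import Pool.Agent.Work.MP_680515_fl.B_CPI
import Pool.Agent.Work.MP_680515_an.B.RINT
import Pool.Agent.Work.MP_680515_fl.B_RGC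
import Pool.Agent.Work.MP_680515_fl.B_LOE
import Pool.Agent.Work.MP_680515_fl.B_LDA
import Pool.Agent.Work.MP_680515_fl.B_PKG
import Pool.Agent.Work.MP_680515_an.B.RADF
import Pool.Agent.Work.MP_680515_an.B.LIN4
import Pool.Agent.Work.MP_680515_an.B.WIN1

/-!
# MP_680515_an, THEOREM SQ: the library statements used, without hypotheses
-/

namespace Pool.SQ

theorem l_I0X : Pool.Flat.Stmt_I0X :=
  Pool.Flat.p_I0X

theorem l_WOP : Pool.Flat.Stmt_WOP :=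
  Pool.Flat.p_WOP

theorem l_WCN : Pool.Flat.Stmt_WCN :=
  Pool.Flat.p_WCN l_WOP

theorem l_TPA : Pool.Flat.Stmt_TPA :=
  Pool.Flat.p_TPA l_WOP l_WCN

theorem l_FOP : Pool.Flat.Stmt_FOP :=
  Pool.Flat.p_FOP l_WOP

theorem m_MOLL : Pool.Mart.Stmt_MOLL :=
  Pool.Mart.stmt_MOLL

theorem m_PIO1 : Pool.Mart.Stmt_PIO1 :=
  Pool.Mart.stmt_PIO1

theorem m_BAS : Pool.Mart.Stmt_BAS :=
  Pool.Mart.stmt_BAS

theorem m_PIOI : Pool.Mart.Stmt_PIOI :=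
  Pool.Mart.stmt_PIOI m_BAS

theorem m_PIOW : Pool.Mart.Stmt_PIOW :=
  Pool.Mart.stmt_PIOW m_MOLL m_PIO1 m_PIOI m_BAS

theorem l_DEGF : Pool.Flat.Stmt_DEGF :=
  Pool.Flat.p_DEGF m_PIOW m_PIOI

theorem l_SINT : Pool.Flat.Stmt_SINT :=
  Pool.Flat.p_SINT l_DEGF

theorem l_INTG : Pool.Flat.Stmt_INTG :=
  Pool.Flat.p_INTG l_DEGF l_SINT m_MOLL m_PIOI

theorem l_OSC : Pool.Flat.Stmt_OSC :=
  Pool.Flat.p_OSC

theorem l_POS : Pool.Flat.Stmt_POS :=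
  Pool.Flat.p_POS l_INTG l_OSC

theorem m_CYLM : Pool.Mart.Stmt_CYLM :=
  Pool.Mart.stmt_CYLM

theorem l_SPH : Pool.Flat.Stmt_SPH :=
  Pool.Flat.p_SPH m_CYLM

theorem l_ROS : Pool.Flat.Stmt_ROS :=
  Pool.Flat.p_ROS l_SPH

theorem l_MOR : Pool.Flat.Stmt_MOR :=
  Pool.Flat.p_MOR l_ROS l_I0X

theorem l_OSL : Pool.Flat.Stmt_OSL :=
  Pool.Flat.p_OSL l_MOR l_SPH m_MOLL

theorem l_LEB : Pool.Flat.Stmt_LEB :=
  Pool.Flat.p_LEB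

theorem l_PMN : Pool.Flat.Stmt_PMN :=
  Pool.Flat.p_PMN m_MOLL

theorem l_DAE : Pool.Flat.Stmt_DAE :=
  Pool.Flat.p_DAE l_OSL l_LEB l_PMN

theorem l_LPI : Pool.Flat.Stmt_LPI :=
  Pool.Flat.p_LPI m_PIOW m_PIOI

theorem l_GL1 : Pool.Flat.Stmt_GL1 :=
  Pool.Flat.p_GL1

theorem l_GL3 : Pool.Flat.Stmt_GL3 :=
  Pool.Flat.p_GL3

theorem l_GL2 : Pool.Flat.Stmt_GL2 :=
  Pool.Flat.p_GL2 l_GL1

theorem l_FLD : Pool.Flat.Stmt_FLD :=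
  Pool.Flat.p_FLD l_GL1 l_GL2 l_GL3

theorem l_BS1 : Pool.Flat.Stmt_BS1 :=
  Pool.Flat.p_BS1

theorem l_BS2 : Pool.Flat.Stmt_BS2 :=
  Pool.Flat.p_BS2 l_BS1

theorem l_BS3 : Pool.Flat.Stmt_BS3 :=
  Pool.Flat.p_BS3 l_BS1

theorem l_ISO : Pool.Flat.Stmt_ISO :=
  Pool.Flat.p_ISO

theorem l_CV1 : Pool.Flat.Stmt_CV1 :=
  Pool.Flat.p_CV1 l_SPH l_BS1 l_BS2 l_BS3 l_ISO

theorem l_POI : Pool.Flat.Stmt_POI :=
  Pool.Flat.p_POI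

theorem l_CV2 : Pool.Flat.Stmt_CV2 :=
  Pool.Flat.p_CV2 l_SPH l_POI l_I0X l_BS1 l_BS2 l_BS3 l_ISO

theorem l_CHR : Pool.Flat.Stmt_CHR :=
  Pool.Flat.p_CHR m_MOLL

theorem l_ARE : Pool.Flat.Stmt_ARE :=
  Pool.Flat.p_ARE l_DAE l_WOP l_FOP

theorem l_CPI : Pool.Flat.Stmt_CPI :=
  Pool.Flat.p_CPI l_OSL l_ARE l_FOP

theorem m_RINT : Pool.Mart.Stmt_RINT :=
  Pool.Mart.stmt_RINT

theorem l_RGC : Pool.Flat.Stmt_RGC :=
  Pool.Flat.p_RGC l_CPI m_RINT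

theorem l_LOE : Pool.Flat.Stmt_LOE :=
  Pool.Flat.p_LOE l_RGC

theorem l_LDA : Pool.Flat.Stmt_LDA :=
  Pool.Flat.p_LDA l_LOE l_TPA l_FOP

theorem l_PKG : Pool.Flat.Stmt_PKG :=
  Pool.Flat.p_PKG

theorem m_RADF : Pool.Mart.Stmt_RADF :=
  Pool.Mart.stmt_RADF

theorem m_LIN4 : Pool.Mart.Stmt_LIN4 :=
  Pool.Mart.stmt_LIN4 m_BAS

theorem m_WIN1 : Pool.Mart.Stmt_WIN1 :=
  Pool.Mart.stmt_WIN1

end Pool.SQ
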